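import Mathlib

set_option autoImplicit false

namespace Pool.Agent.H877.TP
open MvPolynomial

/-- polynomials in three variables -/
abbrev P3 := MvPolynomial (Fin 3) ℂ
/-- vectors -/
abbrev V3 := Fin 3 → ℂ
/-- forms of degree `e` -/
noncomputable abbrev RR (e : ℕ) : Submodule ℂ P3 := homogeneousSubmodule (Fin 3) ℂ e

/-- the dimension of the space of forms -/
def bb (e : ℕ) : ℕ := (e + 2).choose 2

instance instFinRR (e : ℕ) : FiniteDimensional ℂ (RR e) :=
  Module.Finite.iff_fg.2 (homogeneousSubmodule_fg _ _ e)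

lemma finrank_RR (e : ℕ) : Module.finrank ℂ (RR e) = bb e := by
  classical
  let s : Finset (Fin 3 →₀ ℕ) := Finset.finsuppAntidiag Finset.univ e
  have hs : ∀ d : Fin 3 →₀ ℕ, d ∈ s ↔ d.degree = e := by
    intro d
    simp [s, Finset.mem_finsuppAntidiag, Finsupp.degree_eq_sum]
  have hli : LinearIndependent ℂ (fun d : s => (monomial (d : Fin 3 →₀ ℕ) (1 : ℂ) : P3)) := by
    have := (basisMonomials (Fin 3) ℂ).linearIndependent.comp (fun d : s => (d : Fin 3 →₀ ℕ))
      Subtype.val_injective
    simpa [Function.comp_def] using this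
  have hspan : Submodule.span ℂ (Set.range (fun d : s => (monomial (d : Fin 3 →₀ ℕ) (1 : ℂ) : P3))) = RR e := by
    apply le_antisymm
    · rw [Submodule.span_le]
      rintro _ ⟨d, rfl⟩
      exact isHomogeneous_monomial _ ((hs _).1 d.2)
    · intro p hp
      rw [p.as_sum]
      refine Submodule.sum_mem _ fun d hd => ?_
      have hd' : d ∈ s := by
        rw [hs]
        by_contra h
        exact (mem_support_iff.1 hd) (IsHomogeneous.coeff_eq_zero hp h)
      have : (monomial d (coeff d p) : P3) = (coeff d p) • monomial d (1 : ℂ) := by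
        rw [smul_monomial]; simp
      rw [this]
      exact Submodule.smul_mem _ _ (Submodule.subset_span ⟨⟨d, hd'⟩, rfl⟩)
  rw [← hspan, finrank_span_eq_card hli, Fintype.card_coe]
  have := Finset.card_finsuppAntidiag_nat_eq_choose (s := (Finset.univ : Finset (Fin 3))) e
  rw [this]
  simp only [Finset.card_univ, Fintype.card_fin, bb]
  have h1 : 3 + e - 1 = e + 2 := by omega
  rw [h1, ← Nat.choose_symm_add]

lemma bb_two (e : ℕ) : 2 * bb e = (e + 2) * (e + 1) := by
  unfold bb
  rw [Nat.choose_two_right]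
  have := Nat.even_mul_pred_self (e + 2)
  rw [Nat.mul_div_cancel' this.two_dvd]
  rfl


lemma comp_mul {σ : Type*} {K : Type*} [CommRing K] {F Q : MvPolynomial σ K} {m : ℕ} (hF : F.IsHomogeneous m) (e : ℕ) :
    homogeneousComponent (m + e) (F * Q) = F * homogeneousComponent e Q := by
  conv_lhs => rw [← sum_homogeneousComponent Q, Finset.mul_sum, map_sum]
  have h : ∀ i ∈ Finset.range (Q.totalDegree + 1),
      homogeneousComponent (m + e) (F * homogeneousComponent i Q) =
        if i = e then F * homogeneousComponent e Q else 0 := by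
    intro i _
    rw [homogeneousComponent_of_mem (hF.mul (homogeneousComponent_isHomogeneous i Q))]
    by_cases h : i = e
    · subst h; simp
    · rw [if_neg h, if_neg (by omega)]
  rw [Finset.sum_congr rfl h, Finset.sum_ite_eq']
  split_ifs with h1
  · rfl
  · rw [homogeneousComponent_eq_zero, mul_zero]
    simpa using h1

lemma comp_mul_lt {σ : Type*} {K : Type*} [CommRing K] {F Q : MvPolynomial σ K} {m : ℕ} (hF : F.IsHomogeneous m) {e : ℕ} (he : e < m) :
    homogeneousComponent e (F * Q) = 0 := by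
  conv_lhs => rw [← sum_homogeneousComponent Q, Finset.mul_sum, map_sum]
  refine Finset.sum_eq_zero fun i _ => ?_
  rw [homogeneousComponent_of_mem (hF.mul (homogeneousComponent_isHomogeneous i Q)), if_neg (by omega)]

/-- scaling substitution -/
noncomputable def scl : P3 →ₐ[ℂ] Polynomial P3 :=
  aeval (fun i => Polynomial.monomial 1 (X i))

lemma scl_hom {G : P3} {d : ℕ} (hG : G.IsHomogeneous d) : scl G = Polynomial.monomial d G := by
  have : scl G = Polynomial.X ^ d * Polynomial.C G := by
    unfold scl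
    rw [aeval_def, eval₂_eq']
    have h : ∀ v ∈ G.support, algebraMap ℂ (Polynomial P3) (coeff v G) *
        ∏ i, (Polynomial.monomial 1 (X i : P3)) ^ (v i) =
        Polynomial.X ^ d * Polynomial.C (monomial v (coeff v G)) := by
      intro v hv
      have hd : v.degree = d := by
        by_contra h
        exact (mem_support_iff.1 hv) (hG.coeff_eq_zero h)
      have h1 : ∀ i, (Polynomial.monomial 1 (X i : P3)) ^ (v i) =
          Polynomial.X ^ (v i) * Polynomial.C (X i ^ v i) := by
        intro i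
        rw [← Polynomial.C_mul_X_pow_eq_monomial, pow_one, mul_pow, mul_comm, Polynomial.C_pow]
      rw [Finset.prod_congr rfl (fun i _ => h1 i), Finset.prod_mul_distrib, Finset.prod_pow_eq_pow_sum]
      rw [← Finsupp.degree_eq_sum, hd, ← map_prod]
      rw [monomial_eq, Finsupp.prod_fintype _ _ (by simp), map_mul]
      have : algebraMap ℂ (Polynomial P3) (coeff v G) = Polynomial.C (C (coeff v G)) := rfl
      rw [this]; ring
    rw [Finset.sum_congr rfl h, ← Finset.mul_sum, ← map_sum, ← G.as_sum]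
  rw [this, Polynomial.X_pow_mul_C, Polynomial.C_mul_X_pow_eq_monomial]

lemma scl_coeff (G : P3) (d : ℕ) : (scl G).coeff d = homogeneousComponent d G := by
  conv_lhs => rw [← sum_homogeneousComponent G, map_sum, Polynomial.finsetSum_coeff]
  have h : ∀ i ∈ Finset.range (G.totalDegree + 1),
      (scl (homogeneousComponent i G)).coeff d = if i = d then homogeneousComponent d G else 0 := by
    intro i _
    rw [scl_hom (homogeneousComponent_isHomogeneous i G), Polynomial.coeff_monomial]
    by_cases h : i = d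
    · subst h; simp
    · simp [h]
  rw [Finset.sum_congr rfl h, Finset.sum_ite_eq']
  split_ifs with h1
  · rfl
  · rw [homogeneousComponent_eq_zero]
    simpa using h1

lemma scl_ne {G : P3} (h : G ≠ 0) : scl G ≠ 0 := by
  intro h0
  apply h
  rw [← sum_homogeneousComponent G]
  refine Finset.sum_eq_zero fun i _ => ?_
  rw [← scl_coeff, h0, Polynomial.coeff_zero]

/-- factors of forms are forms -/
lemma hom_of_mul {P Q : P3} {m : ℕ} (h : (P * Q).IsHomogeneous m) (h0 : P * Q ≠ 0) :
    ∃ p, P.IsHomogeneous p := by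
  have hP : P ≠ 0 := left_ne_zero_of_mul h0
  have hQ : Q ≠ 0 := right_ne_zero_of_mul h0
  have h1 : scl P * scl Q = Polynomial.monomial m (P * Q) := by
    rw [← map_mul, scl_hom h]
  have h2 : (scl P).natDegree + (scl Q).natDegree = m := by
    rw [← Polynomial.natDegree_mul (scl_ne hP) (scl_ne hQ), h1, Polynomial.natDegree_monomial, if_neg h0]
  have h3 : (scl P).natTrailingDegree + (scl Q).natTrailingDegree = m := by
    rw [← Polynomial.natTrailingDegree_mul (scl_ne hP) (scl_ne hQ), h1,
      Polynomial.natTrailingDegree_monomial h0]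
  have h4 := Polynomial.natTrailingDegree_le_natDegree (scl P)
  have h5 := Polynomial.natTrailingDegree_le_natDegree (scl Q)
  refine ⟨(scl P).natDegree, ?_⟩
  have h6 : P = homogeneousComponent (scl P).natDegree P := by
    conv_lhs => rw [← sum_homogeneousComponent P]
    rw [Finset.sum_eq_single (scl P).natDegree]
    · intro b _ hb
      rw [← scl_coeff]
      rcases lt_or_gt_of_ne hb with h | h
      · exact Polynomial.coeff_eq_zero_of_lt_natTrailingDegree (by omega)
      · exact Polynomial.coeff_eq_zero_of_natDegree_lt h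
    · intro hn
      rw [homogeneousComponent_eq_zero]
      simpa using hn
  have h7 := homogeneousComponent_isHomogeneous (scl P).natDegree P
  rwa [← h6] at h7


lemma pow_mem_mono {I : Ideal P3} {x : P3} {a b : ℕ} (h : x ^ a ∈ I) (hab : a ≤ b) : x ^ b ∈ I := by
  obtain ⟨c, rfl⟩ := Nat.exists_eq_add_of_le hab
  rw [pow_add]
  exact Ideal.mul_mem_right _ _ h

lemma pow_mem_of_zero {I : Ideal P3} (h : ∀ x : V3, (∀ G ∈ I, eval x G = 0) → x = 0) :
    ∃ r : ℕ, ∀ i, (X i : P3) ^ r ∈ I := by
  have h1 : ∀ i, (X i : P3) ∈ I.radical := by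
    intro i
    rw [← vanishingIdeal_zeroLocus_eq_radical (K := ℂ) I, mem_vanishingIdeal_iff]
    intro x hx
    have hx0 : x = 0 := h x (fun G hG => by
      have := mem_zeroLocus_iff.1 hx G hG
      have h2 : aeval x G = eval x G := by rw [← coe_aeval_eq_eval]; rfl
      rwa [h2] at this)
    simp [hx0]
  choose r hr using h1
  refine ⟨∑ i, r i, fun i => ?_⟩
  have : r i ≤ ∑ i, r i := Finset.single_le_sum (fun _ _ => Nat.zero_le _) (Finset.mem_univ i)
  exact pow_mem_mono (hr i) this

lemma mem_of_pow {I : Ideal P3} {r : ℕ} (h : ∀ i, (X i : P3) ^ r ∈ I) {e : ℕ} (he : 3 * r ≤ e)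
    {G : P3} (hG : G.IsHomogeneous e) : G ∈ I := by
  rcases Nat.eq_zero_or_pos r with h0 | h0
  · subst h0
    have : (1 : P3) ∈ I := by simpa using h 0
    rw [(Ideal.eq_top_iff_one I).2 this]; trivial
  rw [G.as_sum]
  refine Ideal.sum_mem _ fun d hd => ?_
  have hdeg : d.degree = e := by
    by_contra hne
    exact (mem_support_iff.1 hd) (hG.coeff_eq_zero hne)
  have h2 : ∃ i, r ≤ d i := by
    by_contra hc
    push Not at hc
    rw [Finsupp.degree_eq_sum, Fin.sum_univ_three] at hdeg
    have := hc 0; have := hc 1; have := hc 2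
    omega
  obtain ⟨i, hi⟩ := h2
  rw [monomial_eq, Finsupp.prod_fintype _ _ (by simp)]
  refine Ideal.mul_mem_left _ _ ?_
  rw [← Finset.mul_prod_erase _ _ (Finset.mem_univ i)]
  refine Ideal.mul_mem_right _ _ ?_
  exact pow_mem_mono (h i) hi

/-- multiples of `P` by forms of degree `k` -/
noncomputable def mm (P : P3) (k : ℕ) : Submodule ℂ P3 := (RR k).map (LinearMap.mulLeft ℂ P)

instance (P : P3) (k : ℕ) : FiniteDimensional ℂ (mm P k) := by
  unfold mm; infer_instance

lemma mem_mm {P : P3} {k : ℕ} {G : P3} : G ∈ mm P k ↔ ∃ A, A.IsHomogeneous k ∧ P * A = G := by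
  unfold mm
  simp [Submodule.mem_map]

lemma finrank_mm {P : P3} (hP : P ≠ 0) (k : ℕ) : Module.finrank ℂ (mm P k) = bb k := by
  unfold mm
  have hinj : Function.Injective (LinearMap.mulLeft ℂ P) := by
    intro a b h
    exact mul_left_cancel₀ hP h
  rw [← (Submodule.equivMapOfInjective _ hinj (RR k)).finrank_eq, finrank_RR]

lemma bb_pair {e p q : ℕ} (h : p + q ≤ e) : bb (e - p) + bb (e - q) + p * q = bb e + bb (e - p - q) := by
  obtain ⟨t, rfl⟩ := Nat.exists_eq_add_of_le h
  have h1 : p + q + t - p = q + t := by omega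
  have h2 : p + q + t - q = p + t := by omega
  have h3 : q + t - q = t := by omega
  rw [h1, h2, h3]
  have e1 := bb_two (q + t)
  have e2 := bb_two (p + t)
  have e3 := bb_two (p + q + t)
  have e4 := bb_two t
  nlinarith

lemma pair_le {P Q : P3} {p q e : ℕ} (hP : P.IsHomogeneous p) (hQ : Q.IsHomogeneous q)
    (hP0 : P ≠ 0) (hQ0 : Q ≠ 0) (h : p + q ≤ e) :
    Module.finrank ℂ ↥(mm P (e - p) ⊔ mm Q (e - q)) + p * q ≤ bb e := by
  have h1 := Submodule.finrank_sup_add_finrank_inf_eq (mm P (e - p)) (mm Q (e - q))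
  rw [finrank_mm hP0, finrank_mm hQ0] at h1
  have h2 : mm (P * Q) (e - p - q) ≤ mm P (e - p) ⊓ mm Q (e - q) := by
    intro G hG
    obtain ⟨A, hA, rfl⟩ := mem_mm.1 hG
    refine ⟨mem_mm.2 ⟨Q * A, ?_, by ring⟩, mem_mm.2 ⟨P * A, ?_, by ring⟩⟩
    · have := hQ.mul hA
      rwa [show q + (e - p - q) = e - p by omega] at this
    · have := hP.mul hA
      rwa [show p + (e - p - q) = e - q by omega] at this
  have h3 := Submodule.finrank_mono h2
  rw [finrank_mm (mul_ne_zero hP0 hQ0)] at h3
  have h4 := bb_pair h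
  omega

lemma pair_eq {P Q : P3} {p q e : ℕ} (hP : P.IsHomogeneous p) (hQ : Q.IsHomogeneous q)
    (hPr : Prime P) (hPQ : ¬ P ∣ Q) (h : p + q ≤ e) :
    Module.finrank ℂ ↥(mm P (e - p) ⊔ mm Q (e - q)) + p * q = bb e := by
  have hQ0 : Q ≠ 0 := fun h => hPQ (h ▸ dvd_zero P)
  have hP0 := hPr.ne_zero
  have h1 := Submodule.finrank_sup_add_finrank_inf_eq (mm P (e - p)) (mm Q (e - q))
  rw [finrank_mm hP0, finrank_mm hQ0] at h1
  have h2 : mm P (e - p) ⊓ mm Q (e - q) = mm (P * Q) (e - p - q) := by
    apply le_antisymm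
    · rintro G ⟨h1, h2⟩
      obtain ⟨A, hA, rfl⟩ := mem_mm.1 h1
      obtain ⟨B, hB, hBA⟩ := mem_mm.1 h2
      have h3 : P ∣ Q * B := ⟨A, hBA⟩
      obtain ⟨C, rfl⟩ := (hPr.dvd_or_dvd h3).resolve_left hPQ
      refine mem_mm.2 ⟨homogeneousComponent (e - p - q) C, homogeneousComponent_isHomogeneous _ _, ?_⟩
      have h4 : P * A = (P * Q) * C := by rw [← hBA]; ring
      have h5 := congrArg (homogeneousComponent (p + (e - p))) h4
      rw [homogeneousComponent_eq_self (hP.mul hA)] at h5
      rw [h5, ← comp_mul (hP.mul hQ), show p + q + (e - p - q) = p + (e - p) by omega]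
    · intro G hG
      obtain ⟨A, hA, rfl⟩ := mem_mm.1 hG
      refine ⟨mem_mm.2 ⟨Q * A, ?_, by ring⟩, mem_mm.2 ⟨P * A, ?_, by ring⟩⟩
      · have := hQ.mul hA
        rwa [show q + (e - p - q) = e - p by omega] at this
      · have := hP.mul hA
        rwa [show p + (e - p - q) = e - q by omega] at this
  rw [h2, finrank_mm (mul_ne_zero hP0 hQ0)] at h1
  have h4 := bb_pair h
  omega

/-- an element of the ideal `(P, Q)` that is a form lies in the graded piece -/
lemma mem_pair {P Q A B G : P3} {p q e : ℕ} (hP : P.IsHomogeneous p) (hQ : Q.IsHomogeneous q)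
    (hpe : p ≤ e) (hqe : q ≤ e) (hG : G.IsHomogeneous e) (h : G = P * A + Q * B) :
    G = P * homogeneousComponent (e - p) A + Q * homogeneousComponent (e - q) B := by
  have h1 := congrArg (homogeneousComponent e) h
  rw [homogeneousComponent_eq_self hG, map_add] at h1
  rw [← comp_mul hP, ← comp_mul hQ, show p + (e - p) = e by omega, show q + (e - q) = e by omega]
  exact h1

lemma exists_common_zero {P Q : P3} {p q : ℕ} (hP : P.IsHomogeneous p) (hQ : Q.IsHomogeneous q)
    (hP0 : P ≠ 0) (hQ0 : Q ≠ 0) (hp : 1 ≤ p) (hq : 1 ≤ q) :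
    ∃ x : V3, x ≠ 0 ∧ eval x P = 0 ∧ eval x Q = 0 := by
  by_contra hc
  push Not at hc
  obtain ⟨r, hr⟩ := pow_mem_of_zero (I := Ideal.span {P, Q}) (by
    intro x hx
    by_contra hx0
    exact hc x hx0 (hx P (Ideal.subset_span (by simp))) (hx Q (Ideal.subset_span (by simp))))
  let e := p + q + 3 * r
  have h1 : RR e ≤ mm P (e - p) ⊔ mm Q (e - q) := by
    intro G hG
    have hG' : G.IsHomogeneous e := hG
    have := mem_of_pow hr (e := e) (by omega) hG'
    obtain ⟨A, B, hAB⟩ := Ideal.mem_span_pair.1 this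
    rw [mem_pair (A := A) (B := B) hP hQ (by omega) (by omega) hG' (by rw [← hAB]; ring)]
    exact Submodule.add_mem_sup (mem_mm.2 ⟨_, homogeneousComponent_isHomogeneous _ _, rfl⟩)
      (mem_mm.2 ⟨_, homogeneousComponent_isHomogeneous _ _, rfl⟩)
  have h2 := Submodule.finrank_mono h1
  rw [finrank_RR] at h2
  have h3 := pair_le hP hQ hP0 hQ0 (show p + q ≤ e by omega)
  have : 1 ≤ p * q := Nat.mul_pos hp hq
  omega

/-- nonsingular forms -/
def Nonsing (F : P3) : Prop :=
  ∀ x : V3, x ≠ 0 → eval x F = 0 → ∃ i, eval x (pderiv i F) ≠ 0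

lemma Nonsing.ne_zero {F : P3} (h : Nonsing F) : F ≠ 0 := by
  rintro rfl
  obtain ⟨i, hi⟩ := h (fun _ => 1) (by intro h0; have := congrFun h0 0; simp at this) (by simp)
  simp at hi

lemma isUnit_of_hom_zero {P : P3} (h : P.IsHomogeneous 0) (h0 : P ≠ 0) : IsUnit P := by
  have h1 : P.totalDegree = 0 := (totalDegree_zero_iff_isHomogeneous _).2 h
  rw [totalDegree_eq_zero_iff_eq_C] at h1
  rw [h1]
  rw [h1] at h0
  refine (isUnit_iff_ne_zero.2 ?_).map C
  intro h2
  rw [h2] at h0
  simp at h0

lemma Nonsing.prime {F : P3} {m : ℕ} (hF : F.IsHomogeneous m) (hm : 1 ≤ m) (h : Nonsing F) :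
    Prime F := by
  rw [← irreducible_iff_prime]
  refine ⟨?_, ?_⟩
  · intro hu
    obtain ⟨G, hG⟩ := hu.exists_right_inv
    have h1 := congrArg (eval (0 : V3)) hG
    have h2 : eval (0 : V3) F = 0 := by
      rw [eval_zero]
      exact hF.coeff_eq_zero (d := 0) (by simp; omega)
    rw [map_mul, h2] at h1
    simp at h1
  · intro P Q hPQ
    have hF0 := h.ne_zero
    rw [hPQ] at hF hF0
    obtain ⟨p, hp⟩ := hom_of_mul hF hF0
    obtain ⟨q, hq⟩ := hom_of_mul (P := Q) (Q := P) (by rwa [mul_comm]) (by rwa [mul_comm])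
    by_contra hc
    push Not at hc
    have hP0 := left_ne_zero_of_mul hF0
    have hQ0 := right_ne_zero_of_mul hF0
    have hp1 : 1 ≤ p := by
      by_contra hlt
      exact hc.1 (isUnit_of_hom_zero (by rwa [show p = 0 by omega] at hp) hP0)
    have hq1 : 1 ≤ q := by
      by_contra hlt
      exact hc.2 (isUnit_of_hom_zero (by rwa [show q = 0 by omega] at hq) hQ0)
    obtain ⟨x, hx0, hxP, hxQ⟩ := exists_common_zero hp hq hP0 hQ0 hp1 hq1
    obtain ⟨i, hi⟩ := h x hx0 (by rw [hPQ, map_mul, hxP, zero_mul])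
    apply hi
    rw [hPQ, Derivation.leibniz]
    simp [hxP, hxQ]

end Pool.Agent.H877.TP
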