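import Pool.Agent.H877.TP.Noe

set_option autoImplicit false

namespace Pool.Agent.H877.TP
open MvPolynomial Filter Topology

/-- the differential of a polynomial -/
noncomputable def dE (G : P3) (p : V3) : V3 →L[ℂ] ℂ :=
  ∑ i, (eval p (pderiv i G)) • (ContinuousLinearMap.proj i : V3 →L[ℂ] ℂ)

lemma dE_apply (G : P3) (p v : V3) : dE G p v = ∑ i, eval p (pderiv i G) * v i := by
  simp [dE]

lemma hasFDerivAt_eval (G : P3) (p : V3) :
    HasFDerivAt (fun x : V3 => eval x G) (dE G p) p := by
  induction G using MvPolynomial.induction_on with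
  | C a =>
    have h : dE (C a) p = 0 := by
      ext v; rw [dE_apply]; simp
    rw [h]
    simp only [eval_C]
    exact hasFDerivAt_const a p
  | add P Q hP hQ =>
    have h : dE (P + Q) p = dE P p + dE Q p := by
      ext v; simp only [dE_apply, map_add, add_mul, Finset.sum_add_distrib, ContinuousLinearMap.add_apply]
    rw [h]
    have := hP.add hQ
    refine this.congr_of_eventuallyEq (Filter.Eventually.of_forall fun x => ?_)
    simp
  | mul_X P i hP =>
    have h1 : HasFDerivAt (fun x : V3 => x i) (ContinuousLinearMap.proj i : V3 →L[ℂ] ℂ) p :=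
      (ContinuousLinearMap.proj i : V3 →L[ℂ] ℂ).hasFDerivAt
    have h2 := hP.mul h1
    have h : dE (P * X i) p = eval p P • (ContinuousLinearMap.proj i : V3 →L[ℂ] ℂ) + p i • dE P p := by
      ext v
      simp only [dE_apply, ContinuousLinearMap.add_apply, ContinuousLinearMap.smul_apply,
        ContinuousLinearMap.proj_apply, smul_eq_mul, Derivation.leibniz, map_add, map_mul, eval_X,
        pderiv_X, Finset.mul_sum, add_mul, Finset.sum_add_distrib]
      congr 1
      · rw [Finset.sum_eq_single i]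
        · simp
        · intro b _ hb; simp [Pi.single_apply, hb.symm]
        · intro h; exact absurd (Finset.mem_univ i) h
      · refine Finset.sum_congr rfl fun j _ => by ring
    rw [h]
    refine h2.congr_of_eventuallyEq (Filter.Eventually.of_forall fun x => ?_)
    simp

/-- a chart of the cone around `p`, normalised by a linear function -/
structure Chart (F : P3) (p : V3) where
  γ : ℂ → V3
  lam : V3 →L[ℂ] ℂ
  ell : V3 →L[ℂ] ℂ
  r : ℝ
  r_pos : 0 < r
  base : γ 0 = p
  ana : ∀ t ∈ Metric.ball (0 : ℂ) r, AnalyticAt ℂ γ t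
  zer : ∀ t ∈ Metric.ball (0 : ℂ) r, eval (γ t) F = 0
  hlam : ∀ t ∈ Metric.ball (0 : ℂ) r, lam (γ t) = 1
  hell : ∀ t ∈ Metric.ball (0 : ℂ) r, ell (γ t) = t
  cov : ∀ᶠ q in 𝓝 p, eval q F = 0 → lam q ≠ 0 ∧ ell q / lam q ∈ Metric.ball (0 : ℂ) r ∧
    q = lam q • γ (ell q / lam q)

lemma third' (i k : Fin 3) (h : k ≠ i) : ∃ j, j ≠ i ∧ j ≠ k ∧ ∀ l, l = i ∨ l = j ∨ l = k := by
  fin_cases i <;> fin_cases k
  · exact absurd rfl h
  · exact ⟨2, by decide, by decide, by decide⟩
  · exact ⟨1, by decide, by decide, by decide⟩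
  · exact ⟨2, by decide, by decide, by decide⟩
  · exact absurd rfl h
  · exact ⟨0, by decide, by decide, by decide⟩
  · exact ⟨1, by decide, by decide, by decide⟩
  · exact ⟨0, by decide, by decide, by decide⟩
  · exact absurd rfl h

theorem exists_chart_full {F : P3} {m : ℕ} (hF : F.IsHomogeneous m) {p : V3} (hp : p ≠ 0)
    (hFp : eval p F = 0) (hns : ∃ i, eval p (pderiv i F) ≠ 0) : ∃ (c : Chart F p) (i j : Fin 3),
    (∀ x, c.lam x = (p i)⁻¹ * x i) ∧ (∀ x, c.ell x = p i * x j - p j * x i) := by
  obtain ⟨i, hi⟩ := exists_ne_of_ne_zero hp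
  -- Euler
  have heul : ∑ j, p j * eval p (pderiv j F) = 0 := by
    have := congrArg (eval p) hF.sum_X_mul_pderiv
    rw [map_sum] at this
    simp only [map_mul, eval_X, map_nsmul, hFp, smul_zero] at this
    exact this
  obtain ⟨k, hki, hk⟩ : ∃ k, k ≠ i ∧ eval p (pderiv k F) ≠ 0 := by
    by_contra hc
    push Not at hc
    rw [Finset.sum_eq_single i (fun b _ hb => by rw [hc b hb, mul_zero])
      (fun h => absurd (Finset.mem_univ i) h)] at heul
    have h0 := (mul_eq_zero.1 heul).resolve_left hi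
    obtain ⟨l, hl⟩ := hns
    by_cases hli : l = i
    · subst hli; exact hl h0
    · exact hl (hc l hli)
  obtain ⟨j, hji, hjk, hall⟩ := third' i k hki
  let lam : V3 →L[ℂ] ℂ := (p i)⁻¹ • (ContinuousLinearMap.proj i : V3 →L[ℂ] ℂ)
  let ell : V3 →L[ℂ] ℂ := (p i) • (ContinuousLinearMap.proj j : V3 →L[ℂ] ℂ) -
    (p j) • (ContinuousLinearMap.proj i : V3 →L[ℂ] ℂ)
  have hlam : ∀ x, lam x = (p i)⁻¹ * x i := fun x => rfl
  have hell : ∀ x, ell x = p i * x j - p j * x i := fun x => rfl
  let dF : V3 →L[ℂ] ℂ := dE F p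
  have hdF : ∀ x, dF x = ∑ l, eval p (pderiv l F) * x l := fun x => dE_apply F p x
  let Φ : V3 → V3 := fun x => ![lam x, ell x, eval x F]
  let L : V3 →L[ℂ] V3 := ContinuousLinearMap.pi ![lam, ell, dF]
  have hLinj : Function.Injective L := by
    rw [injective_iff_map_eq_zero]
    intro v hv
    have h0 : lam v = 0 := congrFun hv 0
    have h1 : ell v = 0 := congrFun hv 1
    have h2 : dF v = 0 := congrFun hv 2
    have vi : v i = 0 := by
      rw [hlam] at h0
      exact (mul_eq_zero.1 h0).resolve_left (inv_ne_zero hi)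
    have vj : v j = 0 := by
      rw [hell, vi, mul_zero, sub_zero] at h1
      exact (mul_eq_zero.1 h1).resolve_left hi
    have vk : v k = 0 := by
      rw [hdF, Finset.sum_eq_single k] at h2
      · exact (mul_eq_zero.1 h2).resolve_left hk
      · intro b _ hb
        rcases hall b with h | h | h
        · rw [h, vi, mul_zero]
        · rw [h, vj, mul_zero]
        · exact absurd h hb
      · intro h; exact absurd (Finset.mem_univ k) h
    ext l
    rcases hall l with h | h | h <;> rw [h]
    · exact vi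
    · exact vj
    · exact vk
  let e : V3 ≃L[ℂ] V3 := (LinearEquiv.ofInjectiveEndo (L : V3 →ₗ[ℂ] V3) hLinj).toContinuousLinearEquiv
  have he : (e : V3 →L[ℂ] V3) = L := by
    ext x; rfl
  have hΦd : HasFDerivAt Φ (e : V3 →L[ℂ] V3) p := by
    rw [he, hasFDerivAt_pi']
    intro l
    fin_cases l
    · exact lam.hasFDerivAt
    · exact ell.hasFDerivAt
    · exact hasFDerivAt_eval F p
  have hΦa : ∀ x, AnalyticAt ℂ Φ x := by
    intro x
    rw [analyticAt_pi_iff]
    intro l
    fin_cases l
    · exact lam.analyticAt x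
    · exact ell.analyticAt x
    · exact AnalyticOnNhd.eval_mvPolynomial F x (Set.mem_univ x)
  have hcd : ContDiffAt ℂ ⊤ Φ p := (hΦa p).contDiffAt
  let g := hcd.localInverse hΦd (by simp)
  have hga : AnalyticAt ℂ g (Φ p) := by
    have := hcd.to_localInverse hΦd (by simp)
    exact this.analyticAt
  have hstr := hcd.hasStrictFDerivAt' hΦd (by simp)
  have hri : ∀ᶠ y in 𝓝 (Φ p), Φ (g y) = y := hstr.eventually_right_inverse
  have hle : ∀ᶠ x in 𝓝 p, g (Φ x) = x := hstr.eventually_left_inverse
  have hΦp : Φ p = ![1, 0, 0] := by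
    ext l
    fin_cases l
    · change lam p = 1
      rw [hlam, inv_mul_cancel₀ hi]
    · change ell p = 0
      rw [hell]; ring
    · exact hFp
  let ι : ℂ → V3 := fun t => ![1, t, 0]
  have hι : Continuous ι := by
    refine continuous_pi fun l => ?_
    fin_cases l
    · exact continuous_const
    · exact continuous_id
    · exact continuous_const
  have hιa : ∀ t, AnalyticAt ℂ ι t := by
    intro t
    rw [analyticAt_pi_iff]
    intro l
    fin_cases l
    · exact analyticAt_const
    · exact analyticAt_id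
    · exact analyticAt_const
  have hι0 : ι 0 = Φ p := by rw [hΦp]
  have ht0 : Tendsto ι (𝓝 0) (𝓝 (Φ p)) := by rw [← hι0]; exact hι.tendsto 0
  have hev : ∀ᶠ t in 𝓝 (0 : ℂ), AnalyticAt ℂ g (ι t) ∧ Φ (g (ι t)) = ι t :=
    ht0.eventually (hga.eventually_analyticAt.and hri)
  obtain ⟨r, hr, hball⟩ := Metric.eventually_nhds_iff_ball.1 hev
  have hlamp : lam p ≠ 0 := by
    have := congrFun hΦp 0
    change lam p = 1 at this
    rw [this]; exact one_ne_zero
  have hq : Tendsto (fun q : V3 => (lam q)⁻¹ • q) (𝓝 p) (𝓝 p) := by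
    have h1 : ContinuousAt (fun q : V3 => (lam q)⁻¹ • q) p :=
      (lam.continuous.continuousAt.inv₀ hlamp).smul continuousAt_id
    have h2 : (lam p)⁻¹ • p = p := by
      have := congrFun hΦp 0
      change lam p = 1 at this
      rw [this]; simp
    have h3 := h1.tendsto
    rwa [h2] at h3
  have hs : Tendsto (fun q : V3 => ell q / lam q) (𝓝 p) (𝓝 0) := by
    have h1 : ContinuousAt (fun q : V3 => ell q / lam q) p :=
      ell.continuous.continuousAt.div lam.continuous.continuousAt hlamp
    have h2 : ell p / lam p = 0 := by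
      have := congrFun hΦp 1
      change ell p = 0 at this
      rw [this]; simp
    have h3 := h1.tendsto
    rwa [h2] at h3
  refine ⟨⟨fun t => g (ι t), lam, ell, r, hr, ?_, ?_, ?_, ?_, ?_, ?_⟩, i, j, hlam, hell⟩
  · change g (ι 0) = p
    rw [hι0]
    exact hle.self_of_nhds
  · intro t ht
    exact (hball t ht).1.comp (hιa t)
  · intro t ht
    exact congrFun (hball t ht).2 2
  · intro t ht
    exact congrFun (hball t ht).2 0
  · intro t ht
    exact congrFun (hball t ht).2 1
  · filter_upwards [hq.eventually hle, hs.eventually (Metric.ball_mem_nhds _ hr),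
      lam.continuous.continuousAt.eventually_ne hlamp] with q h1 h2 h3 h4
    refine ⟨h3, h2, ?_⟩
    have h5 : Φ ((lam q)⁻¹ • q) = ι (ell q / lam q) := by
      ext l
      fin_cases l
      · change lam ((lam q)⁻¹ • q) = 1
        rw [map_smul, smul_eq_mul, inv_mul_cancel₀ h3]
      · change ell ((lam q)⁻¹ • q) = ell q / lam q
        rw [map_smul, smul_eq_mul]; field_simp
      · change eval ((lam q)⁻¹ • q) F = 0
        rw [eval_smul_vec _ _ hF, h4, mul_zero]
    rw [h5] at h1
    rw [h1, smul_smul, mul_inv_cancel₀ h3, one_smul]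

theorem exists_chart {F : P3} {m : ℕ} (hF : F.IsHomogeneous m) {p : V3} (hp : p ≠ 0)
    (hFp : eval p F = 0) (hns : ∃ i, eval p (pderiv i F) ≠ 0) : Nonempty (Chart F p) :=
  ⟨(exists_chart_full hF hp hFp hns).choose⟩

end Pool.Agent.H877.TP
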