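import Pool.Agent.H877.TP.Ord

set_option autoImplicit false

namespace Pool.Agent.H877.TP
open MvPolynomial Filter Topology

/-- effective divisors -/
abbrev DD := Multiset PP

namespace Curve
variable {C : Curve}

lemma le_ord_add (P : PP) (G H : P3) : min (C.ord P G) (C.ord P H) ≤ C.ord P (G + H) := by
  by_cases hP : C.Pt P
  · rw [ord_def hP, ord_def hP, ord_def hP]
    unfold po
    have := le_analyticOrderAt_add (f := fun t => eval ((C.chart hP).γ t) G)
      (g := fun t => eval ((C.chart hP).γ t) H) (z₀ := (0 : ℂ))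
    refine this.trans (le_of_eq ?_)
    congr 1
    ext t; simp
  · rw [ord_of_not_pt hP]; exact le_top.trans (ord_of_not_pt hP _).ge

open Classical in
variable (C) in
/-- forms of degree `e` vanishing on the divisor `D` -/
noncomputable def W (e : ℕ) (D : DD) : Submodule ℂ P3 where
  carrier := {G | G.IsHomogeneous e ∧ ∀ P, (D.count P : ℕ∞) ≤ C.ord P G}
  add_mem' := by
    rintro G H ⟨h1, h2⟩ ⟨h3, h4⟩
    exact ⟨h1.add h3, fun P => (le_min (h2 P) (h4 P)).trans (le_ord_add P G H)⟩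
  zero_mem' := ⟨isHomogeneous_zero _ _ _, fun P => by rw [ord_of_dvd P (dvd_zero _)]; exact le_top⟩
  smul_mem' := by
    rintro c G ⟨h1, h2⟩
    refine ⟨(homogeneousSubmodule (Fin 3) ℂ e).smul_mem c h1, fun P => ?_⟩
    rw [MvPolynomial.smul_eq_C_mul, ord_mul]
    exact (h2 P).trans le_add_self

open Classical in
lemma mem_W {e : ℕ} {D : DD} {G : P3} :
    G ∈ C.W e D ↔ G.IsHomogeneous e ∧ ∀ P, (D.count P : ℕ∞) ≤ C.ord P G := Iff.rfl

lemma W_le (e : ℕ) (D : DD) : C.W e D ≤ RR e := fun _ h => h.1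

instance instFinW (e : ℕ) (D : DD) : FiniteDimensional ℂ (C.W e D) :=
  Submodule.finiteDimensional_of_le (W_le e D)

lemma W_zero (e : ℕ) : C.W e 0 = RR e := by
  classical
  apply le_antisymm (W_le e 0)
  intro G hG
  exact ⟨hG, fun P => by simp⟩

lemma W_anti {e : ℕ} {D D' : DD} (h : D ≤ D') : C.W e D' ≤ C.W e D := by
  classical
  intro G hG
  exact ⟨hG.1, fun P => le_trans (by exact_mod_cast Multiset.count_le_of_le P h) (hG.2 P)⟩

lemma mm_le_W {e : ℕ} (he : C.deg ≤ e) (D : DD) : mm C.F (e - C.deg) ≤ C.W e D := by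
  intro G hG
  obtain ⟨A, hA, rfl⟩ := mem_mm.1 hG
  refine ⟨?_, fun P => ?_⟩
  · have := C.hom.mul hA
    rwa [show C.deg + (e - C.deg) = e by omega] at this
  · rw [ord_of_dvd P (dvd_mul_right _ _)]; exact le_top

/-- one condition costs at most one dimension -/
lemma finrank_W_cons (e : ℕ) (D : DD) (P : PP) :
    Module.finrank ℂ (C.W e D) ≤ Module.finrank ℂ (C.W e (P ::ₘ D)) + 1 := by
  classical
  by_cases hcase : ∀ G ∈ C.W e D, ((D.count P + 1 : ℕ) : ℕ∞) ≤ C.ord P G
  · have : C.W e D ≤ C.W e (P ::ₘ D) := by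
      intro G hG
      refine ⟨hG.1, fun Q => ?_⟩
      by_cases hQ : Q = P
      · subst hQ; rw [Multiset.count_cons_self]; exact hcase G hG
      · rw [Multiset.count_cons_of_ne hQ]; exact hG.2 Q
    exact (Submodule.finrank_mono this).trans (Nat.le_succ _)
  · push Not at hcase
    obtain ⟨G₀, hG₀, hlt⟩ := hcase
    have hP : C.Pt P := by
      by_contra h
      rw [ord_of_not_pt h] at hlt
      exact absurd hlt (by simp)
    set n := D.count P with hn
    have hG₀n : C.ord P G₀ = n := by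
      refine le_antisymm ?_ (hG₀.2 P)
      have : C.ord P G₀ < (n : ℕ∞) + 1 := by exact_mod_cast hlt
      exact ENat.lt_add_one_iff (by simp) |>.1 this
    have hγ := param_chart_rep hP
    have key : C.W e D ≤ C.W e (P ::ₘ D) ⊔ Submodule.span ℂ {G₀} := by
      intro G hG
      have h1 : (n : ℕ∞) ≤ C.ord P G := hG.2 P
      rw [ord_def hP] at h1 hG₀n
      obtain ⟨g, hg, hgeq⟩ := (natCast_le_analyticOrderAt (an_eval hγ.an G)).1 h1
      obtain ⟨g₀, hg₀, hg₀0, hg₀eq⟩ := (AnalyticAt.analyticOrderAt_eq_natCast (an_eval hγ.an G₀)).1 hG₀n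
      set c : ℂ := g 0 / g₀ 0 with hc
      have h2 : G - c • G₀ ∈ C.W e (P ::ₘ D) := by
        have h3 : G - c • G₀ ∈ C.W e D := Submodule.sub_mem _ hG (Submodule.smul_mem _ _ hG₀)
        refine ⟨h3.1, fun Q => ?_⟩
        by_cases hQ : Q = P
        · subst hQ
          rw [Multiset.count_cons_self, ord_def hP]
          have h4 : (fun t => eval ((C.chart hP).γ t) (G - c • G₀)) =ᶠ[𝓝 0]
              (fun t => (t - 0) ^ n) * (fun t => g t - c * g₀ t) := by
            filter_upwards [hgeq, hg₀eq] with t h5 h6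
            simp only [map_sub, smul_eval, Pi.mul_apply, smul_eq_mul] at h5 h6 ⊢
            rw [h5, h6]; ring
          unfold po
          rw [analyticOrderAt_congr h4, analyticOrderAt_mul (by fun_prop) (by fun_prop)]
          have h5 : (n : ℕ∞) ≤ analyticOrderAt (fun t : ℂ => (t - 0) ^ n) 0 := by
            rw [natCast_le_analyticOrderAt (by fun_prop)]
            exact ⟨fun _ => 1, analyticAt_const, Filter.Eventually.of_forall fun t => by simp⟩
          have h6 : (1 : ℕ∞) ≤ analyticOrderAt (fun t => g t - c * g₀ t) 0 := by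
            rw [ENat.one_le_iff_ne_zero, AnalyticAt.analyticOrderAt_ne_zero (by fun_prop)]
            simp only [hc]
            field_simp
            ring
          push_cast
          exact add_le_add h5 h6
        · rw [Multiset.count_cons_of_ne hQ]; exact h3.2 Q
      have h3 : G = (G - c • G₀) + c • G₀ := by abel
      rw [h3]
      exact Submodule.add_mem_sup h2 (Submodule.smul_mem _ _ (Submodule.mem_span_singleton_self _))
    have h1 := Submodule.finrank_mono key
    have h2 := Submodule.finrank_add_le_finrank_add_finrank (C.W e (P ::ₘ D)) (Submodule.span ℂ {G₀})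
    have h3 : Module.finrank ℂ (Submodule.span ℂ {G₀}) ≤ 1 := by
      have := finrank_span_le_card (R := ℂ) ({G₀} : Set P3)
      simpa using this
    omega

lemma finrank_W_add (e : ℕ) (D D' : DD) :
    Module.finrank ℂ (C.W e D) ≤ Module.finrank ℂ (C.W e (D' + D)) + Multiset.card D' := by
  induction D' using Multiset.induction_on with
  | empty => rw [zero_add]; exact Nat.le_add_right _ _
  | cons P D' ih =>
    have := finrank_W_cons (C := C) e (D' + D) P
    rw [Multiset.cons_add, Multiset.card_cons]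
    omega

lemma bb_le_W (e : ℕ) (D : DD) : bb e ≤ Module.finrank ℂ (C.W e D) + Multiset.card D := by
  have := finrank_W_add (C := C) e 0 D
  rwa [W_zero, finrank_RR, add_zero] at this

lemma exists_lin_self {P : PP} (hP : C.Pt P) : ∃ L : P3, L.IsHomogeneous 1 ∧ C.ord P L = 1 := by
  obtain ⟨m, hm⟩ : ∃ m, C.deg = 1 + m := ⟨C.deg - 1, by have := C.pos; omega⟩
  have hF : C.F.IsHomogeneous (1 + m) := hm ▸ C.hom
  obtain ⟨D, L, -, hL, -, hL1, -⟩ := local_div hF hP.1 hP.2 (C.ns _ hP.1 hP.2)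
  refine ⟨L, hL, ?_⟩
  rw [ord_def hP]
  exact hL1 _ _ (param_chart_rep hP) (C.chart hP).base

lemma exists_lin_sep {P Q : PP} (h : Q ≠ P) (hP : C.Pt P) (hQ : C.Pt Q) :
    ∃ L : P3, L.IsHomogeneous 1 ∧ C.ord P L = 0 ∧ C.ord Q L ≠ 0 := by
  obtain ⟨i, hi⟩ := exists_ne_of_ne_zero hQ.1
  have hex : ∃ j, eval P.rep (ww Q.rep i j) ≠ 0 := by
    by_contra hc
    push Not at hc
    apply h
    rw [← P.mk_rep, ← Q.mk_rep, Projectivization.mk_eq_mk_iff']
    have hPi : P.rep i ≠ 0 := by
      intro h0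
      apply hP.1
      ext j
      have := hc j
      rw [eval_ww, h0, mul_zero, sub_zero] at this
      exact (mul_eq_zero.1 this).resolve_left hi
    refine ⟨Q.rep i / P.rep i, ?_⟩
    ext j
    have := hc j
    rw [eval_ww] at this
    simp only [Pi.smul_apply, smul_eq_mul]
    field_simp
    linear_combination this
  obtain ⟨j, hj⟩ := hex
  refine ⟨ww Q.rep i j, ww_hom _ _ _, (ord_pos_iff hP _).2 hj, ?_⟩
  intro h0
  rw [ord_pos_iff hQ, eval_ww] at h0
  exact h0 (by ring)

lemma exists_lin_ne {P : PP} (hP : C.Pt P) : ∃ L : P3, L.IsHomogeneous 1 ∧ C.ord P L = 0 := by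
  obtain ⟨i, hi⟩ := exists_ne_of_ne_zero hP.1
  exact ⟨X i, isHomogeneous_X _ _, (ord_pos_iff hP _).2 (by simpa using hi)⟩

open Classical in
lemma exists_exact {P : PP} (hP : C.Pt P) (D : DD) (hD : ∀ Q ∈ D, C.Pt Q) :
    ∃ G ∈ C.W (Multiset.card D) D, C.ord P G = D.count P := by
  induction D using Multiset.induction_on with
  | empty =>
    refine ⟨1, ⟨isHomogeneous_one _ _, fun Q => by simp⟩, ?_⟩
    rw [Multiset.count_zero, Nat.cast_zero, ord_pos_iff hP]; simp
  | cons Q D ih =>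
    obtain ⟨G, hG, hGP⟩ := ih (fun R hR => hD R (Multiset.mem_cons_of_mem hR))
    have hQ : C.Pt Q := hD Q (Multiset.mem_cons_self Q D)
    have hL : ∃ L : P3, L.IsHomogeneous 1 ∧ C.ord P L = (if P = Q then 1 else 0 : ℕ) ∧ (1 : ℕ∞) ≤ C.ord Q L := by
      by_cases h : P = Q
      · subst h
        obtain ⟨L, h1, h2⟩ := exists_lin_self hP
        exact ⟨L, h1, by simp [h2], h2.ge⟩
      · obtain ⟨L, h1, h2, h3⟩ := exists_lin_sep (Ne.symm h) hP hQ
        exact ⟨L, h1, by simp [h2, h], ENat.one_le_iff_ne_zero.2 h3⟩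
    obtain ⟨L, hL1, hLP, hLQ⟩ := hL
    refine ⟨L * G, ⟨?_, fun R => ?_⟩, ?_⟩
    · rw [Multiset.card_cons, add_comm]
      exact hL1.mul hG.1
    · rw [ord_mul]
      by_cases hR : R = Q
      · subst hR
        rw [Multiset.count_cons_self]
        push_cast
        rw [add_comm]
        exact add_le_add hLQ (hG.2 R)
      · rw [Multiset.count_cons_of_ne hR]
        exact (hG.2 R).trans le_add_self
    · rw [ord_mul, hLP, hGP, Multiset.count_cons]
      push_cast
      rw [add_comm]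

open Classical in
lemma exists_exact' {P : PP} (hP : C.Pt P) (D : DD) (hD : ∀ Q ∈ D, C.Pt Q) {e : ℕ}
    (he : Multiset.card D ≤ e) : ∃ G ∈ C.W e D, C.ord P G = D.count P := by
  obtain ⟨G, hG, hGP⟩ := exists_exact hP D hD
  obtain ⟨L, hL, hLP⟩ := exists_lin_ne hP
  refine ⟨L ^ (e - Multiset.card D) * G, ⟨?_, fun R => ?_⟩, ?_⟩
  · have := (hL.pow (e - Multiset.card D)).mul hG.1
    rwa [one_mul, Nat.sub_add_cancel he] at this
  · rw [ord_mul]; exact (hG.2 R).trans le_add_self
  · rw [ord_mul, hGP]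
    have : C.ord P (L ^ (e - Multiset.card D)) = 0 := by
      rw [ord_pos_iff hP, map_pow]
      exact pow_ne_zero _ ((ord_pos_iff hP L).1 hLP)
    rw [this, zero_add]

lemma W_card_le {e : ℕ} (D : DD) (hD : ∀ Q ∈ D, C.Pt Q) (he : Multiset.card D ≤ e) :
    Module.finrank ℂ (C.W e D) + Multiset.card D ≤ bb e := by
  classical
  induction D using Multiset.induction_on with
  | empty => rw [W_zero, finrank_RR]; simp
  | cons P D ih =>
    rw [Multiset.card_cons] at he ⊢
    have hP : C.Pt P := hD P (Multiset.mem_cons_self P D)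
    have ih' := ih (fun R hR => hD R (Multiset.mem_cons_of_mem hR)) (by omega)
    obtain ⟨G, hG, hGP⟩ := exists_exact' hP D (fun R hR => hD R (Multiset.mem_cons_of_mem hR)) (e := e) (by omega)
    have hlt : C.W e (P ::ₘ D) < C.W e D := by
      refine lt_of_le_of_ne (W_anti (Multiset.le_cons_self D P)) ?_
      intro heq
      rw [← heq] at hG
      have := hG.2 P
      rw [hGP, Multiset.count_cons_self] at this
      have h2 : D.count P + 1 ≤ D.count P := by exact_mod_cast this
      omega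
    have := Submodule.finrank_lt_finrank_of_lt hlt
    omega

open Classical in
/-- weak Bezout -/
lemma bezout_le {K : P3} {k : ℕ} (hK : K.IsHomogeneous k) (hFK : ¬ C.F ∣ K) (D : DD)
    (hD : ∀ Q ∈ D, C.Pt Q) (h : ∀ P, (D.count P : ℕ∞) ≤ C.ord P K) :
    Multiset.card D ≤ C.deg * k := by
  set e := C.deg + k + Multiset.card D with he
  have h1 : mm C.F (e - C.deg) ⊔ mm K (e - k) ≤ C.W e D := by
    refine sup_le (mm_le_W (by omega) D) ?_
    intro G hG
    obtain ⟨A, hA, rfl⟩ := mem_mm.1 hG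
    refine ⟨?_, fun P => ?_⟩
    · have := hK.mul hA
      rwa [show k + (e - k) = e by omega] at this
    · rw [ord_mul]; exact (h P).trans le_self_add
  have h2 := Submodule.finrank_mono h1
  have h3 := pair_eq C.hom hK C.prime hFK (show C.deg + k ≤ e by omega)
  have h4 := W_card_le (C := C) (e := e) D hD (by omega)
  omega

open Classical in
/-- `D` is the divisor of `K` on the curve -/
def IsDiv (C : Curve) (K : P3) (D : DD) : Prop :=
  (∀ Q ∈ D, C.Pt Q) ∧ ∀ P, C.Pt P → C.ord P K = D.count P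

lemma exists_isDiv_le {K : P3} {k : ℕ} (hK : K.IsHomogeneous k) (hFK : ¬ C.F ∣ K) :
    ∃ D, IsDiv C K D ∧ Multiset.card D ≤ C.deg * k := by
  classical
  let S : Set ℕ := {n | ∃ D : DD, (∀ Q ∈ D, C.Pt Q) ∧ (∀ P, (D.count P : ℕ∞) ≤ C.ord P K) ∧ Multiset.card D = n}
  have hne : S.Nonempty := ⟨0, 0, by simp, by simp, by simp⟩
  have hbdd : BddAbove S := by
    refine ⟨C.deg * k, ?_⟩
    rintro n ⟨D, h1, h2, rfl⟩
    exact bezout_le hK hFK D h1 h2
  obtain ⟨D, h1, h2, h3⟩ := Nat.sSup_mem hne hbdd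
  refine ⟨D, ⟨h1, fun P hP => ?_⟩, bezout_le hK hFK D h1 h2⟩
  by_contra hc
  have hlt : (D.count P : ℕ∞) < C.ord P K := lt_of_le_of_ne (h2 P) (Ne.symm hc)
  have hmem : sSup S + 1 ∈ S := by
    refine ⟨P ::ₘ D, ?_, ?_, by rw [Multiset.card_cons, h3]⟩
    · intro Q hQ
      rcases Multiset.mem_cons.1 hQ with rfl | hQ
      · exact hP
      · exact h1 Q hQ
    · intro Q
      by_cases hQ : Q = P
      · subst hQ
        rw [Multiset.count_cons_self]
        push_cast
        exact Order.add_one_le_of_lt hlt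
      · rw [Multiset.count_cons_of_ne hQ]; exact h2 Q
  have := le_csSup hbdd hmem
  omega

/-- Noether's theorem -/
lemma noether {K T : P3} {k l : ℕ} (hK : K.IsHomogeneous k) (hT : T.IsHomogeneous l) (hFK : ¬ C.F ∣ K)
    (h : ∀ P, C.ord P K ≤ C.ord P T) : ∃ A B, T = K * A + C.F * B := by
  classical
  obtain ⟨D, hD, -⟩ := exists_isDiv_le (C := C) hK hFK
  obtain ⟨m, hm⟩ : ∃ m, C.deg = 1 + m := ⟨C.deg - 1, by have := C.pos; omega⟩
  have hF : C.F.IsHomogeneous (1 + m) := hm ▸ C.hom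
  have hmem := noether_alg C.hom C.pos C.prime (K := K) (T := T) hFK (by
    intro p hp
    by_cases hFp : eval p C.F = 0
    · have hOn : C.On p := ⟨hp, hFp⟩
      have hγ := (C.chart hOn).isParam (Metric.mem_ball_self (C.chart hOn).r_pos)
      have hbase := (C.chart hOn).base
      have hPt : C.Pt (Projectivization.mk ℂ _ hγ.ne) := (pt_mk _).2 (by rw [hbase]; exact hFp)
      have e1 := ord_param hγ hK
      have e2 := ord_param hγ hT
      have e3 := hD.2 _ hPt
      obtain ⟨s, A, B, hs, hsT⟩ := local_noether hF C.prime hγ (by rw [hbase]; exact C.ns p hp hFp) _ K T k l hK hT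
        (e1.symm.trans e3) (by rw [← e3, ← e2]; exact h _)
      refine ⟨s, by rwa [hbase] at hs, ?_⟩
      exact Ideal.mem_span_pair.2 ⟨A, B, by rw [hsT]; ring⟩
    · exact ⟨C.F, hFp, Ideal.mul_mem_right _ _ (Ideal.subset_span (by simp))⟩)
  obtain ⟨A, B, hAB⟩ := Ideal.mem_span_pair.1 hmem
  exact ⟨A, B, by rw [← hAB]; ring⟩

lemma noether' {K T : P3} {k l : ℕ} (hK : K.IsHomogeneous k) (hT : T.IsHomogeneous l) (hFK : ¬ C.F ∣ K)
    (hkl : k ≤ l) (hdl : C.deg ≤ l)
    (h : ∀ P, C.ord P K ≤ C.ord P T) : ∃ A B, A.IsHomogeneous (l - k) ∧ B.IsHomogeneous (l - C.deg) ∧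
      T = K * A + C.F * B := by
  obtain ⟨A, B, hAB⟩ := noether hK hT hFK h
  exact ⟨_, _, homogeneousComponent_isHomogeneous _ _, homogeneousComponent_isHomogeneous _ _,
    mem_pair hK C.hom hkl hdl hT hAB⟩

lemma IsDiv.card {K : P3} {k : ℕ} (hK : K.IsHomogeneous k) (hFK : ¬ C.F ∣ K) {D : DD}
    (hD : IsDiv C K D) : Multiset.card D = C.deg * k := by
  classical
  have hle : ∀ P, (D.count P : ℕ∞) ≤ C.ord P K := by
    intro P
    by_cases hP : C.Pt P
    · exact (hD.2 P hP).ge
    · rw [ord_of_not_pt hP]; exact le_top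
  apply le_antisymm (bezout_le hK hFK D hD.1 hle)
  set e := C.deg + k with he
  have h1 : C.W e D ≤ mm C.F (e - C.deg) ⊔ mm K (e - k) := by
    intro T hT
    obtain ⟨A, B, hA, hB, hAB⟩ := noether' (C := C) hK hT.1 hFK (by omega) (by omega) (by
      intro P
      by_cases hP : C.Pt P
      · rw [hD.2 P hP]; exact hT.2 P
      · rw [ord_of_not_pt hP, ord_of_not_pt hP])
    rw [hAB, add_comm]
    exact Submodule.add_mem_sup (mem_mm.2 ⟨B, hB, rfl⟩) (mem_mm.2 ⟨A, hA, rfl⟩)
  have h2 := Submodule.finrank_mono h1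
  have h3 := pair_eq C.hom hK C.prime hFK (show C.deg + k ≤ e by omega)
  have h4 := bb_le_W (C := C) e D
  omega

lemma exists_isDiv {K : P3} {k : ℕ} (hK : K.IsHomogeneous k) (hFK : ¬ C.F ∣ K) :
    ∃ D, IsDiv C K D ∧ Multiset.card D = C.deg * k := by
  obtain ⟨D, hD, -⟩ := exists_isDiv_le (C := C) hK hFK
  exact ⟨D, hD, hD.card hK hFK⟩

end Curve

end Pool.Agent.H877.TP
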