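import Pool.Agent.H877.TP.Div

set_option autoImplicit false

namespace Pool.Agent.H877.TP
open MvPolynomial Filter Topology

/-! ### one-variable lemmas -/

open Classical in
/-- dividing out zeros -/
lemma factor_out {J : Type*} (r : ℝ) (s : J → ℂ) (I : Finset J) (hs : ∀ j ∈ I, s j ∈ Metric.ball (0 : ℂ) r) :
    ∀ (f : ℂ → ℂ), DifferentiableOn ℂ f (Metric.ball 0 r) →
      (∀ z ∈ Metric.ball (0 : ℂ) r, (((I.filter (fun j => s j = z)).card : ℕ) : ℕ∞) ≤ analyticOrderAt f z) →
      ∃ v : ℂ → ℂ, DifferentiableOn ℂ v (Metric.ball 0 r) ∧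
        ∀ z ∈ Metric.ball (0 : ℂ) r, f z = (∏ j ∈ I, (z - s j)) * v z := by
  induction I using Finset.induction_on with
  | empty => intro f hf _; exact ⟨f, hf, by simp⟩
  | insert j₀ I hj ih =>
    intro f hf hord
    have hj₀ : s j₀ ∈ Metric.ball (0 : ℂ) r := hs j₀ (Finset.mem_insert_self _ _)
    have hopen : IsOpen (Metric.ball (0 : ℂ) r) := Metric.isOpen_ball
    have hfan : AnalyticOnNhd ℂ f (Metric.ball 0 r) := hf.analyticOnNhd hopen
    have hf0 : f (s j₀) = 0 := by
      have h1 := hord _ hj₀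
      rw [Finset.filter_insert, if_pos rfl, Finset.card_insert_of_notMem (by simp [hj])] at h1
      by_contra h
      rw [(hfan _ hj₀).analyticOrderAt_eq_zero.2 h] at h1
      push_cast at h1
      simp at h1
    set v₀ := dslope f (s j₀) with hv₀
    have hv₀d : DifferentiableOn ℂ v₀ (Metric.ball 0 r) :=
      (Complex.differentiableOn_dslope (hopen.mem_nhds hj₀)).2 hf
    have hfac : ∀ z, f z = (z - s j₀) * v₀ z := by
      intro z
      have := sub_smul_dslope f (s j₀) z
      rw [hf0, sub_zero, smul_eq_mul] at this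
      exact this.symm
    have hv₀an := hv₀d.analyticOnNhd hopen
    obtain ⟨v, hv, hvf⟩ := ih (fun j hj' => hs j (Finset.mem_insert_of_mem hj')) v₀ hv₀d (by
      intro z hz
      have h1 := hord z hz
      have h2 : analyticOrderAt f z = analyticOrderAt (fun w => w - s j₀) z + analyticOrderAt v₀ z := by
        rw [← analyticOrderAt_mul (by fun_prop) (hv₀an z hz)]
        congr 1
        ext w; exact hfac w
      rw [h2, Finset.filter_insert] at h1
      by_cases hz0 : s j₀ = z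
      · rw [if_pos hz0, Finset.card_insert_of_notMem (by simp [hj])] at h1
        have h3 : analyticOrderAt (fun w : ℂ => w - s j₀) z = 1 := by
          apply AnalyticAt.analyticOrderAt_eq_one_of_zero_deriv_ne_zero (by fun_prop)
          · rw [hz0, sub_self]
          · rw [deriv_sub_const]; simp
        rw [h3, Nat.cast_add, Nat.cast_one, add_comm] at h1
        exact (ENat.add_le_add_iff_left (by simp)).1 h1
      · rw [if_neg hz0] at h1
        have h3 : analyticOrderAt (fun w : ℂ => w - s j₀) z = 0 := by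
          rw [AnalyticAt.analyticOrderAt_eq_zero (by fun_prop)]
          exact sub_ne_zero.2 (Ne.symm hz0)
        rwa [h3, zero_add] at h1)
    refine ⟨v, hv, fun z hz => ?_⟩
    rw [hfac, hvf z hz, Finset.prod_insert hj, mul_assoc]

/-- a growth bound gives an order -/
lemma order_of_bound {f : ℂ → ℂ} (hf : AnalyticAt ℂ f 0) {k : ℕ} {M : ℝ}
    (h : ∀ᶠ z in 𝓝 (0 : ℂ), ‖f z‖ ≤ M * ‖z‖ ^ k) : (k : ℕ∞) ≤ analyticOrderAt f 0 := by
  by_contra hc
  push Not at hc
  obtain ⟨n, hn⟩ := ENat.ne_top_iff_exists.1 (ne_top_of_lt hc)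
  rw [← hn] at hc
  have hnk : n < k := by exact_mod_cast hc
  obtain ⟨g, hg, hg0, hfg⟩ := hf.analyticOrderAt_eq_natCast.1 hn.symm
  have h1 : ∀ᶠ z in 𝓝[≠] (0 : ℂ), ‖g z‖ ≤ M * ‖z‖ ^ (k - n) := by
    filter_upwards [h.filter_mono nhdsWithin_le_nhds, hfg.filter_mono nhdsWithin_le_nhds,
      self_mem_nhdsWithin] with z h1 h2 h3
    have hz : 0 < ‖z‖ := norm_pos_iff.2 h3
    rw [h2, sub_zero, norm_smul, norm_pow] at h1
    have h4 : ‖z‖ ^ k = ‖z‖ ^ n * ‖z‖ ^ (k - n) := by rw [← pow_add]; congr 1; omega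
    rw [h4] at h1
    have h5 : ‖z‖ ^ n * ‖g z‖ ≤ ‖z‖ ^ n * (M * ‖z‖ ^ (k - n)) := by linarith
    exact le_of_mul_le_mul_left h5 (by positivity)
  have h2 : Tendsto (fun z => ‖g z‖) (𝓝[≠] (0 : ℂ)) (𝓝 ‖g 0‖) :=
    (hg.continuousAt.norm).tendsto.mono_left nhdsWithin_le_nhds
  have h3 : Tendsto (fun z : ℂ => M * ‖z‖ ^ (k - n)) (𝓝[≠] (0 : ℂ)) (𝓝 0) := by
    have : Continuous (fun z : ℂ => M * ‖z‖ ^ (k - n)) := by fun_prop
    have h4 := (this.tendsto 0).mono_left (nhdsWithin_le_nhds (s := {0}ᶜ))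
    rw [norm_zero, zero_pow (by omega), mul_zero] at h4
    exact h4
  have h4 := le_of_tendsto_of_tendsto h2 h3 h1
  have : 0 < ‖g 0‖ := norm_pos_iff.2 hg0
  linarith

/-- the limit lemma in one variable -/
lemma limit_one {J : Type*} [Fintype J] {r : ℝ} (hr : 0 < r) {f : ℕ → ℂ → ℂ} {f₀ : ℂ → ℂ} {s : ℕ → J → ℂ}
    (hf : ∀ i, DifferentiableOn ℂ (f i) (Metric.ball 0 r)) (hf₀ : AnalyticAt ℂ f₀ 0)
    (hs : ∀ j, Tendsto (fun i => s i j) atTop (𝓝 0))
    (hlim : ∀ z ∈ Metric.ball (0 : ℂ) r, Tendsto (fun i => f i z) atTop (𝓝 (f₀ z)))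
    {M : ℝ} (hM : ∀ i, ∀ z ∈ Metric.closedBall (0 : ℂ) (r / 2), ‖f i z‖ ≤ M)
    (hord : ∀ᶠ i in atTop, ∀ z ∈ Metric.ball (0 : ℂ) r,
      (Nat.card {j // s i j = z} : ℕ∞) ≤ analyticOrderAt (f i) z) :
    (Fintype.card J : ℕ∞) ≤ analyticOrderAt f₀ 0 := by
  classical
  have hM0 : 0 ≤ M := (norm_nonneg _).trans (hM 0 0 (by simp; positivity))
  have hR : 0 < r / 4 := by positivity
  set k := Fintype.card J with hk
  set M' := M / (r / 4) ^ k with hM'
  have hM'0 : 0 ≤ M' := by positivity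
  have hev : ∀ᶠ i in atTop, ∀ j, s i j ∈ Metric.ball (0 : ℂ) (r / 4) := by
    rw [eventually_all]
    intro j
    exact (hs j).eventually (Metric.ball_mem_nhds _ hR)
  have hmain : ∀ᶠ i in atTop, ∀ z ∈ Metric.closedBall (0 : ℂ) (r / 2),
      ‖f i z‖ ≤ M' * ∏ j, ‖z - s i j‖ := by
    filter_upwards [hev, hord] with i hi1 hi2
    obtain ⟨v, hv, hfv⟩ := factor_out r (s i) Finset.univ (fun j _ => by
      have := hi1 j
      exact Metric.ball_subset_ball (by linarith) this) (f i) (hf i) (by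
      intro z hz
      have := hi2 z hz
      rwa [Nat.card_eq_fintype_card, Fintype.card_subtype] at this)
    have hsub : Metric.closedBall (0 : ℂ) (r / 2) ⊆ Metric.ball 0 r :=
      Metric.closedBall_subset_ball (by linarith)
    have hbound : ∀ z ∈ Metric.closedBall (0 : ℂ) (r / 2), ‖v z‖ ≤ M' := by
      intro z hz
      have hd : DiffContOnCl ℂ v (Metric.ball 0 (r / 2)) := by
        apply DifferentiableOn.diffContOnCl
        rw [closure_ball _ (by positivity)]
        exact hv.mono hsub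
      have hcl : z ∈ closure (Metric.ball (0 : ℂ) (r / 2)) := by
        rwa [closure_ball _ (by positivity)]
      refine Complex.norm_le_of_forall_mem_frontier_norm_le Metric.isBounded_ball hd ?_ hcl
      intro w hw
      rw [frontier_ball _ (by positivity)] at hw
      have hwn : ‖w‖ = r / 2 := by simpa using hw
      have hwc : w ∈ Metric.closedBall (0 : ℂ) (r / 2) := Metric.sphere_subset_closedBall hw
      have h1 := hM i w hwc
      rw [hfv w (hsub hwc), norm_mul, norm_prod] at h1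
      have h2 : (r / 4) ^ k ≤ ∏ j, ‖w - s i j‖ := by
        rw [hk, ← Finset.card_univ, ← Finset.prod_const]
        refine Finset.prod_le_prod (fun _ _ => hR.le) fun j _ => ?_
        have h3 : ‖s i j‖ < r / 4 := by simpa using hi1 j
        have h4 := norm_sub_norm_le w (s i j)
        linarith
      rw [hM', le_div_iff₀ (by positivity)]
      calc ‖v w‖ * (r / 4) ^ k ≤ ‖v w‖ * ∏ j, ‖w - s i j‖ := by gcongr
        _ = (∏ j, ‖w - s i j‖) * ‖v w‖ := mul_comm _ _
        _ ≤ M := h1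
    intro z hz
    rw [hfv z (hsub hz), norm_mul, norm_prod, mul_comm]
    gcongr
    exact hbound z hz
  apply order_of_bound hf₀ (M := M')
  have hnb : Metric.closedBall (0 : ℂ) (r / 2) ∈ 𝓝 0 := Metric.closedBall_mem_nhds _ (by positivity)
  filter_upwards [hnb] with z hz
  have hsub : z ∈ Metric.ball (0 : ℂ) r := Metric.closedBall_subset_ball (by linarith) hz
  have h1 : Tendsto (fun i => ‖f i z‖) atTop (𝓝 ‖f₀ z‖) := (hlim z hsub).norm
  have h2 : Tendsto (fun i => M' * ∏ j, ‖z - s i j‖) atTop (𝓝 (M' * ∏ _j : J, ‖z - 0‖)) := by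
    apply Tendsto.const_mul
    apply tendsto_finset_prod
    intro j _
    exact ((hs j).const_sub z).norm
  have h3 : (∏ _j : J, ‖z - 0‖) = ‖z‖ ^ k := by
    rw [Finset.prod_const, sub_zero, Finset.card_univ]
  rw [h3] at h2
  exact le_of_tendsto_of_tendsto h1 h2 (hmain.mono fun i hi => hi z hz)

end Pool.Agent.H877.TP
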