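import Pool.Agent.H877.TP.Lim

set_option autoImplicit false

namespace Pool.Agent.H877.TP
open MvPolynomial Filter Topology

lemma continuous_eval (G : P3) : Continuous (fun x : V3 => eval x G) :=
  continuous_iff_continuousAt.2 fun x => (hasFDerivAt_eval G x).continuousAt

namespace Curve
variable (C : Curve)

/-- unit vectors over the curve -/
abbrev S := {v : V3 // ‖v‖ = 1 ∧ eval v C.F = 0}

lemma isCompact_S : IsCompact {v : V3 | ‖v‖ = 1 ∧ eval v C.F = 0} := by
  have h1 : IsCompact (Metric.sphere (0 : V3) 1) := isCompact_sphere 0 1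
  have h2 : IsClosed {v : V3 | eval v C.F = 0} := isClosed_eq (continuous_eval C.F) continuous_const
  have : {v : V3 | ‖v‖ = 1 ∧ eval v C.F = 0} = Metric.sphere (0 : V3) 1 ∩ {v : V3 | eval v C.F = 0} := by
    ext v; simp
  rw [this]
  exact h1.inter_right h2

instance : CompactSpace C.S := isCompact_iff_compactSpace.1 C.isCompact_S

variable {C}

lemma S_ne (v : C.S) : (v : V3) ≠ 0 := by
  intro h
  have := v.2.1
  rw [h, norm_zero] at this
  exact zero_ne_one this

/-- the projective point -/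
noncomputable def pr (v : C.S) : PP := Projectivization.mk ℂ (v : V3) (S_ne v)

lemma pt_pr (v : C.S) : C.Pt (pr v) := (pt_mk _).2 v.2.2

lemma exists_pr {P : PP} (h : C.Pt P) : ∃ v : C.S, pr v = P := by
  have hn : ‖P.rep‖ ≠ 0 := norm_ne_zero_iff.2 h.1
  have hc : ((‖P.rep‖ : ℂ))⁻¹ ≠ 0 := inv_ne_zero (by exact_mod_cast hn)
  refine ⟨⟨((‖P.rep‖ : ℂ))⁻¹ • P.rep, ?_, ?_⟩, ?_⟩
  · rw [norm_smul, norm_inv, Complex.norm_real, norm_norm, inv_mul_cancel₀ hn]
  · rw [eval_smul_vec _ _ C.hom, h.2, mul_zero]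
  · unfold pr
    conv_rhs => rw [← P.mk_rep]
    rw [Projectivization.mk_eq_mk_iff']
    exact ⟨((‖P.rep‖ : ℂ))⁻¹, rfl⟩

/-- divisor of a tuple -/
noncomputable def dv {n : ℕ} (t : Fin n → C.S) : DD := Finset.univ.val.map (fun j => pr (t j))

lemma card_dv {n : ℕ} (t : Fin n → C.S) : Multiset.card (dv t) = n := by simp [dv]

lemma pt_dv {n : ℕ} (t : Fin n → C.S) : ∀ Q ∈ dv t, C.Pt Q := by
  intro Q hQ
  obtain ⟨j, -, rfl⟩ := Multiset.mem_map.1 hQ
  exact pt_pr _

lemma mem_dv {n : ℕ} (t : Fin n → C.S) (Q : PP) : Q ∈ dv t ↔ ∃ j, pr (t j) = Q := by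
  simp [dv]

lemma exists_dv (D : DD) (hD : ∀ Q ∈ D, C.Pt Q) {n : ℕ} (hn : Multiset.card D = n) :
    ∃ t : Fin n → C.S, dv t = D := by
  subst hn
  induction D using Multiset.induction_on with
  | empty =>
    refine ⟨fun j => absurd j.2 (by simp), ?_⟩
    rw [← Multiset.card_eq_zero, card_dv]; rfl
  | cons P D ih =>
    obtain ⟨t, ht⟩ := ih (fun R hR => hD R (Multiset.mem_cons_of_mem hR))
    obtain ⟨v, hv⟩ := exists_pr (hD P (Multiset.mem_cons_self P D))
    have hcard : Multiset.card (P ::ₘ D) = Multiset.card D + 1 := Multiset.card_cons P D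
    rw [hcard]
    refine ⟨Fin.cons v t, ?_⟩
    unfold dv at ht ⊢
    rw [Fin.univ_val_map] at ht ⊢
    rw [List.ofFn_succ, ← Multiset.cons_coe]
    simp only [Fin.cons_zero, Fin.cons_succ]
    rw [hv, ht]

open Classical in
lemma count_dv {n : ℕ} (t : Fin n → C.S) (P : PP) :
    (dv t).count P = Fintype.card {j // pr (t j) = P} := by
  unfold dv
  rw [Multiset.count_map, Fintype.card_subtype]
  change _ = (Finset.filter _ Finset.univ).val.card
  rw [Finset.filter_val]
  congr 1
  apply Multiset.filter_congr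
  intro j _
  exact eq_comm

/-- linear combinations of a finite family of forms -/
noncomputable def lc {N : ℕ} (b : Fin N → P3) (c : Fin N → ℂ) : P3 := ∑ k, c k • b k

lemma eval_lc {N : ℕ} (b : Fin N → P3) (c : Fin N → ℂ) (x : V3) :
    eval x (lc b c) = ∑ k, c k * eval x (b k) := by
  simp [lc, smul_eval]

/-- the conditions `G ∈ W e D` are closed -/
lemma limit_W {e N n : ℕ} {b : Fin N → P3} (hb : ∀ k, (b k).IsHomogeneous e)
    {c : ℕ → Fin N → ℂ} {c₀ : Fin N → ℂ} (hc : Tendsto c atTop (𝓝 c₀))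
    {t : ℕ → Fin n → C.S} {t₀ : Fin n → C.S} (ht : Tendsto t atTop (𝓝 t₀))
    (hW : ∀ i, lc b (c i) ∈ C.W e (dv (t i))) : lc b c₀ ∈ C.W e (dv t₀) := by
  classical
  have hhom : ∀ c : Fin N → ℂ, (lc b c).IsHomogeneous e := fun c =>
    (homogeneousSubmodule (Fin 3) ℂ e).sum_mem fun k _ =>
      (homogeneousSubmodule (Fin 3) ℂ e).smul_mem _ (hb k)
  refine ⟨hhom c₀, fun P => ?_⟩
  by_cases hP : C.Pt P
  swap
  · rw [ord_of_not_pt hP]; exact le_top
  rw [count_dv, ord_def hP]
  set ch := C.chart hP with hch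
  -- proportionality constants
  have hprop : ∀ j : {j // pr (t₀ j) = P}, ∃ a : ℂ, a ≠ 0 ∧ a • (t₀ j : V3) = P.rep := by
    intro j
    obtain ⟨a, ha⟩ := Projectivization.exists_smul_eq_mk_rep ℂ (t₀ j : V3) (S_ne _)
    refine ⟨a, a.ne_zero, ?_⟩
    have h2 : Projectivization.mk ℂ (t₀ j : V3) (S_ne _) = P := j.2
    rw [h2] at ha
    exact ha
  choose a ha0 ha using hprop
  have htj : ∀ j, Tendsto (fun i => (t i j : V3)) atTop (𝓝 (t₀ j : V3)) := by
    intro j
    have h1 := (tendsto_pi_nhds.1 ht) j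
    exact (continuous_subtype_val.tendsto _).comp h1
  let s : ℕ → {j // pr (t₀ j) = P} → ℂ := fun i j => ch.ell (t i j : V3) / ch.lam (t i j : V3)
  have hlamP : ch.lam P.rep = 1 := ch.lam_p
  have hellP : ch.ell P.rep = 0 := ch.ell_p
  have hlam0 : ∀ j : {j // pr (t₀ j) = P}, ch.lam (t₀ j : V3) ≠ 0 := by
    intro j h0
    have h1 := congrArg ch.lam (ha j)
    rw [map_smul, h0, smul_zero, hlamP] at h1
    exact zero_ne_one h1
  have hell0 : ∀ j : {j // pr (t₀ j) = P}, ch.ell (t₀ j : V3) = 0 := by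
    intro j
    have h1 := congrArg ch.ell (ha j)
    rw [map_smul, smul_eq_mul, hellP] at h1
    exact (mul_eq_zero.1 h1).resolve_left (ha0 j)
  have hs : ∀ j, Tendsto (fun i => s i j) atTop (𝓝 0) := by
    intro j
    have h1 : Tendsto (fun i => ch.ell (t i j : V3)) atTop (𝓝 (ch.ell (t₀ j : V3))) :=
      (ch.ell.continuous.tendsto _).comp (htj j)
    have h2 : Tendsto (fun i => ch.lam (t i j : V3)) atTop (𝓝 (ch.lam (t₀ j : V3))) :=
      (ch.lam.continuous.tendsto _).comp (htj j)
    have h3 := h1.div h2 (hlam0 j)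
    rw [hell0 j, zero_div] at h3
    exact h3
  -- the points are the points of the chart
  have hpts : ∀ᶠ i in atTop, ∀ j : {j // pr (t₀ j) = P}, s i j ∈ Metric.ball (0 : ℂ) ch.r ∧
      ∀ hne : ch.γ (s i j) ≠ 0, pr (t i j) = Projectivization.mk ℂ (ch.γ (s i j)) hne := by
    rw [eventually_all]
    intro j
    have h1 : Tendsto (fun i => a j • (t i j : V3)) atTop (𝓝 P.rep) := by
      rw [← ha j]; exact (htj j).const_smul (a j)
    filter_upwards [h1.eventually ch.cov] with i hi
    have h2 : eval (a j • (t i j : V3)) C.F = 0 := by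
      rw [eval_smul_vec _ _ C.hom, (t i j).2.2, mul_zero]
    obtain ⟨h3, h4, h5⟩ := hi h2
    have h6 : ch.ell (a j • (t i j : V3)) / ch.lam (a j • (t i j : V3)) = s i j := by
      simp only [s, map_smul, smul_eq_mul]
      rw [mul_div_mul_left _ _ (ha0 j)]
    rw [h6] at h4 h5
    refine ⟨h4, fun hne => ?_⟩
    unfold pr
    rw [Projectivization.mk_eq_mk_iff']
    refine ⟨(a j)⁻¹ * ch.lam (a j • (t i j : V3)), ?_⟩
    rw [mul_smul, ← h5, smul_smul, inv_mul_cancel₀ (ha0 j), one_smul]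
  have hdiff : ∀ G : P3, DifferentiableOn ℂ (fun z => eval (ch.γ z) G) (Metric.ball 0 ch.r) := by
    intro G z hz
    exact (an_eval (ch.ana z hz) G).differentiableAt.differentiableWithinAt
  -- bound
  have hcbd : ∃ B : ℝ, ∀ i k, ‖c i k‖ ≤ B := by
    obtain ⟨B, hB⟩ := (Metric.isBounded_range_of_tendsto _ hc).exists_norm_le
    exact ⟨B, fun i k => (norm_le_pi_norm (c i) k).trans (hB _ ⟨i, rfl⟩)⟩
  obtain ⟨B, hB⟩ := hcbd
  have hgbd : ∀ k, ∃ A : ℝ, ∀ z ∈ Metric.closedBall (0 : ℂ) (ch.r / 2), ‖eval (ch.γ z) (b k)‖ ≤ A := by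
    intro k
    have hcont : ContinuousOn (fun z => eval (ch.γ z) (b k)) (Metric.closedBall 0 (ch.r / 2)) :=
      (hdiff (b k)).continuousOn.mono (Metric.closedBall_subset_ball (by linarith [ch.r_pos]))
    exact (isCompact_closedBall _ _).exists_bound_of_continuousOn hcont
  choose A hA using hgbd
  have hfin := limit_one (J := {j // pr (t₀ j) = P}) ch.r_pos (f := fun i z => eval (ch.γ z) (lc b (c i)))
    (f₀ := fun z => eval (ch.γ z) (lc b c₀)) (s := s) (fun i => hdiff _)
    (an_eval (ch.ana 0 (Metric.mem_ball_self ch.r_pos)) _) hs (by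
      intro z _
      simp only [eval_lc]
      apply tendsto_finset_sum
      intro k _
      exact ((tendsto_pi_nhds.1 hc) k).mul_const _) (M := ∑ k, B * A k) (by
      intro i z hz
      simp only [eval_lc]
      refine (norm_sum_le _ _).trans (Finset.sum_le_sum fun k _ => ?_)
      rw [norm_mul]
      have h1 := hB i k
      have h2 := hA k z hz
      have h3 : 0 ≤ B := (norm_nonneg _).trans h1
      exact mul_le_mul h1 h2 (norm_nonneg _) h3) (by
      filter_upwards [hpts] with i hi z hz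
      have hpar := ch.isParam hz
      have h1 := ord_param (C := C) hpar (hhom (c i))
      have h2 := (hW i).2 (Projectivization.mk ℂ (ch.γ z) hpar.ne)
      rw [h1, count_dv] at h2
      refine le_trans ?_ h2
      have h3 : Nat.card {j : {j // pr (t₀ j) = P} // s i j = z} ≤
          Fintype.card {j // pr (t i j) = Projectivization.mk ℂ (ch.γ z) hpar.ne} := by
        rw [Nat.card_eq_fintype_card]
        refine Fintype.card_le_of_injective (fun j => ⟨j.1.1, ?_⟩) ?_
        · have h4 := (hi j.1).2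
          obtain ⟨j', hj'⟩ := j
          subst hj'
          exact h4 hpar.ne
        · intro j j' hjj
          apply Subtype.ext
          apply Subtype.ext
          simpa using hjj
      exact_mod_cast h3)
  exact hfin

end Curve

end Pool.Agent.H877.TP
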