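import Pool.Agent.H877.TP.Alg

set_option autoImplicit false

namespace Pool.Agent.H877.TP
open MvPolynomial Filter Topology

lemma sub_aeval_mem {I : Ideal P3} {f : Fin 3 → P3} (h : ∀ i, X i - f i ∈ I) (P : P3) :
    P - aeval f P ∈ I := by
  induction P using MvPolynomial.induction_on with
  | C a => simp
  | add p q hp hq =>
    rw [map_add]
    have := I.add_mem hp hq
    rwa [show p - aeval f p + (q - aeval f q) = p + q - (aeval f p + aeval f q) by ring] at this
  | mul_X p i hp =>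
    rw [map_mul, aeval_X]
    have : p * X i - aeval f p * f i = (p - aeval f p) * X i + aeval f p * (X i - f i) := by ring
    rw [this]
    exact I.add_mem (I.mul_mem_right _ hp) (I.mul_mem_left _ (h i))

/-- substituting a multiple of a constant vector in a form -/
lemma aeval_smul_vec {S : Type*} [CommRing S] [Algebra ℂ S] (c : V3) (t : S) {G : P3} {d : ℕ}
    (hG : G.IsHomogeneous d) :
    aeval (fun j => algebraMap ℂ S (c j) * t) G = algebraMap ℂ S (eval c G) * t ^ d := by
  rw [aeval_def, eval₂_eq', eval_eq', map_sum, Finset.sum_mul]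
  refine Finset.sum_congr rfl fun v hv => ?_
  have hd : v.degree = d := by
    by_contra h
    exact (mem_support_iff.1 hv) (hG.coeff_eq_zero h)
  have h1 : ∏ i, (algebraMap ℂ S (c i) * t) ^ (v i) = (∏ i, algebraMap ℂ S (c i) ^ v i) * t ^ d := by
    simp_rw [mul_pow]
    rw [Finset.prod_mul_distrib, Finset.prod_pow_eq_pow_sum, ← Finsupp.degree_eq_sum, hd]
  rw [h1, map_mul, map_prod]
  simp_rw [map_pow]
  ring

lemma eval_smul_vec (c : V3) (t : ℂ) {G : P3} {d : ℕ} (hG : G.IsHomogeneous d) :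
    eval (t • c) G = t ^ d * eval c G := by
  have h := aeval_smul_vec (S := ℂ) c t hG
  rw [← coe_aeval_eq_eval]
  have h2 : (fun j => algebraMap ℂ ℂ (c j) * t) = t • c := by
    ext j; simp [mul_comm]
  rw [h2] at h
  change aeval (t • c) G = _
  rw [h]
  simp [mul_comm]

/-- the minors -/
noncomputable def ww (p : V3) (i j : Fin 3) : P3 := C (p i) * X j - C (p j) * X i

lemma ww_hom (p : V3) (i j : Fin 3) : (ww p i j).IsHomogeneous 1 := by
  unfold ww
  exact (isHomogeneous_C_mul_X _ _).sub (isHomogeneous_C_mul_X _ _)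

lemma ww_self (p : V3) (i : Fin 3) : ww p i i = 0 := by unfold ww; ring

lemma eval_ww (p : V3) (i j : Fin 3) (x : V3) : eval x (ww p i j) = p i * x j - p j * x i := by
  unfold ww; simp

lemma hom_mem_ww {p : V3} {i : Fin 3} (hi : p i ≠ 0) {G : P3} {d : ℕ} (hG : G.IsHomogeneous d)
    (h0 : eval p G = 0) : ∃ c : Fin 3 → P3, ∑ j, c j * ww p i j = G := by
  rw [← Ideal.mem_span_range_iff_exists_fun]
  let c : V3 := (p i)⁻¹ • p
  have h1 := sub_aeval_mem (I := Ideal.span (Set.range (ww p i)))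
    (f := fun j => algebraMap ℂ P3 (c j) * X i) (by
      intro j
      have : X j - algebraMap ℂ P3 (c j) * X i = C (p i)⁻¹ * ww p i j := by
        unfold ww
        simp only [c, Pi.smul_apply, smul_eq_mul, MvPolynomial.algebraMap_eq, map_mul]
        have : (C (p i)⁻¹ : P3) * C (p i) = 1 := by rw [← map_mul, inv_mul_cancel₀ hi, map_one]
        linear_combination (-(X j : P3)) * this
      rw [this]
      exact Ideal.mul_mem_left _ _ (Ideal.subset_span ⟨j, rfl⟩)) G
  rw [aeval_smul_vec c (X i : P3) hG, eval_smul_vec p _ hG, h0] at h1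
  simpa using h1

/-- homogeneous version -/
lemma hom_mem_ww' {p : V3} {i : Fin 3} (hi : p i ≠ 0) {G : P3} {d : ℕ} (hG : G.IsHomogeneous (1 + d))
    (h0 : eval p G = 0) : ∃ c : Fin 3 → P3, (∀ j, (c j).IsHomogeneous d) ∧ ∑ j, c j * ww p i j = G := by
  obtain ⟨c, hc⟩ := hom_mem_ww hi hG h0
  refine ⟨fun j => homogeneousComponent d (c j), fun j => homogeneousComponent_isHomogeneous _ _, ?_⟩
  have h1 := congrArg (homogeneousComponent (1 + d)) hc
  rw [homogeneousComponent_eq_self hG, map_sum] at h1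
  rw [← h1]
  refine Finset.sum_congr rfl fun j _ => ?_
  rw [mul_comm (c j), comp_mul (ww_hom p i j), mul_comm]

/-- a holomorphic parametrisation of the cone over the curve, transversal to the rays -/
structure IsParam (F : P3) (γ : ℂ → V3) (t₀ : ℂ) : Prop where
  an : AnalyticAt ℂ γ t₀
  zer : ∀ᶠ t in 𝓝 t₀, eval (γ t) F = 0
  ne : γ t₀ ≠ 0
  tr : ∀ c : ℂ, deriv γ t₀ ≠ c • γ t₀

/-- order of a polynomial along a parametrisation -/
noncomputable def po (γ : ℂ → V3) (t₀ : ℂ) (G : P3) : ℕ∞ :=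
  analyticOrderAt (fun t => eval (γ t) G) t₀

lemma an_eval {γ : ℂ → V3} {t₀ : ℂ} (h : AnalyticAt ℂ γ t₀) (G : P3) :
    AnalyticAt ℂ (fun t => eval (γ t) G) t₀ := by
  have h1 : ∀ i, AnalyticAt ℂ (fun t => γ t i) t₀ := fun i =>
    ((ContinuousLinearMap.proj (R := ℂ) (φ := fun _ : Fin 3 => ℂ) i).analyticAt _).comp h
  have := AnalyticAt.aeval_mvPolynomial (B := ℂ) h1 G
  refine this.congr (Filter.Eventually.of_forall fun t => ?_)
  simp only
  rw [← coe_aeval_eq_eval]; rfl

lemma po_mul {γ : ℂ → V3} {t₀ : ℂ} (h : AnalyticAt ℂ γ t₀) (G H : P3) :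
    po γ t₀ (G * H) = po γ t₀ G + po γ t₀ H := by
  unfold po
  rw [← analyticOrderAt_mul (an_eval h G) (an_eval h H)]
  congr 1
  ext t; simp

lemma po_congr {F : P3} {γ : ℂ → V3} {t₀ : ℂ} (h : IsParam F γ t₀) {G H : P3} (hd : F ∣ G - H) :
    po γ t₀ G = po γ t₀ H := by
  unfold po
  apply analyticOrderAt_congr
  filter_upwards [h.zer] with t ht
  obtain ⟨Q, hQ⟩ := hd
  have := congrArg (eval (γ t)) hQ
  rw [map_sub, map_mul, ht, zero_mul] at this
  exact sub_eq_zero.1 this

lemma po_eq_zero {γ : ℂ → V3} {t₀ : ℂ} (h : AnalyticAt ℂ γ t₀) (G : P3) :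
    po γ t₀ G = 0 ↔ eval (γ t₀) G ≠ 0 := by
  unfold po
  exact (an_eval h G).analyticOrderAt_eq_zero

lemma exists_ne_of_ne_zero {p : V3} (hp : p ≠ 0) : ∃ i, p i ≠ 0 := by
  by_contra h
  push Not at h
  exact hp (funext h)

lemma third (i j : Fin 3) (h : j ≠ i) : ∃ k, k ≠ i ∧ k ≠ j ∧
    ∀ f : Fin 3 → P3, f i = 0 → ∑ l, f l = f j + f k := by
  fin_cases i <;> fin_cases j
  · exact absurd rfl h
  · exact ⟨2, by decide, by decide, fun f hf => by
      rw [Fin.sum_univ_three]; change f 0 = 0 at hf; rw [hf]; change _ = f 1 + f 2; ring⟩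
  · exact ⟨1, by decide, by decide, fun f hf => by
      rw [Fin.sum_univ_three]; change f 0 = 0 at hf; rw [hf]; change _ = f 2 + f 1; ring⟩
  · exact ⟨2, by decide, by decide, fun f hf => by
      rw [Fin.sum_univ_three]; change f 1 = 0 at hf; rw [hf]; change _ = f 0 + f 2; ring⟩
  · exact absurd rfl h
  · exact ⟨0, by decide, by decide, fun f hf => by
      rw [Fin.sum_univ_three]; change f 1 = 0 at hf; rw [hf]; change _ = f 2 + f 0; ring⟩
  · exact ⟨1, by decide, by decide, fun f hf => by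
      rw [Fin.sum_univ_three]; change f 2 = 0 at hf; rw [hf]; change _ = f 0 + f 1; ring⟩
  · exact ⟨0, by decide, by decide, fun f hf => by
      rw [Fin.sum_univ_three]; change f 2 = 0 at hf; rw [hf]; change _ = f 1 + f 0; ring⟩
  · exact absurd rfl h

/-- local division lemma -/
lemma local_div {F : P3} {m : ℕ} (hF : F.IsHomogeneous (1 + m)) {p : V3} (hp : p ≠ 0)
    (hFp : eval p F = 0) (hns : ∃ i, eval p (pderiv i F) ≠ 0) :
    ∃ D L : P3, eval p D ≠ 0 ∧ L.IsHomogeneous 1 ∧ eval p L = 0 ∧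
      (∀ (γ : ℂ → V3) (t₀ : ℂ), IsParam F γ t₀ → γ t₀ = p → po γ t₀ L = 1) ∧
      ∀ (G : P3) (d : ℕ), G.IsHomogeneous d → eval p G = 0 →
        ∃ (G' : P3) (d' : ℕ), G'.IsHomogeneous d' ∧ F ∣ D * G - L * G' := by
  obtain ⟨i, hi⟩ := exists_ne_of_ne_zero hp
  obtain ⟨A, hA, hAF⟩ := hom_mem_ww' hi hF hFp
  -- some other coefficient is nonzero
  have hex : ∃ j, j ≠ i ∧ eval p (A j) ≠ 0 := by
    by_contra hc
    push Not at hc
    obtain ⟨k, hk⟩ := hns
    apply hk
    rw [← hAF, map_sum, map_sum]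
    refine Finset.sum_eq_zero fun j _ => ?_
    rw [Derivation.leibniz]
    by_cases hj : j = i
    · subst hj; rw [ww_self]; simp
    · have h1 := hc j hj
      have h2 : eval p (ww p i j) = 0 := by rw [eval_ww]; ring
      simp [h1, h2]
  obtain ⟨j, hji, hAj⟩ := hex
  obtain ⟨k, hki, hkj, huniv⟩ : ∃ k, k ≠ i ∧ k ≠ j ∧ ∀ f : Fin 3 → P3, f i = 0 → ∑ l, f l = f j + f k := by
    exact third i j hji
  have hF2 : F = A j * ww p i j + A k * ww p i k := by
    rw [← hAF, huniv (fun l => A l * ww p i l) (by simp [ww_self])]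
  refine ⟨A j, ww p i k, hAj, ww_hom _ _ _, by rw [eval_ww]; ring, ?_, ?_⟩
  · intro γ t₀ hγ hγp
    apply AnalyticAt.analyticOrderAt_eq_one_of_zero_deriv_ne_zero (an_eval hγ.an _)
    · rw [hγp, eval_ww]; ring
    · intro hd
      have hγd : HasDerivAt γ (deriv γ t₀) t₀ := hγ.an.differentiableAt.hasDerivAt
      have hcoord : ∀ l, HasDerivAt (fun t => γ t l) (deriv γ t₀ l) t₀ := fun l =>
        hasDerivAt_pi.1 hγd l
      have hw : ∀ l, HasDerivAt (fun t => eval (γ t) (ww p i l)) (p i * deriv γ t₀ l - p l * deriv γ t₀ i) t₀ := by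
        intro l
        simp only [eval_ww]
        exact ((hcoord l).const_mul _).sub ((hcoord i).const_mul _)
      have hk0 : p i * deriv γ t₀ k - p k * deriv γ t₀ i = 0 := by
        rw [← (hw k).deriv]; exact hd
      have hA' : ∀ l, ∃ a, HasDerivAt (fun t => eval (γ t) (A l)) a t₀ := fun l =>
        ⟨_, (an_eval hγ.an (A l)).differentiableAt.hasDerivAt⟩
      obtain ⟨a, ha⟩ := hA' j
      obtain ⟨b, hb⟩ := hA' k
      have h1 := (ha.mul (hw j)).add (hb.mul (hw k))
      have h2 : (fun t => eval (γ t) F) =ᶠ[𝓝 t₀] fun _ => 0 := hγ.zer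
      have h3 : HasDerivAt (fun t => eval (γ t) F) 0 t₀ := (hasDerivAt_const t₀ (0 : ℂ)).congr_of_eventuallyEq h2
      have h4 : (fun t => eval (γ t) F) = (fun t => eval (γ t) (A j)) * (fun t => eval (γ t) (ww p i j)) +
          (fun t => eval (γ t) (A k)) * (fun t => eval (γ t) (ww p i k)) := by
        ext t
        conv_lhs => rw [hF2]
        simp
      rw [h4] at h3
      have h5 := h3.unique h1
      have hwj : eval (γ t₀) (ww p i j) = 0 := by rw [hγp, eval_ww]; ring
      have hwk : eval (γ t₀) (ww p i k) = 0 := by rw [hγp, eval_ww]; ring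
      rw [hwj, hwk, hk0, hγp] at h5
      simp only [mul_zero, zero_add, add_zero] at h5
      have hj0 : p i * deriv γ t₀ j - p j * deriv γ t₀ i = 0 := by
        rcases mul_eq_zero.1 h5.symm with h | h
        · exact absurd h hAj
        · exact h
      apply hγ.tr (deriv γ t₀ i / p i)
      rw [hγp]
      ext l
      have hl : p i * deriv γ t₀ l - p l * deriv γ t₀ i = 0 := by
        by_cases h1 : l = i
        · subst h1; ring
        by_cases h2 : l = j
        · rw [h2]; exact hj0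
        have h3 : l = k := by
          revert hji hki hkj h1 h2
          fin_cases i <;> fin_cases j <;> fin_cases k <;> fin_cases l <;> simp
        rw [h3]; exact hk0
      simp only [Pi.smul_apply, smul_eq_mul]
      field_simp
      linear_combination hl
  · intro G d hG hG0
    rcases Nat.eq_zero_or_pos d with rfl | hd
    · refine ⟨0, 0, isHomogeneous_zero _ _ _, ?_⟩
      have : G = 0 := by
        by_contra hne
        have hu := isUnit_of_hom_zero hG hne
        have := hu.map (eval p)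
        rw [hG0] at this
        simp at this
      simp [this]
    · obtain ⟨d', rfl⟩ : ∃ d', d = 1 + d' := ⟨d - 1, by omega⟩
      obtain ⟨B, hB, hBG⟩ := hom_mem_ww' hi hG hG0
      have hG2 : G = B j * ww p i j + B k * ww p i k := by
        rw [← hBG, huniv (fun l => B l * ww p i l) (by simp [ww_self])]
      refine ⟨A j * B k - A k * B j, m + d', ((hA j).mul (hB k)).sub ((hA k).mul (hB j)), B j, ?_⟩
      rw [hG2]
      linear_combination (-(B j)) * hF2

/-- local form of Noether's theorem -/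
lemma local_noether {F : P3} {m : ℕ} (hF : F.IsHomogeneous (1 + m)) (hpr : Prime F)
    {γ : ℂ → V3} {t₀ : ℂ} (hγ : IsParam F γ t₀) (hns : ∃ i, eval (γ t₀) (pderiv i F) ≠ 0) :
    ∀ (n : ℕ) (K T : P3) (k l : ℕ), K.IsHomogeneous k → T.IsHomogeneous l → po γ t₀ K = n →
      (n : ℕ∞) ≤ po γ t₀ T → ∃ s A B : P3, eval (γ t₀) s ≠ 0 ∧ s * T = K * A + F * B := by
  have hFp : eval (γ t₀) F = 0 := hγ.zer.self_of_nhds
  obtain ⟨D, L, hD, -, hL0, hL1, hdiv⟩ := local_div hF hγ.ne hFp hns
  have hL1 := hL1 γ t₀ hγ rfl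
  have hD0 : po γ t₀ D = 0 := (po_eq_zero hγ.an D).2 hD
  have hFD : ¬ F ∣ D := by
    rintro ⟨Q, rfl⟩
    apply hD
    rw [map_mul, hFp, zero_mul]
  intro n
  induction n with
  | zero =>
    intro K T k l hK hT hn _
    refine ⟨K, T, 0, ?_, by ring⟩
    exact (po_eq_zero hγ.an K).1 (by simpa using hn)
  | succ n ih =>
    intro K T k l hK hT hn hT2
    have hKp : eval (γ t₀) K = 0 := by
      by_contra h
      have := (po_eq_zero hγ.an K).2 h
      rw [this] at hn
      have h9 := hn.symm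
      simp at h9
    have hTp : eval (γ t₀) T = 0 := by
      by_contra h
      have := (po_eq_zero hγ.an T).2 h
      rw [this] at hT2
      simp at hT2
    obtain ⟨K', k', hK', hK2⟩ := hdiv K k hK hKp
    obtain ⟨T', l', hT', hT3⟩ := hdiv T l hT hTp
    have e1 := po_congr hγ hK2
    rw [po_mul hγ.an, po_mul hγ.an, hD0, hL1, hn, zero_add] at e1
    have e2 := po_congr hγ hT3
    rw [po_mul hγ.an, po_mul hγ.an, hD0, hL1, zero_add] at e2
    have f1 : po γ t₀ K' = n := by
      have : (1 : ℕ∞) + n = 1 + po γ t₀ K' := by rw [← e1]; push_cast; ring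
      exact (ENat.add_right_injective_of_ne_top (by simp) this).symm
    have f2 : (n : ℕ∞) ≤ po γ t₀ T' := by
      rw [e2] at hT2
      have : (1 : ℕ∞) + n ≤ 1 + po γ t₀ T' := by
        refine le_trans (le_of_eq ?_) hT2; push_cast; ring
      exact (ENat.add_le_add_iff_left (by simp)).1 this
    obtain ⟨s, A, B, hs, hsT⟩ := ih K' T' k' l' hK' hT' f1 f2
    obtain ⟨Q1, hQ1⟩ := hK2
    obtain ⟨Q2, hQ2⟩ := hT3
    have h1 : F ∣ D * (s * T - K * A) := by
      refine ⟨s * Q2 + L * B - Q1 * A, ?_⟩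
      linear_combination s * hQ2 + L * hsT - A * hQ1
    obtain ⟨B', hB'⟩ := (hpr.dvd_or_dvd h1).resolve_left hFD
    exact ⟨s, A, B', hs, by linear_combination hB'⟩

end Pool.Agent.H877.TP
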