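import Pool.Agent.H877.TP.Loc

set_option autoImplicit false

namespace Pool.Agent.H877.TP
open MvPolynomial Filter Topology

/-- a point with first coordinate one off the curve -/
lemma exists_off {F : P3} {m : ℕ} (hF : F.IsHomogeneous m) (hF0 : F ≠ 0) :
    ∃ a b : ℂ, eval ![1, a, b] F ≠ 0 := by
  by_contra hc
  push Not at hc
  have h1 : X 0 * F = 0 := by
    apply MvPolynomial.funext
    intro x
    rw [map_mul, eval_X, map_zero]
    by_cases h0 : x 0 = 0
    · rw [h0, zero_mul]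
    · have h2 : x = x 0 • ![1, x 1 / x 0, x 2 / x 0] := by
        ext i
        fin_cases i
        · simp
        · simp; field_simp
        · simp; field_simp
      rw [h2, eval_smul_vec _ _ hF, hc]
      simp
  rcases mul_eq_zero.1 h1 with h | h
  · exact X_ne_zero _ h
  · exact hF0 h

section
variable {F : P3} {m : ℕ} (a b : ℂ)

/-- first line through the point -/
noncomputable def lu : P3 := X 1 - C a * X 0
/-- second line through the point -/
noncomputable def lv : P3 := X 2 - C b * X 0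

lemma sub_s_mem (P : P3) : P - aeval ![X 0, C a * X 0, C b * X 0] P ∈ Ideal.span {lu a, lv b} := by
  apply sub_aeval_mem
  intro i
  fin_cases i
  · simp
  · exact Ideal.subset_span (by simp [lu])
  · exact Ideal.subset_span (by simp [lv])

lemma sub_t_mem (P : P3) : P - aeval ![X 0, C a * X 0, X 2] P ∈ Ideal.span {lu a} := by
  apply sub_aeval_mem
  intro i
  fin_cases i
  · simp
  · exact Ideal.subset_span (by simp [lu])
  · simp

lemma s_F (hF : F.IsHomogeneous m) :
    (aeval (![X 0, C a * X 0, C b * X 0] : Fin 3 → P3) F : P3) = C (eval ![1, a, b] F) * X 0 ^ m := by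
  have h := aeval_smul_vec (S := P3) ![1, a, b] (X 0) hF
  rw [MvPolynomial.algebraMap_eq] at h
  rw [← h]
  congr 2
  ext i : 1
  fin_cases i <;> simp

variable {a b}

lemma nz (hF : F.IsHomogeneous m) (h0 : eval ![1, a, b] F ≠ 0) {c : P3}
    (h : lv b * c ∈ Ideal.span {lu a, F}) : c ∈ Ideal.span {lu a, F} := by
  obtain ⟨s, t, hst⟩ := Ideal.mem_span_pair.1 h
  have e1 : aeval ![X 0, C a * X 0, C b * X 0] (lu a) = (0 : P3) := by simp [lu]
  have e2 : aeval ![X 0, C a * X 0, C b * X 0] (lv b) = (0 : P3) := by simp [lv]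
  have h1 := congrArg (aeval ![X 0, C a * X 0, C b * X 0] : P3 →ₐ[ℂ] P3) hst
  rw [map_add, map_mul, map_mul, map_mul, e1, e2, mul_zero, zero_add, zero_mul, s_F a b hF] at h1
  have h2 : aeval ![X 0, C a * X 0, C b * X 0] t = (0 : P3) := by
    rcases mul_eq_zero.1 h1 with h | h
    · exact h
    · exfalso
      rcases mul_eq_zero.1 h with h | h
      · exact h0 (by simpa using h)
      · exact (pow_ne_zero _ (X_ne_zero (R := ℂ) (0 : Fin 3))) h
  have h3 := sub_s_mem a b t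
  rw [h2, sub_zero] at h3
  obtain ⟨t1, t2, ht⟩ := Ideal.mem_span_pair.1 h3
  have h4 : lv b * (c - F * t2) = lu a * (s + F * t1) := by
    linear_combination (-1 : P3) * hst - F * ht
  have f1 : aeval ![X 0, C a * X 0, X 2] (lu a) = (0 : P3) := by simp [lu]
  have h5 := congrArg (aeval ![X 0, C a * X 0, X 2] : P3 →ₐ[ℂ] P3) h4
  rw [map_mul, map_mul, f1, zero_mul] at h5
  have f2 : aeval ![X 0, C a * X 0, X 2] (lv b) ≠ (0 : P3) := by
    simp only [lv, map_sub, map_mul, aeval_X, aeval_C]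
    intro h
    have := congrArg (eval ![0, 0, 1]) h
    simp at this
  have h6 := (mul_eq_zero.1 h5).resolve_left f2
  have h7 := sub_t_mem a (c - F * t2)
  rw [h6, sub_zero] at h7
  obtain ⟨q, hq⟩ := Ideal.mem_span_singleton.1 h7
  refine Ideal.mem_span_pair.2 ⟨q, t2, ?_⟩
  linear_combination -hq

lemma nz_pow (hF : F.IsHomogeneous m) (h0 : eval ![1, a, b] F ≠ 0) {c : P3} (n : ℕ)
    (h : lv b ^ n * c ∈ Ideal.span {lu a, F}) : c ∈ Ideal.span {lu a, F} := by
  induction n with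
  | zero => simpa using h
  | succ n ih =>
    apply ih
    apply nz hF h0
    rwa [pow_succ', mul_assoc] at h

lemma F_not_dvd_lu (hF : F.IsHomogeneous m) (hm : 1 ≤ m) (h0 : eval ![1, a, b] F ≠ 0) : ¬ F ∣ lu a := by
  rintro ⟨c, hc⟩
  have hu0 : lu a ≠ 0 := by
    intro h
    have := congrArg (eval ![0, 1, 0]) h
    simp [lu] at this
  have hF0 : F ≠ 0 := by rintro rfl; simp at h0
  have hc0 : c ≠ 0 := by rintro rfl; simp at hc; exact hu0 hc
  have hdeg : (lu a).IsHomogeneous 1 := by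
    unfold lu
    exact (isHomogeneous_X _ _).sub (isHomogeneous_C_mul_X _ _)
  have h1 := hdeg.totalDegree hu0
  rw [hc, totalDegree_mul_of_isDomain hF0 hc0, hF.totalDegree hF0] at h1
  have h2 : c.totalDegree = 0 := by omega
  rw [totalDegree_eq_zero_iff_eq_C] at h2
  have h3 := congrArg (eval ![1, a, b]) hc
  rw [map_mul, h2, eval_C] at h3
  have h4 : eval ![1, a, b] (lu a) = 0 := by simp [lu]
  rw [h4] at h3
  rcases mul_eq_zero.1 h3.symm with h | h
  · exact h0 h
  · rw [h] at h2; simp at h2; exact hc0 h2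

lemma sat_step (hF : F.IsHomogeneous m) (hm : 1 ≤ m) (hpr : Prime F) (h0 : eval ![1, a, b] F ≠ 0) {K T : P3}
    (hFK : ¬ F ∣ K) (n : ℕ) (h1 : lu a * T ∈ Ideal.span {K, F}) (h2 : lv b ^ n * T ∈ Ideal.span {K, F}) :
    T ∈ Ideal.span {K, F} := by
  obtain ⟨A, B, hA⟩ := Ideal.mem_span_pair.1 h1
  obtain ⟨A', B', hA'⟩ := Ideal.mem_span_pair.1 h2
  have h3 : F ∣ K * (lv b ^ n * A - lu a * A') := by
    refine ⟨lu a * B' - lv b ^ n * B, ?_⟩
    linear_combination (lv b) ^ n * hA - lu a * hA'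
  obtain ⟨E, hE⟩ := (hpr.dvd_or_dvd h3).resolve_left hFK
  have h4 : lv b ^ n * A ∈ Ideal.span {lu a, F} := by
    refine Ideal.mem_span_pair.2 ⟨A', E, ?_⟩
    linear_combination -hE
  obtain ⟨A1, A2, hA1⟩ := Ideal.mem_span_pair.1 (nz_pow hF h0 n h4)
  have h5 : F ∣ lu a * (T - K * A1) := by
    refine ⟨K * A2 + B, ?_⟩
    linear_combination -hA - K * hA1
  obtain ⟨Q, hQ⟩ := (hpr.dvd_or_dvd h5).resolve_left (F_not_dvd_lu hF hm h0)
  refine Ideal.mem_span_pair.2 ⟨A1, Q, ?_⟩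
  linear_combination -hQ

lemma sat_all (hF : F.IsHomogeneous m) (hm : 1 ≤ m) (hpr : Prime F) (h0 : eval ![1, a, b] F ≠ 0) {K : P3}
    (hFK : ¬ F ∣ K) (n : ℕ) : ∀ (l : ℕ) (T : P3), lu a ^ l * T ∈ Ideal.span {K, F} →
    lv b ^ n * T ∈ Ideal.span {K, F} → T ∈ Ideal.span {K, F} := by
  intro l
  induction l with
  | zero => intro T h _; simpa using h
  | succ l ih =>
    intro T h1 h2
    apply ih T _ h2
    apply sat_step hF hm hpr h0 hFK n
    · rwa [pow_succ', mul_assoc] at h1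
    · have := Ideal.mul_mem_left _ (lu a ^ l) h2
      rwa [← mul_assoc, mul_comm (lu a ^ l), mul_assoc] at this

end

lemma noether_alg {F : P3} {m : ℕ} (hF : F.IsHomogeneous m) (hm : 1 ≤ m) (hpr : Prime F) {K T : P3}
    (hFK : ¬ F ∣ K) (hloc : ∀ p : V3, p ≠ 0 → ∃ s, eval p s ≠ 0 ∧ s * T ∈ Ideal.span {K, F}) :
    T ∈ Ideal.span {K, F} := by
  obtain ⟨a, b, h0⟩ := exists_off hF hpr.ne_zero
  let I : Ideal P3 := Submodule.comap (LinearMap.toSpanSingleton P3 P3 T) (Ideal.span {K, F})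
  have hI : ∀ s, s ∈ I ↔ s * T ∈ Ideal.span {K, F} := by
    intro s
    simp [I]
  obtain ⟨r, hr⟩ := pow_mem_of_zero (I := I) (by
    intro x hx
    by_contra hx0
    obtain ⟨s, hs, hs2⟩ := hloc x hx0
    exact hs (hx s ((hI s).2 hs2)))
  have hrad : ∀ i, (X i : P3) ∈ I.radical := fun i => ⟨r, hr i⟩
  have hu : lu a ∈ I.radical := by
    unfold lu
    exact Ideal.sub_mem _ (hrad 1) (Ideal.mul_mem_left _ _ (hrad 0))
  have hv : lv b ∈ I.radical := by
    unfold lv
    exact Ideal.sub_mem _ (hrad 2) (Ideal.mul_mem_left _ _ (hrad 0))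
  obtain ⟨l, hl⟩ := hu
  obtain ⟨n, hn⟩ := hv
  exact sat_all hF hm hpr h0 hFK n l T ((hI _).1 hl) ((hI _).1 hn)

end Pool.Agent.H877.TP
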