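import Pool.Agent.H877.TP.Chart

set_option autoImplicit false

namespace Pool.Agent.H877.TP
open MvPolynomial Filter Topology

/-- a nonsingular plane curve -/
structure Curve where
  F : P3
  deg : ℕ
  hom : F.IsHomogeneous deg
  pos : 1 ≤ deg
  ns : Nonsing F

namespace Curve
variable (C : Curve)

lemma prime : Prime C.F := C.ns.prime C.hom C.pos

/-- nonzero vectors over the curve -/
def On (p : V3) : Prop := p ≠ 0 ∧ eval p C.F = 0

variable {C}

lemma On.smul {p : V3} (h : C.On p) {c : ℂ} (hc : c ≠ 0) : C.On (c • p) :=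
  ⟨smul_ne_zero hc h.1, by rw [eval_smul_vec _ _ C.hom, h.2, mul_zero]⟩

variable (C) in
/-- a chosen chart -/
noncomputable def chart {p : V3} (h : C.On p) : Chart C.F p :=
  Classical.choice (exists_chart C.hom h.1 h.2 (C.ns p h.1 h.2))

end Curve

section chart
variable {F : P3} {p : V3} (c : Chart F p)
include c

lemma Chart.lam_p : c.lam p = 1 := by
  have := c.hlam 0 (Metric.mem_ball_self c.r_pos)
  rwa [c.base] at this

lemma Chart.ell_p : c.ell p = 0 := by
  have := c.hell 0 (Metric.mem_ball_self c.r_pos)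
  rwa [c.base] at this

lemma Chart.isParam {t : ℂ} (ht : t ∈ Metric.ball (0 : ℂ) c.r) : IsParam F c.γ t := by
  have hU : Metric.ball (0 : ℂ) c.r ∈ 𝓝 t := Metric.isOpen_ball.mem_nhds ht
  have hd : HasDerivAt c.γ (deriv c.γ t) t := (c.ana t ht).differentiableAt.hasDerivAt
  have hne : c.γ t ≠ 0 := by
    intro h0
    have := c.hlam t ht
    rw [h0, map_zero] at this
    exact zero_ne_one this
  refine ⟨c.ana t ht, ?_, hne, ?_⟩
  · filter_upwards [hU] with s hs using c.zer s hs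
  · intro a ha
    have h1 : HasDerivAt (fun s => c.lam (c.γ s)) (c.lam (deriv c.γ t)) t :=
      c.lam.hasFDerivAt.comp_hasDerivAt t hd
    have h2 : HasDerivAt (fun s => c.lam (c.γ s)) 0 t := by
      refine (hasDerivAt_const t (1 : ℂ)).congr_of_eventuallyEq ?_
      filter_upwards [hU] with s hs using c.hlam s hs
    have h3 : HasDerivAt (fun s => c.ell (c.γ s)) (c.ell (deriv c.γ t)) t :=
      c.ell.hasFDerivAt.comp_hasDerivAt t hd
    have h4 : HasDerivAt (fun s => c.ell (c.γ s)) 1 t := by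
      refine (hasDerivAt_id t).congr_of_eventuallyEq ?_
      filter_upwards [hU] with s hs using c.hell s hs
    have e1 := h1.unique h2
    have e2 := h3.unique h4
    rw [ha, map_smul, c.hlam t ht, smul_eq_mul, mul_one] at e1
    rw [ha, e1, zero_smul, map_zero] at e2
    exact zero_ne_one e2

end chart

lemma po_smul {γ : ℂ → V3} {t₀ : ℂ} (hγ : AnalyticAt ℂ γ t₀) {a : ℂ} (ha : a ≠ 0) {G : P3} {d : ℕ}
    (hG : G.IsHomogeneous d) : po (fun t => a • γ t) t₀ G = po γ t₀ G := by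
  unfold po
  have h1 : (fun t => eval (a • γ t) G) = (fun _ => a ^ d) * (fun t => eval (γ t) G) := by
    ext t
    rw [eval_smul_vec _ _ hG]; rfl
  rw [h1, analyticOrderAt_mul analyticAt_const (an_eval hγ G)]
  have h2 : analyticOrderAt (fun _ : ℂ => a ^ d) t₀ = 0 := by
    rw [analyticAt_const.analyticOrderAt_eq_zero]
    exact pow_ne_zero _ ha
  rw [h2, zero_add]

/-- change of parametrisation -/
lemma po_chart {F : P3} {p : V3} (c : Chart F p) {δ : ℂ → V3} {t₀ : ℂ} (hδ : IsParam F δ t₀)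
    (h0 : δ t₀ = p) {G : P3} {d : ℕ} (hG : G.IsHomogeneous d) : po δ t₀ G = po c.γ 0 G := by
  have hc : Tendsto δ (𝓝 t₀) (𝓝 p) := by
    rw [← h0]; exact hδ.an.continuousAt
  have hcov := (hc.eventually c.cov).and hδ.zer
  set σ : ℂ → ℂ := fun t => c.ell (δ t) / c.lam (δ t) with hσ
  have hlam0 : c.lam (δ t₀) = 1 := by rw [h0, c.lam_p]
  have hell0 : c.ell (δ t₀) = 0 := by rw [h0, c.ell_p]
  have hlan : AnalyticAt ℂ (fun t => c.lam (δ t)) t₀ := (c.lam.analyticAt _).comp hδ.an
  have hean : AnalyticAt ℂ (fun t => c.ell (δ t)) t₀ := (c.ell.analyticAt _).comp hδ.an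
  have hσan : AnalyticAt ℂ σ t₀ := hean.div hlan (by rw [hlam0]; exact one_ne_zero)
  have hσ0 : σ t₀ = 0 := by simp only [hσ]; rw [hell0, zero_div]
  have hrep : ∀ᶠ t in 𝓝 t₀, δ t = c.lam (δ t) • c.γ (σ t) := by
    filter_upwards [hcov] with t ht
    exact (ht.1 ht.2).2.2
  have hγan0 : AnalyticAt ℂ c.γ (σ t₀) := by
    rw [hσ0]; exact c.ana 0 (Metric.mem_ball_self c.r_pos)
  have hσd : deriv σ t₀ ≠ 0 := by
    intro hd
    apply hδ.tr (deriv (fun t => c.lam (δ t)) t₀)
    have h1 : HasDerivAt σ 0 t₀ := by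
      have := hσan.differentiableAt.hasDerivAt
      rwa [hd] at this
    have h2 : HasDerivAt c.γ (deriv c.γ (σ t₀)) (σ t₀) := hγan0.differentiableAt.hasDerivAt
    have h3 : HasDerivAt (fun t => c.γ (σ t)) ((0 : ℂ) • deriv c.γ (σ t₀)) t₀ :=
      HasDerivAt.scomp t₀ h2 h1
    have h4 : HasDerivAt (fun t => c.lam (δ t)) (deriv (fun t => c.lam (δ t)) t₀) t₀ :=
      hlan.differentiableAt.hasDerivAt
    have h5 := h4.smul h3
    have h6 : HasDerivAt δ _ t₀ := h5.congr_of_eventuallyEq hrep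
    rw [h6.deriv, zero_smul, smul_zero, zero_add, hσ0, c.base, h0]
  have h1 : (fun t => eval (δ t) G) =ᶠ[𝓝 t₀]
      (fun t => c.lam (δ t) ^ d) * ((fun s => eval (c.γ s) G) ∘ σ) := by
    filter_upwards [hrep] with t ht
    conv_lhs => rw [ht]
    rw [eval_smul_vec _ _ hG]; rfl
  unfold po
  rw [analyticOrderAt_congr h1]
  have hGan : AnalyticAt ℂ (fun s => eval (c.γ s) G) (σ t₀) := an_eval hγan0 G
  have hlp : AnalyticAt ℂ (fun t => c.lam (δ t) ^ d) t₀ := hlan.pow d
  rw [analyticOrderAt_mul hlp (hGan.comp hσan)]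
  have h2 : analyticOrderAt (fun t => c.lam (δ t) ^ d) t₀ = 0 := by
    rw [AnalyticAt.analyticOrderAt_eq_zero hlp, hlam0, one_pow]
    exact one_ne_zero
  rw [h2, zero_add, analyticOrderAt_comp_of_deriv_ne_zero hσan hσd, hσ0]

/-- projective points -/
abbrev PP := Projectivization ℂ V3

namespace Curve
variable (C : Curve)

open Classical in
/-- the order of `G` at a point (infinite off the curve) -/
noncomputable def ord (P : PP) (G : P3) : ℕ∞ :=
  if h : C.On P.rep then po (C.chart h).γ 0 G else ⊤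

/-- the point lies on the curve -/
def Pt (P : PP) : Prop := C.On P.rep

variable {C}

lemma pt_mk {p : V3} (hp : p ≠ 0) : C.Pt (Projectivization.mk ℂ p hp) ↔ eval p C.F = 0 := by
  obtain ⟨a, ha⟩ := Projectivization.exists_smul_eq_mk_rep ℂ p hp
  unfold Pt On
  rw [← ha]
  have h1 : (a • p : V3) = (a : ℂ) • p := rfl
  rw [h1, eval_smul_vec _ _ C.hom]
  constructor
  · rintro ⟨-, h⟩
    exact (mul_eq_zero.1 h).resolve_left (pow_ne_zero _ a.ne_zero)
  · intro h
    exact ⟨smul_ne_zero a.ne_zero hp, by rw [h, mul_zero]⟩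

lemma ord_of_not_pt {P : PP} (h : ¬ C.Pt P) (G : P3) : C.ord P G = ⊤ := by
  unfold ord; exact dif_neg h

lemma ord_param {γ : ℂ → V3} {t₀ : ℂ} (hγ : IsParam C.F γ t₀) {G : P3} {d : ℕ}
    (hG : G.IsHomogeneous d) : C.ord (Projectivization.mk ℂ (γ t₀) hγ.ne) G = po γ t₀ G := by
  obtain ⟨a, ha⟩ := Projectivization.exists_smul_eq_mk_rep ℂ (γ t₀) hγ.ne
  have hpt : C.Pt (Projectivization.mk ℂ (γ t₀) hγ.ne) := (pt_mk hγ.ne).2 hγ.zer.self_of_nhds
  have hpt' : C.On (Projectivization.mk ℂ (γ t₀) hγ.ne).rep := hpt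
  unfold ord
  rw [dif_pos hpt']
  have hδ : IsParam C.F (fun t => (a : ℂ) • γ t) t₀ := by
    refine ⟨(analyticAt_const (v := (a : ℂ))).smul hγ.an, ?_, smul_ne_zero a.ne_zero hγ.ne, ?_⟩
    · filter_upwards [hγ.zer] with t ht
      rw [eval_smul_vec _ _ C.hom, ht, mul_zero]
    · intro c hc
      apply hγ.tr c
      have h1 : deriv (fun t => (a : ℂ) • γ t) t₀ = (a : ℂ) • deriv γ t₀ :=
        deriv_fun_const_smul _ hγ.an.differentiableAt
      rw [h1, smul_comm] at hc
      exact smul_right_injective _ a.ne_zero hc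
  rw [← po_smul hγ.an a.ne_zero hG]
  exact (po_chart (C.chart hpt') hδ ha hG).symm

lemma param_chart_rep {P : PP} (h : C.Pt P) : IsParam C.F (C.chart h).γ 0 :=
  (C.chart h).isParam (Metric.mem_ball_self (C.chart h).r_pos)

lemma ord_def {P : PP} (h : C.Pt P) (G : P3) : C.ord P G = po (C.chart h).γ 0 G := by
  unfold ord; exact dif_pos h

lemma ord_mul (P : PP) (G H : P3) : C.ord P (G * H) = C.ord P G + C.ord P H := by
  by_cases h : C.Pt P
  · rw [ord_def h, ord_def h, ord_def h, po_mul (param_chart_rep h).an]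
  · rw [ord_of_not_pt h, ord_of_not_pt h, top_add]

lemma ord_congr (P : PP) {G H : P3} (h : C.F ∣ G - H) : C.ord P G = C.ord P H := by
  by_cases hP : C.Pt P
  · rw [ord_def hP, ord_def hP, po_congr (param_chart_rep hP) h]
  · rw [ord_of_not_pt hP, ord_of_not_pt hP]

lemma ord_pos_iff {P : PP} (h : C.Pt P) (G : P3) : C.ord P G = 0 ↔ eval P.rep G ≠ 0 := by
  rw [ord_def h, po_eq_zero (param_chart_rep h).an, (C.chart h).base]

lemma ord_of_dvd (P : PP) {G : P3} (h : C.F ∣ G) : C.ord P G = ⊤ := by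
  by_cases hP : C.Pt P
  · have h1 : C.F ∣ G - 0 := by simpa using h
    rw [ord_congr P h1, ord_def hP]
    unfold po
    rw [analyticOrderAt_eq_top]
    exact Filter.Eventually.of_forall fun t => by simp
  · exact ord_of_not_pt hP G

end Curve

end Pool.Agent.H877.TP
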