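import Pool.Agent.H877.TP.Top3

set_option autoImplicit false

namespace Pool.Agent.H877.TP
open MvPolynomial Filter Topology

/-! ### conjugate functions of one variable -/

lemma tendsto_star0 : Tendsto (fun t : ℂ => star t) (𝓝 0) (𝓝 0) := by
  have := (continuous_star (R := ℂ)).tendsto 0
  rwa [star_zero] at this

lemma analyticAt_star {E : Type*} [NormedAddCommGroup E] [NormedSpace ℂ E] [StarAddMonoid E] [StarModule ℂ E]
    [ContinuousStar E] [CompleteSpace E] {f : ℂ → E} {z : ℂ} (hf : AnalyticAt ℂ f (star z)) :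
    AnalyticAt ℂ (fun t => star (f (star t))) z := by
  rw [Complex.analyticAt_iff_eventually_differentiableAt] at hf ⊢
  have h1 : Tendsto (fun t : ℂ => star t) (𝓝 z) (𝓝 (star z)) := (continuous_star (R := ℂ)).tendsto z
  filter_upwards [h1.eventually hf] with t ht
  have := ht.star_conj
  have e : (starRingEnd ℂ) (star t) = t := by simp
  rw [e] at this
  exact this

lemma order_star {f : ℂ → ℂ} {z : ℂ} (hf : AnalyticAt ℂ f (star z)) :
    analyticOrderAt (fun t => star (f (star t))) z = analyticOrderAt f (star z) := by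
  have h1 : Tendsto (fun t : ℂ => star t) (𝓝 z) (𝓝 (star z)) := (continuous_star (R := ℂ)).tendsto z
  rcases eq_or_ne (analyticOrderAt f (star z)) ⊤ with h | h
  · rw [h, analyticOrderAt_eq_top]
    rw [analyticOrderAt_eq_top] at h
    filter_upwards [h1.eventually h] with t ht
    rw [ht, star_zero]
  · obtain ⟨n, hn⟩ := ENat.ne_top_iff_exists.1 h
    rw [← hn]
    obtain ⟨g, hg, hg0, hgeq⟩ := (hf.analyticOrderAt_eq_natCast).1 hn.symm
    rw [(analyticAt_star hf).analyticOrderAt_eq_natCast]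
    refine ⟨fun t => star (g (star t)), analyticAt_star hg, star_ne_zero.2 hg0, ?_⟩
    filter_upwards [h1.eventually hgeq] with t ht
    rw [ht, smul_eq_mul, smul_eq_mul, star_mul', star_pow, star_sub, star_star, star_star]

/-- composition with the negation -/
lemma IsParam.neg {F : P3} {γ : ℂ → V3} {t : ℂ} (h : IsParam F γ (-t)) : IsParam F (fun s => γ (-s)) t := by
  have hn : AnalyticAt ℂ (fun s : ℂ => -s) t := analyticAt_id.neg
  have hc : Tendsto (fun s : ℂ => -s) (𝓝 t) (𝓝 (-t)) := hn.continuousAt.tendsto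
  refine ⟨AnalyticAt.fun_comp (g := γ) (f := fun s : ℂ => -s) h.an hn, hc.eventually h.zer, h.ne, ?_⟩
  intro c hc'
  have h1 : HasDerivAt γ (deriv γ (-t)) (-t) := h.an.differentiableAt.hasDerivAt
  have h2 : HasDerivAt (fun s : ℂ => -s) (-1) t := (hasDerivAt_id t).neg
  have h3 : HasDerivAt (fun s : ℂ => γ (-s)) ((-1 : ℂ) • deriv γ (-t)) t := HasDerivAt.scomp t h1 h2
  rw [h3.deriv] at hc'
  apply h.tr (-c)
  have := congrArg (fun v => (-1 : ℂ) • v) hc'
  simp only [smul_smul] at this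
  rw [show (-1 : ℂ) * -1 = 1 by ring, one_smul] at this
  rw [this]; congr 1; ring

lemma IsParam.conj {C : Curve} (hC : C.Real) {γ : ℂ → V3} {t : ℂ} (h : IsParam C.F γ (star t)) :
    IsParam C.F (fun s => cj (γ (star s))) t := by
  have h1 : Tendsto (fun s : ℂ => star s) (𝓝 t) (𝓝 (star t)) := (continuous_star (R := ℂ)).tendsto t
  have han : AnalyticAt ℂ (fun s => star (γ (star s))) t := analyticAt_star h.an
  refine ⟨han, ?_, cj_ne h.ne, ?_⟩
  · filter_upwards [h1.eventually h.zer] with s hs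
    rw [← hC, eval_bar, hs, star_zero]
  · intro c hc
    have h2 : HasDerivAt γ (deriv γ (star t)) (star t) := h.an.differentiableAt.hasDerivAt
    have h3 := h2.star_conj
    have e : (starRingEnd ℂ) (star t) = t := by simp
    rw [e] at h3
    have h4 : deriv (fun s => cj (γ (star s))) t = star (deriv γ (star t)) := h3.deriv
    rw [h4] at hc
    apply h.tr (star c)
    have := congrArg star hc
    rw [star_star, star_smul] at this
    rw [this]
    congr 1
    exact cj_cj _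

namespace Curve
variable {C : Curve}

lemma ord_cj (hC : C.Real) {x : V3} (hx : x ≠ 0) {G : P3} {e : ℕ} (hG : G.IsHomogeneous e) :
    C.ord (Projectivization.mk ℂ (TP.cj x) (cj_ne hx)) (bar G) = C.ord (Projectivization.mk ℂ x hx) G := by
  by_cases h0 : eval x C.F = 0
  · have hOn : C.On x := ⟨hx, h0⟩
    have hγ := (C.chart hOn).isParam (Metric.mem_ball_self (C.chart hOn).r_pos)
    have hγ' : IsParam C.F (C.chart hOn).γ (star 0) := by rw [star_zero]; exact hγ
    have hδ := hγ'.conj hC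
    have e1 := ord_param hγ hG
    have e2 := ord_param hδ (bar_hom hG)
    have b := (C.chart hOn).base
    have e3 : po (fun s => TP.cj ((C.chart hOn).γ (star s))) 0 (bar G) = po (C.chart hOn).γ 0 G := by
      unfold po
      simp only [eval_bar]
      rw [order_star (f := fun t => eval ((C.chart hOn).γ t) G) (by rw [star_zero]; exact an_eval hγ.an G),
        star_zero]
    rw [e3] at e2
    simp only [star_zero, b] at e1 e2
    rw [e1, e2]
  · rw [ord_of_not_pt, ord_of_not_pt]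
    · intro h; exact h0 ((pt_mk hx).1 h)
    · intro h
      apply h0
      have h1 := (pt_mk (cj_ne hx)).1 h
      rwa [← hC, eval_bar, star_eq_zero] at h1

end Curve

/-- real charts at real points; the upper half disc is on the side of `B` -/
structure RChart (C : Curve) (A B : Set V3) (p : V3) where
  γ : ℂ → V3
  r : ℝ
  r_pos : 0 < r
  base : γ 0 = p
  par : ∀ t ∈ Metric.ball (0 : ℂ) r, IsParam C.F γ t
  sym : ∀ t ∈ Metric.ball (0 : ℂ) r, γ (star t) = cj (γ t)
  sideB : ∀ t ∈ Metric.ball (0 : ℂ) r, 0 < t.im → γ t ∈ B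
  sideA : ∀ t ∈ Metric.ball (0 : ℂ) r, t.im < 0 → γ t ∈ A
  cov : ∀ U ∈ 𝓝 (0 : ℂ), ∀ᶠ q in 𝓝 p, eval q C.F = 0 → ∃ c : ℂ, c ≠ 0 ∧ ∃ t ∈ U, q = c • γ t

lemma star_mem_ball {t : ℂ} {r : ℝ} (h : t ∈ Metric.ball (0 : ℂ) r) : star t ∈ Metric.ball (0 : ℂ) r := by
  rw [Metric.mem_ball, dist_zero_right] at h ⊢
  rwa [norm_star]

lemma neg_mem_ball {t : ℂ} {r : ℝ} (h : t ∈ Metric.ball (0 : ℂ) r) : -t ∈ Metric.ball (0 : ℂ) r := by
  rw [Metric.mem_ball, dist_zero_right] at h ⊢
  rwa [norm_neg]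

namespace Curve
variable {C : Curve}

lemma Sep.symm {A B : Set V3} (h : Sep C A B) : Sep C B A where
  real := h.real
  opA := h.opB
  opB := h.opA
  neA := h.neB
  neB := h.neA
  dis p hp hp' := h.dis p hp' hp
  nr p := by rw [or_comm]; exact h.nr p

lemma Sep.cj_mem_B {A B : Set V3} (h : Sep C A B) {p : V3} : TP.cj p ∈ B ↔ p ∈ A :=
  ⟨fun hp => by simpa [cj_cj] using h.symm.cj_dis _ hp, fun hp => h.cj_dis p hp⟩

lemma Sep.cj_mem_A {A B : Set V3} (h : Sep C A B) {p : V3} : TP.cj p ∈ A ↔ p ∈ B :=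
  h.symm.cj_mem_B

lemma Sep.not_Rl {A B : Set V3} (h : Sep C A B) {p : V3} (hp : p ∈ A ∨ p ∈ B) : ¬ Rl p :=
  ((h.nr p).1 hp).2

theorem Sep.exists_rchart {A B : Set V3} (h : Sep C A B) {p : V3} (hp : C.On p) (hcj : TP.cj p = p) :
    Nonempty (RChart C A B p) := by
  have hC := h.real
  obtain ⟨ch, i, j, hlam, hell⟩ := exists_chart_full C.hom hp.1 hp.2 (C.ns p hp.1 hp.2)
  have hpi : ∀ k, star (p k) = p k := fun k => congrFun hcj k
  have hlamc : ∀ x, ch.lam (TP.cj x) = star (ch.lam x) := by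
    intro x
    rw [hlam, hlam, star_mul', star_inv₀, hpi]; rfl
  have hellc : ∀ x, ch.ell (TP.cj x) = star (ch.ell x) := by
    intro x
    rw [hell, hell, star_sub, star_mul', star_mul', hpi, hpi]; rfl
  have hcont : Tendsto ch.γ (𝓝 0) (𝓝 p) := by
    have := (ch.ana 0 (Metric.mem_ball_self ch.r_pos)).continuousAt.tendsto
    rwa [ch.base] at this
  have hball0 := Metric.ball_mem_nhds (0 : ℂ) ch.r_pos
  -- symmetry near 0
  have hsym : ∀ᶠ t in 𝓝 (0 : ℂ), ch.γ (star t) = TP.cj (ch.γ t) := by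
    have h1 : Tendsto (fun t : ℂ => TP.cj (ch.γ t)) (𝓝 0) (𝓝 p) := by
      have h2 := (continuous_cj.tendsto p).comp hcont
      rwa [hcj] at h2
    filter_upwards [h1.eventually ch.cov, hball0] with t ht htb
    have hz : eval (TP.cj (ch.γ t)) C.F = 0 := by
      have := eval_bar C.F (ch.γ t)
      rw [hC, ch.zer t htb, star_zero] at this
      exact this
    obtain ⟨h3, h4, h5⟩ := ht hz
    rw [hlamc, hellc, ch.hlam t htb, ch.hell t htb, star_one, div_one, one_smul] at h5
    exact h5.symm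
  obtain ⟨r, hr, hball⟩ := Metric.eventually_nhds_iff_ball.1 (hsym.and hball0)
  have hnr : ∀ t ∈ Metric.ball (0 : ℂ) r, t.im ≠ 0 → ch.γ t ∈ A ∨ ch.γ t ∈ B := by
    intro t ht him
    have htb := (hball t ht).2
    rw [h.nr]
    have hne : ch.γ t ≠ 0 := by
      intro h0
      have := ch.hlam t htb
      rw [h0, map_zero] at this
      exact zero_ne_one this
    refine ⟨⟨hne, ch.zer t htb⟩, fun hR => ?_⟩
    obtain ⟨μ, -, hμ⟩ := hR.exists_unit hne
    have h1 := congrArg ch.lam hμ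
    rw [hlamc, map_smul, ch.hlam t htb, star_one, smul_eq_mul, mul_one] at h1
    have h2 := congrArg ch.ell hμ
    rw [hellc, map_smul, ch.hell t htb, ← h1, one_smul] at h2
    exact him (Complex.conj_eq_iff_im.1 h2)
  have hcov : ∀ U ∈ 𝓝 (0 : ℂ), ∀ᶠ q in 𝓝 p, eval q C.F = 0 → ∃ c : ℂ, c ≠ 0 ∧ ∃ t ∈ U, q = c • ch.γ t := by
    intro U hU
    have h1 : Tendsto (fun q : V3 => ch.ell q / ch.lam q) (𝓝 p) (𝓝 0) := by
      have h2 : ContinuousAt (fun q : V3 => ch.ell q / ch.lam q) p :=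
        ch.ell.continuous.continuousAt.div ch.lam.continuous.continuousAt
          (by rw [ch.lam_p]; exact one_ne_zero)
      have h3 := h2.tendsto
      rwa [ch.lam_p, ch.ell_p, zero_div] at h3
    filter_upwards [h1.eventually hU, ch.cov] with q h2 h3 h4
    obtain ⟨h5, -, h6⟩ := h3 h4
    exact ⟨_, h5, _, h2, h6⟩
  -- the upper half disc
  let U : Set ℂ := {t | t ∈ Metric.ball (0 : ℂ) r ∧ 0 < t.im}
  have hUopen : IsOpen U := Metric.isOpen_ball.inter (isOpen_lt continuous_const Complex.continuous_im)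
  have hUconn : IsPreconnected U := by
    have hconv : Convex ℝ U := (convex_ball (0 : ℂ) r).inter (convex_halfSpace_im_gt 0)
    exact hconv.isPreconnected
  have hopen : ∀ V : Set V3, Op C V → IsOpen {t | t ∈ U ∧ ch.γ t ∈ V} := by
    intro V hV
    rw [isOpen_iff_mem_nhds]
    rintro t ⟨ht, htV⟩
    have h1 : Tendsto ch.γ (𝓝 t) (𝓝 (ch.γ t)) := (ch.ana t (hball t ht.1).2).continuousAt.tendsto
    filter_upwards [hUopen.mem_nhds ht, h1.eventually (hV.op _ htV)] with s hs hs'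
    exact ⟨hs, hs' (ch.zer s (hball s hs.1).2)⟩
  have hsplit : (∀ t ∈ U, ch.γ t ∈ A) ∨ (∀ t ∈ U, ch.γ t ∈ B) := by
    by_contra hcon
    push Not at hcon
    obtain ⟨⟨t₁, ht₁, h₁⟩, ⟨t₂, ht₂, h₂⟩⟩ := hcon
    have h₁' := (hnr t₁ ht₁.1 ht₁.2.ne').resolve_left h₁
    have h₂' := (hnr t₂ ht₂.1 ht₂.2.ne').resolve_right h₂
    obtain ⟨t, -, ⟨-, h3⟩, ⟨-, h4⟩⟩ := hUconn _ _ (hopen A h.opA) (hopen B h.opB)
      (fun t ht => (hnr t ht.1 ht.2.ne').imp (fun h' => ⟨ht, h'⟩) (fun h' => ⟨ht, h'⟩))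
      ⟨t₂, ht₂, ht₂, h₂'⟩ ⟨t₁, ht₁, ht₁, h₁'⟩
    exact h.dis _ h3 h4
  rcases hsplit with hA | hB
  · refine ⟨⟨fun t => ch.γ (-t), r, hr, ?_, ?_, ?_, ?_, ?_, ?_⟩⟩
    · rw [neg_zero]; exact ch.base
    · intro t ht
      exact (ch.isParam (hball _ (neg_mem_ball ht)).2).neg
    · intro t ht
      rw [← star_neg]
      exact (hball _ (neg_mem_ball ht)).1
    · intro t ht him
      have h1 := hA (star (-t)) ⟨star_mem_ball (neg_mem_ball ht), by simpa using him⟩
      rw [(hball _ (neg_mem_ball ht)).1] at h1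
      exact h.cj_mem_A.1 h1
    · intro t ht him
      exact hA (-t) ⟨neg_mem_ball ht, by simpa using him⟩
    · intro W hW
      have hW' : (fun t : ℂ => -t) ⁻¹' W ∈ 𝓝 (0 : ℂ) := by
        have : Tendsto (fun t : ℂ => -t) (𝓝 0) (𝓝 0) := by
          have := (continuous_neg (G := ℂ)).tendsto 0
          rwa [neg_zero] at this
        exact this hW
      filter_upwards [hcov _ hW'] with q hq hq0
      obtain ⟨c, hc, t, ht, hqt⟩ := hq hq0
      exact ⟨c, hc, -t, ht, by rw [neg_neg]; exact hqt⟩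
  · refine ⟨⟨ch.γ, r, hr, ch.base, ?_, ?_, ?_, ?_, hcov⟩⟩
    · intro t ht
      exact ch.isParam (hball _ ht).2
    · intro t ht
      exact (hball t ht).1
    · intro t ht him
      exact hB t ⟨ht, him⟩
    · intro t ht him
      have h1 := hB (star t) ⟨star_mem_ball ht, by simpa using him⟩
      rw [(hball _ ht).1] at h1
      exact h.cj_mem_B.1 h1

end Curve

end Pool.Agent.H877.TP
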