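import Pool.Agent.H877.TP.R9

set_option autoImplicit false

namespace Pool.Agent.H877.TP
open MvPolynomial Filter Topology

lemma eval_real {K : P3} (hb : bar K = K) {w : V3} (hw : cj w = w) : (((eval w K).re : ℝ) : ℂ) = eval w K := by
  have := eval_bar K w
  rw [hw, hb] at this
  exact Complex.conj_eq_iff_re.1 this.symm

lemma Rl_of_cj {w : V3} (hw : cj w = w) : Rl w := by
  intro i j
  have h1 := congrFun hw i
  have h2 := congrFun hw j
  simp only [cj] at h1 h2
  rw [h1, h2]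

namespace Curve
variable {C : Curve} {A B : Set V3} {K : Type*} {κ : V3 → K}

/-- the properties of the partition of the real locus into connected components that we use -/
structure Cmp (C : Curve) {K : Type*} (κ : V3 → K) : Prop where
  smul : ∀ w, w ≠ 0 → ∀ c : ℂ, c ≠ 0 → κ (c • w) = κ w
  comp : ∀ y, IsCompact {w | w ∈ SR C ∧ κ w = y}
  ne : ∀ y, ∃ w ∈ SR C, κ w = y
  path : ∀ (γ : ℝ → V3) (r : ℝ), 0 < r → ContinuousOn γ (Set.Ioo (-r) r) →
    (∀ t ∈ Set.Ioo (-r) r, C.On (γ t) ∧ TP.cj (γ t) = γ t) → ∀ t ∈ Set.Ioo (-r) r, κ (γ t) = κ (γ 0)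
  conn : ∀ T T' : Set V3, IsClosed T → IsClosed T' → T ∪ T' = SR C → (∀ w ∈ T, w ∉ T') →
    (∀ w ∈ T, -w ∈ T) → (∀ w ∈ T', -w ∈ T') → ∀ w ∈ T, ∀ w' ∈ T', κ w ≠ κ w'

lemma RChart.real_pt {p : V3} (ch : RChart C A B p) {t : ℝ} (ht : t ∈ Set.Ioo (-ch.r) ch.r) :
    C.On (ch.γ (t : ℂ)) ∧ TP.cj (ch.γ (t : ℂ)) = ch.γ (t : ℂ) := by
  have hb : (t : ℂ) ∈ Metric.ball (0 : ℂ) ch.r := by
    rw [Metric.mem_ball, dist_zero_right, Complex.norm_real, Real.norm_eq_abs, abs_lt]
    exact ht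
  refine ⟨⟨(ch.par _ hb).ne, (ch.par _ hb).zer.self_of_nhds⟩, ?_⟩
  have := ch.sym _ hb
  rw [Complex.star_def, Complex.conj_ofReal] at this
  exact this.symm

lemma Cmp.chart (hκ : Cmp C κ) {p : V3} (ch : RChart C A B p) {t : ℝ} (ht : t ∈ Set.Ioo (-ch.r) ch.r) :
    κ (ch.γ (t : ℂ)) = κ p := by
  have h1 := hκ.path (fun t : ℝ => ch.γ (t : ℂ)) ch.r ch.r_pos (by
    intro t ht
    have hb : (t : ℂ) ∈ Metric.ball (0 : ℂ) ch.r := by
      rw [Metric.mem_ball, dist_zero_right, Complex.norm_real, Real.norm_eq_abs, abs_lt]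
      exact ht
    have h2 : ContinuousAt ch.γ (t : ℂ) := (ch.par _ hb).an.continuousAt
    exact (ContinuousAt.comp (f := fun t : ℝ => (t : ℂ)) h2 Complex.continuous_ofReal.continuousAt).continuousWithinAt)
    (fun t ht => RChart.real_pt ch ht) t ht
  simp only [Complex.ofReal_zero, ch.base] at h1
  exact h1

lemma Ioo_nhds {r : ℝ} (hr : 0 < r) : ∀ᶠ t : ℝ in 𝓝 0, t ∈ Set.Ioo (-r) r :=
  Ioo_mem_nhds (by linarith) hr

lemma Cmp.rep (hκ : Cmp C κ) {w : V3} (hw : w ≠ 0) : κ (Projectivization.mk ℂ w hw).rep = κ w := by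
  obtain ⟨a, ha⟩ := Projectivization.exists_smul_eq_mk_rep ℂ w hw
  rw [← ha]
  exact hκ.smul w hw a a.ne_zero

lemma cj_real_smul {w : V3} (hw : TP.cj w = w) (r : ℝ) : TP.cj ((r : ℂ) • w) = (r : ℂ) • w := by
  rw [cj_smul, hw, Complex.star_def, Complex.conj_ofReal]

/-- every component of the real locus contains a pole -/
lemma Tot.pole_on (h : Sep C A B) {e : ℕ} {G H : P3} {E D : DD} (t : Tot C B e G H E D) (hκ : Cmp C κ) (y : K) :
    ∃ P ∈ D, κ P.rep = y := by
  classical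
  by_contra hcon
  push Not at hcon
  refine no_max h t.hG t.hH t.bG t.bH t.pos t.nc t.nH (Z := {w | C.On w ∧ TP.cj w = w ∧ κ w = y}) ?_ ?_ ?_ ?_ ?_
  · rintro w ⟨h1, h2, -⟩; exact ⟨h1, h2⟩
  · rintro w ⟨h1, h2, h3⟩ r hr
    have hrc : (r : ℂ) ≠ 0 := by exact_mod_cast hr
    exact ⟨h1.smul hrc, cj_real_smul h2 r, by rw [hκ.smul w h1.1 _ hrc]; exact h3⟩
  · have : {w : V3 | w ∈ {w | C.On w ∧ TP.cj w = w ∧ κ w = y} ∧ ‖w‖ = 1} = {w | w ∈ SR C ∧ κ w = y} := by
      ext w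
      constructor
      · rintro ⟨⟨h1, h2, h3⟩, h4⟩; exact ⟨⟨h4, h2, h1.2⟩, h3⟩
      · rintro ⟨h1, h2⟩; exact ⟨⟨SR_on h1, h1.2.1, h2⟩, h1.1⟩
    rw [this]
    exact hκ.comp y
  · obtain ⟨w, hw, hwy⟩ := hκ.ne y
    obtain ⟨ch⟩ := h.exists_rchart (SR_on hw) hw.2.1
    obtain ⟨s, hs1, hs2⟩ := (((Ioo_nhds ch.r_pos).filter_mono nhdsWithin_le_nhds).and
      (real_pos_nhds (RChart.ne_near ch t.hH t.nH))).exists
    exact ⟨ch.γ (s : ℂ), ⟨(RChart.real_pt ch hs1).1, (RChart.real_pt ch hs1).2, by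
      rw [hκ.chart ch hs1]; exact hwy⟩, hs2⟩
  · rintro w ⟨h1, h2, h3⟩ hw1
    left
    have hPt : C.Pt (Projectivization.mk ℂ w h1.1) := (pt_mk _).2 h1.2
    refine ⟨?_, fun ch => ?_⟩
    · rw [t.ordH_notMem hPt (fun hD => hcon _ hD (by rw [hκ.rep h1.1]; exact h3))]
      exact t.bas _
    · filter_upwards [Ioo_nhds ch.r_pos] with s hs
      exact ⟨(RChart.real_pt ch hs).1, (RChart.real_pt ch hs).2, by rw [hκ.chart ch hs]; exact h3⟩

/-- a component with exactly one pole contains a point of the residual divisor -/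
lemma Can.res_on (h : Sep C A B) (h3 : 3 ≤ C.deg) {W₁ W₀ : P3} {D R : DD} (c : Can C B W₁ W₀ D R)
    (hκ : Cmp C κ) {q : PP} (hqD : q ∈ D) (hqR : Rl q.rep) (hq1 : by classical exact D.count q = 1)
    (huniq : ∀ P ∈ D, κ P.rep = κ q.rep → P = q) : ∃ P ∈ R, Rl P.rep ∧ κ P.rep = κ q.rep := by
  classical
  by_contra hcon
  push Not at hcon
  obtain ⟨J, j, hJ, hbJ, hev, hJne⟩ := h.exists_orient h3
  have hqPt : C.Pt q := c.div.1 q (Multiset.mem_add.2 (Or.inl hqD))
  have hqR' : q ∉ R := fun hR => hcon q hR hqR rfl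
  obtain ⟨a, ha, hcj⟩ := exists_real_rep hqPt.1 hqR
  set v : V3 := a • q.rep with hv
  have hvOn : C.On v := hqPt.smul ha
  have hmkv : Projectivization.mk ℂ v hvOn.1 = q := by
    conv_rhs => rw [← q.mk_rep]
    rw [Projectivization.mk_eq_mk_iff']
    exact ⟨a, rfl⟩
  have hκv : κ v = κ q.rep := hκ.smul _ hqPt.1 a ha
  set fp : P3 := W₀ * J with hfp
  set pp : P3 := W₁ * J with hpp
  have hfph : fp.IsHomogeneous (C.deg - 3 + j) := c.h0.mul hJ
  have hpph : pp.IsHomogeneous (C.deg - 3 + j) := c.h1.mul hJ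
  have hbf : bar fp = fp := by rw [hfp, bar_mul, c.b0, hbJ]
  have hbp : bar pp = pp := by rw [hpp, bar_mul, c.b1, hbJ]
  have hW1v : eval v W₁ ≠ 0 := by
    have h1 := c.pol q hqD
    rw [Multiset.count_eq_zero.2 hqR', Nat.cast_zero, ord_pos_iff hqPt] at h1
    rw [hv, eval_smul_vec _ _ c.h1]
    exact mul_ne_zero (pow_ne_zero _ ha) h1
  have hJv := hJne v hvOn (Rl_of_cj hcj)
  set k₀ : ℝ := (eval v pp).re with hk₀
  have hk₀c : (k₀ : ℂ) = eval v pp := eval_real hbp hcj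
  have hk₀ne : k₀ ≠ 0 := by
    intro h0
    rw [h0, Complex.ofReal_zero, hpp, map_mul] at hk₀c
    exact mul_ne_zero hW1v hJv hk₀c.symm
  -- homogeneity
  have hscal : ∀ {K : P3}, K.IsHomogeneous (C.deg - 3 + j) → ∀ (r : ℝ) (w : V3),
      (eval ((r : ℂ) • w) K).re = r ^ (C.deg - 3 + j) * (eval w K).re := by
    intro K hK r w
    rw [eval_smul_vec _ _ hK, ← Complex.ofReal_pow, Complex.re_ofReal_mul]
  have hpowpos : ∀ r : ℝ, r ≠ 0 → 0 < r ^ (C.deg - 3 + j) := fun r hr => hev.pow_pos hr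
  refine no_max h c.h1 c.h0 c.b1 c.b0 c.pos c.nc c.n0
    (Z := {w | C.On w ∧ TP.cj w = w ∧ κ w = κ q.rep ∧ k₀ * (eval w fp).re ≤ 0}) ?_ ?_ ?_ ?_ ?_
  · rintro w ⟨h1, h2, -⟩; exact ⟨h1, h2⟩
  · rintro w ⟨h1, h2, h3, h4⟩ r hr
    have hrc : (r : ℂ) ≠ 0 := by exact_mod_cast hr
    refine ⟨h1.smul hrc, cj_real_smul h2 r, by rw [hκ.smul w h1.1 _ hrc]; exact h3, ?_⟩
    rw [hscal hfph]
    have := mul_nonpos_of_nonneg_of_nonpos (hpowpos r hr).le h4
    linarith
  · have : {w : V3 | w ∈ {w | C.On w ∧ TP.cj w = w ∧ κ w = κ q.rep ∧ k₀ * (eval w fp).re ≤ 0} ∧ ‖w‖ = 1} =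
        {w | w ∈ SR C ∧ κ w = κ q.rep} ∩ {w | k₀ * (eval w fp).re ≤ 0} := by
      ext w
      constructor
      · rintro ⟨⟨h1, h2, h3, h4⟩, h5⟩; exact ⟨⟨⟨h5, h2, h1.2⟩, h3⟩, h4⟩
      · rintro ⟨⟨h1, h2⟩, h4⟩; exact ⟨⟨SR_on h1, h1.2.1, h2, h4⟩, h1.1⟩
    rw [this]
    refine (hκ.comp _).inter_right (isClosed_le ?_ continuous_const)
    exact continuous_const.mul (Complex.continuous_re.comp (continuous_eval fp))
  · -- a point on the correct side
    obtain ⟨ch⟩ := h.exists_rchart hvOn hcj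
    have hord : analyticOrderAt (fun t => eval (ch.γ t) fp) 0 = 1 := by
      rw [← ch.ord_eq hfph, hmkv, hfp, ord_mul, c.div.2 q hqPt, Multiset.count_add, hq1,
        Multiset.count_eq_zero.2 hqR']
      have : C.ord q J = 0 := by
        rw [ord_pos_iff hqPt]
        exact hJne _ hqPt hqR
      rw [this]; simp
    obtain ⟨φ, hφ, hφeq, hφne⟩ := Sy.id.div (ch.sy hbf) (by rw [order_id]; simp)
      (by rw [order_id, hord])
    have hφ0 := hφne (by rw [order_id, hord])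
    have hφre : (φ 0).re ≠ 0 := by
      intro h0
      apply hφ0
      rw [← hφ.re_zero, h0]; simp
    have hsign : ∀ᶠ t in 𝓝 (0 : ℂ), 0 < (φ 0).re * (φ t).re := by
      have h1 : Tendsto (fun t => (φ 0).re * (φ t).re) (𝓝 0) (𝓝 ((φ 0).re * (φ 0).re)) :=
        ((Complex.continuous_re.tendsto _).comp hφ.1.continuousAt).const_mul _
      exact h1.eventually_const_lt (mul_self_pos.2 hφre)
    have hall := ((hsign.and hφeq).filter_mono (nhdsWithin_le_nhds (s := {0}ᶜ)))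
    have hIoo : ∀ᶠ t : ℝ in 𝓝[>] 0, t ∈ Set.Ioo (-ch.r) ch.r := (Ioo_nhds ch.r_pos).filter_mono nhdsWithin_le_nhds
    have hgt0 : ∀ᶠ t : ℝ in 𝓝[>] 0, (0 : ℝ) < t := self_mem_nhdsWithin
    -- a general criterion
    have crit : ∀ s : ℝ, s ∈ Set.Ioo (-ch.r) ch.r → k₀ * (eval (ch.γ (s : ℂ)) fp).re < 0 →
        ∃ w ∈ {w | C.On w ∧ TP.cj w = w ∧ κ w = κ q.rep ∧ k₀ * (eval w fp).re ≤ 0}, eval w W₀ ≠ 0 := by
      intro s hs hneg
      refine ⟨ch.γ (s : ℂ), ⟨(RChart.real_pt ch hs).1, (RChart.real_pt ch hs).2, ?_, hneg.le⟩, ?_⟩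
      · rw [hκ.chart ch hs]; exact hκv
      · intro h0
        rw [hfp, map_mul, h0, zero_mul, Complex.zero_re, mul_zero] at hneg
        exact lt_irrefl _ hneg
    rcases lt_or_gt_of_ne (mul_ne_zero hk₀ne hφre) with hneg | hpos
    · obtain ⟨s, hs1, hs2, hs3, hs4⟩ := (hIoo.and (hgt0.and (real_pos_nhds hall))).exists
      refine crit s hs1 ?_
      rw [hs4, mul_comm (φ _), Complex.re_ofReal_mul]
      have h5 : k₀ * (φ 0).re * ((φ 0).re * (φ (s : ℂ)).re) < 0 := mul_neg_of_neg_of_pos hneg hs3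
      have h6 : 0 < (φ 0).re * (φ 0).re := mul_self_pos.2 hφre
      have h7 : (φ 0).re * (φ 0).re * (k₀ * (φ (s : ℂ)).re) < 0 := by linarith
      have h8 : k₀ * (φ (s : ℂ)).re < 0 := by
        by_contra hc
        push Not at hc
        exact absurd (mul_nonneg h6.le hc) (not_le.2 h7)
      have := mul_neg_of_pos_of_neg hs2 h8
      linarith
    · obtain ⟨s, hs1, hs2, hs3, hs4⟩ := (hIoo.and (hgt0.and (real_neg_nhds hall))).exists
      have hs1' : -s ∈ Set.Ioo (-ch.r) ch.r := ⟨by linarith [hs1.2], by linarith [hs1.1]⟩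
      refine crit (-s) hs1' ?_
      rw [hs4, mul_comm (φ _), Complex.re_ofReal_mul]
      have h5 : 0 < k₀ * (φ 0).re * ((φ 0).re * (φ ((-s : ℝ) : ℂ)).re) := mul_pos hpos hs3
      have h6 : 0 < (φ 0).re * (φ 0).re := mul_self_pos.2 hφre
      have h7 : 0 < (φ 0).re * (φ 0).re * (k₀ * (φ ((-s : ℝ) : ℂ)).re) := by linarith
      have h8 : 0 < k₀ * (φ ((-s : ℝ) : ℂ)).re := (mul_pos_iff_of_pos_left h6).1 h7
      have := mul_pos hs2 h8
      linarith
  · rintro w ⟨h1, h2, h4, h5⟩ hw1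
    have hPt : C.Pt (Projectivization.mk ℂ w h1.1) := (pt_mk _).2 h1.2
    by_cases hw0 : eval w W₀ = 0
    · right
      -- the point is `q`
      have hPq : Projectivization.mk ℂ w h1.1 = q := by
        have h6 : C.ord (Projectivization.mk ℂ w h1.1) W₀ ≠ 0 := by
          rw [Ne, ord_pos_iff hPt, not_not]
          obtain ⟨b, hb⟩ := Projectivization.exists_smul_eq_mk_rep ℂ w h1.1
          rw [← hb]
          change eval ((b : ℂ) • w) W₀ = 0
          rw [eval_smul_vec _ _ c.h0, hw0, mul_zero]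
        rw [c.div.2 _ hPt] at h6
        have h7 : Projectivization.mk ℂ w h1.1 ∈ D + R := by
          rw [← Multiset.count_pos]
          exact Nat.pos_of_ne_zero (by exact_mod_cast h6)
        have h8 : Rl (Projectivization.mk ℂ w h1.1).rep := (Rl_mk h1.1).2 (Rl_of_cj h2)
        rcases Multiset.mem_add.1 h7 with h9 | h9
        · exact huniq _ h9 (by rw [hκ.rep h1.1]; exact h4)
        · exact absurd (by rw [hκ.rep h1.1]; exact h4) (hcon _ h9 h8)
      obtain ⟨b, hb⟩ : ∃ b : ℂ, b • v = w := by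
        rw [← hmkv, Projectivization.mk_eq_mk_iff'] at hPq
        exact hPq
      have hb0 : b ≠ 0 := by
        rintro rfl
        rw [zero_smul] at hb
        exact h1.1 hb.symm
      have hbr : ((b.re : ℝ) : ℂ) = b := by
        obtain ⟨i, hi⟩ := exists_ne_of_ne_zero hvOn.1
        have e1 := congrFun h2 i
        have e2 := congrFun hcj i
        rw [← hb] at e1
        simp only [TP.cj, Pi.smul_apply, smul_eq_mul, star_mul'] at e1
        have e3 : star (v i) = v i := e2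
        rw [e3] at e1
        exact Complex.conj_eq_iff_re.1 (mul_right_cancel₀ hi e1)
      have hbr0 : b.re ≠ 0 := by
        intro h0
        rw [h0, Complex.ofReal_zero] at hbr
        exact hb0 hbr.symm
      have hppw : 0 < k₀ * (eval w pp).re := by
        rw [← hb, ← hbr, hscal hpph]
        have h6 := mul_pos (hpowpos _ hbr0) (mul_self_pos.2 hk₀ne)
        linarith
      have hfpw : (eval w fp).re = 0 := by
        rw [hfp, map_mul, hw0, zero_mul, Complex.zero_re]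
      intro M
      have hcont : Continuous fun y : V3 => k₀ * (eval y pp).re - M * (k₀ * (eval y fp).re) :=
        (continuous_const.mul (Complex.continuous_re.comp (continuous_eval pp))).sub
          (continuous_const.mul (continuous_const.mul (Complex.continuous_re.comp (continuous_eval fp))))
      have h6 : ∀ᶠ y in 𝓝 w, 0 < k₀ * (eval y pp).re - M * (k₀ * (eval y fp).re) := by
        refine (hcont.tendsto w).eventually_const_lt ?_
        rw [hfpw, mul_zero, mul_zero, sub_zero]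
        exact hppw
      filter_upwards [h6] with y hy hyZ hyW
      obtain ⟨g1, g2, g3, g4⟩ := hyZ
      have hJy := hJne y g1 (Rl_of_cj g2)
      have hfy : ((eval y fp).re : ℂ) = eval y fp := eval_real hbf g2
      have hpy : ((eval y pp).re : ℂ) = eval y pp := eval_real hbp g2
      have hfy0 : (eval y fp).re ≠ 0 := by
        intro h0
        rw [h0, Complex.ofReal_zero, hfp, map_mul] at hfy
        exact mul_ne_zero hyW hJy hfy.symm
      have hqt : qt W₁ W₀ y = (((eval y pp).re / (eval y fp).re : ℝ) : ℂ) := by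
        rw [Complex.ofReal_div, hfy, hpy, hfp, hpp, map_mul, map_mul, mul_div_mul_right _ _ hJy]; rfl
      rw [hqt, Complex.ofReal_re]
      have g5 : k₀ * (eval y fp).re < 0 := lt_of_le_of_ne g4 (mul_ne_zero hk₀ne hfy0)
      have g6 : (eval y pp).re / (eval y fp).re = (k₀ * (eval y pp).re) / (k₀ * (eval y fp).re) := by
        rw [mul_div_mul_left _ _ hk₀ne]
      rw [g6, div_lt_iff_of_neg g5]
      linarith
    · left
      have hord0 : C.ord (Projectivization.mk ℂ w h1.1) W₀ = 0 := by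
        rw [ord_pos_iff hPt]
        obtain ⟨b, hb⟩ := Projectivization.exists_smul_eq_mk_rep ℂ w h1.1
        rw [← hb]
        change eval ((b : ℂ) • w) W₀ ≠ 0
        rw [eval_smul_vec _ _ c.h0]
        exact mul_ne_zero (pow_ne_zero _ b.ne_zero) hw0
      refine ⟨by rw [hord0]; exact zero_le, fun ch => ?_⟩
      have hfw : ((eval w fp).re : ℂ) = eval w fp := eval_real hbf h2
      have hfw0 : (eval w fp).re ≠ 0 := by
        intro h0
        rw [h0, Complex.ofReal_zero, hfp, map_mul] at hfw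
        exact mul_ne_zero hw0 (hJne w h1 (Rl_of_cj h2)) hfw.symm
      have hlt : k₀ * (eval w fp).re < 0 := lt_of_le_of_ne h5 (mul_ne_zero hk₀ne hfw0)
      have hcont : Continuous fun y : V3 => k₀ * (eval y fp).re :=
        continuous_const.mul (Complex.continuous_re.comp (continuous_eval fp))
      have hγ0 : Tendsto (fun t : ℝ => ch.γ (t : ℂ)) (𝓝 0) (𝓝 w) := by
        have e1 : Tendsto ch.γ (𝓝 0) (𝓝 w) := by
          have := ch.par0.an.continuousAt.tendsto
          rwa [ch.base] at this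
        have e2 : Tendsto (fun t : ℝ => (t : ℂ)) (𝓝 0) (𝓝 0) := by
          simpa using Complex.continuous_ofReal.tendsto 0
        exact e1.comp e2
      filter_upwards [Ioo_nhds ch.r_pos, ((hcont.tendsto w).comp hγ0).eventually_lt_const hlt] with s hs hs'
      exact ⟨(RChart.real_pt ch hs).1, (RChart.real_pt ch hs).2, by rw [hκ.chart ch hs]; exact h4, le_of_lt hs'⟩

end Curve

end Pool.Agent.H877.TP
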