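import Pool.Agent.H877.TP.R10

set_option autoImplicit false

namespace Pool.Agent.H877.TP
open MvPolynomial Filter Topology

/-- the line through two points -/
noncomputable def ln (a v : V3) : P3 :=
  MvPolynomial.C (a 1 * v 2 - a 2 * v 1) * X 0 + MvPolynomial.C (a 2 * v 0 - a 0 * v 2) * X 1 +
    MvPolynomial.C (a 0 * v 1 - a 1 * v 0) * X 2

lemma ln_hom (a v : V3) : (ln a v).IsHomogeneous 1 := by
  have t : ∀ (c : ℂ) (i : Fin 3), (MvPolynomial.C c * X i : P3).IsHomogeneous 1 := fun c i => by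
    have := (isHomogeneous_C (Fin 3) c).mul (isHomogeneous_X ℂ i)
    rwa [zero_add] at this
  exact ((t _ _).add (t _ _)).add (t _ _)

lemma eval_ln (a v x : V3) : eval x (ln a v) = (a 1 * v 2 - a 2 * v 1) * x 0 + (a 2 * v 0 - a 0 * v 2) * x 1 +
    (a 0 * v 1 - a 1 * v 0) * x 2 := by
  unfold ln
  simp only [map_add, map_mul, eval_C, eval_X]

lemma eval_ln_self (a v : V3) : eval v (ln a v) = 0 := by rw [eval_ln]; ring

lemma bar_ln {a v : V3} (ha : cj a = a) (hv : cj v = v) : bar (ln a v) = ln a v := by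
  have h1 : ∀ i, star (a i) = a i := fun i => congrFun ha i
  have h2 : ∀ i, star (v i) = v i := fun i => congrFun hv i
  have h3 : ∀ i : Fin 3, bar (X i : P3) = X i := fun i => by unfold bar; rw [map_X]
  unfold ln
  simp only [bar_add, bar_mul, bar_C, h3, star_sub, star_mul', h1, h2]

lemma ln_ne {a v : V3} (h : ¬ ∃ c : ℂ, v = c • a) (ha : a ≠ 0) : ln a v ≠ 0 := by
  intro h0
  have hx : ∀ x, eval x (ln a v) = 0 := fun x => by rw [h0, map_zero]
  have e0 := hx (Pi.single 0 1)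
  have e1 := hx (Pi.single 1 1)
  have e2 := hx (Pi.single 2 1)
  rw [eval_ln] at e0 e1 e2
  simp at e0 e1 e2
  apply h
  obtain ⟨i, hi⟩ := exists_ne_of_ne_zero ha
  fin_cases i
  · refine ⟨v 0 / a 0, ?_⟩
    ext j
    fin_cases j <;> simp at hi ⊢ <;> field_simp
    · linear_combination e2
    · linear_combination -e1
  · refine ⟨v 1 / a 1, ?_⟩
    ext j
    fin_cases j <;> simp at hi ⊢ <;> field_simp
    · linear_combination -e2
    · linear_combination e0
  · refine ⟨v 2 / a 2, ?_⟩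
    ext j
    fin_cases j <;> simp at hi ⊢ <;> field_simp
    · linear_combination e1
    · linear_combination -e0

namespace Curve
variable {C : Curve} {A B : Set V3}

/-- a real point off the curve -/
lemma exists_off_real (C : Curve) : ∃ a : V3, TP.cj a = a ∧ eval a C.F ≠ 0 := by
  by_contra hcon
  push Not at hcon
  apply C.prime.ne_zero
  refine MvPolynomial.funext_set (fun _ : Fin 3 => Set.range ((↑) : ℝ → ℂ))
    (fun _ => Set.infinite_range_of_injective Complex.ofReal_injective) fun x hx => ?_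
  rw [map_zero]
  apply hcon
  ext i
  obtain ⟨r, hr⟩ := hx i trivial
  simp only [TP.cj]
  rw [← hr, Complex.star_def, Complex.conj_ofReal]

lemma ln_nd {a : V3} (hm : 2 ≤ C.deg) (ha : eval a C.F ≠ 0) {v : V3} (hv : C.On v) : ¬ C.F ∣ ln a v := by
  intro hd
  have ha0 : a ≠ 0 := by
    rintro rfl
    apply ha
    have := eval_smul_vec (0 : V3) 0 C.hom
    rw [zero_smul, zero_pow (by have := C.pos; omega), zero_mul] at this
    exact this
  refine ln_ne (a := a) (v := v) ?_ ha0 (eq_zero_of_dvd (ln_hom a v) (by omega) hd)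
  rintro ⟨c, hc⟩
  have h1 := hv.2
  rw [hc, eval_smul_vec _ _ C.hom] at h1
  have h2 := (mul_eq_zero.1 h1).resolve_right ha
  have h3 : c = 0 := by
    by_contra h0
    exact pow_ne_zero _ h0 h2
  apply hv.1
  rw [hc, h3, zero_smul]

/-- the divisor of a line through a point of the curve -/
lemma ln_div {a : V3} (hm : 2 ≤ C.deg) (ha : eval a C.F ≠ 0) {v : V3} (hv : C.On v) :
    ∃ R : DD, IsDiv C (ln a v) (Projectivization.mk ℂ v hv.1 ::ₘ R) ∧ Multiset.card R = C.deg - 1 := by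
  classical
  have hnd := ln_nd hm ha hv
  obtain ⟨S, hS, hcard⟩ := exists_isDiv (C := C) (ln_hom a v) hnd
  have hPt : C.Pt (Projectivization.mk ℂ v hv.1) := (pt_mk hv.1).2 hv.2
  have hmem : Projectivization.mk ℂ v hv.1 ∈ S := by
    rw [← Multiset.count_pos]
    have h1 : C.ord (Projectivization.mk ℂ v hv.1) (ln a v) ≠ 0 := by
      rw [Ne, ord_pos_iff hPt, not_not]
      obtain ⟨b, hb⟩ := Projectivization.exists_smul_eq_mk_rep ℂ v hv.1
      rw [← hb]
      change eval ((b : ℂ) • v) (ln a v) = 0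
      rw [eval_smul_vec _ _ (ln_hom a v), eval_ln_self, mul_zero]
    rw [hS.2 _ hPt] at h1
    exact Nat.pos_of_ne_zero (by exact_mod_cast h1)
  obtain ⟨R, rfl⟩ := Multiset.exists_cons_of_mem hmem
  refine ⟨R, hS, ?_⟩
  rw [Multiset.card_cons] at hcard
  omega

/-- the residues of positive functions have the same sign -/
lemma sum_pole (h : Sep C A B) {e : ℕ} {G₁ G₂ M : P3} (h1 : G₁.IsHomogeneous e) (h2 : G₂.IsHomogeneous e)
    (hM : M.IsHomogeneous e) (b1 : bar G₁ = G₁) (b2 : bar G₂ = G₂) (bM : bar M = M) (p1 : Pos B G₁ M)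
    (p2 : Pos B G₂ M) (hFM : ¬ C.F ∣ M) {P : PP} (hP : C.Pt P) (hR : Rl P.rep)
    (hlt : C.ord P G₁ < C.ord P M) : C.ord P (G₁ + G₂) < C.ord P M := by
  by_contra hge
  push Not at hge
  have nc1 : ¬ ∃ c : ℂ, C.F ∣ G₁ - c • M := by
    rintro ⟨c, hc⟩
    rw [ord_congr P hc] at hlt
    rw [smul_eq_C_mul, ord_mul] at hlt
    exact absurd le_add_self (not_le.2 hlt)
  have hle := (ord_real h h1 hM b1 bM p1 nc1 hFM hP hR).2
  obtain ⟨c, hc, ch, hch⟩ := h.exists_rchart' hP hR
  have hne := RChart.ne_near ch hM hFM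
  have hne' : ∀ᶠ t in 𝓝 (0 : ℂ), 0 < t.im → eval (ch.γ t) M ≠ 0 := by
    rw [eventually_nhdsWithin_iff] at hne
    filter_upwards [hne] with t ht hti
    apply ht
    rintro rfl
    simp at hti
  have hMtop : analyticOrderAt (fun t => eval (ch.γ t) M) 0 ≠ ⊤ := by
    rw [← hch M e hM]
    exact ord_ne_top hM hFM hP
  have hs := h1.add h2
  rw [hch _ e h1, hch _ e hM] at hlt hle
  rw [hch _ e hs, hch _ e hM] at hge
  -- the residue of the first function
  have hSy1 : Sy (fun t => t * eval (ch.γ t) G₁) := Sy.id.mul (ch.sy b1)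
  have ho1 := order_tmul (ch.sy b1).1
  obtain ⟨φ, hφ, hφeq, hφne⟩ := (ch.sy bM).div hSy1 hMtop (by rw [ho1]; exact hle)
  have hφ0 := hφne (by
    rw [ho1]
    exact le_antisymm hle (Order.add_one_le_of_lt hlt))
  have hbs : bar (G₁ + G₂) = G₁ + G₂ := by rw [bar_add, b1, b2]
  obtain ⟨ψ, hψ, hψeq, -⟩ := (ch.sy bM).div (ch.sy hbs) hMtop hge
  have hposφ : ∀ {G : P3} {χ : ℂ → ℂ}, Pos B G M →
      (∀ᶠ t in 𝓝 (0 : ℂ), t * eval (ch.γ t) G = χ t * eval (ch.γ t) M) →
      ∀ᶠ t in 𝓝 (0 : ℂ), 0 < t.im → 0 ≤ (χ t * star t).im := by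
    intro G χ hp heq
    filter_upwards [RChart_pos ch hp, heq, hne'] with t e1 e2 e3 hti
    have ht0 : t ≠ 0 := by rintro rfl; simp at hti
    have h1 := e1 hti
    have e4 : eval (ch.γ t) G = χ t / t * eval (ch.γ t) M := by
      field_simp
      linear_combination e2
    rw [e4, im_mul_norm] at h1
    have h2 := (mul_nonneg_iff_of_pos_left (Complex.normSq_pos.2 (e3 hti))).1 h1
    have h3 : χ t * star t = χ t / t * t * star t := by field_simp
    rw [h3, im_mul_norm]
    exact mul_nonneg (Complex.normSq_nonneg _) h2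
  have r1 := half_pole hφ hφ0 (hposφ p1 hφeq)
  have hχ : Sy (fun t => t * ψ t + -φ t) := (Sy.id.mul hψ).add hφ.neg
  have r2 := half_pole hχ (by simpa using hφ0) (hposφ p2 (by
    filter_upwards [hφeq, hψeq] with t e1 e2
    rw [map_add] at e2
    linear_combination t * e2 - e1))
  simp at r2
  linarith

/-- one condition -/
lemma W_split {e : ℕ} {D : DD} {P : PP} {K K' : P3} (hK : K ∈ C.W e D) (hK' : K' ∈ C.W e D)
    (hn : K ∉ C.W e (P ::ₘ D)) : ∃ β : ℂ, K' - β • K ∈ C.W e (P ::ₘ D) := by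
  have h1 : C.W e (P ::ₘ D) ⊔ Submodule.span ℂ {K} = C.W e D := by
    have hle : C.W e (P ::ₘ D) ⊔ Submodule.span ℂ {K} ≤ C.W e D :=
      sup_le (W_anti (Multiset.le_cons_self _ _)) ((Submodule.span_singleton_le_iff_mem _ _).2 hK)
    have : FiniteDimensional ℂ (C.W e D) := inferInstance
    apply Submodule.eq_of_le_of_finrank_le hle
    have h2 := finrank_W_cons (C := C) e D P
    have hlt : C.W e (P ::ₘ D) < C.W e (P ::ₘ D) ⊔ Submodule.span ℂ {K} := by
      refine lt_of_le_of_ne le_sup_left fun heq => hn ?_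
      rw [heq]
      exact Submodule.mem_sup_right (Submodule.mem_span_singleton_self K)
    have : FiniteDimensional ℂ (C.W e (P ::ₘ D) ⊔ Submodule.span ℂ {K} : Submodule ℂ P3) :=
      Submodule.finiteDimensional_of_le hle
    have := Submodule.finrank_lt_finrank_of_lt hlt
    omega
  rw [← h1] at hK'
  obtain ⟨y, hy, z, hz, hyz⟩ := Submodule.mem_sup.1 hK'
  obtain ⟨β, rfl⟩ := Submodule.mem_span_singleton.1 hz
  exact ⟨β, by rw [← hyz, add_sub_cancel_right]; exact hy⟩

/-- dividing by a line -/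
lemma div_line (hC : C.Real) {ℓ : P3} (hℓ : ℓ.IsHomogeneous 1) (hbℓ : bar ℓ = ℓ) (hFℓ : ¬ C.F ∣ ℓ) {S E : DD}
    (hS : IsDiv C ℓ S) (hE : by classical exact ∀ P, E.count (cjP P) = E.count P) {e : ℕ} {K : P3}
    (hK : K ∈ C.W (e + 1) (E + S)) (hbK : bar K = K) :
    ∃ K' ∈ C.W e E, bar K' = K' ∧ C.F ∣ K - ℓ * K' := by
  classical
  obtain ⟨K₁, hK₁, hd⟩ := noether_hom (C := C) (T := K) (l := e) hℓ (by rw [add_comm]; exact hK.1) hFℓ (by
    intro P
    by_cases hP : C.Pt P
    · rw [hS.2 P hP]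
      have := hK.2 P
      rw [Multiset.count_add] at this
      push_cast at this
      exact le_add_self.trans this
    · rw [ord_of_not_pt hP, ord_of_not_pt hP])
  have hK₁W : K₁ ∈ C.W e E := by
    refine ⟨hK₁, fun P => ?_⟩
    by_cases hP : C.Pt P
    · have h1 := ord_congr P hd
      rw [ord_mul] at h1
      have h2 := hK.2 P
      rw [h1, Multiset.count_add, hS.2 P hP, add_comm] at h2
      push_cast at h2
      exact (ENat.add_le_add_iff_left (by simp)).1 h2
    · rw [ord_of_not_pt hP]; exact le_top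
  refine ⟨reP K₁, reP_mem_W hC hE hK₁W, bar_reP K₁, ?_⟩
  have h1 : C.F ∣ K - ℓ * bar K₁ := by
    have := (dvd_bar hC).2 hd
    rwa [bar_sub, bar_mul, hbK, hbℓ] at this
  have h2 : C.F ∣ ℓ * (K₁ - bar K₁) := by
    have := dvd_sub h1 hd
    have e1 : K - ℓ * bar K₁ - (K - ℓ * K₁) = ℓ * (K₁ - bar K₁) := by ring
    rwa [e1] at this
  have e2 : K - ℓ * reP K₁ = (K - ℓ * K₁) + MvPolynomial.C (1 / 2 : ℂ) * (ℓ * (K₁ - bar K₁)) := by
    have h3 : (MvPolynomial.C (1 / 2 : ℂ) : P3) + MvPolynomial.C (1 / 2 : ℂ) = 1 := by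
      rw [← map_add]; norm_num
    unfold reP
    linear_combination (-ℓ * K₁) * h3
  rw [e2]
  exact dvd_add hd (Dvd.dvd.mul_left h2 _)

section tot
variable {e : ℕ} {G H : P3} {E D : DD}

lemma Tot.D_le (t : Tot C B e G H E D) {S : DD}
    (hS : by classical exact ∀ P, C.Pt P → C.ord P H ≤ C.ord P G + (S.count P : ℕ)) : D ≤ S := by
  classical
  rw [Multiset.le_iff_count]
  intro P
  by_cases hP : P ∈ D
  · have h1 := hS P (t.ptD hP)
    rw [t.ordH (t.ptD hP), t.pol P hP] at h1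
    have h2 : E.count P + D.count P ≤ E.count P + S.count P := by exact_mod_cast h1
    omega
  · rw [Multiset.count_eq_zero.2 hP]; exact Nat.zero_le _

lemma Tot.mem_iff (t : Tot C B e G H E D) {P : PP} (hP : C.Pt P) : P ∈ D ↔ C.ord P G < C.ord P H := by
  classical
  constructor
  · intro hD
    rw [t.ordH hP, t.pol P hD]
    have := Multiset.count_pos.2 hD
    exact_mod_cast (show E.count P < E.count P + D.count P by omega)
  · intro hlt
    by_contra hD
    rw [t.ordH_notMem hP hD] at hlt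
    exact absurd (t.bas P) (not_le.2 hlt)

end tot

end Curve

end Pool.Agent.H877.TP
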