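import Pool.Agent.H877.TP.R11

set_option autoImplicit false

namespace Pool.Agent.H877.TP
open MvPolynomial Filter Topology

namespace Curve
variable {C : Curve} {A B : Set V3} {e : ℕ} {G H : P3} {E D : DD}

/-- the exchange relation: there is a total function with poles in `D - q + v` -/
def XX (C : Curve) (B : Set V3) (e : ℕ) (H : P3) (E : DD) (a : V3) (q : PP) (v : V3) : Prop :=
  ∃ (hv : v ≠ 0) (R : DD) (K : P3), IsDiv C (ln a v) (Projectivization.mk ℂ v hv ::ₘ R) ∧
    K ∈ C.W (e + 1) (q ::ₘ (E + R)) ∧ bar K = K ∧ Pos B K (H * ln a v) ∧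
    ¬ ∃ c : ℂ, C.F ∣ K - c • (H * ln a v)

/-- a total pencil with the smallest possible number `g + 1` of poles -/
structure Mn (C : Curve) (B : Set V3) (e : ℕ) (G H : P3) (E D : DD) : Prop where
  tot : Tot C B e G H E D
  min : ∀ e' G' H' E' D', Tot C B e' G' H' E' D' → Multiset.card D ≤ Multiset.card D'
  all : ∀ K ∈ C.W e E, bar K = K → ¬ Out C G H K

variable {a : V3}

lemma Hln_hom (t : Tot C B e G H E D) (a v : V3) : (H * ln a v).IsHomogeneous (e + 1) := t.hH.mul (ln_hom a v)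

lemma nd_mul {X Y : P3} (hX : ¬ C.F ∣ X) (hY : ¬ C.F ∣ Y) : ¬ C.F ∣ X * Y := fun hd =>
  (C.prime.dvd_or_dvd hd).elim hX hY

/-- the poles of an exchanged function -/
lemma Mn.poles (hM : 2 ≤ C.deg) (m : Mn C B e G H E D) (ha : eval a C.F ≠ 0) (hca : TP.cj a = a)
    {q : PP} (hq : q ∈ D) {v : V3} (hv : C.On v) (hcv : TP.cj v = v) {R : DD} {K : P3}
    (hR : IsDiv C (ln a v) (Projectivization.mk ℂ v hv.1 ::ₘ R)) (hK : K ∈ C.W (e + 1) (q ::ₘ (E + R)))
    (hbK : bar K = K) (hpos : Pos B K (H * ln a v)) (hnc : ¬ ∃ c : ℂ, C.F ∣ K - c • (H * ln a v)) :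
    ∃ E' D', Tot C B (e + 1) K (H * ln a v) E' D' ∧ q ::ₘ D' = Projectivization.mk ℂ v hv.1 ::ₘ D := by
  classical
  have t := m.tot
  have hFl := ln_nd hM ha hv
  have hdeg := t.he
  obtain ⟨E', D', t'⟩ := exists_tot (C := C) (e := e + 1) (by omega) hK.1 (Hln_hom t a v) hbK
    (by rw [bar_mul, t.bH, bar_ln hca hcv]) hpos hnc (nd_mul t.nH hFl)
  refine ⟨E', D', t', ?_⟩
  have hqS : q ∈ Projectivization.mk ℂ v hv.1 ::ₘ D := Multiset.mem_cons_of_mem hq
  obtain ⟨S, hS⟩ := Multiset.exists_cons_of_mem hqS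
  have hle : D' ≤ S := by
    refine t'.D_le fun P hP => ?_
    rw [ord_mul, t.ordH hP, hR.2 P hP]
    have h1 := hK.2 P
    have h2 : D.count P + (Projectivization.mk ℂ v hv.1 ::ₘ R).count P = (q ::ₘ (E + R)).count P - E.count P +
        S.count P + 0 * 0 := by
      have h3 := congrArg (Multiset.count P) hS
      rw [Multiset.count_cons, Multiset.count_cons] at h3
      rw [Multiset.count_cons, Multiset.count_cons, Multiset.count_add]
      omega
    have h4 : E.count P ≤ (q ::ₘ (E + R)).count P := by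
      rw [Multiset.count_cons, Multiset.count_add]; omega
    have h5 : E.count P + D.count P + (Projectivization.mk ℂ v hv.1 ::ₘ R).count P =
        (q ::ₘ (E + R)).count P + S.count P := by omega
    calc (E.count P : ℕ∞) + D.count P + ((Projectivization.mk ℂ v hv.1 ::ₘ R).count P : ℕ) =
        (((q ::ₘ (E + R)).count P + S.count P : ℕ) : ℕ∞) := by rw [← h5]; push_cast; rfl
      _ = ((q ::ₘ (E + R)).count P : ℕ∞) + (S.count P : ℕ) := by push_cast; rfl
      _ ≤ _ := by gcongr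
  have hmin := m.min _ _ _ _ _ t'
  have hc := congrArg Multiset.card hS
  rw [Multiset.card_cons, Multiset.card_cons] at hc
  have := Multiset.eq_of_le_of_card_le hle (by omega)
  rw [this, ← hS]

/-- the sets of the exchange relation are disjoint -/
lemma Mn.disj (h : Sep C A B) (hM : 2 ≤ C.deg) (m : Mn C B e G H E D) (ha : eval a C.F ≠ 0) (hca : TP.cj a = a)
    {q q' : PP} (hq : q ∈ D) (hq' : q' ∈ D) (hne : q ≠ q') {v : V3} (hv : C.On v) (hcv : TP.cj v = v)
    (hx : XX C B e H E a q v) (hx' : XX C B e H E a q' v) : False := by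
  classical
  have t := m.tot
  have hC := h.real
  have hFl := ln_nd hM ha hv
  obtain ⟨_, R, K, hR, hK, hbK, hpos, hnc⟩ := hx
  obtain ⟨_, R', K', hR', hK', hbK', hpos', hnc'⟩ := hx'
  have hRR : R' = R := by
    have := hR'.unique hR
    exact (Multiset.cons_inj_right _).1 this
  subst hRR
  rename' R' => R
  obtain ⟨E₁, D₁, t₁, h₁⟩ := m.poles hM ha hca hq hv hcv hR hK hbK hpos hnc
  obtain ⟨E₂, D₂, t₂, h₂⟩ := m.poles hM ha hca hq' hv hcv hR' hK' hbK' hpos' hnc'
  set s := Projectivization.mk ℂ v hv.1 with hs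
  set M := H * ln a v with hMdef
  have hMh : M.IsHomogeneous (e + 1) := Hln_hom t a v
  have hbℓ := bar_ln hca hcv
  have hbM : bar M = M := by rw [hMdef, bar_mul, t.bH, hbℓ]
  have hFM : ¬ C.F ∣ M := nd_mul t.nH hFl
  have hnd₁ := t₁.nodup h
  have hnd₂ := t₂.nodup h
  have hndD := t.nodup h
  -- `s` is not in `D`
  have hsD : s ∉ D := by
    intro hsD
    have key : ∀ {q : PP} {D₁ : DD}, D₁.Nodup → q ::ₘ D₁ = s ::ₘ D → q = s := by
      intro q D₁ hnd heq
      by_contra hqs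
      have h3 := congrArg (Multiset.count s) heq
      rw [Multiset.count_cons_of_ne (Ne.symm hqs), Multiset.count_cons_self] at h3
      have h4 := Multiset.nodup_iff_count_le_one.1 hnd s
      have h5 := Multiset.count_pos.2 hsD
      omega
    exact hne ((key hnd₁ h₁).trans (key hnd₂ h₂).symm)
  have hqs : q ≠ s := fun h0 => hsD (h0 ▸ hq)
  have hqs' : q' ≠ s := fun h0 => hsD (h0 ▸ hq')
  have hmem₁ : ∀ P, P ∈ D₁ ↔ P ≠ q ∧ (P = s ∨ P ∈ D) := by
    intro P
    have hndq : (q ::ₘ D₁).Nodup := by rw [h₁]; exact Multiset.nodup_cons.2 ⟨hsD, hndD⟩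
    have hqD₁ := (Multiset.nodup_cons.1 hndq).1
    constructor
    · intro hP
      refine ⟨fun h0 => hqD₁ (h0 ▸ hP), ?_⟩
      have : P ∈ q ::ₘ D₁ := Multiset.mem_cons_of_mem hP
      rw [h₁] at this
      exact Multiset.mem_cons.1 this
    · rintro ⟨h3, h4⟩
      have : P ∈ s ::ₘ D := Multiset.mem_cons.2 h4
      rw [← h₁] at this
      exact (Multiset.mem_cons.1 this).resolve_left h3
  have hmem₂ : ∀ P, P ∈ D₂ ↔ P ≠ q' ∧ (P = s ∨ P ∈ D) := by
    intro P
    have hndq : (q' ::ₘ D₂).Nodup := by rw [h₂]; exact Multiset.nodup_cons.2 ⟨hsD, hndD⟩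
    have hqD₁ := (Multiset.nodup_cons.1 hndq).1
    constructor
    · intro hP
      refine ⟨fun h0 => hqD₁ (h0 ▸ hP), ?_⟩
      have : P ∈ q' ::ₘ D₂ := Multiset.mem_cons_of_mem hP
      rw [h₂] at this
      exact Multiset.mem_cons.1 this
    · rintro ⟨h3, h4⟩
      have : P ∈ s ::ₘ D := Multiset.mem_cons.2 h4
      rw [← h₂] at this
      exact (Multiset.mem_cons.1 this).resolve_left h3
  have hsPt : C.Pt s := (pt_mk hv.1).2 hv.2
  have hsR : Rl s.rep := (Rl_mk hv.1).2 (Rl_of_cj hcv)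
  have hqPt := t.ptD hq
  have hqR := t.realD h hq
  have hqPt' := t.ptD hq'
  have hqR' := t.realD h hq'
  -- the third function
  have hG1h : (G * ln a v).IsHomogeneous (e + 1) := t.hG.mul (ln_hom a v)
  have hbG1 : bar (G * ln a v) = G * ln a v := by rw [bar_mul, t.bG, hbℓ]
  have hposG1 : Pos B (G * ln a v) M := pos_mul t.pos _
  have hordG1 : ∀ P, C.Pt P → (C.ord P (G * ln a v) < C.ord P M ↔ P ∈ D) := by
    intro P hP
    rw [t.mem_iff hP, hMdef, ord_mul, ord_mul]
    have h3 : C.ord P (ln a v) ≠ ⊤ := ord_ne_top (ln_hom a v) hFl hP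
    exact ENat.add_lt_add_iff_right h3
  -- the linear relation
  have hKW : K ∈ C.W (e + 1) (E + R) := W_anti (Multiset.le_cons_self _ _) hK
  have hKW' : K' ∈ C.W (e + 1) (E + R) := W_anti (Multiset.le_cons_self _ _) hK'
  have hcj : ∀ P, (s ::ₘ (E + R)).count (cjP P) = (s ::ₘ (E + R)).count P := by
    intro P
    have e1 : ∀ P, C.Pt P → ((s ::ₘ (E + R)).count P : ℕ∞) = E.count P + C.ord P (ln a v) := by
      intro P hP
      rw [hR.2 P hP, Multiset.count_cons, Multiset.count_cons, Multiset.count_add]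
      push_cast; ring
    by_cases hP : C.Pt P
    · have h3 := e1 _ ((pt_cjP hC).2 hP)
      have h4 := e1 _ hP
      rw [ord_cjP' hC P (ln_hom a v) hbℓ, t.count_cj h P, ← h4] at h3
      exact_mod_cast h3
    · have hpts : ∀ Q ∈ s ::ₘ (E + R), C.Pt Q := by
        intro Q hQ
        rcases Multiset.mem_cons.1 hQ with rfl | hQ
        · exact hsPt
        · rcases Multiset.mem_add.1 hQ with hQ | hQ
          · exact t.ptE hQ
          · exact hR.1 Q (Multiset.mem_cons_of_mem hQ)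
      rw [count_zero hpts hP, count_zero hpts (fun h' => hP ((pt_cjP hC).1 h'))]
  have hKn : K ∉ C.W (e + 1) (s ::ₘ (E + R)) := by
    intro hmem
    have h3 : s ∈ D₁ := (hmem₁ s).2 ⟨Ne.symm hqs, Or.inl rfl⟩
    rw [t₁.mem_iff hsPt] at h3
    have h4 := hmem.2 s
    rw [hMdef, ord_mul, t.ordH_notMem hsPt hsD, hR.2 s hsPt, Multiset.count_cons_self] at h3
    rw [Multiset.count_cons_self, Multiset.count_add] at h4
    have h5 : ((E.count s + R.count s + 1 : ℕ) : ℕ∞) = (E.count s : ℕ∞) + ((R.count s + 1 : ℕ) : ℕ∞) := by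
      push_cast; ring
    rw [h5] at h4
    exact absurd h4 (not_le.2 h3)
  obtain ⟨β, hβ⟩ := W_split hKW hKW' hKn
  have hβr : star β = β := by
    have h3 := bar_mem_W hC hcj hβ
    rw [bar_sub, bar_smul, hbK, hbK'] at h3
    have h4 : (star β - β) • K ∈ C.W (e + 1) (s ::ₘ (E + R)) := by
      have := Submodule.sub_mem _ hβ h3
      have e1 : K' - β • K - (K' - star β • K) = (star β - β) • K := by rw [sub_smul]; abel
      rwa [e1] at this
    by_contra h0
    have h5 : star β - β ≠ 0 := sub_ne_zero.2 h0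
    have h6 := Submodule.smul_mem _ (star β - β)⁻¹ h4
    rw [smul_smul, inv_mul_cancel₀ h5, one_smul] at h6
    exact hKn h6
  have hβre : ((β.re : ℝ) : ℂ) = β := Complex.conj_eq_iff_re.1 hβr
  have hbd : bar (K' - β • K) = K' - β • K := by rw [bar_sub, bar_smul, hbK, hbK', hβr]
  obtain ⟨L, hL, hbL, hdL⟩ := div_line hC (ln_hom a v) hbℓ hFl hR (fun P => t.count_cj h P) (K := K' - β • K)
    (by
      have e1 : E + (s ::ₘ R) = s ::ₘ (E + R) := by
        rw [← Multiset.singleton_add, ← Multiset.singleton_add]; abel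
      rw [e1]; exact hβ) hbd
  have hno := m.all L hL hbL
  unfold Out at hno
  push Not at hno
  obtain ⟨α, γ, hαγ⟩ := hno
  -- `K' = β K + α G ℓ + γ M`
  have hrel : C.F ∣ K' - (MvPolynomial.C ((β.re : ℝ) : ℂ) * K + MvPolynomial.C (α : ℂ) * (G * ln a v) +
      MvPolynomial.C (γ : ℂ) * M) := by
    have h3 := dvd_add hdL (Dvd.dvd.mul_left hαγ (ln a v))
    have e1 : K' - β • K - ln a v * L + ln a v * (L - (MvPolynomial.C (α : ℂ) * G + MvPolynomial.C (γ : ℂ) * H)) =
        K' - (MvPolynomial.C ((β.re : ℝ) : ℂ) * K + MvPolynomial.C (α : ℂ) * (G * ln a v) +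
      MvPolynomial.C (γ : ℂ) * M) := by
      rw [hβre, smul_eq_C_mul, hMdef]; ring
    rwa [e1] at h3
  have hCh : ∀ (r : ℝ) {X : P3}, X.IsHomogeneous (e + 1) → (MvPolynomial.C (r : ℂ) * X).IsHomogeneous (e + 1) := by
    intro r X hX
    rw [← smul_eq_C_mul]
    exact (homogeneousSubmodule (Fin 3) ℂ (e + 1)).smul_mem _ hX
  have hCb : ∀ (r : ℝ) {X : P3}, bar X = X → bar (MvPolynomial.C (r : ℂ) * X) = MvPolynomial.C (r : ℂ) * X := by
    intro r X hX
    rw [bar_mul, bar_C_real, hX]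
  have hCo : ∀ (r : ℝ) (X : P3) (P : PP), C.ord P X ≤ C.ord P (MvPolynomial.C (r : ℂ) * X) := by
    intro r X P
    rw [ord_mul]; exact le_add_self
  have hCo' : ∀ (r : ℝ), r ≠ 0 → ∀ (X : P3) (P : PP), C.ord P (MvPolynomial.C (r : ℂ) * X) = C.ord P X := by
    intro r hr X P
    by_cases hP : C.Pt P
    · rw [ord_mul]
      have : C.ord P (MvPolynomial.C (r : ℂ)) = 0 := by
        rw [ord_pos_iff hP]; simpa using hr
      rw [this, zero_add]
    · rw [ord_of_not_pt hP, ord_of_not_pt hP]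
  have hadd : ∀ {X Y : P3} {P : PP}, C.ord P M ≤ C.ord P X → C.ord P M ≤ C.ord P Y →
      C.ord P M ≤ C.ord P (X + Y) := fun hX hY => (le_min hX hY).trans (le_ord_add _ _ _)
  rcases le_or_gt β.re 0 with hβ0 | hβ0
  · -- compare at `s`
    have h3 : C.ord s (K' + MvPolynomial.C ((-β.re : ℝ) : ℂ) * K) < C.ord s M := by
      refine sum_pole h t₂.hG (hCh _ t₁.hG) hMh hbK' (hCb _ hbK) hbM hpos' (pos_smul (by linarith) hpos) hFM
        hsPt hsR ?_
      exact (t₂.mem_iff hsPt).1 ((hmem₂ s).2 ⟨Ne.symm hqs', Or.inl rfl⟩)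
    have h4 : C.ord s (K' + MvPolynomial.C ((-β.re : ℝ) : ℂ) * K) =
        C.ord s (MvPolynomial.C (α : ℂ) * (G * ln a v) + MvPolynomial.C (γ : ℂ) * M) := by
      apply ord_congr
      have e1 : K' + MvPolynomial.C ((-β.re : ℝ) : ℂ) * K - (MvPolynomial.C (α : ℂ) * (G * ln a v) +
          MvPolynomial.C (γ : ℂ) * M) = K' - (MvPolynomial.C ((β.re : ℝ) : ℂ) * K +
          MvPolynomial.C (α : ℂ) * (G * ln a v) + MvPolynomial.C (γ : ℂ) * M) := by
        push_cast; rw [map_neg]; ring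
      rw [e1]; exact hrel
    rw [h4] at h3
    refine absurd (hadd ?_ (hCo _ _ _)) (not_le.2 h3)
    refine le_trans ?_ (hCo _ _ _)
    by_contra h5
    push Not at h5
    exact hsD ((hordG1 s hsPt).1 h5)
  · rcases le_or_gt α 0 with hα0 | hα0
    · -- compare at `q`
      have h3 : C.ord q (K' + MvPolynomial.C ((-α : ℝ) : ℂ) * (G * ln a v)) < C.ord q M := by
        refine sum_pole h t₂.hG (hCh _ hG1h) hMh hbK' (hCb _ hbG1) hbM hpos' (pos_smul (by linarith) hposG1) hFM
          hqPt hqR ?_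
        exact (t₂.mem_iff hqPt).1 ((hmem₂ q).2 ⟨hne, Or.inr hq⟩)
      have h4 : C.ord q (K' + MvPolynomial.C ((-α : ℝ) : ℂ) * (G * ln a v)) =
          C.ord q (MvPolynomial.C ((β.re : ℝ) : ℂ) * K + MvPolynomial.C (γ : ℂ) * M) := by
        apply ord_congr
        have e1 : K' + MvPolynomial.C ((-α : ℝ) : ℂ) * (G * ln a v) - (MvPolynomial.C ((β.re : ℝ) : ℂ) * K +
            MvPolynomial.C (γ : ℂ) * M) = K' - (MvPolynomial.C ((β.re : ℝ) : ℂ) * K +
            MvPolynomial.C (α : ℂ) * (G * ln a v) + MvPolynomial.C (γ : ℂ) * M) := by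
          push_cast; rw [map_neg]; ring
        rw [e1]; exact hrel
      rw [h4] at h3
      refine absurd (hadd ?_ (hCo _ _ _)) (not_le.2 h3)
      refine le_trans ?_ (hCo _ _ _)
      by_contra h5
      push Not at h5
      exact ((hmem₁ q).1 ((t₁.mem_iff hqPt).2 h5)).1 rfl
    · -- compare at `q'`
      have h3 : C.ord q' (MvPolynomial.C ((β.re : ℝ) : ℂ) * K + MvPolynomial.C (α : ℂ) * (G * ln a v)) <
          C.ord q' M := by
        refine sum_pole h (hCh _ t₁.hG) (hCh _ hG1h) hMh (hCb _ hbK) (hCb _ hbG1) hbM (pos_smul hβ0.le hpos)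
          (pos_smul hα0.le hposG1) hFM hqPt' hqR' ?_
        rw [hCo' _ hβ0.ne']
        exact (t₁.mem_iff hqPt').1 ((hmem₁ q').2 ⟨Ne.symm hne, Or.inr hq'⟩)
      have h4 : C.ord q' (MvPolynomial.C ((β.re : ℝ) : ℂ) * K + MvPolynomial.C (α : ℂ) * (G * ln a v)) =
          C.ord q' (K' + MvPolynomial.C ((-γ : ℝ) : ℂ) * M) := by
        symm
        apply ord_congr
        have e1 : K' + MvPolynomial.C ((-γ : ℝ) : ℂ) * M - (MvPolynomial.C ((β.re : ℝ) : ℂ) * K +
            MvPolynomial.C (α : ℂ) * (G * ln a v)) = K' - (MvPolynomial.C ((β.re : ℝ) : ℂ) * K +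
            MvPolynomial.C (α : ℂ) * (G * ln a v) + MvPolynomial.C (γ : ℂ) * M) := by
          push_cast; rw [map_neg]; ring
        rw [e1]; exact hrel
      rw [h4] at h3
      refine absurd (hadd ?_ (hCo _ _ _)) (not_le.2 h3)
      by_contra h5
      push Not at h5
      exact ((hmem₂ q').1 ((t₂.mem_iff hqPt').2 h5)).1 rfl

end Curve

end Pool.Agent.H877.TP
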