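import Pool.Agent.H877.TP.R12

set_option autoImplicit false

namespace Pool.Agent.H877.TP
open MvPolynomial Filter Topology

namespace Curve
variable {C : Curve} {A B : Set V3} {e : ℕ} {G H : P3} {E D : DD} {a : V3}

lemma Lc_smul (hopB : Op C B) {G H K : P3} (hG : G.IsHomogeneous e) (hH : H.IsHomogeneous e)
    (hK : K.IsHomogeneous e) {x : V3} {c : ℂ} (hc : c ≠ 0) (hl : Lc B G H K x) : Lc B G H K (c • x) := by
  obtain ⟨M, hM, hev⟩ := hl
  refine ⟨M, hM, ?_⟩
  have h1 : Tendsto (fun q : V3 => c⁻¹ • q) (𝓝 (c • x)) (𝓝 x) := by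
    have := (continuous_const_smul (c⁻¹) (T := V3)).tendsto (c • x)
    rwa [smul_smul, inv_mul_cancel₀ hc, one_smul] at this
  filter_upwards [h1.eventually hev] with q hq hqB
  have h2 := hq (hopB.smul q hqB _ (inv_ne_zero hc))
  rw [im_smul _ _ hG hH, im_smul _ _ hK hH] at h2
  have hpow : 0 < (‖c⁻¹‖ ^ 2) ^ e := by
    have : 0 < ‖c⁻¹‖ := norm_pos_iff.2 (inv_ne_zero hc)
    positivity
  have h3 : (‖c⁻¹‖ ^ 2) ^ e * (-M * (eval q G * star (eval q H)).im) ≤
      (‖c⁻¹‖ ^ 2) ^ e * (eval q K * star (eval q H)).im := by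
    calc _ = -M * ((‖c⁻¹‖ ^ 2) ^ e * (eval q G * star (eval q H)).im) := by ring
      _ ≤ _ := h2
  exact le_of_mul_le_mul_left h3 hpow

/-- the divisor of a real form is invariant under conjugation -/
lemma count_cj_of_div (hC : C.Real) {K : P3} {k : ℕ} (hK : K.IsHomogeneous k) (hb : bar K = K) {S : DD}
    (hS : IsDiv C K S) (P : PP) : (by classical exact S.count (cjP P) = S.count P) := by
  classical
  by_cases hP : C.Pt P
  · have h1 := ord_cjP' hC P hK hb
    rw [hS.2 P hP, hS.2 _ ((pt_cjP hC).2 hP)] at h1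
    exact_mod_cast h1
  · rw [count_zero hS.1 hP, count_zero hS.1 (fun h' => hP ((pt_cjP hC).1 h'))]

/-- the sets of the exchange relation cover the real locus -/
lemma Mn.cover (h : Sep C A B) (hM : 2 ≤ C.deg) (m : Mn C B e G H E D) (hk : Multiset.card D = C.g + 1)
    (ha : eval a C.F ≠ 0) (hca : TP.cj a = a) {v : V3} (hv : C.On v) (hcv : TP.cj v = v) :
    ∃ q ∈ D, XX C B e H E a q v := by
  classical
  have t := m.tot
  have hC := h.real
  have hdeg := t.he
  have hFl := ln_nd hM ha hv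
  obtain ⟨R, hR, hRc⟩ := ln_div hM ha hv
  set s := Projectivization.mk ℂ v hv.1 with hs
  set M := H * ln a v with hMdef
  set G₁ := G * ln a v with hG₁def
  have hMh : M.IsHomogeneous (e + 1) := Hln_hom t a v
  have hbℓ := bar_ln hca hcv
  have hbM : bar M = M := by rw [hMdef, bar_mul, t.bH, hbℓ]
  have hFM : ¬ C.F ∣ M := nd_mul t.nH hFl
  have hG1h : G₁.IsHomogeneous (e + 1) := t.hG.mul (ln_hom a v)
  have hbG1 : bar G₁ = G₁ := by rw [hG₁def, bar_mul, t.bG, hbℓ]
  have hposG1 : Pos B G₁ M := pos_mul t.pos _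
  have hnc1 : ¬ ∃ c : ℂ, C.F ∣ G₁ - c • M := by
    rintro ⟨c, hc⟩
    apply t.nc
    refine ⟨c, ?_⟩
    have e1 : G₁ - c • M = (G - c • H) * ln a v := by
      rw [hG₁def, hMdef, smul_eq_C_mul, smul_eq_C_mul]; ring
    rw [e1] at hc
    exact (C.prime.dvd_or_dvd hc).resolve_right hFl
  have hsPt : C.Pt s := (pt_mk hv.1).2 hv.2
  have hsR : Rl s.rep := (Rl_mk hv.1).2 (Rl_of_cj hcv)
  have hndD := t.nodup h
  have hG1W : G₁ ∈ C.W (e + 1) (s ::ₘ (E + R)) := by
    refine ⟨hG1h, fun P => ?_⟩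
    by_cases hP : C.Pt P
    · rw [hG₁def, ord_mul, hR.2 P hP]
      have e1 : (s ::ₘ (E + R)).count P = E.count P + (s ::ₘ R).count P := by
        rw [Multiset.count_cons, Multiset.count_cons, Multiset.count_add]; ring
      rw [e1]; push_cast
      exact add_le_add (t.bas P) le_rfl
    · rw [ord_of_not_pt hP]; exact le_top
  by_cases hsD : s ∈ D
  · exact ⟨s, hsD, hv.1, R, G₁, hR, hG1W, hbG1, hposG1, hnc1⟩
  -- orders of the denominators
  have hordM : ∀ P, C.Pt P → C.ord P M = ((E.count P + D.count P + (s ::ₘ R).count P : ℕ) : ℕ∞) := by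
    intro P hP
    rw [hMdef, ord_mul, t.ordH hP, hR.2 P hP]; push_cast; rfl
  -- invariance under conjugation
  have hcjS := count_cj_of_div hC (ln_hom a v) hbℓ hR
  have hcjR : ∀ P, R.count (cjP P) = R.count P := by
    intro P
    have h1 := hcjS P
    rw [Multiset.count_cons, Multiset.count_cons] at h1
    have h2 : (cjP P = s) ↔ (P = s) := by
      constructor
      · intro h3
        have := congrArg cjP h3
        rwa [cjP_cjP, cjP_of_real hsR] at this
      · rintro rfl; exact cjP_of_real hsR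
    simp only [h2] at h1
    omega
  have hcjER : ∀ P, (E + R).count (cjP P) = (E + R).count P := by
    intro P
    rw [Multiset.count_add, Multiset.count_add, hcjR P, t.count_cj h P]
  -- existence of a new function
  obtain ⟨K, hK, hbK, hKout⟩ : ∃ K ∈ C.W (e + 1) (E + R), bar K = K ∧ Out C G₁ M K := by
    by_contra hcon
    push Not at hcon
    have h1 := finrank_le_two hC (e := e + 1) (by omega) hG1h hMh hcjER hcon
    have h2 := bb_le_W (C := C) (e + 1) (E + R)
    have h3 := bb_gen (d := C.deg) (e := e + 1) C.pos (by omega)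
    have h4 := t.card_eq
    rw [Multiset.card_add] at h2
    unfold g at hk
    have h5 : C.deg * (e + 1) = C.deg * e + C.deg := by ring
    omega
  have hKn : K ∉ C.W (e + 1) (s ::ₘ (E + R)) := by
    intro hmem
    obtain ⟨L, hL, hbL, hdL⟩ := div_line hC (ln_hom a v) hbℓ hFl hR (fun P => t.count_cj h P) (K := K)
      (by
        have e1 : E + (s ::ₘ R) = s ::ₘ (E + R) := by
          rw [← Multiset.singleton_add, ← Multiset.singleton_add]; abel
        rw [e1]; exact hmem) hbK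
    have hno := m.all L hL hbL
    unfold Out at hno
    push Not at hno
    obtain ⟨α, γ, hαγ⟩ := hno
    apply hKout α γ
    have h3 := dvd_add hdL (Dvd.dvd.mul_left hαγ (ln a v))
    have e1 : K - ln a v * L + ln a v * (L - (MvPolynomial.C (α : ℂ) * G + MvPolynomial.C (γ : ℂ) * H)) =
        K - (MvPolynomial.C (α : ℂ) * G₁ + MvPolynomial.C (γ : ℂ) * M) := by
      rw [hMdef, hG₁def]; ring
    rwa [e1] at h3
  -- local comparison away from `s`
  have hloc : ∀ K' : P3, K' ∈ C.W (e + 1) (E + R) → bar K' = K' → ∀ x (hx : C.On x),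
      Projectivization.mk ℂ x hx.1 ≠ s → Lc B G₁ M K' x := by
    intro K' hK' hbK' x hx hxs
    have hPt : C.Pt (Projectivization.mk ℂ x hx.1) := (pt_mk hx.1).2 hx.2
    set P := Projectivization.mk ℂ x hx.1 with hP
    have hcs : (s ::ₘ R).count P = R.count P := Multiset.count_cons_of_ne hxs _
    have hKP := hK'.2 P
    rw [Multiset.count_add] at hKP
    by_cases hxR : Rl x
    · have h1 : C.ord P M ≤ C.ord P K' + 1 := by
        rw [hordM P hPt, hcs]
        have h2 : D.count P ≤ 1 := Multiset.nodup_iff_count_le_one.1 hndD P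
        calc ((E.count P + D.count P + R.count P : ℕ) : ℕ∞) ≤ ((E.count P + R.count P + 1 : ℕ) : ℕ∞) := by
              exact_mod_cast (by omega)
          _ = ((E.count P + R.count P : ℕ) : ℕ∞) + 1 := by push_cast; rfl
          _ ≤ _ := by gcongr
      rcases lc_real h hG1h hMh hbG1 hbM hposG1 hnc1 hFM hK'.1 hbK' hx hxR h1 with h2 | ⟨h2, h3, -⟩
      · exact h2
      · exfalso
        change C.ord P M ≤ C.ord P G₁ at h2
        change C.ord P K' < C.ord P M at h3
        by_cases hPD : P ∈ D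
        · rw [hordM P hPt, hG₁def, ord_mul, t.pol P hPD, hR.2 P hPt] at h2
          have h4 : E.count P + D.count P + (s ::ₘ R).count P ≤ E.count P + (s ::ₘ R).count P := by exact_mod_cast h2
          have := Multiset.count_pos.2 hPD
          omega
        · rw [hordM P hPt, Multiset.count_eq_zero.2 hPD, hcs, add_zero] at h3
          exact absurd hKP (not_le.2 h3)
    · refine lc_nonreal h hG1h hMh hposG1 hnc1 hFM hK'.1 hx hxR ?_
      have hPD : P ∉ D := fun hD => hxR ((Rl_mk hx.1).1 (t.realD h hD))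
      change C.ord P M ≤ C.ord P K'
      rw [hordM P hPt, Multiset.count_eq_zero.2 hPD, hcs, add_zero]
      exact hKP
  -- at `s`
  have hsloc : Lc B G₁ M K v ∨ Lc B G₁ M (-K) v := by
    have h1 : C.ord s M ≤ C.ord s K + 1 := by
      rw [hordM s hsPt, Multiset.count_eq_zero.2 hsD, Multiset.count_cons_self]
      have h2 := hK.2 s
      rw [Multiset.count_add] at h2
      calc ((E.count s + 0 + (R.count s + 1) : ℕ) : ℕ∞) = ((E.count s + R.count s : ℕ) : ℕ∞) + 1 := by
            push_cast; ring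
        _ ≤ _ := by gcongr
    rcases lc_real h hG1h hMh hbG1 hbM hposG1 hnc1 hFM hK.1 hbK hv (Rl_of_cj hcv) h1 with h2 | ⟨-, -, h2⟩
    · exact Or.inl h2
    · exact Or.inr h2
  -- normalise the sign
  obtain ⟨K', hK', hbK', hout', hKn', hlc'⟩ : ∃ K' ∈ C.W (e + 1) (E + R), bar K' = K' ∧ Out C G₁ M K' ∧
      K' ∉ C.W (e + 1) (s ::ₘ (E + R)) ∧ Lc B G₁ M K' v := by
    rcases hsloc with h1 | h1
    · exact ⟨K, hK, hbK, hKout, hKn, h1⟩
    · refine ⟨-K, Submodule.neg_mem _ hK, by rw [bar_neg, hbK], hKout.neg, fun h2 => hKn ?_, h1⟩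
      have := Submodule.neg_mem _ h2
      rwa [neg_neg] at this
  have hglob : ∀ x, C.On x → Lc B G₁ M K' x := by
    intro x hx
    by_cases hxs : Projectivization.mk ℂ x hx.1 = s
    · obtain ⟨b, hb⟩ : ∃ b : ℂ, b • v = x := by
        rw [hs, Projectivization.mk_eq_mk_iff'] at hxs
        exact hxs
      have hb0 : b ≠ 0 := by
        rintro rfl
        rw [zero_smul] at hb
        exact hx.1 hb.symm
      rw [← hb]
      exact Lc_smul h.opB hG1h hMh hK'.1 hb0 hlc'
    · exact hloc K' hK' hbK' x hx hxs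
  obtain ⟨M₀, hM₀, hPos₀⟩ := glob h.opB hG1h hMh hposG1 hK'.1 hglob
  set G₀ := K' + MvPolynomial.C (M₀ : ℂ) * G₁ with hG₀def
  have hCh : ∀ (r : ℝ) {X : P3}, X.IsHomogeneous (e + 1) → (MvPolynomial.C (r : ℂ) * X).IsHomogeneous (e + 1) := by
    intro r X hX
    rw [← smul_eq_C_mul]
    exact (homogeneousSubmodule (Fin 3) ℂ (e + 1)).smul_mem _ hX
  have hCb : ∀ (r : ℝ) {X : P3}, bar X = X → bar (MvPolynomial.C (r : ℂ) * X) = MvPolynomial.C (r : ℂ) * X := by
    intro r X hX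
    rw [bar_mul, bar_C_real, hX]
  -- minimise
  have hOutn : Out C G₀ M (-G₁) := by
    intro α γ hd
    by_cases hα : α = 0
    · apply hnc1
      refine ⟨((-γ : ℝ) : ℂ), ?_⟩
      have := (dvd_neg).2 hd
      have e1 : G₁ - ((-γ : ℝ) : ℂ) • M = -(-G₁ - (MvPolynomial.C (α : ℂ) * G₀ + MvPolynomial.C (γ : ℂ) * M)) := by
        rw [hα, smul_eq_C_mul]; push_cast; rw [map_zero, map_neg]; ring
      rw [e1]; exact this
    · apply hout' (-(1 + α * M₀) / α) (-γ / α)
      apply dvd_of_C_mul (c := ((-α : ℝ) : ℂ)) (by simpa using hα)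
      have hα' : (α : ℂ) ≠ 0 := by exact_mod_cast hα
      have a1 : (MvPolynomial.C ((-α : ℝ) : ℂ) : P3) * MvPolynomial.C ((-(1 + α * M₀) / α : ℝ) : ℂ) =
          1 + MvPolynomial.C (α : ℂ) * MvPolynomial.C (M₀ : ℂ) := by
        rw [← map_mul, ← map_mul, ← map_one (MvPolynomial.C (σ := Fin 3) (R := ℂ)), ← map_add]
        congr 1
        push_cast
        field_simp
      have a2 : (MvPolynomial.C ((-α : ℝ) : ℂ) : P3) * MvPolynomial.C ((-γ / α : ℝ) : ℂ) =
          MvPolynomial.C (γ : ℂ) := by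
        rw [← map_mul]
        congr 1
        push_cast
        field_simp
      have a3 : (MvPolynomial.C ((-α : ℝ) : ℂ) : P3) = -MvPolynomial.C (α : ℂ) := by push_cast; rw [map_neg]
      have e1 : MvPolynomial.C ((-α : ℝ) : ℂ) * (K' - (MvPolynomial.C ((-(1 + α * M₀) / α : ℝ) : ℂ) * G₁ +
          MvPolynomial.C ((-γ / α : ℝ) : ℂ) * M)) =
          -G₁ - (MvPolynomial.C (α : ℂ) * G₀ + MvPolynomial.C (γ : ℂ) * M) := by
        rw [hG₀def]
        linear_combination (-G₁) * a1 - M * a2 + K' * a3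
      rw [e1]; exact hd
  have hG₀h : G₀.IsHomogeneous (e + 1) := hK'.1.add (hCh _ hG1h)
  have hbG₀ : bar G₀ = G₀ := by rw [hG₀def, bar_add, hbK', hCb _ hbG1]
  obtain ⟨r, hr⟩ := exists_notPos h (G := G₀) hG1h.neg hMh (by rw [bar_neg, hbG1]) hbM hFM hOutn
  have hr0 : 0 < r := by
    by_contra hle
    push Not at hle
    apply hr
    have h1 := pos_add hPos₀ (pos_smul (r := -r) (by linarith) hposG1)
    have e1 : G₀ + MvPolynomial.C (r : ℂ) * -G₁ = K' + MvPolynomial.C (M₀ : ℂ) * G₁ +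
        MvPolynomial.C ((-r : ℝ) : ℂ) * G₁ := by
      rw [hG₀def]; push_cast; rw [map_neg]; ring
    rw [e1]; exact h1
  obtain ⟨σ, hσ, hσ0, hmax⟩ := exists_max (pos_closed (B := B) G₀ (-G₁) M)
    (show Pos B (G₀ + MvPolynomial.C ((0 : ℝ) : ℂ) * -G₁) M by
      rw [Complex.ofReal_zero, map_zero, zero_mul, add_zero]; exact hPos₀) hr0 hr
    (fun a b c ha hb hac hcb => pos_convex hac hcb ha hb)
  set G₂ := G₀ + MvPolynomial.C (σ : ℂ) * -G₁ with hG₂def
  have hG₂h : G₂.IsHomogeneous (e + 1) := hG₀h.add (hCh _ hG1h.neg)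
  have hbG₂ : bar G₂ = G₂ := by rw [hG₂def, bar_add, hbG₀, hCb _ (by rw [bar_neg, hbG1])]
  have hG₂eq : G₂ = K' + MvPolynomial.C ((M₀ - σ : ℝ) : ℂ) * G₁ := by
    rw [hG₂def, hG₀def]; push_cast; rw [map_sub]; ring
  have hnc₂ : ¬ ∃ c : ℂ, C.F ∣ G₂ - c • M := by
    rintro ⟨c, hc⟩
    have hcr := real_of_dvd hC hbG₂ hbM hFM hc
    apply hout' (-(M₀ - σ)) c.re
    have e1 : K' - (MvPolynomial.C ((-(M₀ - σ) : ℝ) : ℂ) * G₁ + MvPolynomial.C ((c.re : ℝ) : ℂ) * M) =
        G₂ - c • M := by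
      rw [hG₂eq, smul_eq_C_mul, hcr]; push_cast; rw [map_neg]; ring
    rw [e1]; exact hc
  obtain ⟨E₂, D₂, t₂⟩ := exists_tot (C := C) (e := e + 1) (by omega) hG₂h hMh hbG₂ hbM hσ hnc₂ hFM
  have hER : C.W (e + 1) (s ::ₘ (E + R)) ≤ C.W (e + 1) (E + R) := W_anti (Multiset.le_cons_self _ _)
  have hG₂W : G₂ ∈ C.W (e + 1) (E + R) := by
    rw [hG₂eq, ← smul_eq_C_mul]
    exact Submodule.add_mem _ hK' (Submodule.smul_mem _ _ (hER hG1W))
  have hG₂n : G₂ ∉ C.W (e + 1) (s ::ₘ (E + R)) := by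
    intro hmem
    apply hKn'
    have h1 := Submodule.sub_mem _ hmem (Submodule.smul_mem _ ((M₀ - σ : ℝ) : ℂ) hG1W)
    rwa [hG₂eq, smul_eq_C_mul, add_sub_cancel_right] at h1
  have hle : D₂ ≤ s ::ₘ D := by
    refine t₂.D_le fun P hP => ?_
    rw [hordM P hP]
    have h1 := hG₂W.2 P
    rw [Multiset.count_add] at h1
    have e1 : E.count P + D.count P + (s ::ₘ R).count P = E.count P + R.count P + (s ::ₘ D).count P := by
      rw [Multiset.count_cons, Multiset.count_cons]; ring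
    rw [e1]
    calc ((E.count P + R.count P + (s ::ₘ D).count P : ℕ) : ℕ∞) =
        ((E.count P + R.count P : ℕ) : ℕ∞) + ((s ::ₘ D).count P : ℕ) := by push_cast; rfl
      _ ≤ _ := by gcongr
  have hsD₂ : s ∈ D₂ := by
    by_contra hns
    apply hG₂n
    refine ⟨hG₂h, fun P => ?_⟩
    by_cases hPs : P = s
    · rw [hPs]
      have h1 : ¬ C.ord s G₂ < C.ord s M := fun h2 => hns ((t₂.mem_iff hsPt).2 h2)
      push Not at h1
      rw [hordM s hsPt, Multiset.count_eq_zero.2 hsD, Multiset.count_cons_self] at h1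
      rw [Multiset.count_cons_self, Multiset.count_add]
      have e1 : E.count s + R.count s + 1 = E.count s + 0 + (R.count s + 1) := by ring
      rw [e1]; exact h1
    · rw [Multiset.count_cons_of_ne hPs]; exact hG₂W.2 P
  have hnds : (s ::ₘ D).Nodup := Multiset.nodup_cons.2 ⟨hsD, hndD⟩
  have hne : D₂ ≠ s ::ₘ D := by
    intro heq
    have hE₂ : ∀ P, C.Pt P → E₂.count P = E.count P + R.count P := by
      intro P hP
      have h1 := t₂.ordH hP
      rw [hordM P hP, heq] at h1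
      have h2 : E.count P + D.count P + (s ::ₘ R).count P = E₂.count P + (s ::ₘ D).count P := by exact_mod_cast h1
      rw [Multiset.count_cons, Multiset.count_cons] at h2
      omega
    obtain ⟨M₁, hM₁, hP₁⟩ := t₂.perturb h hG1h.neg (by rw [bar_neg, hbG1]) (by
      intro P
      by_cases hP : C.Pt P
      · rw [ord_neg, hE₂ P hP]
        have := (hER hG1W).2 P
        rwa [Multiset.count_add] at this
      · rw [ord_of_not_pt hP]; exact le_top)
    have hM1 : 0 < M₁ + 1 := by linarith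
    have h2 : Pos B (-G₁ + MvPolynomial.C ((M₁ + 1 : ℝ) : ℂ) * G₂) M := by
      have := pos_add hP₁ t₂.pos
      have e1 : -G₁ + MvPolynomial.C ((M₁ + 1 : ℝ) : ℂ) * G₂ = -G₁ + MvPolynomial.C (M₁ : ℂ) * G₂ + G₂ := by
        push_cast
        rw [map_add, map_one]; ring
      rw [e1]; exact this
    apply hmax (M₁ + 1)⁻¹ (inv_pos.2 hM1)
    have h3 := pos_smul (inv_nonneg.2 hM1.le) h2
    have hM1' : ((M₁ : ℂ) + 1) ≠ 0 := by exact_mod_cast hM1.ne'
    have e2 : MvPolynomial.C (((M₁ + 1)⁻¹ : ℝ) : ℂ) * (-G₁ + MvPolynomial.C ((M₁ + 1 : ℝ) : ℂ) * G₂) =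
        G₀ + MvPolynomial.C ((σ + (M₁ + 1)⁻¹ : ℝ) : ℂ) * -G₁ := by
      have a1 : (MvPolynomial.C (((M₁ + 1)⁻¹ : ℝ) : ℂ) : P3) * MvPolynomial.C ((M₁ + 1 : ℝ) : ℂ) = 1 := by
        rw [← map_mul]; push_cast
        rw [inv_mul_cancel₀ hM1', map_one]
      have a2 : (MvPolynomial.C ((σ + (M₁ + 1)⁻¹ : ℝ) : ℂ) : P3) =
          MvPolynomial.C (σ : ℂ) + MvPolynomial.C (((M₁ + 1)⁻¹ : ℝ) : ℂ) := by
        rw [← map_add]; push_cast; rfl
      rw [a2, hG₂def]
      linear_combination (G₀ + MvPolynomial.C (σ : ℂ) * -G₁) * a1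
    rw [e2] at h3
    exact h3
  have hmin := m.min _ _ _ _ _ t₂
  obtain ⟨q, hq⟩ := Multiset.lt_iff_cons_le.1 (lt_of_le_of_ne hle hne)
  have hq' : q ::ₘ D₂ = s ::ₘ D := by
    apply Multiset.eq_of_le_of_card_le hq
    rw [Multiset.card_cons, Multiset.card_cons]; omega
  have hqnd : (q ::ₘ D₂).Nodup := by rw [hq']; exact hnds
  have hqD₂ : q ∉ D₂ := (Multiset.nodup_cons.1 hqnd).1
  have hqs : q ≠ s := fun h0 => hqD₂ (h0 ▸ hsD₂)
  have hqD : q ∈ D := by
    have : q ∈ s ::ₘ D := by rw [← hq']; exact Multiset.mem_cons_self _ _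
    exact (Multiset.mem_cons.1 this).resolve_left hqs
  refine ⟨q, hqD, hv.1, R, G₂, hR, ⟨hG₂h, fun P => ?_⟩, hbG₂, hσ, hnc₂⟩
  by_cases hPq : P = q
  · rw [hPq, Multiset.count_cons_self, Multiset.count_add]
    have hqPt := t.ptD hqD
    have h1 : ¬ C.ord q G₂ < C.ord q M := fun h2 => hqD₂ ((t₂.mem_iff hqPt).2 h2)
    push Not at h1
    rw [hordM q hqPt, Multiset.count_cons_of_ne hqs] at h1
    have h2 := Multiset.count_pos.2 hqD
    refine le_trans ?_ h1
    exact_mod_cast (by omega)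
  · rw [Multiset.count_cons_of_ne hPq]; exact hG₂W.2 P

end Curve

end Pool.Agent.H877.TP
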