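import Pool.Agent.H877.TP.R13

set_option autoImplicit false

namespace Pool.Agent.H877.TP
open MvPolynomial Filter Topology

lemma bar_sum {ι : Type*} (s : Finset ι) (f : ι → P3) : bar (∑ k ∈ s, f k) = ∑ k ∈ s, bar (f k) := by
  unfold bar; rw [map_sum]

lemma real_smul_eq (r : ℝ) (G : P3) : (r • G : P3) = (r : ℂ) • G := by
  ext s
  simp [coeff_smul]

namespace Curve
variable {C : Curve}

/-- real combinations -/
noncomputable def rl {N : ℕ} (b : Fin N → P3) (c : Fin N → ℝ) : P3 := lc b (fun k => (c k : ℂ))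

lemma bar_rl {N : ℕ} {b : Fin N → P3} (hb : ∀ k, bar (b k) = b k) (c : Fin N → ℝ) : bar (rl b c) = rl b c := by
  unfold rl lc
  rw [bar_sum]
  refine Finset.sum_congr rfl fun k _ => ?_
  rw [bar_smul, hb k, Complex.star_def, Complex.conj_ofReal]

lemma rl_smul {N : ℕ} (b : Fin N → P3) (r : ℝ) (c : Fin N → ℝ) : rl b (r • c) = (r : ℂ) • rl b c := by
  unfold rl
  rw [← lc_smul]
  congr 1
  ext k; simp

lemma rl_add {N : ℕ} (b : Fin N → P3) (c c' : Fin N → ℝ) : rl b (c + c') = rl b c + rl b c' := by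
  unfold rl lc
  rw [← Finset.sum_add_distrib]
  refine Finset.sum_congr rfl fun k _ => ?_
  simp only [Pi.add_apply, Complex.ofReal_add, add_smul]

lemma rl_sub {N : ℕ} (b : Fin N → P3) (c c' : Fin N → ℝ) : rl b (c - c') = rl b c - rl b c' := by
  rw [sub_eq_add_neg, rl_add, ← neg_one_smul ℝ c', rl_smul]
  simp [sub_eq_add_neg]

/-- a real basis of forms of degree `a` modulo `F` -/
lemma exists_rbasis (C : Curve) (a : ℕ) : ∃ (N : ℕ) (b : Fin N → P3), (∀ k, (b k).IsHomogeneous a) ∧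
    (∀ k, bar (b k) = b k) ∧
    (∀ A : P3, A.IsHomogeneous a → bar A = A → ∃ c : Fin N → ℝ, C.F ∣ A - rl b c) ∧
    (∀ c : Fin N → ℝ, C.F ∣ rl b c → c = 0) := by
  let M : Submodule ℝ P3 := (Ideal.span {C.F}).restrictScalars ℝ
  have hM : ∀ G, G ∈ M ↔ C.F ∣ G := fun G => Ideal.mem_span_singleton
  let V : Submodule ℝ P3 :=
    { carrier := {G | G.IsHomogeneous a ∧ bar G = G}
      add_mem' := by
        rintro G H ⟨h1, h2⟩ ⟨h3, h4⟩
        exact ⟨h1.add h3, by rw [bar_add, h2, h4]⟩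
      zero_mem' := ⟨isHomogeneous_zero _ _ _, by unfold bar; rw [map_zero]⟩
      smul_mem' := by
        rintro c G ⟨h1, h2⟩
        rw [real_smul_eq]
        refine ⟨(homogeneousSubmodule (Fin 3) ℂ a).smul_mem _ h1, ?_⟩
        rw [bar_smul, h2, Complex.star_def, Complex.conj_ofReal] }
  have hfin : Module.Finite ℝ (RR a) := Module.Finite.trans ℂ (RR a)
  have hfin' : Module.Finite ℝ ((RR a).restrictScalars ℝ : Submodule ℝ P3) := hfin
  have hV : V ≤ (RR a).restrictScalars ℝ := fun G hG => hG.1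
  have hVfin : FiniteDimensional ℝ V := Submodule.finiteDimensional_of_le hV
  let q : V →ₗ[ℝ] P3 ⧸ M := M.mkQ.comp V.subtype
  let B := Module.finBasis ℝ q.range
  have hlift : ∀ k, ∃ G : V, q G = (B k : P3 ⧸ M) := fun k => (B k).2
  choose b hb using hlift
  have hq : ∀ c : Fin (Module.finrank ℝ q.range) → ℝ, M.mkQ (rl (fun k => (b k : P3)) c) =
      ((∑ k, c k • B k : q.range) : P3 ⧸ M) := by
    intro c
    unfold rl lc
    rw [map_sum, AddSubmonoidClass.coe_finsetSum]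
    refine Finset.sum_congr rfl fun k _ => ?_
    rw [← real_smul_eq, map_smul, SetLike.val_smul, ← hb k]; rfl
  refine ⟨_, fun k => (b k : P3), fun k => (b k).2.1, fun k => (b k).2.2, ?_, ?_⟩
  · intro A hA hbA
    let A' : V := ⟨A, hA, hbA⟩
    let y : q.range := ⟨q A', A', rfl⟩
    refine ⟨fun k => B.repr y k, ?_⟩
    rw [← hM, ← Submodule.Quotient.mk_eq_zero, ← Submodule.mkQ_apply, map_sub, hq, B.sum_repr]
    change M.mkQ A - q A' = 0
    exact sub_self _
  · intro c hc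
    rw [← hM, ← Submodule.Quotient.mk_eq_zero, ← Submodule.mkQ_apply, hq] at hc
    have h1 : (∑ k, c k • B k : q.range) = 0 := Subtype.ext hc
    have := Fintype.linearIndependent_iff.1 B.linearIndependent c h1
    exact funext this

/-- normalisation modulo a line -/
lemma exists_normalise {N : ℕ} (c η : Fin N → ℝ) (h : ∀ r : ℝ, c ≠ r • η) :
    ∃ r δ : ℝ, 0 < δ ∧ ‖δ • (c - r • η)‖ = 1 ∧ ∀ r' : ℝ, 1 ≤ ‖δ • (c - r • η) - r' • η‖ := by
  set U := Submodule.span ℝ ({η} : Set (Fin N → ℝ)) with hU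
  have hcl : IsClosed (U : Set (Fin N → ℝ)) := U.closed_of_finiteDimensional
  obtain ⟨y, hy, hdist⟩ := hcl.exists_infDist_eq_dist ⟨0, U.zero_mem⟩ c
  obtain ⟨r, rfl⟩ := Submodule.mem_span_singleton.1 hy
  have hpos : 0 < ‖c - r • η‖ := norm_pos_iff.2 (sub_ne_zero.2 (h r))
  refine ⟨r, ‖c - r • η‖⁻¹, inv_pos.2 hpos, ?_, fun r' => ?_⟩
  · rw [norm_smul, norm_inv, norm_norm, inv_mul_cancel₀ hpos.ne']
  · have hmem : (r + r' * ‖c - r • η‖) • η ∈ U := Submodule.smul_mem _ _ (Submodule.mem_span_singleton_self η)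
    have h1 := Metric.infDist_le_dist_of_mem (x := c) hmem
    rw [hdist, dist_eq_norm, dist_eq_norm] at h1
    have e1 : ‖c - r • η‖⁻¹ • (c - r • η) - r' • η =
        ‖c - r • η‖⁻¹ • (c - (r + r' * ‖c - r • η‖) • η) := by
      have e2 : ‖c - r • η‖⁻¹ * (r + r' * ‖c - r • η‖) = ‖c - r • η‖⁻¹ * r + r' := by
        have := hpos.ne'
        field_simp
      rw [smul_sub, smul_sub, smul_smul, smul_smul, e2, sub_sub, ← add_smul]
    rw [e1, norm_smul, norm_inv, norm_norm]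
    calc (1 : ℝ) = ‖c - r • η‖⁻¹ * ‖c - r • η‖ := (inv_mul_cancel₀ hpos.ne').symm
      _ ≤ _ := by gcongr

end Curve

end Pool.Agent.H877.TP
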