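import Pool.Agent.H877.TP.R14

set_option autoImplicit false

namespace Pool.Agent.H877.TP
open MvPolynomial Filter Topology

/-- the coefficients of the line -/
def lco (a v : V3) : Fin 3 → ℂ := ![a 1 * v 2 - a 2 * v 1, a 2 * v 0 - a 0 * v 2, a 0 * v 1 - a 1 * v 0]

lemma continuous_lco (a : V3) : Continuous (lco a) := by
  unfold lco
  refine continuous_pi fun i => ?_
  fin_cases i <;> simp <;> fun_prop

namespace Curve
variable {C : Curve} {A B : Set V3} {e : ℕ} {G H : P3} {E D : DD} {a : V3}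

lemma ln_lc (a v : V3) : lc (fun k : Fin 3 => (X k : P3)) (lco a v) = ln a v := by
  unfold lc lco ln
  rw [Fin.sum_univ_three]
  simp [smul_eq_C_mul]

lemma ln_sum (a v : V3) : ln a v = ∑ j, MvPolynomial.C (v j) * ln a (Pi.single j 1) := by
  unfold ln
  rw [Fin.sum_univ_three]
  simp
  ring

lemma dv_single (w : C.S) : dv (fun _ : Fin 1 => w) = {pr w} := by
  unfold dv
  simp

theorem Tot.closed (h : Sep C A B) (hM : 2 ≤ C.deg) (t : Tot C B e G H E D) (ha : eval a C.F ≠ 0)
    (hca : TP.cj a = a) {q : PP} (hq : q ∈ D) : IsClosed {v | v ∈ SR C ∧ XX C B e H E a q v} := by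
  classical
  have hC := h.real
  refine IsSeqClosed.isClosed ?_
  intro v v₀ hv hlim
  have hv₀ : v₀ ∈ SR C := (isCompact_SR C).isClosed.mem_of_tendsto hlim (Eventually.of_forall fun n => (hv n).1)
  refine ⟨hv₀, ?_⟩
  obtain ⟨N, b, hb, hbb, hb2, hb3⟩ := exists_rbasis C (e + 1)
  -- coefficients of the denominators
  have hcη : ∀ j : Fin 3, ∃ c : Fin N → ℝ, C.F ∣ H * ln a (Pi.single j 1) - rl b c := fun j =>
    hb2 _ (Hln_hom t a _) (by
      rw [bar_mul, t.bH, bar_ln hca]
      ext i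
      by_cases hij : i = j
      · subst hij; simp [TP.cj]
      · simp [TP.cj, hij])
  choose cη hcη using hcη
  let η : V3 → Fin N → ℝ := fun v => ∑ j, (v j).re • cη j
  have hηc : Continuous η := by
    refine continuous_finsetSum _ fun j _ => ?_
    exact (Complex.continuous_re.comp (continuous_apply j)).smul continuous_const
  have hrl : ∀ v : V3, rl b (η v) = ∑ j, (((v j).re : ℝ) : ℂ) • rl b (cη j) := by
    intro v
    simp only [η]
    rw [Fin.sum_univ_three, Fin.sum_univ_three, rl_add, rl_add, rl_smul, rl_smul, rl_smul]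
  have hη : ∀ v : V3, TP.cj v = v → C.F ∣ H * ln a v - rl b (η v) := by
    intro v hcv
    have e1 : H * ln a v - rl b (η v) = ∑ j, MvPolynomial.C (v j) * (H * ln a (Pi.single j 1) - rl b (cη j)) := by
      rw [hrl, ln_sum, Finset.mul_sum, ← Finset.sum_sub_distrib]
      refine Finset.sum_congr rfl fun j _ => ?_
      have : (((v j).re : ℝ) : ℂ) = v j := Complex.conj_eq_iff_re.1 (congrFun hcv j)
      rw [this, smul_eq_C_mul]; ring
    rw [e1]
    exact Finset.dvd_sum fun j _ => Dvd.dvd.mul_left (hcη j) _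
  -- the data of the sequence
  have hex : ∀ n, ∃ (R : DD) (K : P3), IsDiv C (ln a (v n)) (Projectivization.mk ℂ (v n) (SR_on (hv n).1).1 ::ₘ R) ∧
      K ∈ C.W (e + 1) (q ::ₘ (E + R)) ∧ bar K = K ∧ Pos B K (H * ln a (v n)) ∧
      ¬ ∃ c : ℂ, C.F ∣ K - c • (H * ln a (v n)) := by
    intro n
    obtain ⟨hne, R, K, h1⟩ := (hv n).2
    exact ⟨R, K, h1⟩
  choose R K hR hK hbK hpos hnc using hex
  have hMh : ∀ n, (H * ln a (v n)).IsHomogeneous (e + 1) := fun n => Hln_hom t a _
  have hbM : ∀ n, bar (H * ln a (v n)) = H * ln a (v n) := fun n => by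
    rw [bar_mul, t.bH, bar_ln hca (hv n).1.2.1]
  have hκ : ∀ n, ∃ c : Fin N → ℝ, C.F ∣ K n - rl b c := fun n => hb2 _ (hK n).1 (hbK n)
  choose κ hκ using hκ
  have hnm : ∀ n, ∀ r : ℝ, κ n ≠ r • η (v n) := by
    intro n r hr
    apply hnc n
    refine ⟨(r : ℂ), ?_⟩
    have h1 := hκ n
    rw [hr, rl_smul] at h1
    have h2 := Dvd.dvd.mul_left (hη (v n) (hv n).1.2.1) (MvPolynomial.C (r : ℂ))
    have e1 : K n - (r : ℂ) • (H * ln a (v n)) = (K n - (r : ℂ) • rl b (η (v n))) -
        MvPolynomial.C (r : ℂ) * (H * ln a (v n) - rl b (η (v n))) := by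
      rw [smul_eq_C_mul, smul_eq_C_mul]; ring
    rw [e1]
    exact dvd_sub h1 h2
  have hnorm := fun n => exists_normalise (κ n) (η (v n)) (hnm n)
  choose r δ hδ hn1 hn2 using hnorm
  set c : ℕ → Fin N → ℝ := fun n => δ n • (κ n - r n • η (v n)) with hc
  -- normalised functions
  set K' : ℕ → P3 := fun n => MvPolynomial.C ((δ n : ℝ) : ℂ) * (K n + MvPolynomial.C ((-r n : ℝ) : ℂ) *
    (H * ln a (v n))) with hK'def
  have hK'c : ∀ n, C.F ∣ K' n - rl b (c n) := by
    intro n
    have e1 : K' n - rl b (c n) = MvPolynomial.C ((δ n : ℝ) : ℂ) * ((K n - rl b (κ n)) -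
        MvPolynomial.C ((r n : ℝ) : ℂ) * (H * ln a (v n) - rl b (η (v n)))) := by
      simp only [hK'def, hc]
      rw [rl_smul, rl_sub, rl_smul, smul_eq_C_mul, smul_eq_C_mul]
      push_cast; rw [map_neg]; ring
    rw [e1]
    exact Dvd.dvd.mul_left (dvd_sub (hκ n) (Dvd.dvd.mul_left (hη _ (hv n).1.2.1) _)) _
  have hMW : ∀ n, H * ln a (v n) ∈ C.W (e + 1) (q ::ₘ (E + R n)) := by
    intro n
    refine ⟨hMh n, fun P => ?_⟩
    by_cases hP : C.Pt P
    · rw [ord_mul, t.ordH hP, (hR n).2 P hP]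
      have h1 : (q ::ₘ (E + R n)).count P ≤ E.count P + D.count P +
          (Projectivization.mk ℂ (v n) (SR_on (hv n).1).1 ::ₘ R n).count P := by
        rw [Multiset.count_cons, Multiset.count_cons, Multiset.count_add]
        have h2 : (if P = q then 1 else 0) ≤ D.count P := by
          split_ifs with h3
          · rw [h3]; exact Multiset.count_pos.2 hq
          · exact Nat.zero_le _
        omega
      exact_mod_cast h1
    · rw [ord_of_not_pt hP]; exact le_top
  have hK'W : ∀ n, K' n ∈ C.W (e + 1) (q ::ₘ (E + R n)) := by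
    intro n
    simp only [hK'def]
    rw [← smul_eq_C_mul, ← smul_eq_C_mul]
    exact Submodule.smul_mem _ _ (Submodule.add_mem _ (hK n) (Submodule.smul_mem _ _ (hMW n)))
  have hK'pos : ∀ n, Pos B (K' n) (H * ln a (v n)) := by
    intro n
    exact pos_smul (hδ n).le (pos_add (hpos n) (pos_const _))
  have hrlh : ∀ c : Fin N → ℝ, (rl b c).IsHomogeneous (e + 1) := fun c => lc_hom hb _
  have hrlW : ∀ n, rl b (c n) ∈ C.W (e + 1) (q ::ₘ (E + R n)) := by
    intro n
    refine ⟨hrlh _, fun P => ?_⟩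
    rw [← ord_congr P (hK'c n)]
    exact (hK'W n).2 P
  have hRc : ∀ n, Multiset.card (R n) = C.deg - 1 := by
    intro n
    have := (hR n).card (ln_hom a (v n)) (ln_nd hM ha (SR_on (hv n).1))
    rw [Multiset.card_cons] at this
    omega
  have htt : ∀ n, ∃ s : Fin (C.deg - 1) → C.S, dv s = R n := fun n =>
    exists_dv (R n) (fun Q hQ => (hR n).1 Q (Multiset.mem_cons_of_mem hQ)) (hRc n)
  choose tt htt using htt
  obtain ⟨tqE, htqE⟩ := exists_dv (C := C) (q ::ₘ E) (by
    intro Q hQ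
    rcases Multiset.mem_cons.1 hQ with rfl | hQ
    · exact t.ptD hq
    · exact t.ptE hQ) rfl
  -- compactness
  let Ks : Set ((Fin N → ℝ) × (Fin (C.deg - 1) → C.S)) := Metric.sphere 0 1 ×ˢ Set.univ
  have hKs : IsCompact Ks := (isCompact_sphere _ _).prod isCompact_univ
  obtain ⟨⟨c₀, tt₀⟩, hmem, φ, hφ, hl⟩ := hKs.tendsto_subseq (x := fun n => (c n, tt n)) (fun n => by
    simp only [Ks, Set.mem_prod, Set.mem_univ, and_true, mem_sphere_iff_norm, sub_zero]
    exact hn1 n)
  have l1 : Tendsto (fun n => c (φ n)) atTop (𝓝 c₀) := (continuous_fst.tendsto _).comp hl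
  have l2 : Tendsto (fun n => tt (φ n)) atTop (𝓝 tt₀) := (continuous_snd.tendsto _).comp hl
  have l3 : Tendsto (fun n => v (φ n)) atTop (𝓝 v₀) := hlim.comp hφ.tendsto_atTop
  -- the points
  let w : ℕ → C.S := fun n => ⟨v n, (hv n).1.1, (hv n).1.2.2⟩
  let w₀ : C.S := ⟨v₀, hv₀.1, hv₀.2.2⟩
  have l4 : Tendsto (fun n => w (φ n)) atTop (𝓝 w₀) := tendsto_subtype_rng.2 l3
  -- the limit of the lines
  have hL : ln a v₀ ∈ C.W 1 (dv (Fin.append (fun _ : Fin 1 => w₀) tt₀)) := by
    rw [← ln_lc]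
    refine limit_W (fun k => isHomogeneous_X _ _) (c := fun n => lco a (v (φ n)))
      (((continuous_lco a).tendsto v₀).comp l3)
      (t := fun n => Fin.append (fun _ : Fin 1 => w (φ n)) (tt (φ n)))
      (tendsto_append (tendsto_pi_nhds.2 fun _ => l4) l2) (fun n => ?_)
    rw [ln_lc, dv_append, dv_single, htt, Multiset.singleton_add]
    exact mem_W_of_isDiv (ln_hom _ _) (hR (φ n))
  have hL' : IsDiv C (ln a v₀) (Projectivization.mk ℂ v₀ (SR_on hv₀).1 ::ₘ dv tt₀) := by
    have := isDiv_of_card (pt_dv _) hL (ln_nd hM ha (SR_on hv₀)) (by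
      rw [card_dv]; have := C.pos; omega)
    rw [dv_append, dv_single, Multiset.singleton_add] at this
    exact this
  -- the limit of the functions
  have hK₀ : rl b c₀ ∈ C.W (e + 1) (q ::ₘ (E + dv tt₀)) := by
    have l5 : Tendsto (fun n => (fun k => ((c (φ n) k : ℝ) : ℂ))) atTop (𝓝 (fun k => ((c₀ k : ℝ) : ℂ))) := by
      rw [tendsto_pi_nhds]
      intro k
      exact (Complex.continuous_ofReal.tendsto _).comp ((tendsto_pi_nhds.1 l1) k)
    have := limit_W hb l5 (t := fun n => Fin.append tqE (tt (φ n))) (t₀ := Fin.append tqE tt₀)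
      (tendsto_append tendsto_const_nhds l2) (fun n => by
        rw [dv_append, htqE, htt, Multiset.cons_add]
        exact hrlW (φ n))
    rw [dv_append, htqE, Multiset.cons_add] at this
    exact this
  refine ⟨(SR_on hv₀).1, dv tt₀, rl b c₀, hL', hK₀, bar_rl hbb c₀, ?_, ?_⟩
  · -- positivity
    intro x hx
    have hxF := (h.opB.on x hx).2
    have hvn : ∀ n, 0 ≤ (eval x (rl b (c n)) * star (eval x (H * ln a (v n)))).im := by
      intro n
      have h1 := hK'pos n x hx
      obtain ⟨Q, hQ⟩ := hK'c n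
      have h2 := congrArg (eval x) hQ
      rw [map_sub, map_mul _ C.F Q, hxF, zero_mul, sub_eq_zero] at h2
      rwa [h2] at h1
    have t1 : Tendsto (fun n => eval x (rl b (c (φ n)))) atTop (𝓝 (eval x (rl b c₀))) := by
      unfold rl
      simp only [eval_lc]
      refine tendsto_finsetSum _ fun k _ => ?_
      exact ((Complex.continuous_ofReal.tendsto _).comp ((tendsto_pi_nhds.1 l1) k)).mul_const _
    have t2 : Tendsto (fun n => eval x (H * ln a (v (φ n)))) atTop (𝓝 (eval x (H * ln a v₀))) := by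
      simp only [map_mul]
      refine Tendsto.const_mul _ ?_
      have hc3 : Continuous fun v : V3 => eval x (ln a v) := by
        simp only [eval_ln]; fun_prop
      exact (hc3.tendsto v₀).comp l3
    have t3 : Tendsto (fun n => (eval x (rl b (c (φ n))) * star (eval x (H * ln a (v (φ n))))).im) atTop
        (𝓝 (eval x (rl b c₀) * star (eval x (H * ln a v₀))).im) :=
      (Complex.continuous_im.tendsto _).comp (t1.mul ((continuous_star.tendsto _).comp t2))
    exact ge_of_tendsto t3 (Eventually.of_forall fun n => hvn (φ n))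
  · -- not constant
    rintro ⟨z, hz⟩
    have hFM : ¬ C.F ∣ H * ln a v₀ := nd_mul t.nH (ln_nd hM ha (SR_on hv₀))
    have hzr := real_of_dvd hC (bar_rl hbb c₀) (by rw [bar_mul, t.bH, bar_ln hca hv₀.2.1]) hFM hz
    have h1 : C.F ∣ rl b (c₀ - z.re • η v₀) := by
      have h2 := hη v₀ hv₀.2.1
      have e1 : rl b (c₀ - z.re • η v₀) = (rl b c₀ - z • (H * ln a v₀)) +
          MvPolynomial.C z * (H * ln a v₀ - rl b (η v₀)) := by
        rw [rl_sub, rl_smul, hzr, smul_eq_C_mul, smul_eq_C_mul]; ring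
      rw [e1]
      exact dvd_add hz (Dvd.dvd.mul_left h2 _)
    have h3 := hb3 _ h1
    have t4 : Tendsto (fun n => ‖c (φ n) - z.re • η (v (φ n))‖) atTop (𝓝 ‖c₀ - z.re • η v₀‖) :=
      (l1.sub (((hηc.tendsto v₀).comp l3).const_smul _)).norm
    have h4 := ge_of_tendsto t4 (Eventually.of_forall fun n => hn2 (φ n) z.re)
    rw [h3, norm_zero] at h4
    linarith

end Curve

end Pool.Agent.H877.TP
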