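import Pool.Agent.H877.TP.R15

set_option autoImplicit false

namespace Pool.Agent.H877.TP
open MvPolynomial Filter Topology

namespace Curve
variable {C : Curve} {A B : Set V3} {e : ℕ} {G H : P3} {E D : DD} {a : V3}

lemma ln_neg (a v : V3) : ln a (-v) = -ln a v := by
  unfold ln
  have h1 : a 1 * (-v) 2 - a 2 * (-v) 1 = -(a 1 * v 2 - a 2 * v 1) := by simp; ring
  have h2 : a 2 * (-v) 0 - a 0 * (-v) 2 = -(a 2 * v 0 - a 0 * v 2) := by simp; ring
  have h3 : a 0 * (-v) 1 - a 1 * (-v) 0 = -(a 0 * v 1 - a 1 * v 0) := by simp; ring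
  rw [h1, h2, h3, map_neg, map_neg, map_neg]
  ring

lemma IsDiv.neg {K : P3} {S : DD} (h : IsDiv C K S) : IsDiv C (-K) S :=
  ⟨h.1, fun P hP => by rw [ord_neg]; exact h.2 P hP⟩

lemma XX_neg {q : PP} {v : V3} (hx : XX C B e H E a q v) : XX C B e H E a q (-v) := by
  obtain ⟨hv, R, K, hR, hK, hbK, hpos, hnc⟩ := hx
  have hmk : Projectivization.mk ℂ (-v) (neg_ne_zero.2 hv) = Projectivization.mk ℂ v hv := by
    rw [Projectivization.mk_eq_mk_iff']
    exact ⟨-1, by simp⟩
  refine ⟨neg_ne_zero.2 hv, R, -K, ?_, Submodule.neg_mem _ hK, by rw [bar_neg, hbK], ?_, ?_⟩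
  · rw [hmk, ln_neg]; exact hR.neg
  · intro x hx
    have := hpos x hx
    rw [ln_neg, mul_neg, map_neg, map_neg, star_neg, neg_mul_neg]
    exact this
  · rintro ⟨c, hc⟩
    apply hnc
    refine ⟨c, ?_⟩
    have := (dvd_neg).2 hc
    have e1 : -(-K - c • (H * ln a (-v))) = K - c • (H * ln a v) := by
      rw [ln_neg, smul_eq_C_mul, smul_eq_C_mul]; ring
    rwa [e1] at this

lemma exists_SR {P : PP} (hP : C.Pt P) (hR : Rl P.rep) : ∃ (w : V3) (hw : w ≠ 0), w ∈ SR C ∧
    Projectivization.mk ℂ w hw = P := by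
  obtain ⟨a, ha, hcj⟩ := exists_real_rep hP.1 hR
  obtain ⟨r, hr, hr1, hr2⟩ := exists_unit_smul (smul_ne_zero ha hP.1) hcj
  have hrc : (r : ℂ) ≠ 0 := by exact_mod_cast hr.ne'
  have hOn : C.On ((r : ℂ) • a • P.rep) := (hP.smul ha).smul hrc
  refine ⟨(r : ℂ) • a • P.rep, hOn.1, ⟨hr1, hr2, hOn.2⟩, ?_⟩
  conv_rhs => rw [← P.mk_rep]
  rw [Projectivization.mk_eq_mk_iff']
  exact ⟨(r : ℂ) * a, by rw [mul_smul]⟩

lemma Mn.self (h : Sep C A B) (hM : 2 ≤ C.deg) (m : Mn C B e G H E D) (hk : Multiset.card D = C.g + 1)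
    (ha : eval a C.F ≠ 0) (hca : TP.cj a = a) {v : V3} (hv : C.On v) (hcv : TP.cj v = v)
    (hvD : Projectivization.mk ℂ v hv.1 ∈ D) : XX C B e H E a (Projectivization.mk ℂ v hv.1) v := by
  classical
  obtain ⟨q, hq, hx⟩ := m.cover h hM hk ha hca hv hcv
  have hx' := hx
  obtain ⟨_, R, K, hR, hK, hbK, hpos, hnc⟩ := hx'
  obtain ⟨E₁, D₁, t₁, h₁⟩ := m.poles hM ha hca hq hv hcv hR hK hbK hpos hnc
  have hqs : q = Projectivization.mk ℂ v hv.1 := by
    by_contra hqs
    have h3 := congrArg (Multiset.count (Projectivization.mk ℂ v hv.1)) h₁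
    rw [Multiset.count_cons_of_ne (Ne.symm hqs), Multiset.count_cons_self] at h3
    have h4 := Multiset.nodup_iff_count_le_one.1 (t₁.nodup h) (Projectivization.mk ℂ v hv.1)
    have h5 := Multiset.count_pos.2 hvD
    omega
  rw [← hqs]; exact hx

/-- different poles lie in different components -/
lemma Mn.inj (h : Sep C A B) (hM : 2 ≤ C.deg) (m : Mn C B e G H E D) (hk : Multiset.card D = C.g + 1)
    {K : Type*} {κ : V3 → K} (hκ : Cmp C κ) {q q' : PP} (hq : q ∈ D) (hq' : q' ∈ D) (hne : q ≠ q') :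
    κ q.rep ≠ κ q'.rep := by
  classical
  obtain ⟨a, hca, ha⟩ := exists_off_real C
  have t := m.tot
  obtain ⟨w, hw, hwS, hwq⟩ := exists_SR (t.ptD hq) (t.realD h hq)
  obtain ⟨w', hw', hwS', hwq'⟩ := exists_SR (t.ptD hq') (t.realD h hq')
  have e1 : κ q.rep = κ w := by rw [← hwq]; exact hκ.rep hw
  have e2 : κ q'.rep = κ w' := by rw [← hwq']; exact hκ.rep hw'
  rw [e1, e2]
  have hself : ∀ {q : PP} {w : V3} (hw : w ≠ 0), q ∈ D → w ∈ SR C → Projectivization.mk ℂ w hw = q →
      XX C B e H E a q w := by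
    intro q w hw hqD hwS hwq
    subst hwq
    exact m.self h hM hk ha hca (SR_on hwS) hwS.2.1 hqD
  refine hκ.conn {v | v ∈ SR C ∧ XX C B e H E a q v}
    (⋃ p ∈ (D.toFinset.erase q : Finset PP), {v | v ∈ SR C ∧ XX C B e H E a p v}) ?_ ?_ ?_ ?_ ?_ ?_ w ?_ w' ?_
  · exact t.closed h hM ha hca hq
  · refine isClosed_biUnion_finset fun p hp => t.closed h hM ha hca ?_
    exact Multiset.mem_toFinset.1 (Finset.mem_of_mem_erase hp)
  · ext v
    constructor
    · rintro (h1 | h1)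
      · exact h1.1
      · obtain ⟨p, -, h2⟩ := Set.mem_iUnion₂.1 h1
        exact h2.1
    · intro hv
      obtain ⟨p, hp, hx⟩ := m.cover h hM hk ha hca (SR_on hv) hv.2.1
      by_cases hpq : p = q
      · left; rw [← hpq]; exact ⟨hv, hx⟩
      · right
        exact Set.mem_iUnion₂.2 ⟨p, Finset.mem_erase.2 ⟨hpq, Multiset.mem_toFinset.2 hp⟩, hv, hx⟩
  · rintro v ⟨hv, hx⟩ h1
    obtain ⟨p, hp, h2, h3⟩ := Set.mem_iUnion₂.1 h1
    have hp' := Finset.mem_erase.1 hp
    exact m.disj h hM ha hca hq (Multiset.mem_toFinset.1 hp'.2) (Ne.symm hp'.1) (SR_on hv) hv.2.1 hx h3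
  · have hneg : ∀ v ∈ SR C, -v ∈ SR C := by
      rintro v ⟨h1, h2, h3⟩
      refine ⟨by rw [norm_neg]; exact h1, ?_, ?_⟩
      · have := cj_real_smul h2 (-1)
        simpa using this
      · have := eval_smul_vec v (-1) C.hom
        rw [neg_one_smul, h3, mul_zero] at this
        exact this
    rintro v ⟨hv, hx⟩
    exact ⟨hneg v hv, XX_neg hx⟩
  · have hneg : ∀ v ∈ SR C, -v ∈ SR C := by
      rintro v ⟨h1, h2, h3⟩
      refine ⟨by rw [norm_neg]; exact h1, ?_, ?_⟩
      · have := cj_real_smul h2 (-1)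
        simpa using this
      · have := eval_smul_vec v (-1) C.hom
        rw [neg_one_smul, h3, mul_zero] at this
        exact this
    intro v h1
    obtain ⟨p, hp, h2, h3⟩ := Set.mem_iUnion₂.1 h1
    exact Set.mem_iUnion₂.2 ⟨p, hp, hneg v h2, XX_neg h3⟩
  · exact ⟨hwS, hself hw hq hwS hwq⟩
  · refine Set.mem_iUnion₂.2 ⟨q', Finset.mem_erase.2 ⟨Ne.symm hne, Multiset.mem_toFinset.2 hq'⟩, hwS', ?_⟩
    exact hself hw' hq' hwS' hwq'

/-- there is a total function with at most `g` poles if there are at most `g` components -/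
theorem exists_tot_le (h : Sep C A B) (hM : 2 ≤ C.deg) {K : Type*} {κ : V3 → K} (hκ : Cmp C κ) [Finite K]
    (hcard : Nat.card K ≤ C.g) : ∃ e G H E D, Tot C B e G H E D ∧ Multiset.card D ≤ C.g := by
  classical
  have hex : ∃ n, ∃ e G H E D, Tot C B e G H E D ∧ Multiset.card D = n := by
    obtain ⟨e, G, H, E, D, t⟩ := exists_tot_some h
    exact ⟨_, e, G, H, E, D, t, rfl⟩
  obtain ⟨e, G, H, E, D, t, hn⟩ := Nat.find_spec hex
  have hmin : ∀ e' G' H' E' D', Tot C B e' G' H' E' D' → Multiset.card D ≤ Multiset.card D' := by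
    intro e' G' H' E' D' t'
    rw [hn]
    exact Nat.find_min' hex ⟨e', G', H', E', D', t', rfl⟩
  obtain ⟨hle, hall⟩ := t.card_le_of_min h hmin
  refine ⟨e, G, H, E, D, t, ?_⟩
  by_contra hgt
  have hk : Multiset.card D = C.g + 1 := by omega
  have m : Mn C B e G H E D := ⟨t, hmin, hall⟩
  have hinj : Set.InjOn (fun P : PP => κ P.rep) (D.toFinset : Set PP) := by
    intro q hq q' hq' heq
    by_contra hne
    exact m.inj h hM hk hκ (Multiset.mem_toFinset.1 hq) (Multiset.mem_toFinset.1 hq') hne heq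
  have : Fintype K := Fintype.ofFinite K
  have h1 := Finset.card_le_card_of_injOn (s := D.toFinset) (t := Finset.univ) (fun P : PP => κ P.rep)
    (fun _ _ => Finset.mem_coe.2 (Finset.mem_univ _)) hinj
  rw [Multiset.toFinset_card_of_nodup (t.nodup h), Finset.card_univ, ← Nat.card_eq_fintype_card] at h1
  omega

/-- **Main theorem**, abstract form -/
theorem exists_can_real (h : Sep C A B) (h3 : 3 ≤ C.deg) {K : Type*} {κ : V3 → K} (hκ : Cmp C κ) [Finite K]
    (hcard : Nat.card K + 1 = C.g) : ∃ W₁ W₀ D R, Can C B W₁ W₀ D R ∧ (∀ P ∈ D, Rl P.rep) ∧ ∀ P ∈ R, Rl P.rep := by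
  classical
  obtain ⟨e, G, H, E, D, t, hk⟩ := exists_tot_le h (by omega) hκ (by omega)
  obtain ⟨W₁, W₀, R, c⟩ := t.exists_can h h3 hk
  refine ⟨W₁, W₀, D, R, c, fun P hP => t.realD h hP, ?_⟩
  have : Fintype K := Fintype.ofFinite K
  -- degrees
  have hcR : Multiset.card D + Multiset.card R + 2 = 2 * C.g := by
    have h1 := c.div.card c.h0 c.n0
    rw [Multiset.card_add] at h1
    have h2 := two_gen (d := C.deg) C.pos
    obtain ⟨s, hs⟩ := Nat.exists_eq_add_of_le h3
    unfold g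
    rw [h1]
    rw [hs] at h2 ⊢
    rw [show 3 + s - 3 = s by omega]
    push_cast at h2
    have h4 : ((3 + s) * s + 2 : ℤ) = 2 * (gen (3 + s) : ℤ) := by rw [h2]; ring
    exact_mod_cast h4
  -- the fibres
  set n : K → ℕ := fun y => (D.toFinset.filter (fun P : PP => κ P.rep = y)).card with hn
  have hsum : ∑ y : K, n y = Multiset.card D := by
    rw [← Multiset.toFinset_card_of_nodup (t.nodup h)]
    exact (Finset.card_eq_sum_card_fiberwise (s := D.toFinset) (t := (Finset.univ : Finset K))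
      (f := fun P : PP => κ P.rep) (fun _ _ => Finset.mem_coe.2 (Finset.mem_univ _))).symm
  have hn1 : ∀ y, 1 ≤ n y := by
    intro y
    obtain ⟨P, hP, hPy⟩ := t.pole_on h hκ y
    exact Finset.card_pos.2 ⟨P, Finset.mem_filter.2 ⟨Multiset.mem_toFinset.2 hP, hPy⟩⟩
  set T : Finset K := Finset.univ.filter (fun y => n y = 1) with hT
  have h2sum : 2 * Fintype.card K ≤ Multiset.card D + T.card := by
    rw [← hsum, hT, Finset.card_filter, ← Finset.sum_add_distrib]
    have : 2 * Fintype.card K = ∑ _y : K, 2 := by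
      rw [Finset.sum_const, Finset.card_univ, smul_eq_mul, mul_comm]
    rw [this]
    refine Finset.sum_le_sum fun y _ => ?_
    have := hn1 y
    split_ifs with h5
    · omega
    · omega
  have hTR : T ⊆ (R.filter (fun P : PP => Rl P.rep)).toFinset.image (fun P : PP => κ P.rep) := by
    intro y hy
    have hy1 : n y = 1 := (Finset.mem_filter.1 hy).2
    obtain ⟨q, hq⟩ := Finset.card_eq_one.1 hy1
    have hqm : q ∈ D.toFinset.filter (fun P : PP => κ P.rep = y) := by rw [hq]; exact Finset.mem_singleton_self q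
    obtain ⟨hqD, hqy⟩ := Finset.mem_filter.1 hqm
    have hqD' := Multiset.mem_toFinset.1 hqD
    obtain ⟨P, hPR, hPr, hPy⟩ := c.res_on h h3 hκ hqD' (t.realD h hqD') (t.count_one h hqD') (by
      intro P hP hPq
      have : P ∈ D.toFinset.filter (fun P : PP => κ P.rep = y) :=
        Finset.mem_filter.2 ⟨Multiset.mem_toFinset.2 hP, hPq.trans hqy⟩
      rw [hq] at this
      exact Finset.mem_singleton.1 this)
    exact Finset.mem_image.2 ⟨P, Multiset.mem_toFinset.2 (Multiset.mem_filter.2 ⟨hPR, hPr⟩), hPy.trans hqy⟩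
  have hTc := (Finset.card_le_card hTR).trans (Finset.card_image_le.trans (Multiset.toFinset_card_le _))
  rw [Nat.card_eq_fintype_card] at hcard
  have hfil : R.filter (fun P : PP => Rl P.rep) = R := by
    apply Multiset.eq_of_le_of_card_le (Multiset.filter_le _ _)
    omega
  intro P hP
  rw [← hfil] at hP
  exact (Multiset.mem_filter.1 hP).2

/-- the pencil is total -/
theorem Can.total (h : Sep C A B) {W₁ W₀ : P3} {D R : DD} (c : Can C B W₁ W₀ D R) (hD : ∀ P ∈ D, Rl P.rep)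
    (hR : ∀ P ∈ R, Rl P.rep) {l m : ℝ} (hlm : l ≠ 0 ∨ m ≠ 0) {x : V3} (hx : C.On x)
    (h0 : (l : ℂ) * eval x W₁ + (m : ℂ) * eval x W₀ = 0) : Rl x := by
  classical
  by_contra hnr
  -- no zeros at nonreal points
  have hW₀ : ∀ y, C.On y → ¬ Rl y → eval y W₀ ≠ 0 := by
    intro y hy hyr h1
    have hPt : C.Pt (Projectivization.mk ℂ y hy.1) := (pt_mk hy.1).2 hy.2
    have h2 : C.ord (Projectivization.mk ℂ y hy.1) W₀ ≠ 0 := by
      rw [Ne, ord_pos_iff hPt, not_not]
      obtain ⟨b, hb⟩ := Projectivization.exists_smul_eq_mk_rep ℂ y hy.1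
      rw [← hb]
      change eval ((b : ℂ) • y) W₀ = 0
      rw [eval_smul_vec _ _ c.h0, h1, mul_zero]
    rw [c.div.2 _ hPt] at h2
    have h3 : Projectivization.mk ℂ y hy.1 ∈ D + R := by
      rw [← Multiset.count_pos]
      exact Nat.pos_of_ne_zero (by exact_mod_cast h2)
    apply hyr
    rw [← Rl_mk hy.1]
    rcases Multiset.mem_add.1 h3 with h4 | h4
    · exact hD _ h4
    · exact hR _ h4
  have key : ∀ y ∈ B, (l : ℂ) * eval y W₁ + (m : ℂ) * eval y W₀ ≠ 0 := by
    intro y hy h1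
    have hyn := (h.nr y).1 (Or.inr hy)
    have hne := hW₀ y hyn.1 hyn.2
    have hst := strict h c.h1 c.h0 c.pos c.nc hy hne
    have h2 : (l : ℂ) * (eval y W₁ * star (eval y W₀)) + (m : ℂ) * (eval y W₀ * star (eval y W₀)) = 0 := by
      linear_combination star (eval y W₀) * h1
    have h3 := congrArg Complex.im h2
    rw [Complex.star_def, Complex.mul_conj, ← Complex.star_def, Complex.add_im, Complex.im_ofReal_mul,
      Complex.im_ofReal_mul, Complex.ofReal_im, mul_zero, add_zero, Complex.zero_im] at h3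
    have hl : l = 0 := (mul_eq_zero.1 h3).resolve_right hst.ne'
    have hm : m ≠ 0 := hlm.resolve_left (fun h4 => h4 hl)
    rw [hl, Complex.ofReal_zero, zero_mul, zero_add] at h1
    exact mul_ne_zero (by exact_mod_cast hm) hne h1
  rcases (h.nr x).2 ⟨hx, hnr⟩ with hA | hB
  · apply key _ (h.cj_mem_B.2 hA)
    have e1 := eval_bar W₁ x
    have e0 := eval_bar W₀ x
    rw [c.b1] at e1
    rw [c.b0] at e0
    rw [e1, e0]
    have h1 := congrArg star h0
    rw [star_add, star_mul', star_mul', star_zero] at h1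
    rw [Complex.star_def, Complex.conj_ofReal, Complex.conj_ofReal] at h1
    exact h1
  · exact key x hB h0

end Curve

end Pool.Agent.H877.TP
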