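import Pool.Agent.H877.TP.R16

set_option autoImplicit false

namespace Pool.Agent.H877.TP
open MvPolynomial Filter Topology

attribute [local instance] topPP

lemma continuous_mkPP : Continuous (fun v : {v : V3 // v ≠ 0} => Projectivization.mk ℂ v.1 v.2) :=
  continuous_coinduced_rng

lemma mk_eq_iff {v w : V3} (hv : v ≠ 0) (hw : w ≠ 0) :
    Projectivization.mk ℂ v hv = Projectivization.mk ℂ w hw ↔ ∀ i j, v i * w j = v j * w i := by
  rw [Projectivization.mk_eq_mk_iff']
  constructor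
  · rintro ⟨a, rfl⟩ i j
    simp only [Pi.smul_apply, smul_eq_mul]; ring
  · intro h
    obtain ⟨j, hj⟩ := exists_ne_of_ne_zero hw
    refine ⟨v j / w j, ?_⟩
    ext i
    simp only [Pi.smul_apply, smul_eq_mul]
    rw [div_mul_eq_mul_div, div_eq_iff hj]
    exact (h i j).symm

/-- the image of a compact set of vectors is closed -/
lemma closed_image {T : Set V3} (hT : IsCompact T) (hT0 : ∀ w ∈ T, w ≠ 0) :
    IsClosed {P : PP | ∃ w ∈ T, ∃ hw : w ≠ 0, Projectivization.mk ℂ w hw = P} := by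
  rw [← isOpen_compl_iff]
  apply isOpen_coinduced.2
  rw [Set.preimage_compl, isOpen_compl_iff]
  have hcomp : CompactSpace T := isCompact_iff_compactSpace.1 hT
  have h1 : IsClosed {p : V3 × T | ∀ i j, p.1 i * (p.2 : V3) j = p.1 j * (p.2 : V3) i} := by
    have : {p : V3 × T | ∀ i j, p.1 i * (p.2 : V3) j = p.1 j * (p.2 : V3) i} =
        ⋂ i, ⋂ j, {p : V3 × T | p.1 i * (p.2 : V3) j = p.1 j * (p.2 : V3) i} := by
      ext p; simp
    rw [this]
    refine isClosed_iInter fun i => isClosed_iInter fun j => isClosed_eq ?_ ?_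
    · exact ((continuous_apply i).comp continuous_fst).mul
        ((continuous_apply j).comp (continuous_subtype_val.comp continuous_snd))
    · exact ((continuous_apply j).comp continuous_fst).mul
        ((continuous_apply i).comp (continuous_subtype_val.comp continuous_snd))
  have h2 := (isClosedMap_fst_of_compactSpace (X := V3) (Y := T)) _ h1
  have h3 : (fun v : {v : V3 // v ≠ 0} => Projectivization.mk ℂ v.1 v.2) ⁻¹'
      {P : PP | ∃ w ∈ T, ∃ hw : w ≠ 0, Projectivization.mk ℂ w hw = P} =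
      Subtype.val ⁻¹' (Prod.fst '' {p : V3 × T | ∀ i j, p.1 i * (p.2 : V3) j = p.1 j * (p.2 : V3) i}) := by
    ext v
    constructor
    · rintro ⟨w, hw, hw0, hwv⟩
      refine ⟨(v.1, ⟨w, hw⟩), ?_, rfl⟩
      exact (mk_eq_iff v.2 hw0).1 hwv.symm
    · rintro ⟨⟨v', w⟩, h4, h5⟩
      simp only at h5
      subst h5
      exact ⟨w.1, w.2, hT0 _ w.2, ((mk_eq_iff v.2 (hT0 _ w.2)).2 h4).symm⟩
  rw [h3]
  exact h2.preimage continuous_subtype_val

namespace Curve
variable (C : Curve)

/-- the real locus -/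
def RL : Set PP := {P | eval P.rep C.F = 0 ∧ Rl P.rep}

variable {C}

lemma mem_RL {w : V3} (hw : w ≠ 0) : Projectivization.mk ℂ w hw ∈ RL C ↔ eval w C.F = 0 ∧ Rl w := by
  constructor
  · rintro ⟨h1, h2⟩
    exact ⟨(pt_mk hw).1 ⟨Projectivization.rep_nonzero _, h1⟩, (Rl_mk hw).1 h2⟩
  · rintro ⟨h1, h2⟩
    exact ⟨((pt_mk hw).2 h1).2, (Rl_mk hw).2 h2⟩

lemma SR_mem {w : V3} (hw : w ∈ SR C) : Projectivization.mk ℂ w (SR_on hw).1 ∈ RL C :=
  (mem_RL _).2 ⟨hw.2.2, Rl_of_cj hw.2.1⟩

/-- the component of a vector -/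
noncomputable def kp (C : Curve) [Nonempty (ConnectedComponents (RL C))] (w : V3) : ConnectedComponents (RL C) :=
  open Classical in
  if h : ∃ hw : w ≠ 0, Projectivization.mk ℂ w hw ∈ RL C then
    ((⟨Projectivization.mk ℂ w h.choose, h.choose_spec⟩ : RL C) : ConnectedComponents (RL C))
  else Classical.arbitrary _

variable [Nonempty (ConnectedComponents (RL C))]

lemma kp_eq {w : V3} (hw : w ≠ 0) (hm : Projectivization.mk ℂ w hw ∈ RL C) :
    kp C w = ((⟨Projectivization.mk ℂ w hw, hm⟩ : RL C) : ConnectedComponents (RL C)) := by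
  have h : ∃ hw : w ≠ 0, Projectivization.mk ℂ w hw ∈ RL C := ⟨hw, hm⟩
  unfold kp
  rw [dif_pos h]

lemma kp_not {w : V3} (h : ¬ ∃ hw : w ≠ 0, Projectivization.mk ℂ w hw ∈ RL C) :
    kp C w = Classical.arbitrary _ := by
  unfold kp
  rw [dif_neg h]

theorem cmp_kp : Cmp C (kp C) where
  smul w hw c hc := by
    have hmk : Projectivization.mk ℂ (c • w) (smul_ne_zero hc hw) = Projectivization.mk ℂ w hw := by
      rw [Projectivization.mk_eq_mk_iff']
      exact ⟨c, rfl⟩
    by_cases hm : Projectivization.mk ℂ w hw ∈ RL C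
    · rw [kp_eq hw hm, kp_eq (smul_ne_zero hc hw) (by rw [hmk]; exact hm)]
      congr 2
    · rw [kp_not, kp_not]
      · rintro ⟨_, h1⟩; exact hm h1
      · rintro ⟨_, h1⟩
        rw [hmk] at h1
        exact hm h1
  comp y := by
    obtain ⟨x, rfl⟩ := ConnectedComponents.surjective_coe y
    let f : SR C → RL C := fun w => ⟨Projectivization.mk ℂ w.1 (SR_on w.2).1, SR_mem w.2⟩
    have hf : Continuous f := by
      refine Continuous.subtype_mk ?_ _
      exact continuous_mkPP.comp (Continuous.subtype_mk continuous_subtype_val fun w : SR C => (SR_on w.2).1)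
    have h1 : IsClosed (f ⁻¹' connectedComponent x) := isClosed_connectedComponent.preimage hf
    have h2 : {w | w ∈ SR C ∧ kp C w = (x : ConnectedComponents (RL C))} =
        Subtype.val '' (f ⁻¹' connectedComponent x) := by
      ext w
      constructor
      · rintro ⟨hw, hwx⟩
        refine ⟨⟨w, hw⟩, ?_, rfl⟩
        rw [kp_eq (SR_on hw).1 (SR_mem hw), ConnectedComponents.coe_eq_coe'] at hwx
        exact hwx
      · rintro ⟨⟨w, hw⟩, h3, rfl⟩
        refine ⟨hw, ?_⟩
        rw [kp_eq (SR_on hw).1 (SR_mem hw), ConnectedComponents.coe_eq_coe']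
        exact h3
    rw [h2]
    have h4 : IsClosed (Subtype.val '' (f ⁻¹' connectedComponent x)) :=
      (isCompact_SR C).isClosed.isClosedMap_subtype_val _ h1
    exact (isCompact_SR C).of_isClosed_subset h4 (by rintro _ ⟨w, -, rfl⟩; exact w.2)
  ne y := by
    obtain ⟨x, rfl⟩ := ConnectedComponents.surjective_coe y
    have hPt : C.Pt x.1 := ⟨x.1.rep_nonzero, x.2.1⟩
    obtain ⟨w, hw, hwS, hwx⟩ := exists_SR hPt x.2.2
    refine ⟨w, hwS, ?_⟩
    have hm : Projectivization.mk ℂ w hw ∈ RL C := by rw [hwx]; exact x.2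
    rw [kp_eq hw hm]
    congr 1
    exact Subtype.ext hwx
  path γ r hr hγ hOn t ht := by
    have h0 : (0 : ℝ) ∈ Set.Ioo (-r) r := ⟨by linarith, hr⟩
    have hmem : ∀ t (ht : t ∈ Set.Ioo (-r) r), Projectivization.mk ℂ (γ t) (hOn t ht).1.1 ∈ RL C := fun t ht =>
      (mem_RL _).2 ⟨(hOn t ht).1.2, Rl_of_cj (hOn t ht).2⟩
    let f : Set.Ioo (-r) r → RL C := fun t => ⟨Projectivization.mk ℂ (γ t.1) (hOn t.1 t.2).1.1, hmem t.1 t.2⟩
    have hf : Continuous f := by
      refine Continuous.subtype_mk ?_ _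
      have hγ' : Continuous (fun t : Set.Ioo (-r) r => γ t.1) := continuousOn_iff_continuous_domRestrict.1 hγ
      exact continuous_mkPP.comp (Continuous.subtype_mk hγ' (fun t => (hOn t.1 t.2).1.1))
    have hpre : IsPreconnected (Set.range f) := by
      have : PreconnectedSpace (Set.Ioo (-r) r) := isPreconnected_iff_preconnectedSpace.1 isPreconnected_Ioo
      exact isPreconnected_range hf
    rw [kp_eq _ (hmem t ht), kp_eq _ (hmem 0 h0), ConnectedComponents.coe_eq_coe']
    exact hpre.subset_connectedComponent (Set.mem_range_self (⟨0, h0⟩ : Set.Ioo (-r) r))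
      (Set.mem_range_self (⟨t, ht⟩ : Set.Ioo (-r) r))
  conn T T' hT hT' hcov hdis hn hn' w hw w' hw' heq := by
    have hTS : T ⊆ SR C := by rw [← hcov]; exact Set.subset_union_left
    have hTS' : T' ⊆ SR C := by rw [← hcov]; exact Set.subset_union_right
    have hTc : IsCompact T := (isCompact_SR C).of_isClosed_subset hT hTS
    have hTc' : IsCompact T' := (isCompact_SR C).of_isClosed_subset hT' hTS'
    have hU := closed_image hTc (fun w hw => (SR_on (hTS hw)).1)
    have hU' := closed_image hTc' (fun w hw => (SR_on (hTS' hw)).1)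
    rw [kp_eq _ (SR_mem (hTS hw)), kp_eq _ (SR_mem (hTS' hw')), ConnectedComponents.coe_eq_coe'] at heq
    set x : RL C := ⟨_, SR_mem (hTS hw)⟩
    set x' : RL C := ⟨_, SR_mem (hTS' hw')⟩
    have hpre : IsPreconnected (connectedComponent x') := isPreconnected_connectedComponent
    obtain ⟨z, -, ⟨v, hv, hv0, hvz⟩, ⟨v', hv', hv0', hvz'⟩⟩ := isPreconnected_closed_iff.1 hpre
      (Subtype.val ⁻¹' {P : PP | ∃ w ∈ T, ∃ hw : w ≠ 0, Projectivization.mk ℂ w hw = P})
      (Subtype.val ⁻¹' {P : PP | ∃ w ∈ T', ∃ hw : w ≠ 0, Projectivization.mk ℂ w hw = P})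
      (hU.preimage continuous_subtype_val) (hU'.preimage continuous_subtype_val)
      (by
        intro z _
        have hPt : C.Pt z.1 := ⟨z.1.rep_nonzero, z.2.1⟩
        obtain ⟨v, hv, hvS, hvz⟩ := exists_SR hPt z.2.2
        rw [← hcov] at hvS
        exact hvS.imp (fun h1 => ⟨v, h1, hv, hvz⟩) (fun h1 => ⟨v, h1, hv, hvz⟩))
      ⟨x, heq, w, hw, (SR_on (hTS hw)).1, rfl⟩ ⟨x', mem_connectedComponent, w', hw', (SR_on (hTS' hw')).1, rfl⟩
    -- the two vectors agree up to sign
    have hvv : Projectivization.mk ℂ v' hv0' = Projectivization.mk ℂ v hv0 := hvz'.trans hvz.symm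
    rw [Projectivization.mk_eq_mk_iff'] at hvv
    obtain ⟨c, hc⟩ := hvv
    have hcr : ((c.re : ℝ) : ℂ) = c := by
      obtain ⟨i, hi⟩ := exists_ne_of_ne_zero hv0
      have e1 := congrFun (hTS' hv').2.1 i
      have e2 := congrFun (hTS hv).2.1 i
      rw [← hc] at e1
      simp only [TP.cj, Pi.smul_apply, smul_eq_mul, star_mul'] at e1
      have e3 : star (v i) = v i := e2
      rw [e3] at e1
      exact Complex.conj_eq_iff_re.1 (mul_right_cancel₀ hi e1)
    have hcn : |c.re| = 1 := by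
      have h1 := (hTS' hv').1
      rw [← hc, ← hcr, norm_smul, (hTS hv).1, mul_one, Complex.norm_real, Real.norm_eq_abs] at h1
      exact h1
    rcases eq_or_eq_neg_of_abs_eq hcn with h1 | h1
    · rw [h1, Complex.ofReal_one] at hcr
      rw [← hcr, one_smul] at hc
      exact hdis v hv (hc ▸ hv')
    · rw [h1, Complex.ofReal_neg, Complex.ofReal_one] at hcr
      rw [← hcr, neg_one_smul] at hc
      exact hdis _ (hn v hv) (hc ▸ hv')

/-- **Main theorem** -/
theorem main (h4 : 4 ≤ C.deg) (hC : C.Real)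
    (hdiv : ¬ IsPreconnected {P : PP | eval P.rep C.F = 0 ∧ ¬ Rl P.rep})
    (hcard : Nat.card (ConnectedComponents (RL C)) + 1 = C.g) :
    ∃ W₁ W₀ : P3, W₁.IsHomogeneous (C.deg - 3) ∧ W₀.IsHomogeneous (C.deg - 3) ∧ bar W₁ = W₁ ∧ bar W₀ = W₀ ∧
      (¬ ∃ c : ℂ, C.F ∣ W₁ - c • W₀) ∧ ¬ C.F ∣ W₀ ∧
      ∀ l m : ℝ, (l ≠ 0 ∨ m ≠ 0) → ∀ x, C.On x → (l : ℂ) * eval x W₁ + (m : ℂ) * eval x W₀ = 0 → Rl x := by
  obtain ⟨A, B, h⟩ := exists_sep hC hdiv
  have hfin : Finite (ConnectedComponents (RL C)) := by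
    apply Nat.finite_of_card_ne_zero
    intro h0
    have h5 := two_gen (d := C.deg) C.pos
    have h6 : C.g = 1 := by omega
    unfold g at h6
    rw [h6] at h5
    obtain ⟨s, hs⟩ := Nat.exists_eq_add_of_le h4
    rw [hs] at h5
    push_cast at h5
    nlinarith
  obtain ⟨W₁, W₀, D, R, c, hD, hR⟩ := exists_can_real h (by omega) (cmp_kp (C := C)) hcard
  exact ⟨W₁, W₀, c.h1, c.h0, c.b1, c.b0, c.nc, c.n0, fun l m hlm x hx h0 => c.total h hD hR hlm hx h0⟩

end Curve

end Pool.Agent.H877.TP
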