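import Pool.Agent.H877.TP.R1

set_option autoImplicit false

namespace Pool.Agent.H877.TP
open Filter Topology

/-- analytic functions with real Taylor coefficients at `0` -/
def Sy (f : ℂ → ℂ) : Prop := AnalyticAt ℂ f 0 ∧ ∀ᶠ t in 𝓝 (0 : ℂ), f (star t) = star (f t)

lemma Sy.an {f : ℂ → ℂ} (h : Sy f) : AnalyticAt ℂ f 0 := h.1

lemma Sy.zero {f : ℂ → ℂ} (h : Sy f) : star (f 0) = f 0 := by
  have := h.2.self_of_nhds
  rw [star_zero] at this
  exact this.symm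

lemma Sy.im_zero {f : ℂ → ℂ} (h : Sy f) : (f 0).im = 0 := Complex.conj_eq_iff_im.1 h.zero

lemma Sy.re_zero {f : ℂ → ℂ} (h : Sy f) : (((f 0).re : ℝ) : ℂ) = f 0 := Complex.conj_eq_iff_re.1 h.zero

lemma Sy.mul {f g : ℂ → ℂ} (hf : Sy f) (hg : Sy g) : Sy (fun t => f t * g t) := by
  refine ⟨hf.1.fun_mul hg.1, ?_⟩
  filter_upwards [hf.2, hg.2] with t h1 h2
  rw [h1, h2, star_mul']

lemma Sy.add {f g : ℂ → ℂ} (hf : Sy f) (hg : Sy g) : Sy (fun t => f t + g t) := by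
  refine ⟨hf.1.fun_add hg.1, ?_⟩
  filter_upwards [hf.2, hg.2] with t h1 h2
  rw [h1, h2, star_add]

lemma Sy.neg {f : ℂ → ℂ} (hf : Sy f) : Sy (fun t => - f t) := by
  refine ⟨hf.1.fun_neg, ?_⟩
  filter_upwards [hf.2] with t h1
  rw [h1, star_neg]

lemma Sy.const (c : ℂ) (hc : star c = c) : Sy (fun _ => c) :=
  ⟨analyticAt_const, Eventually.of_forall fun _ => hc.symm⟩

lemma Sy.id : Sy (fun t => t) := ⟨analyticAt_id, Eventually.of_forall fun _ => rfl⟩

lemma Sy.div {g k : ℂ → ℂ} (hg : Sy g) (hk : Sy k) (htop : analyticOrderAt g 0 ≠ ⊤)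
    (h : analyticOrderAt g 0 ≤ analyticOrderAt k 0) :
    ∃ κ : ℂ → ℂ, Sy κ ∧ (∀ᶠ t in 𝓝 (0 : ℂ), k t = κ t * g t) ∧
      (analyticOrderAt g 0 = analyticOrderAt k 0 → κ 0 ≠ 0) := by
  obtain ⟨n, hn⟩ := ENat.ne_top_iff_exists.1 htop
  obtain ⟨χ, hχ, hχ0, hχeq⟩ := (hg.1.analyticOrderAt_eq_natCast).1 hn.symm
  rw [← hn] at h
  obtain ⟨k', hk', hk'eq⟩ := (natCast_le_analyticOrderAt hk.1).1 h
  have hκ : AnalyticAt ℂ (fun t => k' t / χ t) 0 := hk'.fun_div hχ hχ0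
  have hχne : ∀ᶠ t in 𝓝 (0 : ℂ), χ t ≠ 0 := hχ.continuousAt.eventually_ne hχ0
  have heq : ∀ᶠ t in 𝓝 (0 : ℂ), k t = (fun t => k' t / χ t) t * g t := by
    filter_upwards [hχeq, hk'eq, hχne] with t h1 h2 h3
    rw [h1, h2]
    simp only [smul_eq_mul]
    field_simp
  refine ⟨fun t => k' t / χ t, ⟨hκ, ?_⟩, heq, ?_⟩
  · have hgne : ∀ᶠ t in 𝓝[≠] (0 : ℂ), g t ≠ 0 := by
      rcases hg.1.eventually_eq_zero_or_eventually_ne_zero with h0 | h0
      · exact absurd (analyticOrderAt_eq_top.2 h0) htop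
      · exact h0
    have hconj : AnalyticAt ℂ (fun t => star ((fun t => k' t / χ t) (star t))) 0 :=
      analyticAt_star (by rw [star_zero]; exact hκ)
    have h1 : ∀ᶠ t in 𝓝[≠] (0 : ℂ), (fun t => k' t / χ t) t = star ((fun t => k' t / χ t) (star t)) := by
      have e1 := hg.2.filter_mono (nhdsWithin_le_nhds (s := {0}ᶜ))
      have e2 := hk.2.filter_mono (nhdsWithin_le_nhds (s := {0}ᶜ))
      have e3 := heq.filter_mono (nhdsWithin_le_nhds (s := {0}ᶜ))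
      have e4 := (tendsto_star0.eventually heq).filter_mono (nhdsWithin_le_nhds (s := {0}ᶜ))
      filter_upwards [hgne, e1, e2, e3, e4] with t a1 a2 a3 a4 a5
      rw [a2, a3, a4] at a5
      have := congrArg star a5
      rw [star_star, star_mul', star_star] at this
      exact mul_right_cancel₀ a1 this
    have h2 := (hκ.frequently_eq_iff_eventually_eq hconj).1 h1.frequently
    filter_upwards [tendsto_star0.eventually h2] with t ht
    rw [ht, star_star]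
  · intro hord
    rw [← hn] at hord
    obtain ⟨k'', hk'', hk''0, hk''eq⟩ := (hk.1.analyticOrderAt_eq_natCast).1 hord.symm
    intro h0
    have hk'0 : k' 0 = 0 := (div_eq_zero_iff.1 h0).resolve_right hχ0
    have h1 : (1 : ℕ∞) ≤ analyticOrderAt k' 0 := by
      rw [Order.one_le_iff_ne_zero, hk'.analyticOrderAt_ne_zero]; exact hk'0
    have h2 : analyticOrderAt k 0 = (n : ℕ∞) + analyticOrderAt k' 0 := by
      have e : k =ᶠ[𝓝 0] (fun t => (t - 0) ^ n) * k' := by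
        filter_upwards [hk'eq] with t ht
        rw [ht]; rfl
      rw [analyticOrderAt_congr e, analyticOrderAt_mul (by fun_prop) hk']
      congr 1
      rw [AnalyticAt.analyticOrderAt_eq_natCast (by fun_prop)]
      exact ⟨fun _ => 1, analyticAt_const, one_ne_zero, Eventually.of_forall fun t => by simp⟩
    rw [← hord] at h2
    have h3 : (n : ℕ∞) + 1 ≤ n := by
      conv_rhs => rw [h2]
      gcongr
    have h4 : n + 1 ≤ n := by exact_mod_cast h3
    omega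

lemma Sy.split {κ : ℂ → ℂ} (h : Sy κ) : ∃ κ₁ : ℂ → ℂ, Sy κ₁ ∧ ∀ᶠ t in 𝓝 (0 : ℂ), κ t = κ 0 + t * κ₁ t := by
  have h1 : Sy (fun t => κ t + -(κ 0)) := h.add (Sy.const _ (by rw [star_neg, h.zero]))
  have h2 : analyticOrderAt (fun t : ℂ => t) 0 = 1 := by
    have := (analyticAt_id (𝕜 := ℂ) (z := (0 : ℂ))).analyticOrderAt_eq_natCast (n := 1)
    have h3 := this.2 ⟨fun _ => 1, analyticAt_const, one_ne_zero, Eventually.of_forall fun t => by simp⟩
    exact_mod_cast h3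
  obtain ⟨κ₁, h3, h4, -⟩ := Sy.id.div h1 (by rw [h2]; simp) (by
    rw [h2, Order.one_le_iff_ne_zero, h1.1.analyticOrderAt_ne_zero]
    simp)
  refine ⟨κ₁, h3, ?_⟩
  filter_upwards [h4] with t ht
  linear_combination ht

lemma Sy.im_le {f : ℂ → ℂ} (h : Sy f) : ∃ M : ℝ, 0 ≤ M ∧ ∀ᶠ t in 𝓝 (0 : ℂ), |(f t).im| ≤ M * |t.im| := by
  have hs : HasStrictDerivAt f (deriv f 0) 0 := h.1.hasStrictDerivAt
  obtain ⟨K, s, hs0, hK⟩ := HasStrictFDerivAt.exists_lipschitzOnWith hs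
  refine ⟨K, K.2, ?_⟩
  filter_upwards [hs0, tendsto_star0.eventually hs0, h.2] with t h1 h2 h3
  have := hK.dist_le_mul t h1 (star t) h2
  rw [dist_eq_norm, dist_eq_norm, h3] at this
  have e1 : f t - star (f t) = ((2 * (f t).im : ℝ) : ℂ) * Complex.I := by
    rw [Complex.star_def, Complex.sub_conj]
  have e2 : t - star t = ((2 * t.im : ℝ) : ℂ) * Complex.I := by
    rw [Complex.star_def, Complex.sub_conj]
  rw [e1, e2, norm_mul, norm_mul, Complex.norm_I, mul_one, mul_one, Complex.norm_real, Complex.norm_real,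
    Real.norm_eq_abs, Real.norm_eq_abs, abs_mul, abs_mul, abs_two] at this
  have h4 : (K : ℝ) * (2 * |t.im|) = 2 * (K * |t.im|) := by ring
  rw [h4] at this
  exact le_of_mul_le_mul_left this two_pos

lemma Sy.im_ge {f : ℂ → ℂ} (h : Sy f) {d : ℝ} (hd : deriv f 0 = d) (hd0 : 0 < d) :
    ∀ᶠ t in 𝓝 (0 : ℂ), 0 < t.im → d / 2 * t.im ≤ (f t).im := by
  have hs : HasStrictDerivAt f (deriv f 0) 0 := h.1.hasStrictDerivAt
  have h1 := (hasFDerivAtFilter_iff_isLittleO.1 hs).def (half_pos hd0)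
  have h2 : Tendsto (fun t : ℂ => (t, star t)) (𝓝 0) (𝓝 (0, 0)) :=
    tendsto_id.prodMk_nhds tendsto_star0
  filter_upwards [h2.eventually h1, h.2] with t h3 h4 him
  have h3 : ‖f t - f (star t) - (t - star t) • (deriv f 0)‖ ≤ d / 2 * ‖t - star t‖ := h3
  rw [h4, hd] at h3
  have e1 : f t - star (f t) = ((2 * (f t).im : ℝ) : ℂ) * Complex.I := by
    rw [Complex.star_def, Complex.sub_conj]
  have e2 : t - star t = ((2 * t.im : ℝ) : ℂ) * Complex.I := by
    rw [Complex.star_def, Complex.sub_conj]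
  rw [e1, e2] at h3
  have e3 : ((2 * (f t).im : ℝ) : ℂ) * Complex.I - (((2 * t.im : ℝ) : ℂ) * Complex.I) • (d : ℂ) =
      ((2 * (f t).im - 2 * t.im * d : ℝ) : ℂ) * Complex.I := by
    push_cast
    rw [smul_eq_mul]; ring
  rw [e3, norm_mul, norm_mul, Complex.norm_I, mul_one, mul_one, Complex.norm_real, Complex.norm_real,
    Real.norm_eq_abs, Real.norm_eq_abs, abs_mul, abs_two, abs_of_pos him] at h3
  have := (abs_le.1 h3).1
  nlinarith

/-! ### leading coefficients -/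

lemma im_lead {f g ψ χ : ℂ → ℂ} {a b : ℕ} (hψ : ContinuousAt ψ 0) (hχ : ContinuousAt χ 0)
    (hf : ∀ᶠ t in 𝓝 (0 : ℂ), f t = t ^ a * ψ t) (hg : ∀ᶠ t in 𝓝 (0 : ℂ), g t = t ^ b * χ t) {u : ℂ}
    (h : ∀ᶠ ρ : ℝ in 𝓝[>] (0 : ℝ), 0 ≤ (f ((ρ : ℂ) * u) * star (g ((ρ : ℂ) * u))).im) :
    0 ≤ (u ^ a * star u ^ b * (ψ 0 * star (χ 0))).im := by
  have ht : Tendsto (fun ρ : ℝ => (ρ : ℂ) * u) (𝓝[>] (0 : ℝ)) (𝓝 0) := by
    have : Tendsto (fun ρ : ℝ => (ρ : ℂ) * u) (𝓝 0) (𝓝 (((0 : ℝ) : ℂ) * u)) :=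
      (Complex.continuous_ofReal.tendsto 0).mul_const u
    rw [Complex.ofReal_zero, zero_mul] at this
    exact this.mono_left nhdsWithin_le_nhds
  have h1 : Tendsto (fun ρ : ℝ => (u ^ a * star u ^ b * (ψ (ρ * u) * star (χ (ρ * u)))).im) (𝓝[>] (0 : ℝ))
      (𝓝 (u ^ a * star u ^ b * (ψ 0 * star (χ 0))).im) := by
    apply (Complex.continuous_im.tendsto _).comp
    apply Tendsto.const_mul
    exact (hψ.tendsto.comp ht).mul ((continuous_star.tendsto _).comp (hχ.tendsto.comp ht))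
  refine ge_of_tendsto h1 ?_
  filter_upwards [h, ht.eventually hf, ht.eventually hg, self_mem_nhdsWithin] with ρ h2 h3 h4 h5
  have hρ : (0 : ℝ) < ρ := h5
  rw [h3, h4] at h2
  have e : ((ρ : ℂ) * u) ^ a * ψ (ρ * u) * star (((ρ : ℂ) * u) ^ b * χ (ρ * u)) =
      ((ρ ^ (a + b) : ℝ) : ℂ) * (u ^ a * star u ^ b * (ψ (ρ * u) * star (χ (ρ * u)))) := by
    rw [star_mul', star_pow, star_mul']
    have : star (ρ : ℂ) = ρ := Complex.conj_ofReal ρ
    rw [this]
    push_cast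
    ring
  rw [e, Complex.im_ofReal_mul] at h2
  exact (mul_nonneg_iff_of_pos_left (pow_pos hρ _)).1 h2

/-- directions in the upper half plane -/
lemma exists_dir_I {n : ℕ} (hn : 1 ≤ n) : ∃ u : ℂ, u ^ n = Complex.I ∧ 0 < u.im ∧ ‖u‖ = 1 := by
  have hn' : (n : ℂ) ≠ 0 := by exact_mod_cast (by omega : n ≠ 0)
  have hn0 : (0 : ℝ) < n := by exact_mod_cast hn
  refine ⟨Complex.exp (((Real.pi / 2 / n : ℝ) : ℂ) * Complex.I), ?_, ?_, ?_⟩
  · rw [← Complex.exp_nat_mul]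
    have : (n : ℂ) * (((Real.pi / 2 / n : ℝ) : ℂ) * Complex.I) = (Real.pi / 2 : ℂ) * Complex.I := by
      push_cast; field_simp
    rw [this, Complex.exp_pi_div_two_mul_I]
  · rw [Complex.exp_ofReal_mul_I_im]
    apply Real.sin_pos_of_pos_of_lt_pi
    · have := Real.pi_pos; positivity
    · rw [div_lt_iff₀ hn0]
      have h1 : (1 : ℝ) ≤ n := by exact_mod_cast hn
      nlinarith [Real.pi_pos]
  · exact Complex.norm_exp_ofReal_mul_I _

lemma exists_dir_neg_I {n : ℕ} (hn : 2 ≤ n) : ∃ u : ℂ, u ^ n = -Complex.I ∧ 0 < u.im ∧ ‖u‖ = 1 := by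
  have hn' : (n : ℂ) ≠ 0 := by exact_mod_cast (by omega : n ≠ 0)
  have hn0 : (0 : ℝ) < n := by exact_mod_cast (by omega : 0 < n)
  refine ⟨Complex.exp (((3 * Real.pi / 2 / n : ℝ) : ℂ) * Complex.I), ?_, ?_, ?_⟩
  · rw [← Complex.exp_nat_mul]
    have : (n : ℂ) * (((3 * Real.pi / 2 / n : ℝ) : ℂ) * Complex.I) =
        Real.pi * Complex.I + (Real.pi / 2 : ℂ) * Complex.I := by
      push_cast; field_simp; ring
    rw [this, Complex.exp_add, Complex.exp_pi_div_two_mul_I, Complex.exp_pi_mul_I]; ring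
  · rw [Complex.exp_ofReal_mul_I_im]
    apply Real.sin_pos_of_pos_of_lt_pi
    · have := Real.pi_pos; positivity
    · rw [div_lt_iff₀ hn0]
      have h1 : (2 : ℝ) ≤ n := by exact_mod_cast hn
      nlinarith [Real.pi_pos]
  · exact Complex.norm_exp_ofReal_mul_I _

lemma exists_dir_gen {n : ℕ} (hn : 1 ≤ n) {w : ℂ} (hw : w ≠ 0) : ∃ u : ℂ, (u ^ n * w).im < 0 ∧ ‖u‖ = 1 := by
  have hw' : (‖w‖ : ℂ) ≠ 0 := by exact_mod_cast norm_ne_zero_iff.2 hw
  obtain ⟨u, hu⟩ := IsAlgClosed.exists_pow_nat_eq (-Complex.I * (‖w‖ / w)) (by omega : 0 < n)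
  refine ⟨u, ?_, ?_⟩
  · have : u ^ n * w = ((-‖w‖ : ℝ) : ℂ) * Complex.I := by
      rw [hu]; push_cast; field_simp
    rw [this, Complex.im_ofReal_mul, Complex.I_im, mul_one]
    exact neg_lt_zero.2 (norm_pos_iff.2 hw)
  · have h1 : ‖u‖ ^ n = 1 := by
      rw [← norm_pow, hu, norm_mul, norm_neg, Complex.norm_I, one_mul, norm_div, Complex.norm_real, norm_norm,
        div_self (norm_ne_zero_iff.2 hw)]
    exact (pow_eq_one_iff_of_nonneg (norm_nonneg _) (by omega)).1 h1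

lemma ray_nhds {s : Set ℂ} (hs : s ∈ 𝓝 (0 : ℂ)) (u : ℂ) : ∀ᶠ ρ : ℝ in 𝓝[>] (0 : ℝ), (ρ : ℂ) * u ∈ s := by
  have : Tendsto (fun ρ : ℝ => (ρ : ℂ) * u) (𝓝 0) (𝓝 (((0 : ℝ) : ℂ) * u)) :=
    (Complex.continuous_ofReal.tendsto 0).mul_const u
  rw [Complex.ofReal_zero, zero_mul] at this
  exact (this.mono_left nhdsWithin_le_nhds).eventually hs

lemma ray_im {u : ℂ} (hu : 0 < u.im) : ∀ᶠ ρ : ℝ in 𝓝[>] (0 : ℝ), 0 < ((ρ : ℂ) * u).im := by
  filter_upwards [self_mem_nhdsWithin] with ρ hρ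
  rw [Complex.im_ofReal_mul]
  exact mul_pos hρ hu

/-- positivity on a full neighbourhood forces equal orders -/
lemma order_full {f g : ℂ → ℂ} (hf : AnalyticAt ℂ f 0) (hg : AnalyticAt ℂ g 0) {a b : ℕ}
    (ha : analyticOrderAt f 0 = a) (hb : analyticOrderAt g 0 = b)
    (h : ∀ᶠ t in 𝓝 (0 : ℂ), 0 ≤ (f t * star (g t)).im) : a = b := by
  obtain ⟨ψ, hψ, hψ0, hψeq⟩ := (hf.analyticOrderAt_eq_natCast).1 ha
  obtain ⟨χ, hχ, hχ0, hχeq⟩ := (hg.analyticOrderAt_eq_natCast).1 hb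
  have hf' : ∀ᶠ t in 𝓝 (0 : ℂ), f t = t ^ a * ψ t := by
    filter_upwards [hψeq] with t ht; simpa using ht
  have hg' : ∀ᶠ t in 𝓝 (0 : ℂ), g t = t ^ b * χ t := by
    filter_upwards [hχeq] with t ht; simpa using ht
  have key : ∀ u : ℂ, 0 ≤ (u ^ a * star u ^ b * (ψ 0 * star (χ 0))).im := fun u =>
    im_lead hψ.continuousAt hχ.continuousAt hf' hg' (ray_nhds h u)
  have hw : ψ 0 * star (χ 0) ≠ 0 := mul_ne_zero hψ0 (star_ne_zero.2 hχ0)
  by_contra hne
  rcases lt_or_gt_of_ne hne with hlt | hlt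
  · obtain ⟨n, rfl⟩ := Nat.exists_eq_add_of_lt hlt
    obtain ⟨u, hu, hu1⟩ := exists_dir_gen (n := n + 1) (by omega) hw
    have h1 := key (star u)
    have e : star u ^ a * star (star u) ^ (a + n + 1) = u ^ (n + 1) := by
      rw [star_star, add_assoc, pow_add, ← mul_assoc, ← mul_pow]
      have : star u * u = 1 := by
        rw [Complex.star_def, Complex.conj_mul', hu1]; simp
      rw [this, one_pow, one_mul]
    rw [e] at h1
    linarith
  · obtain ⟨n, rfl⟩ := Nat.exists_eq_add_of_lt hlt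
    obtain ⟨u, hu, hu1⟩ := exists_dir_gen (n := n + 1) (by omega) hw
    have h1 := key u
    have e : u ^ (b + n + 1) * star u ^ b = u ^ (n + 1) := by
      rw [add_assoc, pow_add, mul_right_comm, ← mul_pow]
      have : u * star u = 1 := by
        rw [Complex.star_def, Complex.mul_conj', hu1]; simp
      rw [this, one_pow, one_mul]
    rw [e] at h1
    linarith

/-- positivity on a half disc for functions with real coefficients -/
lemma order_half {f g : ℂ → ℂ} (hf : Sy f) (hg : Sy g) {a b : ℕ}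
    (ha : analyticOrderAt f 0 = a) (hb : analyticOrderAt g 0 = b)
    (h : ∀ᶠ t in 𝓝 (0 : ℂ), 0 < t.im → 0 ≤ (f t * star (g t)).im) : a ≤ b + 1 ∧ b ≤ a + 1 := by
  obtain ⟨ψ, hψ, hψ0, hψeq⟩ := (hf.1.analyticOrderAt_eq_natCast).1 ha
  obtain ⟨χ, hχ, hχ0, hχeq⟩ := (hg.1.analyticOrderAt_eq_natCast).1 hb
  have hpow : ∀ n : ℕ, Sy (fun t => t ^ n) := fun n =>
    ⟨by fun_prop, Eventually.of_forall fun t => (star_pow t n).symm⟩
  have hord : ∀ n : ℕ, analyticOrderAt (fun t : ℂ => t ^ n) 0 = n := fun n => by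
    rw [AnalyticAt.analyticOrderAt_eq_natCast (by fun_prop)]
    exact ⟨fun _ => 1, analyticAt_const, one_ne_zero, Eventually.of_forall fun t => by simp⟩
  obtain ⟨ψ, hψS, hf', hψ0⟩ := (hpow a).div hf (by rw [hord]; simp) (by rw [hord, ha])
  obtain ⟨χ, hχS, hg', hχ0⟩ := (hpow b).div hg (by rw [hord]; simp) (by rw [hord, hb])
  have hψ0 := hψ0 (by rw [hord, ha])
  have hχ0 := hχ0 (by rw [hord, hb])
  have hf'' : ∀ᶠ t in 𝓝 (0 : ℂ), f t = t ^ a * ψ t := by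
    filter_upwards [hf'] with t ht; rw [ht]; ring
  have hg'' : ∀ᶠ t in 𝓝 (0 : ℂ), g t = t ^ b * χ t := by
    filter_upwards [hg'] with t ht; rw [ht]; ring
  have key : ∀ u : ℂ, 0 < u.im → 0 ≤ (u ^ a * star u ^ b * (ψ 0 * star (χ 0))).im := fun u hu =>
    im_lead hψS.1.continuousAt hχS.1.continuousAt hf'' hg'' (by
      filter_upwards [ray_nhds h u, ray_im hu] with ρ h1 h2 using h1 h2)
  set c : ℝ := (ψ 0).re * (χ 0).re with hc
  have hcc : ψ 0 * star (χ 0) = (c : ℂ) := by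
    rw [hχS.zero, ← hψS.re_zero, ← hχS.re_zero, hc]; push_cast; simp
  have hc0 : c ≠ 0 := by
    intro h0
    rw [h0] at hcc
    exact (mul_ne_zero hψ0 (star_ne_zero.2 hχ0)) (by rw [hcc]; simp)
  rw [hcc] at key
  have hss : ∀ u : ℂ, ‖u‖ = 1 → u * star u = 1 := fun u hu => by
    rw [Complex.star_def, Complex.mul_conj', hu]; simp
  constructor
  · by_contra hcon
    push Not at hcon
    obtain ⟨n, hn⟩ : ∃ n, a = b + n := ⟨a - b, by omega⟩
    have hn2 : 2 ≤ n := by omega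
    have e : ∀ u : ℂ, ‖u‖ = 1 → u ^ a * star u ^ b = u ^ n := fun u hu => by
      rw [hn, pow_add, mul_right_comm, ← mul_pow, hss u hu, one_pow, one_mul]
    obtain ⟨u, hu, hui, hu1⟩ := exists_dir_I (n := n) (by omega)
    obtain ⟨v, hv, hvi, hv1⟩ := exists_dir_neg_I hn2
    have h1 := key u hui
    have h2 := key v hvi
    rw [e u hu1, hu] at h1
    rw [e v hv1, hv] at h2
    rw [Complex.im_mul_ofReal, Complex.I_im, one_mul] at h1
    rw [Complex.im_mul_ofReal, Complex.neg_im, Complex.I_im] at h2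
    exact hc0 (le_antisymm (by linarith) h1)
  · by_contra hcon
    push Not at hcon
    obtain ⟨n, hn⟩ : ∃ n, b = a + n := ⟨b - a, by omega⟩
    have hn2 : 2 ≤ n := by omega
    have e : ∀ u : ℂ, ‖u‖ = 1 → u ^ a * star u ^ b = star (u ^ n) := fun u hu => by
      rw [hn, pow_add, ← mul_assoc, ← mul_pow, hss u hu, one_pow, one_mul, star_pow]
    obtain ⟨u, hu, hui, hu1⟩ := exists_dir_I (n := n) (by omega)
    obtain ⟨v, hv, hvi, hv1⟩ := exists_dir_neg_I hn2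
    have h1 := key u hui
    have h2 := key v hvi
    rw [e u hu1, hu] at h1
    rw [e v hv1, hv] at h2
    rw [Complex.im_mul_ofReal, Complex.star_def, Complex.conj_I, Complex.neg_im, Complex.I_im] at h1
    rw [Complex.im_mul_ofReal, Complex.star_def, map_neg, Complex.conj_I, neg_neg, Complex.I_im, one_mul] at h2
    exact hc0 (le_antisymm (by linarith) h2)

end Pool.Agent.H877.TP
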