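import Pool.Agent.H877.TP.R2

set_option autoImplicit false

namespace Pool.Agent.H877.TP
open Filter Topology

lemma order_id : analyticOrderAt (fun t : ℂ => t) 0 = 1 := by
  have := (analyticAt_id (𝕜 := ℂ) (z := (0 : ℂ))).analyticOrderAt_eq_natCast (n := 1)
  have h3 := this.2 ⟨fun _ => 1, analyticAt_const, one_ne_zero, Eventually.of_forall fun t => by simp⟩
  exact_mod_cast h3

lemma order_tmul {k : ℂ → ℂ} (hk : AnalyticAt ℂ k 0) :
    analyticOrderAt (fun t => t * k t) 0 = analyticOrderAt k 0 + 1 := by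
  have h := analyticOrderAt_mul (analyticAt_id (𝕜 := ℂ) (z := (0 : ℂ))) hk
  have e : (fun t => t * k t) = (id * k : ℂ → ℂ) := by ext t; rfl
  rw [e, h]
  have : analyticOrderAt (id : ℂ → ℂ) 0 = 1 := order_id
  rw [this, add_comm]

/-- lower bound for functions with nonnegative imaginary part on a half disc -/
lemma half_lower {h : ℂ → ℂ} (hh : Sy h) (hpos : ∀ᶠ t in 𝓝 (0 : ℂ), 0 < t.im → 0 ≤ (h t).im)
    (hnc : ¬ ∀ᶠ t in 𝓝 (0 : ℂ), h t = h 0) :
    ∃ c : ℝ, 0 < c ∧ ∀ᶠ t in 𝓝 (0 : ℂ), 0 < t.im → c * t.im ≤ (h t).im := by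
  have h1 : Sy (fun t => h t + -(h 0)) := hh.add (Sy.const _ (by rw [star_neg, hh.zero]))
  have h2 : Sy (fun _ => (1 : ℂ)) := Sy.const _ (star_one ℂ)
  have ho2 : analyticOrderAt (fun _ : ℂ => (1 : ℂ)) 0 = ((0 : ℕ) : ℕ∞) := by
    rw [AnalyticAt.analyticOrderAt_eq_natCast analyticAt_const]
    exact ⟨fun _ => 1, analyticAt_const, one_ne_zero, Eventually.of_forall fun t => by simp⟩
  have hotop : analyticOrderAt (fun t => h t + -(h 0)) 0 ≠ ⊤ := by
    intro htop
    apply hnc
    filter_upwards [analyticOrderAt_eq_top.1 htop] with t ht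
    linear_combination ht
  obtain ⟨n, hn⟩ := ENat.ne_top_iff_exists.1 hotop
  have hn1 : 1 ≤ n := by
    have : analyticOrderAt (fun t => h t + -(h 0)) 0 ≠ 0 := by
      rw [h1.1.analyticOrderAt_ne_zero]; simp
    rw [← hn] at this
    have : n ≠ 0 := by exact_mod_cast this
    omega
  have hle := (order_half h1 h2 hn.symm ho2 (by
    filter_upwards [hpos] with t ht hti
    have := ht hti
    simp [hh.im_zero, this])).1
  have hn' : n = 1 := by omega
  subst hn'
  obtain ⟨h₁, hS₁, heq, hne⟩ := Sy.id.div h1 (by rw [order_id]; simp) (by rw [order_id, ← hn]; simp)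
  have hne := hne (by rw [order_id, ← hn]; simp)
  have hrep : ∀ᶠ t in 𝓝 (0 : ℂ), h t + -(h 0) = t ^ 1 * h₁ t := by
    filter_upwards [heq] with t ht; rw [ht]; ring
  have hlead := im_lead (f := fun t => h t + -(h 0)) (g := fun _ => (1 : ℂ)) (ψ := h₁) (χ := fun _ => (1 : ℂ))
    (a := 1) (b := 0) hS₁.1.continuousAt continuousAt_const hrep
    (Eventually.of_forall fun t => by simp) (u := Complex.I) (by
      filter_upwards [ray_nhds hpos Complex.I, ray_im (u := Complex.I) (by simp)] with ρ e1 e2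
      have := e1 e2
      simp [hh.im_zero] at this ⊢
      exact this)
  have hre : 0 ≤ (h₁ 0).re := by simpa using hlead
  have hre0 : (h₁ 0).re ≠ 0 := by
    intro h0
    apply hne
    rw [← hS₁.re_zero, h0]; simp
  have hrepos : 0 < (h₁ 0).re := lt_of_le_of_ne hre (Ne.symm hre0)
  have hderiv : deriv h 0 = ((h₁ 0).re : ℂ) := by
    have e1 : HasDerivAt (fun t => h 0 + t * h₁ t) (h₁ 0) 0 := by
      have := ((hasDerivAt_id (0 : ℂ)).mul hS₁.1.differentiableAt.hasDerivAt).const_add (h 0)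
      simpa using this
    have e2 : h =ᶠ[𝓝 0] fun t => h 0 + t * h₁ t := by
      filter_upwards [heq] with t ht; linear_combination ht
    rw [hS₁.re_zero]
    exact (e1.congr_of_eventuallyEq e2).deriv
  exact ⟨_, half_pos hrepos, hh.im_ge hderiv hrepos⟩

lemma im_div_real (c : ℝ) (t : ℂ) : ((c : ℂ) / t).im = -c * t.im / Complex.normSq t := by
  rw [Complex.div_im]; simp; ring

/-- the sign of a residue -/
lemma half_pole {φ : ℂ → ℂ} (hφ : Sy φ) (h0 : φ 0 ≠ 0)
    (hpos : ∀ᶠ t in 𝓝 (0 : ℂ), 0 < t.im → 0 ≤ (φ t * star t).im) : (φ 0).re < 0 := by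
  have hlead := im_lead (f := φ) (g := fun t => t) (ψ := φ) (χ := fun _ => (1 : ℂ))
    (a := 0) (b := 1) hφ.1.continuousAt continuousAt_const (Eventually.of_forall fun t => by simp)
    (Eventually.of_forall fun t => by simp) (u := Complex.I) (by
      filter_upwards [ray_nhds hpos Complex.I, ray_im (u := Complex.I) (by simp)] with ρ e1 e2
      exact e1 e2)
  have hre : (φ 0).re ≤ 0 := by simpa using hlead
  refine lt_of_le_of_ne hre fun h => h0 ?_
  rw [← hφ.re_zero, h]; simp

lemma im_mul_norm (h g : ℂ) : (h * g * star g).im = Complex.normSq g * h.im := by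
  rw [mul_assoc, Complex.star_def, Complex.mul_conj, Complex.im_mul_ofReal, mul_comm]

/-- local comparison at a real point -/
lemma real_local {f g k : ℂ → ℂ} (hf : Sy f) (hg : Sy g) (hk : Sy k)
    (hgt : analyticOrderAt g 0 ≠ ⊤) (hft : analyticOrderAt f 0 ≠ ⊤)
    (hnp : ∀ c : ℂ, analyticOrderAt (fun t => f t - c * g t) 0 ≠ ⊤)
    (hpos : ∀ᶠ t in 𝓝 (0 : ℂ), 0 < t.im → 0 ≤ (f t * star (g t)).im)
    (hkb : analyticOrderAt g 0 ≤ analyticOrderAt k 0 + 1) :
    (∃ M : ℝ, 0 ≤ M ∧ ∀ᶠ t in 𝓝 (0 : ℂ), 0 < t.im →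
      -M * (f t * star (g t)).im ≤ (k t * star (g t)).im) ∨
    (analyticOrderAt g 0 ≤ analyticOrderAt f 0 ∧ analyticOrderAt k 0 < analyticOrderAt g 0 ∧
      ∃ M : ℝ, 0 ≤ M ∧ ∀ᶠ t in 𝓝 (0 : ℂ), 0 < t.im →
      -M * (f t * star (g t)).im ≤ (-k t * star (g t)).im) := by
  have hgne : ∀ᶠ t in 𝓝[≠] (0 : ℂ), g t ≠ 0 := by
    rcases hg.1.eventually_eq_zero_or_eventually_ne_zero with h0 | h0
    · exact absurd (analyticOrderAt_eq_top.2 h0) hgt
    · exact h0
  have hgne' : ∀ᶠ t in 𝓝 (0 : ℂ), 0 < t.im → g t ≠ 0 := by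
    rw [eventually_nhdsWithin_iff] at hgne
    filter_upwards [hgne] with t ht hti
    apply ht
    rintro rfl
    simp at hti
  -- `t k = κ g`
  have htk : Sy (fun t => t * k t) := Sy.id.mul hk
  have hotk := order_tmul hk.1
  obtain ⟨κ, hκ, hκeq, hκne⟩ := hg.div htk hgt (by rw [hotk]; exact hkb)
  obtain ⟨κ₁, hκ₁, hκsp⟩ := hκ.split
  obtain ⟨M₂, hM₂, hM₂b⟩ := hκ₁.im_le
  have hkim : ∀ᶠ t in 𝓝 (0 : ℂ), 0 < t.im → (k t * star (g t)).im =
      Complex.normSq (g t) * (-(κ 0).re * t.im / Complex.normSq t + (κ₁ t).im) := by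
    filter_upwards [hκeq, hκsp] with t e1 e2 hti
    have ht0 : t ≠ 0 := by rintro rfl; simp at hti
    have e3 : k t = (((κ 0).re : ℂ) / t + κ₁ t) * g t := by
      rw [hκ.re_zero]
      field_simp
      rw [e2] at e1
      linear_combination e1
    rw [e3, im_mul_norm, Complex.add_im, im_div_real]
  rcases le_or_gt (analyticOrderAt g 0) (analyticOrderAt f 0) with hgf | hgf
  · -- regular case
    obtain ⟨h, hh, heq, -⟩ := hg.div hf hgt hgf
    have hhpos : ∀ᶠ t in 𝓝 (0 : ℂ), 0 < t.im → 0 ≤ (h t).im := by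
      filter_upwards [hpos, heq, hgne'] with t e1 e2 e3 hti
      have := e1 hti
      rw [e2, im_mul_norm] at this
      exact (mul_nonneg_iff_of_pos_left (Complex.normSq_pos.2 (e3 hti))).1 this
    have hnc : ¬ ∀ᶠ t in 𝓝 (0 : ℂ), h t = h 0 := by
      intro hc
      apply hnp (h 0)
      rw [analyticOrderAt_eq_top]
      filter_upwards [hc, heq] with t e1 e2
      rw [e2, e1, sub_self]
    obtain ⟨c, hc, hcb⟩ := half_lower hh hhpos hnc
    have hfim : ∀ᶠ t in 𝓝 (0 : ℂ), 0 < t.im →
        Complex.normSq (g t) * (c * t.im) ≤ (f t * star (g t)).im := by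
      filter_upwards [heq, hcb] with t e1 e2 hti
      rw [e1, im_mul_norm]
      exact mul_le_mul_of_nonneg_left (e2 hti) (Complex.normSq_nonneg _)
    -- the final estimate
    have hfin : ∀ (q : ℂ → ℂ) (M : ℝ), 0 ≤ M → (∀ᶠ t in 𝓝 (0 : ℂ), 0 < t.im →
        Complex.normSq (g t) * (-M * t.im) ≤ (q t * star (g t)).im) →
        ∃ M : ℝ, 0 ≤ M ∧ ∀ᶠ t in 𝓝 (0 : ℂ), 0 < t.im →
          -M * (f t * star (g t)).im ≤ (q t * star (g t)).im := by
      intro q M hM hq
      refine ⟨M / c, by positivity, ?_⟩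
      filter_upwards [hq, hfim] with t e1 e2 hti
      have e3 := e1 hti
      have e4 := e2 hti
      have e5 : M / c * (Complex.normSq (g t) * (c * t.im)) ≤ M / c * (f t * star (g t)).im :=
        mul_le_mul_of_nonneg_left e4 (by positivity)
      have e6 : M / c * (Complex.normSq (g t) * (c * t.im)) = Complex.normSq (g t) * (M * t.im) := by
        field_simp
      linarith
    rcases le_or_gt (analyticOrderAt g 0) (analyticOrderAt k 0) with hgk | hgk
    · left
      obtain ⟨κ', hκ', hκ'eq, -⟩ := hg.div hk hgt hgk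
      obtain ⟨M, hM, hMb⟩ := hκ'.im_le
      apply hfin k M hM
      filter_upwards [hκ'eq, hMb] with t e1 e2 hti
      rw [e1, im_mul_norm]
      apply mul_le_mul_of_nonneg_left _ (Complex.normSq_nonneg _)
      rw [abs_of_pos hti] at e2
      linarith [(abs_le.1 e2).1]
    · rcases lt_or_ge 0 (κ 0).re with hs | hs
      · right
        refine ⟨hgf, hgk, hfin (fun t => -k t) M₂ hM₂ ?_⟩
        filter_upwards [hkim, hM₂b] with t e1 e2 hti
        have e3 := e1 hti
        rw [abs_of_pos hti] at e2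
        rw [neg_mul (k t), Complex.neg_im, e3, ← mul_neg]
        apply mul_le_mul_of_nonneg_left _ (Complex.normSq_nonneg _)
        have e4 : 0 ≤ (κ 0).re * t.im / Complex.normSq t :=
          div_nonneg (by positivity) (Complex.normSq_nonneg _)
        have e5 : -(κ 0).re * t.im / Complex.normSq t = -((κ 0).re * t.im / Complex.normSq t) := by ring
        rw [e5]
        linarith [(abs_le.1 e2).2]
      · left
        apply hfin k M₂ hM₂
        filter_upwards [hkim, hM₂b] with t e1 e2 hti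
        have e3 := e1 hti
        rw [abs_of_pos hti] at e2
        rw [e3]
        apply mul_le_mul_of_nonneg_left _ (Complex.normSq_nonneg _)
        have e4 : 0 ≤ -(κ 0).re * t.im / Complex.normSq t :=
          div_nonneg (mul_nonneg (by linarith) hti.le) (Complex.normSq_nonneg _)
        linarith [(abs_le.1 e2).1]
  · -- pole
    left
    have htf : Sy (fun t => t * f t) := Sy.id.mul hf
    have hotf := order_tmul hf.1
    obtain ⟨a, ha⟩ := ENat.ne_top_iff_exists.1 hft
    obtain ⟨b, hb⟩ := ENat.ne_top_iff_exists.1 hgt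
    have hhalf := order_half hf hg ha.symm hb.symm hpos
    have hab : b = a + 1 := by
      rw [← ha, ← hb] at hgf
      have : a < b := by exact_mod_cast hgf
      omega
    have hog : analyticOrderAt g 0 = analyticOrderAt (fun t => t * f t) 0 := by
      rw [hotf, ← ha, ← hb, hab]; push_cast; rfl
    obtain ⟨φ, hφ, hφeq, hφne⟩ := hg.div htf hgt hog.le
    have hφ0 := hφne hog
    have hφpos : ∀ᶠ t in 𝓝 (0 : ℂ), 0 < t.im → 0 ≤ (φ t * star t).im := by
      filter_upwards [hpos, hφeq, hgne'] with t e1 e2 e3 hti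
      have ht0 : t ≠ 0 := by rintro rfl; simp at hti
      have h1 := e1 hti
      have e4 : f t = φ t / t * g t := by
        field_simp
        linear_combination e2
      rw [e4, im_mul_norm] at h1
      have h2 := (mul_nonneg_iff_of_pos_left (Complex.normSq_pos.2 (e3 hti))).1 h1
      have h3 : φ t * star t = φ t / t * t * star t := by field_simp
      rw [h3, im_mul_norm]
      exact mul_nonneg (Complex.normSq_nonneg _) h2
    have hφneg := half_pole hφ hφ0 hφpos
    obtain ⟨φ₁, hφ₁, hφsp⟩ := hφ.split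
    obtain ⟨M₁, hM₁, hM₁b⟩ := hφ₁.im_le
    have hfim : ∀ᶠ t in 𝓝 (0 : ℂ), 0 < t.im → (f t * star (g t)).im =
        Complex.normSq (g t) * (-(φ 0).re * t.im / Complex.normSq t + (φ₁ t).im) := by
      filter_upwards [hφeq, hφsp] with t e1 e2 hti
      have ht0 : t ≠ 0 := by rintro rfl; simp at hti
      have e3 : f t = (((φ 0).re : ℂ) / t + φ₁ t) * g t := by
        rw [hφ.re_zero]
        field_simp
        rw [e2] at e1
        linear_combination e1
      rw [e3, im_mul_norm, Complex.add_im, im_div_real]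
    set p : ℝ := -(φ 0).re with hp
    have hp0 : 0 < p := by rw [hp]; linarith
    set q : ℝ := |(κ 0).re| with hq
    have hq0 : 0 ≤ q := abs_nonneg _
    refine ⟨2 * (q + 1) / p, by positivity, ?_⟩
    have hsmall : ∀ᶠ t in 𝓝 (0 : ℂ), M₁ * Complex.normSq t ≤ p / 2 ∧ M₂ * Complex.normSq t ≤ 1 := by
      have c1 : Tendsto (fun t : ℂ => M₁ * Complex.normSq t) (𝓝 0) (𝓝 0) := by
        have := (Complex.continuous_normSq.tendsto 0).const_mul M₁
        simpa using this
      have c2 : Tendsto (fun t : ℂ => M₂ * Complex.normSq t) (𝓝 0) (𝓝 0) := by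
        have := (Complex.continuous_normSq.tendsto 0).const_mul M₂
        simpa using this
      exact (c1.eventually_le_const (half_pos hp0)).and (c2.eventually_le_const one_pos)
    filter_upwards [hfim, hkim, hM₁b, hM₂b, hsmall] with t e1 e2 e3 e4 e5 hti
    have ht0 : t ≠ 0 := by rintro rfl; simp at hti
    rw [e1 hti, e2 hti]
    rw [abs_of_pos hti] at e3 e4
    set N := Complex.normSq t with hN
    have hN0 : 0 < N := Complex.normSq_pos.2 ht0
    set y := t.im with hy
    have h1 : y / N * (p / 2) ≤ p * y / N + (φ₁ t).im := by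
      have h2 : -(M₁ * y) ≤ (φ₁ t).im := (abs_le.1 e3).1
      have h3 : M₁ * y ≤ y / N * (p / 2) := by
        rw [div_mul_eq_mul_div, le_div_iff₀ hN0]
        nlinarith [e5.1]
      have h4 : p * y / N = y / N * (p / 2) + y / N * (p / 2) := by ring
      linarith
    have h5 : -(y / N * (q + 1)) ≤ -(κ 0).re * y / N + (κ₁ t).im := by
      have h2 : -(M₂ * y) ≤ (κ₁ t).im := (abs_le.1 e4).1
      have h3 : M₂ * y ≤ y / N := by
        rw [le_div_iff₀ hN0]
        nlinarith [e5.2]
      have h4 : -(y / N * q) ≤ -(κ 0).re * y / N := by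
        have : -(κ 0).re * y / N = y / N * (-(κ 0).re) := by ring
        rw [this, ← mul_neg]
        apply mul_le_mul_of_nonneg_left _ (by positivity)
        linarith [le_abs_self (κ 0).re]
      have h6 : y / N * (q + 1) = y / N * q + y / N := by ring
      linarith
    have h7 : 2 * (q + 1) / p * (y / N * (p / 2)) = y / N * (q + 1) := by
      field_simp
    have h8 : 2 * (q + 1) / p * (y / N * (p / 2)) ≤ 2 * (q + 1) / p * (p * y / N + (φ₁ t).im) :=
      mul_le_mul_of_nonneg_left h1 (by positivity)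
    have h9 : -(2 * (q + 1) / p) * (p * y / N + (φ₁ t).im) ≤ -(κ 0).re * y / N + (κ₁ t).im := by
      linarith
    have h10 : 0 ≤ Complex.normSq (g t) := Complex.normSq_nonneg _
    calc -(2 * (q + 1) / p) * (Complex.normSq (g t) * (p * y / N + (φ₁ t).im))
        = Complex.normSq (g t) * (-(2 * (q + 1) / p) * (p * y / N + (φ₁ t).im)) := by ring
      _ ≤ _ := mul_le_mul_of_nonneg_left h9 h10

end Pool.Agent.H877.TP
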