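import Pool.Agent.H877.TP.R3

set_option autoImplicit false

namespace Pool.Agent.H877.TP
open MvPolynomial Filter Topology

/-- the function `Im (G / H) |H|^2` is nonnegative on `B` -/
def Pos (B : Set V3) (G H : P3) : Prop := ∀ x ∈ B, 0 ≤ (eval x G * star (eval x H)).im

lemma im_smul (c : ℂ) (y : V3) {G H : P3} {e : ℕ} (hG : G.IsHomogeneous e) (hH : H.IsHomogeneous e) :
    (eval (c • y) G * star (eval (c • y) H)).im = (‖c‖ ^ 2) ^ e * (eval y G * star (eval y H)).im := by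
  rw [eval_smul_vec _ _ hG, eval_smul_vec _ _ hH, star_mul', star_pow]
  have h1 : c ^ e * eval y G * (star c ^ e * star (eval y H)) =
      (((‖c‖ ^ 2) ^ e : ℝ) : ℂ) * (eval y G * star (eval y H)) := by
    have : c * star c = ((‖c‖ ^ 2 : ℝ) : ℂ) := by
      rw [Complex.star_def, Complex.mul_conj']; push_cast; rfl
    push_cast
    rw [show (c ^ e * eval y G * (star c ^ e * star (eval y H)) : ℂ) =
      (c * star c) ^ e * (eval y G * star (eval y H)) by rw [mul_pow]; ring, this]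
    push_cast; rfl
  rw [h1, Complex.im_ofReal_mul]

namespace RChart
variable {C : Curve} {A B : Set V3} {p : V3} (ch : RChart C A B p)

lemma mem0 : (0 : ℂ) ∈ Metric.ball (0 : ℂ) ch.r := Metric.mem_ball_self ch.r_pos

lemma par0 : IsParam C.F ch.γ 0 := ch.par 0 ch.mem0

include ch in
lemma ne0 : p ≠ 0 := by
  have := ch.par0.ne
  rwa [ch.base] at this

include ch in
lemma on : C.On p := by
  refine ⟨ch.ne0, ?_⟩
  have := ch.par0.zer.self_of_nhds
  rwa [ch.base] at this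

lemma ord_eq {G : P3} {e : ℕ} (hG : G.IsHomogeneous e) :
    C.ord (Projectivization.mk ℂ p ch.ne0) G = analyticOrderAt (fun t => eval (ch.γ t) G) 0 := by
  have := Curve.ord_param ch.par0 hG
  simp only [ch.base] at this
  exact this

lemma sy {G : P3} (hG : bar G = G) : Sy (fun t => eval (ch.γ t) G) := by
  refine ⟨an_eval ch.par0.an G, ?_⟩
  filter_upwards [Metric.ball_mem_nhds (0 : ℂ) ch.r_pos] with t ht
  rw [ch.sym t ht]
  have := eval_bar G (ch.γ t)
  rwa [hG] at this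

end RChart

namespace Curve
variable {C : Curve}

/-- comparison near a point -/
def Lc (B : Set V3) (G H K : P3) (x : V3) : Prop :=
  ∃ M : ℝ, 0 ≤ M ∧ ∀ᶠ q in 𝓝 x, q ∈ B →
    -M * (eval q G * star (eval q H)).im ≤ (eval q K * star (eval q H)).im

lemma exists_real_rep {x : V3} (hx : x ≠ 0) (hR : Rl x) : ∃ c : ℂ, c ≠ 0 ∧ TP.cj (c • x) = c • x := by
  obtain ⟨c, hc, h⟩ := (Rl_iff hx).1 hR
  refine ⟨c, hc, ?_⟩
  ext i
  exact Complex.conj_eq_iff_im.2 (h i)

section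
variable {A B : Set V3} (h : Sep C A B) {e : ℕ} {G H : P3} (hG : G.IsHomogeneous e) (hH : H.IsHomogeneous e)
  (hbG : bar G = G) (hbH : bar H = H) (hpos : Pos B G H) (hnc : ¬ ∃ c : ℂ, C.F ∣ G - c • H)

include h hG hH hpos hnc in
/-- strict positivity -/
lemma strict {x : V3} (hx : x ∈ B) (hne : eval x H ≠ 0) : 0 < (eval x G * star (eval x H)).im := by
  have key : ∀ q, eval q H ≠ 0 → (eval q G * star (eval q H)).im =
      Complex.normSq (eval q H) * (qt G H q).im := by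
    intro q hq
    have : eval q G = qt G H q * eval q H := by
      unfold qt; rw [div_mul_cancel₀ _ hq]
    conv_lhs => rw [this]
    exact im_mul_norm _ _
  refine lt_of_le_of_ne (hpos x hx) fun h0 => ?_
  rw [key x hne] at h0
  have h1 : (qt G H x).im = 0 := by
    rcases mul_eq_zero.1 h0.symm with h2 | h2
    · exact absurd (Complex.normSq_eq_zero.1 h2) hne
    · exact h2
  obtain ⟨q, hq, hqne, hlt⟩ := open_map h.opB hG hH hnc hx hne (fun z => -z.im) im_open'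
  have h2 := hpos q hq
  rw [key q hqne] at h2
  have h3 := (mul_nonneg_iff_of_pos_left (Complex.normSq_pos.2 hqne)).1 h2
  simp only [h1] at hlt
  linarith

lemma nonprop_ord {G H : P3} (hG : G.IsHomogeneous e) (hH : H.IsHomogeneous e)
    (hnc : ¬ ∃ c : ℂ, C.F ∣ G - c • H) {P : PP} (hP : C.Pt P) (c : ℂ) : C.ord P (G - c • H) ≠ ⊤ := by
  refine ord_ne_top (hG.sub ((homogeneousSubmodule (Fin 3) ℂ e).smul_mem c hH)) ?_ hP
  intro hd
  exact hnc ⟨c, hd⟩

lemma nd_left (hnc : ¬ ∃ c : ℂ, C.F ∣ G - c • H) : ¬ C.F ∣ G := by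
  intro hd
  exact hnc ⟨0, by simpa using hd⟩

include h hbG hbH hpos in
lemma pos_A {x : V3} (hx : x ∈ A) : 0 ≤ (eval x (-G) * star (eval x H)).im := by
  have h1 := hpos _ (h.cj_mem_B.2 hx)
  have e1 := eval_bar G x
  have e2 := eval_bar H x
  rw [hbG] at e1
  rw [hbH] at e2
  rw [e1, e2, star_star] at h1
  rw [map_neg, neg_mul, Complex.neg_im]
  have e3 : (star (eval x G) * eval x H).im = -(eval x G * star (eval x H)).im := by
    have : star (eval x G) * eval x H = star (eval x G * star (eval x H)) := by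
      rw [star_mul', star_star]
    rw [this]; exact Complex.conj_im _
  rw [e3] at h1
  linarith

lemma chart_tendsto {p : V3} (hp : C.On p) : Tendsto (C.chart hp).γ (𝓝 0) (𝓝 p) := by
  have := ((C.chart hp).ana 0 (Metric.mem_ball_self (C.chart hp).r_pos)).continuousAt.tendsto
  rwa [(C.chart hp).base] at this

lemma chart_zer {p : V3} (hp : C.On p) : ∀ᶠ t in 𝓝 (0 : ℂ), eval ((C.chart hp).γ t) C.F = 0 := by
  filter_upwards [Metric.ball_mem_nhds (0 : ℂ) (C.chart hp).r_pos] with t ht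
  exact (C.chart hp).zer t ht

lemma ord_neg (P : PP) (G : P3) : C.ord P (-G) = C.ord P G := by
  by_cases hP : C.Pt P
  · have : -G = MvPolynomial.C (-1 : ℂ) * G := by simp
    rw [this, ord_mul]
    have : C.ord P (MvPolynomial.C (-1 : ℂ)) = 0 := by
      rw [ord_pos_iff hP]; simp
    rw [this, zero_add]
  · rw [ord_of_not_pt hP, ord_of_not_pt hP]

lemma order_eq_of_pos {V : Set V3} (hV : Op C V) {G H : P3} (hFG : ¬ C.F ∣ G) (hFH : ¬ C.F ∣ H)
    (hG : G.IsHomogeneous e) (hH : H.IsHomogeneous e) (hpos : Pos V G H) {P : PP} (hP : P.rep ∈ V) :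
    C.ord P G = C.ord P H := by
  have hPt : C.Pt P := hV.on _ hP
  obtain ⟨a, ha⟩ := ENat.ne_top_iff_exists.1 (ord_ne_top hG hFG hPt)
  obtain ⟨b, hb⟩ := ENat.ne_top_iff_exists.1 (ord_ne_top hH hFH hPt)
  rw [ord_def hPt] at ha hb
  have hγ := param_chart_rep hPt
  have := order_full (an_eval hγ.an G) (an_eval hγ.an H) ha.symm hb.symm (by
    filter_upwards [(chart_tendsto hPt).eventually (hV.op _ hP), chart_zer hPt] with t h1 h2
    exact hpos _ (h1 h2))
  rw [ord_def hPt, ord_def hPt]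
  rw [this] at ha
  exact ha.symm.trans hb

include h hG hH hbG hbH hpos hnc in
lemma ord_nonreal (hFH : ¬ C.F ∣ H) {P : PP} (hP : C.Pt P) (hR : ¬ Rl P.rep) : C.ord P G = C.ord P H := by
  rcases (h.nr P.rep).2 ⟨hP, hR⟩ with hA | hB
  · have hFG : ¬ C.F ∣ -G := fun hd => nd_left hnc ((dvd_neg).1 hd)
    have := order_eq_of_pos (e := e) h.opA (G := -G) (H := H) hFG hFH hG.neg hH
      (fun x hx => pos_A h hbG hbH hpos hx) hA
    rwa [ord_neg] at this
  · exact order_eq_of_pos h.opB (nd_left hnc) hFH hG hH hpos hB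

lemma ord_mk_smul {x : V3} {c : ℂ} (hc : c ≠ 0) (hx : x ≠ 0) (G : P3) :
    C.ord (Projectivization.mk ℂ (c • x) (smul_ne_zero hc hx)) G = C.ord (Projectivization.mk ℂ x hx) G := by
  congr 1
  rw [Projectivization.mk_eq_mk_iff']
  exact ⟨c, rfl⟩

/-- a real chart at a real projective point -/
lemma Sep.exists_rchart' {A B : Set V3} (h : Sep C A B) {P : PP} (hP : C.Pt P) (hR : Rl P.rep) :
    ∃ (c : ℂ) (_ : c ≠ 0) (ch : RChart C A B (c • P.rep)),
      ∀ (G : P3) (e : ℕ), G.IsHomogeneous e → C.ord P G = analyticOrderAt (fun t => eval (ch.γ t) G) 0 := by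
  obtain ⟨c, hc, hcj⟩ := exists_real_rep hP.1 hR
  obtain ⟨ch⟩ := h.exists_rchart (hP.smul hc) hcj
  refine ⟨c, hc, ch, fun G e hG => ?_⟩
  rw [← ch.ord_eq hG, ord_mk_smul hc hP.1, P.mk_rep]

lemma RChart_pos {p : V3} (ch : RChart C A B p) (hpos : Pos B G H) :
    ∀ᶠ t in 𝓝 (0 : ℂ), 0 < t.im → 0 ≤ (eval (ch.γ t) G * star (eval (ch.γ t) H)).im := by
  filter_upwards [Metric.ball_mem_nhds (0 : ℂ) ch.r_pos] with t ht hti
  exact hpos _ (ch.sideB t ht hti)

include h hG hH hbG hbH hpos hnc in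
lemma ord_real (hFH : ¬ C.F ∣ H) {P : PP} (hP : C.Pt P) (hR : Rl P.rep) :
    C.ord P G ≤ C.ord P H + 1 ∧ C.ord P H ≤ C.ord P G + 1 := by
  obtain ⟨c, hc, ch, hch⟩ := h.exists_rchart' hP hR
  obtain ⟨a, ha⟩ := ENat.ne_top_iff_exists.1 (ord_ne_top hG (nd_left hnc) hP)
  obtain ⟨b, hb⟩ := ENat.ne_top_iff_exists.1 (ord_ne_top hH hFH hP)
  rw [← ha, ← hb]
  rw [hch G e hG] at ha
  rw [hch H e hH] at hb
  have := order_half (ch.sy hbG) (ch.sy hbH) ha.symm hb.symm (RChart_pos ch hpos)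
  exact ⟨by exact_mod_cast this.1, by exact_mod_cast this.2⟩

include hG hH in
/-- transfer of a comparison from a parametrisation -/
lemma lc_of_param {K : P3} (hK : K.IsHomogeneous e) {x : V3} {γ : ℂ → V3} {T : Set ℂ}
    (hcov : ∀ U ∈ 𝓝 (0 : ℂ), ∀ᶠ q in 𝓝 x, eval q C.F = 0 → ∃ c : ℂ, c ≠ 0 ∧ ∃ t ∈ U, q = c • γ t)
    (hopB : Op C B) (hT : ∀ᶠ t in 𝓝 (0 : ℂ), γ t ∈ B → t ∈ T) {M : ℝ} (hM : 0 ≤ M)
    (hev : ∀ᶠ t in 𝓝 (0 : ℂ), t ∈ T → -M * (eval (γ t) G * star (eval (γ t) H)).im ≤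
      (eval (γ t) K * star (eval (γ t) H)).im) : Lc B G H K x := by
  refine ⟨M, hM, ?_⟩
  filter_upwards [hcov _ (hT.and hev)] with q hq hqB
  obtain ⟨c, hc, t, ⟨ht1, ht2⟩, rfl⟩ := hq (hopB.on q hqB).2
  have h1 : γ t ∈ B := by
    have := hopB.smul _ hqB _ (inv_ne_zero hc)
    rwa [smul_smul, inv_mul_cancel₀ hc, one_smul] at this
  rw [im_smul c _ hG hH, im_smul c _ hK hH]
  have h2 := mul_le_mul_of_nonneg_left (ht2 (ht1 h1)) (show 0 ≤ (‖c‖ ^ 2) ^ e by positivity)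
  calc -M * ((‖c‖ ^ 2) ^ e * (eval (γ t) G * star (eval (γ t) H)).im)
      = (‖c‖ ^ 2) ^ e * (-M * (eval (γ t) G * star (eval (γ t) H)).im) := by ring
    _ ≤ _ := h2

lemma chart_cov {x : V3} (hx : C.On x) : ∀ U ∈ 𝓝 (0 : ℂ), ∀ᶠ q in 𝓝 x, eval q C.F = 0 →
    ∃ c : ℂ, c ≠ 0 ∧ ∃ t ∈ U, q = c • (C.chart hx).γ t := by
  intro U hU
  set ch := C.chart hx
  have h1 : Tendsto (fun q : V3 => ch.ell q / ch.lam q) (𝓝 x) (𝓝 0) := by
    have h2 : ContinuousAt (fun q : V3 => ch.ell q / ch.lam q) x :=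
      ch.ell.continuous.continuousAt.div ch.lam.continuous.continuousAt
        (by rw [ch.lam_p]; exact one_ne_zero)
    have h3 := h2.tendsto
    rwa [ch.lam_p, ch.ell_p, zero_div] at h3
  filter_upwards [h1.eventually hU, ch.cov] with q h2 h3 h4
  obtain ⟨h5, -, h6⟩ := h3 h4
  exact ⟨_, h5, _, h2, h6⟩

include h hG hH hpos hnc in
lemma lc_nonreal (hFH : ¬ C.F ∣ H) {K : P3} (hK : K.IsHomogeneous e) {x : V3} (hx : C.On x)
    (hR : ¬ Rl x) (hord : C.ord (Projectivization.mk ℂ x hx.1) H ≤ C.ord (Projectivization.mk ℂ x hx.1) K) :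
    Lc B G H K x := by
  rcases (h.nr x).2 ⟨hx, hR⟩ with hA | hB
  · refine ⟨0, le_rfl, ?_⟩
    filter_upwards [h.opA.op x hA] with q hq hqB
    exact absurd hqB (h.dis q (hq (h.opB.on q hqB).2))
  · set γ := (C.chart hx).γ with hγdef
    have hγ : IsParam C.F γ 0 := (C.chart hx).isParam (Metric.mem_ball_self (C.chart hx).r_pos)
    have hbase : γ 0 = x := (C.chart hx).base
    have hordγ : ∀ (K : P3), K.IsHomogeneous e → C.ord (Projectivization.mk ℂ x hx.1) K =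
        analyticOrderAt (fun t => eval (γ t) K) 0 := by
      intro K hK
      have := ord_param hγ hK
      simp only [hbase] at this
      exact this
    have hPt : C.Pt (Projectivization.mk ℂ x hx.1) := (pt_mk hx.1).2 hx.2
    have hnearB : ∀ᶠ t in 𝓝 (0 : ℂ), γ t ∈ B := by
      filter_upwards [(chart_tendsto hx).eventually (h.opB.op x hB), chart_zer hx] with t h1 h2
      exact h1 h2
    have hPB : (Projectivization.mk ℂ x hx.1).rep ∈ B := (h.opB.rep_mem hx.1).2 hB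
    have hGH := order_eq_of_pos (e := e) h.opB (nd_left hnc) hFH hG hH hpos hPB
    rw [hordγ G hG, hordγ H hH] at hGH
    rw [hordγ H hH, hordγ K hK] at hord
    have hHtop : analyticOrderAt (fun t => eval (γ t) H) 0 ≠ ⊤ := by
      rw [← hordγ H hH]; exact ord_ne_top hH hFH hPt
    obtain ⟨b, hb⟩ := ENat.ne_top_iff_exists.1 hHtop
    obtain ⟨χ, hχ, hχ0, hχeq⟩ := ((an_eval hγ.an H).analyticOrderAt_eq_natCast).1 hb.symm
    obtain ⟨ψ, hψ, hψeq⟩ := (natCast_le_analyticOrderAt (an_eval hγ.an G) (n := b)).1 (by rw [hb, hGH])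
    obtain ⟨κ, hκ, hκeq⟩ := (natCast_le_analyticOrderAt (an_eval hγ.an K) (n := b)).1 (by rw [hb]; exact hord)
    have hχne : ∀ᶠ t in 𝓝 (0 : ℂ), χ t ≠ 0 := hχ.continuousAt.eventually_ne hχ0
    have hq : AnalyticAt ℂ (fun t => ψ t / χ t) 0 := hψ.fun_div hχ hχ0
    have hk : AnalyticAt ℂ (fun t => κ t / χ t) 0 := hκ.fun_div hχ hχ0
    have eG : ∀ᶠ t in 𝓝 (0 : ℂ), eval (γ t) G = ψ t / χ t * eval (γ t) H := by
      filter_upwards [hχeq, hψeq, hχne] with t h1 h2 h3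
      rw [h1, h2]; simp only [smul_eq_mul]; field_simp
    have eK : ∀ᶠ t in 𝓝 (0 : ℂ), eval (γ t) K = κ t / χ t * eval (γ t) H := by
      filter_upwards [hχeq, hκeq, hχne] with t h1 h2 h3
      rw [h1, h2]; simp only [smul_eq_mul]; field_simp
    have hHne : ∀ᶠ t in 𝓝[≠] (0 : ℂ), eval (γ t) H ≠ 0 := by
      rcases (an_eval hγ.an H).eventually_eq_zero_or_eventually_ne_zero with h0 | h0
      · exact absurd (analyticOrderAt_eq_top.2 h0) hHtop
      · exact h0
    have hpos' : ∀ᶠ t in 𝓝 (0 : ℂ), 0 ≤ (ψ t / χ t).im := by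
      have e1 : ∀ᶠ t in 𝓝[≠] (0 : ℂ), 0 ≤ (ψ t / χ t).im := by
        filter_upwards [hHne, hnearB.filter_mono nhdsWithin_le_nhds, eG.filter_mono nhdsWithin_le_nhds]
          with t h1 h2 h3
        have h4 := hpos _ h2
        rw [h3, im_mul_norm] at h4
        exact (mul_nonneg_iff_of_pos_left (Complex.normSq_pos.2 h1)).1 h4
      have e2 : 0 ≤ (ψ 0 / χ 0).im := by
        have h5 : Tendsto (fun t => (ψ t / χ t).im) (𝓝[≠] (0 : ℂ)) (𝓝 (ψ 0 / χ 0).im) :=
          ((Complex.continuous_im.tendsto _).comp hq.continuousAt.tendsto).mono_left nhdsWithin_le_nhds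
        exact ge_of_tendsto h5 e1
      rw [eventually_nhdsWithin_iff] at e1
      filter_upwards [e1] with t ht
      by_cases h0 : t = 0
      · rw [h0]; exact e2
      · exact ht h0
    have hIm0 : 0 < (ψ 0 / χ 0).im := by
      refine lt_of_le_of_ne hpos'.self_of_nhds fun h0 => ?_
      rcases hq.eventually_constant_or_nhds_le_map_nhds with hc | hc
      · refine nonprop_ord hG hH hnc hPt (ψ 0 / χ 0) ?_
        rw [hordγ _ (hG.sub ((homogeneousSubmodule (Fin 3) ℂ e).smul_mem _ hH)), analyticOrderAt_eq_top]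
        filter_upwards [hc, eG] with t h1 h2
        rw [map_sub, smul_eq_C_mul, map_mul, eval_C, h2, h1, sub_self]
      · have himg := hc (Filter.image_mem_map hpos')
        obtain ⟨z', ⟨t, ht, rfl⟩, hz'⟩ := im_open' _ _ himg
        have ht' : 0 ≤ (ψ t / χ t).im := ht
        rw [← h0] at hz'
        linarith
    -- the estimate
    set M : ℝ := 2 * (‖κ 0 / χ 0‖ + 1) / (ψ 0 / χ 0).im with hM
    have hM0 : 0 ≤ M := by rw [hM]; positivity
    refine lc_of_param hG hH hK (T := Set.univ) (chart_cov hx) h.opB (Eventually.of_forall fun _ _ => trivial) hM0 ?_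
    have n1 : ∀ᶠ t in 𝓝 (0 : ℂ), (ψ 0 / χ 0).im / 2 < (ψ t / χ t).im := by
      have : Tendsto (fun t => (ψ t / χ t).im) (𝓝 0) (𝓝 (ψ 0 / χ 0).im) :=
        (Complex.continuous_im.tendsto _).comp hq.continuousAt.tendsto
      exact this.eventually_const_lt (half_lt_self hIm0)
    have n2 : ∀ᶠ t in 𝓝 (0 : ℂ), ‖κ t / χ t‖ < ‖κ 0 / χ 0‖ + 1 := by
      have : Tendsto (fun t => ‖κ t / χ t‖) (𝓝 0) (𝓝 ‖κ 0 / χ 0‖) := hk.continuousAt.norm.tendsto
      exact this.eventually_lt_const (lt_add_one _)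
    filter_upwards [n1, n2, eG, eK] with t h1 h2 h3 h4 _
    rw [h3, h4, im_mul_norm, im_mul_norm]
    have h5 : -(‖κ 0 / χ 0‖ + 1) ≤ (κ t / χ t).im := by
      have := Complex.abs_im_le_norm (κ t / χ t)
      linarith [(abs_le.1 this).1]
    have h6 : ‖κ 0 / χ 0‖ + 1 ≤ M * (ψ t / χ t).im := by
      have : M * ((ψ 0 / χ 0).im / 2) = ‖κ 0 / χ 0‖ + 1 := by
        rw [hM]; field_simp
      calc ‖κ 0 / χ 0‖ + 1 = M * ((ψ 0 / χ 0).im / 2) := this.symm
        _ ≤ _ := mul_le_mul_of_nonneg_left h1.le hM0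
    have h7 : -M * (ψ t / χ t).im ≤ (κ t / χ t).im := by linarith
    have h8 := mul_le_mul_of_nonneg_left h7 (Complex.normSq_nonneg (eval (γ t) H))
    linarith

include h hG hH hbG hbH hpos hnc in
lemma lc_real (hFH : ¬ C.F ∣ H) {K : P3} (hK : K.IsHomogeneous e) (hbK : bar K = K) {x : V3} (hx : C.On x)
    (hR : Rl x) (hord : C.ord (Projectivization.mk ℂ x hx.1) H ≤ C.ord (Projectivization.mk ℂ x hx.1) K + 1) :
    Lc B G H K x ∨ (C.ord (Projectivization.mk ℂ x hx.1) H ≤ C.ord (Projectivization.mk ℂ x hx.1) G ∧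
      C.ord (Projectivization.mk ℂ x hx.1) K < C.ord (Projectivization.mk ℂ x hx.1) H ∧ Lc B G H (-K) x) := by
  obtain ⟨c, hc, hcj⟩ := exists_real_rep hx.1 hR
  obtain ⟨ch⟩ := h.exists_rchart (hx.smul hc) hcj
  have hordγ : ∀ (K : P3), K.IsHomogeneous e → C.ord (Projectivization.mk ℂ x hx.1) K =
      analyticOrderAt (fun t => eval (ch.γ t) K) 0 := by
    intro K hK
    rw [← ch.ord_eq hK, ord_mk_smul hc hx.1]
  have hPt : C.Pt (Projectivization.mk ℂ x hx.1) := (pt_mk hx.1).2 hx.2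
  have hmulc : Tendsto (fun q : V3 => c • q) (𝓝 x) (𝓝 (c • x)) := (continuous_const_smul c).tendsto x
  have hcov : ∀ U ∈ 𝓝 (0 : ℂ), ∀ᶠ q in 𝓝 x, eval q C.F = 0 → ∃ c : ℂ, c ≠ 0 ∧ ∃ t ∈ U, q = c • ch.γ t := by
    intro U hU
    filter_upwards [hmulc.eventually (ch.cov U hU)] with q hq hq0
    obtain ⟨c', hc', t, ht, heq⟩ := hq (by rw [eval_smul_vec _ _ C.hom, hq0, mul_zero])
    refine ⟨c⁻¹ * c', mul_ne_zero (inv_ne_zero hc) hc', t, ht, ?_⟩
    rw [mul_smul, ← heq, smul_smul, inv_mul_cancel₀ hc, one_smul]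
  have hT : ∀ᶠ t in 𝓝 (0 : ℂ), ch.γ t ∈ B → t ∈ {t : ℂ | 0 < t.im} := by
    filter_upwards [Metric.ball_mem_nhds (0 : ℂ) ch.r_pos] with t ht htB
    rcases lt_trichotomy t.im 0 with h1 | h1 | h1
    · exact absurd htB (h.dis _ (ch.sideA t ht h1))
    · exfalso
      apply h.not_Rl (Or.inr htB)
      have e1 : star t = t := Complex.conj_eq_iff_im.2 h1
      have e2 := ch.sym t ht
      rw [e1] at e2
      intro i j
      have a1 := congrFun e2 i
      have a2 := congrFun e2 j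
      simp only [cj] at a1 a2
      rw [← a1, ← a2]
    · exact h1
  have main := real_local (ch.sy hbG) (ch.sy hbH) (ch.sy hbK)
    (by rw [← hordγ H hH]; exact ord_ne_top hH hFH hPt)
    (by rw [← hordγ G hG]; exact ord_ne_top hG (nd_left hnc) hPt)
    (fun c => by
      have e1 := nonprop_ord hG hH hnc hPt c
      rw [hordγ _ (hG.sub ((homogeneousSubmodule (Fin 3) ℂ e).smul_mem _ hH))] at e1
      intro h0
      apply e1
      rw [← h0]
      congr 1
      ext t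
      rw [map_sub, smul_eq_C_mul, map_mul, eval_C])
    (RChart_pos ch hpos)
    (by rw [← hordγ H hH, ← hordγ K hK]; exact hord)
  rcases main with ⟨M, hM, hev⟩ | ⟨h1, h2, M, hM, hev⟩
  · exact Or.inl (lc_of_param hG hH hK hcov h.opB hT hM hev)
  · refine Or.inr ⟨?_, ?_, lc_of_param hG hH hK.neg hcov h.opB hT hM ?_⟩
    · rw [hordγ H hH, hordγ G hG]; exact h1
    · rw [hordγ H hH, hordγ K hK]; exact h2
    · filter_upwards [hev] with t ht hti
      have := ht hti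
      rw [map_neg]
      exact this

/-- globalisation -/
lemma glob (hopB : Op C B) (hG : G.IsHomogeneous e) (hH : H.IsHomogeneous e) (hpos : Pos B G H)
    {K : P3} (hK : K.IsHomogeneous e) (hloc : ∀ x, C.On x → Lc B G H K x) :
    ∃ M : ℝ, 0 ≤ M ∧ Pos B (K + MvPolynomial.C (M : ℂ) * G) H := by
  let p : Set C.S → Prop := fun s => ∃ M : ℝ, 0 ≤ M ∧ ∀ v ∈ s, (v : V3) ∈ B →
    -M * (eval (v : V3) G * star (eval (v : V3) H)).im ≤ (eval (v : V3) K * star (eval (v : V3) H)).im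
  have hp : p Set.univ := by
    refine IsCompact.induction_on (p := p) isCompact_univ ?_ ?_ ?_ ?_
    · exact ⟨0, le_rfl, fun v hv => absurd hv (Set.notMem_empty v)⟩
    · rintro s t hst ⟨M, hM, hb⟩
      exact ⟨M, hM, fun v hv => hb v (hst hv)⟩
    · rintro s t ⟨M, hM, hb⟩ ⟨M', hM', hb'⟩
      refine ⟨M + M', by positivity, ?_⟩
      rintro v (hv | hv) hvB
      · have h1 := hb v hv hvB
        have h2 := hpos _ hvB
        nlinarith
      · have h1 := hb' v hv hvB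
        have h2 := hpos _ hvB
        nlinarith
    · intro v _
      obtain ⟨M, hM, hev⟩ := hloc (v : V3) ⟨S_ne v, v.2.2⟩
      have h1 := (continuous_subtype_val.tendsto v).eventually hev
      rw [nhdsWithin_univ]
      exact ⟨_, h1, M, hM, fun u hu => hu⟩
  obtain ⟨M, hM, hb⟩ := hp
  refine ⟨M, hM, fun q hq => ?_⟩
  have hq0 := (hopB.on q hq)
  have hn : ‖q‖ ≠ 0 := norm_ne_zero_iff.2 hq0.1
  have hc : ((‖q‖ : ℂ))⁻¹ ≠ 0 := inv_ne_zero (by exact_mod_cast hn)
  have hv1 : ‖((‖q‖ : ℂ))⁻¹ • q‖ = 1 := by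
    rw [norm_smul, norm_inv, Complex.norm_real, norm_norm, inv_mul_cancel₀ hn]
  have h1 := hb ⟨((‖q‖ : ℂ))⁻¹ • q, hv1, by rw [eval_smul_vec _ _ C.hom, hq0.2, mul_zero]⟩
    (Set.mem_univ _) (hopB.smul _ hq _ hc)
  simp only at h1
  rw [im_smul _ _ hG hH, im_smul _ _ hK hH] at h1
  have hpow : 0 < (‖((‖q‖ : ℂ))⁻¹‖ ^ 2) ^ e := by
    have : 0 < ‖((‖q‖ : ℂ))⁻¹‖ := norm_pos_iff.2 hc
    positivity
  have h2 : -M * (eval q G * star (eval q H)).im ≤ (eval q K * star (eval q H)).im := by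
    have h3 : (‖((‖q‖ : ℂ))⁻¹‖ ^ 2) ^ e * (-M * (eval q G * star (eval q H)).im) ≤
        (‖((‖q‖ : ℂ))⁻¹‖ ^ 2) ^ e * (eval q K * star (eval q H)).im := by
      calc _ = -M * ((‖((‖q‖ : ℂ))⁻¹‖ ^ 2) ^ e * (eval q G * star (eval q H)).im) := by ring
        _ ≤ _ := h1
    exact le_of_mul_le_mul_left h3 hpow
  have h4 : (eval q (K + MvPolynomial.C (M : ℂ) * G) * star (eval q H)).im =
      (eval q K * star (eval q H)).im + M * (eval q G * star (eval q H)).im := by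
    rw [map_add, map_mul, eval_C, add_mul, Complex.add_im, mul_assoc, Complex.im_ofReal_mul]
  rw [h4]
  linarith

end

end Curve

end Pool.Agent.H877.TP
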