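import Pool.Agent.H877.TP.R4

set_option autoImplicit false

namespace Pool.Agent.H877.TP
open MvPolynomial Filter Topology

/-- the conjugate point -/
noncomputable def cjP (P : PP) : PP := Projectivization.mk ℂ (cj P.rep) (cj_ne P.rep_nonzero)

lemma cjP_mk {x : V3} (hx : x ≠ 0) : cjP (Projectivization.mk ℂ x hx) = Projectivization.mk ℂ (cj x) (cj_ne hx) := by
  obtain ⟨a, ha⟩ := Projectivization.exists_smul_eq_mk_rep ℂ x hx
  unfold cjP
  rw [Projectivization.mk_eq_mk_iff']
  refine ⟨star (a : ℂ), ?_⟩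
  rw [← ha]
  exact (cj_smul _ _).symm

lemma cjP_cjP (P : PP) : cjP (cjP P) = P := by
  conv_lhs => rw [← P.mk_rep]
  rw [cjP_mk, cjP_mk]
  simp only [cj_cj]
  exact P.mk_rep

lemma bar_smul (c : ℂ) (G : P3) : bar (c • G) = star c • bar G := by
  rw [smul_eq_C_mul, bar_mul, bar_C, smul_eq_C_mul]

lemma bar_sub (G H : P3) : bar (G - H) = bar G - bar H := by unfold bar; rw [map_sub]

lemma bar_neg (G : P3) : bar (-G) = -bar G := by unfold bar; rw [map_neg]

/-- real and imaginary parts -/
noncomputable def reP (K : P3) : P3 := MvPolynomial.C (1 / 2 : ℂ) * (K + bar K)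

noncomputable def imP (K : P3) : P3 := MvPolynomial.C (1 / (2 * Complex.I) : ℂ) * (K - bar K)

lemma bar_reP (K : P3) : bar (reP K) = reP K := by
  unfold reP
  rw [bar_mul, bar_C, bar_add, bar_bar]
  congr 1
  · congr 1
    have h2 : (starRingEnd ℂ) (2 : ℂ) = 2 := Complex.conj_ofNat 2
    rw [Complex.star_def, map_div₀, h2, map_one]
  · rw [add_comm]

lemma bar_imP (K : P3) : bar (imP K) = imP K := by
  unfold imP
  rw [bar_mul, bar_C, bar_sub, bar_bar]
  have : star (1 / (2 * Complex.I) : ℂ) = -(1 / (2 * Complex.I)) := by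
    have h2 : (starRingEnd ℂ) (2 : ℂ) = 2 := Complex.conj_ofNat 2
    rw [Complex.star_def, map_div₀, map_mul, h2, map_one, Complex.conj_I]
    ring
  rw [this, map_neg]; ring

lemma re_im (K : P3) : K = reP K + MvPolynomial.C Complex.I * imP K := by
  unfold reP imP
  rw [← mul_assoc, ← map_mul]
  have h1 : Complex.I * (1 / (2 * Complex.I)) = 1 / 2 := by
    have := Complex.I_ne_zero
    field_simp
  rw [h1]
  have h2 : (MvPolynomial.C (1 / 2 : ℂ) : P3) + MvPolynomial.C (1 / 2 : ℂ) = 1 := by
    rw [← map_add]; norm_num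
  linear_combination -K * h2

namespace Curve
variable {C : Curve}

lemma ord_cjP (hC : C.Real) (P : PP) {G : P3} {e : ℕ} (hG : G.IsHomogeneous e) :
    C.ord (cjP P) (bar G) = C.ord P G := by
  unfold cjP
  rw [ord_cj hC P.rep_nonzero hG, P.mk_rep]

lemma pt_cjP (hC : C.Real) {P : PP} : C.Pt (cjP P) ↔ C.Pt P := by
  unfold cjP
  rw [pt_mk, ← hC, eval_bar, star_eq_zero]
  exact ⟨fun h => ⟨P.rep_nonzero, h⟩, fun h => h.2⟩

lemma ord_cjP' (hC : C.Real) (P : PP) {G : P3} {e : ℕ} (hG : G.IsHomogeneous e) (hb : bar G = G) :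
    C.ord (cjP P) G = C.ord P G := by
  have := ord_cjP hC P hG
  rwa [hb] at this

lemma exists_ne_in {V : Set V3} (hV : Op C V) (hne : V.Nonempty) {H : P3} {e : ℕ} (hH : H.IsHomogeneous e)
    (hFH : ¬ C.F ∣ H) : ∃ x ∈ V, eval x H ≠ 0 := by
  classical
  by_contra hcon
  push Not at hcon
  obtain ⟨D, hDn, hDcard, hD⟩ := hV.many hne (C.deg * e + 1)
  have := bezout_le hH hFH D (fun Q hQ => (hD Q hQ).1) (by
    intro P
    by_cases hP : P ∈ D
    · rw [Multiset.count_eq_one_of_mem hDn hP]
      have h1 : C.ord P H ≠ 0 := by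
        intro h0
        exact (ord_pos_iff (hD P hP).1 H).1 h0 (hcon _ (hD P hP).2)
      exact Order.one_le_iff_ne_zero.2 (by exact_mod_cast h1)
    · rw [Multiset.count_eq_zero.2 hP]; simp)
  omega

/-! ### linear operations on positive pairs -/

section pos
variable {B : Set V3} {G G' H : P3}

lemma pos_add (h : Pos B G H) (h' : Pos B G' H) : Pos B (G + G') H := by
  intro x hx
  rw [map_add, add_mul, Complex.add_im]
  exact add_nonneg (h x hx) (h' x hx)

lemma pos_smul {r : ℝ} (hr : 0 ≤ r) (h : Pos B G H) : Pos B (MvPolynomial.C (r : ℂ) * G) H := by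
  intro x hx
  rw [map_mul, eval_C, mul_assoc, Complex.im_ofReal_mul]
  exact mul_nonneg hr (h x hx)

lemma im_affine (r : ℝ) (x : V3) (G K H : P3) : (eval x (G + MvPolynomial.C (r : ℂ) * K) * star (eval x H)).im =
    (eval x G * star (eval x H)).im + r * (eval x K * star (eval x H)).im := by
  rw [map_add, map_mul, eval_C, add_mul, Complex.add_im, mul_assoc, Complex.im_ofReal_mul]

lemma pos_mul (h : Pos B G H) (M : P3) : Pos B (G * M) (H * M) := by
  intro x hx
  rw [map_mul, map_mul, star_mul']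
  have : eval x G * eval x M * (star (eval x H) * star (eval x M)) =
      eval x G * star (eval x H) * (eval x M * star (eval x M)) := by ring
  have e2 : eval x M * star (eval x M) = (Complex.normSq (eval x M) : ℂ) := Complex.mul_conj _
  rw [this, e2, Complex.im_mul_ofReal]
  exact mul_nonneg (h x hx) (Complex.normSq_nonneg _)

lemma pos_const (c : ℝ) : Pos B (MvPolynomial.C (c : ℂ) * H) H := by
  intro x _
  rw [map_mul, eval_C, im_mul_norm, Complex.ofReal_im, mul_zero]

/-- closedness -/
lemma pos_closed (G K H : P3) : IsClosed {r : ℝ | Pos B (G + MvPolynomial.C (r : ℂ) * K) H} := by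
  have : {r : ℝ | Pos B (G + MvPolynomial.C (r : ℂ) * K) H} =
      ⋂ x ∈ B, {r : ℝ | 0 ≤ (eval x G * star (eval x H)).im + r * (eval x K * star (eval x H)).im} := by
    ext r
    simp only [Set.mem_iInter]
    constructor
    · intro h x hx
      have := h x hx
      rwa [im_affine] at this
    · intro h x hx
      rw [im_affine]; exact h x hx
  rw [this]
  refine isClosed_biInter fun x _ => isClosed_le continuous_const (by fun_prop)

lemma pos_convex {a b r : ℝ} {K : P3} (har : a ≤ r) (hrb : r ≤ b)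
    (ha : Pos B (G + MvPolynomial.C (a : ℂ) * K) H) (hb : Pos B (G + MvPolynomial.C (b : ℂ) * K) H) :
    Pos B (G + MvPolynomial.C (r : ℂ) * K) H := by
  intro x hx
  have h1 := ha x hx
  have h2 := hb x hx
  rw [im_affine] at h1 h2 ⊢
  set p := (eval x G * star (eval x H)).im
  set q := (eval x K * star (eval x H)).im
  rcases le_total 0 q with hq | hq
  · nlinarith
  · nlinarith

end pos

/-- real proportionality -/
lemma real_of_dvd (hC : C.Real) {G H : P3} (hbG : bar G = G) (hbH : bar H = H) (hFH : ¬ C.F ∣ H) {c : ℂ}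
    (h : C.F ∣ G - c • H) : ((c.re : ℝ) : ℂ) = c := by
  have h1 : C.F ∣ G - star c • H := by
    have := (dvd_bar hC).2 h
    rwa [bar_sub, bar_smul, hbG, hbH] at this
  have h2 : C.F ∣ (c - star c) • H := by
    have := dvd_sub h1 h
    have e : G - star c • H - (G - c • H) = (c - star c) • H := by rw [sub_smul]; abel
    rwa [e] at this
  have h3 : c - star c = 0 := by
    by_contra h0
    apply hFH
    rw [smul_eq_C_mul] at h2
    rcases C.prime.dvd_or_dvd h2 with h4 | h4
    · exfalso
      apply C.prime.not_isUnit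
      exact isUnit_of_dvd_unit h4 ((isUnit_iff_ne_zero.2 h0).map MvPolynomial.C)
    · exact h4
  exact Complex.conj_eq_iff_re.1 (sub_eq_zero.1 h3).symm

open Classical in
/-- total pencils with base divisor `E` and divisor of poles `D` -/
structure Tot (C : Curve) (B : Set V3) (e : ℕ) (G H : P3) (E D : DD) : Prop where
  he : C.deg ≤ e
  hG : G.IsHomogeneous e
  hH : H.IsHomogeneous e
  bG : bar G = G
  bH : bar H = H
  pos : Pos B G H
  nc : ¬ ∃ c : ℂ, C.F ∣ G - c • H
  nH : ¬ C.F ∣ H
  divH : IsDiv C H (E + D)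
  bas : ∀ P, (E.count P : ℕ∞) ≤ C.ord P G
  pol : ∀ P ∈ D, C.ord P G = E.count P

section tot
variable {A B : Set V3} (h : Sep C A B) {e : ℕ} {G H : P3} {E D : DD}

lemma exists_tot {e : ℕ} {G H : P3} (he : C.deg ≤ e) (hG : G.IsHomogeneous e) (hH : H.IsHomogeneous e)
    (bG : bar G = G) (bH : bar H = H) (pos : Pos B G H) (nc : ¬ ∃ c : ℂ, C.F ∣ G - c • H)
    (nH : ¬ C.F ∣ H) : ∃ E D, Tot C B e G H E D := by
  classical
  obtain ⟨DG, hDG, -⟩ := exists_isDiv (C := C) hG (nd_left nc)
  obtain ⟨DH, hDH, -⟩ := exists_isDiv (C := C) hH nH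
  have hsum : DG ∩ DH + (DH - DG ∩ DH) = DH := by
    rw [add_comm]; exact Multiset.sub_add_cancel (Multiset.inter_le_right)
  refine ⟨DG ∩ DH, DH - DG ∩ DH, he, hG, hH, bG, bH, pos, nc, nH, by rw [hsum]; exact hDH, ?_, ?_⟩
  · intro P
    by_cases hP : C.Pt P
    · rw [hDG.2 P hP]
      exact_mod_cast Multiset.count_le_of_le P Multiset.inter_le_left
    · rw [ord_of_not_pt hP]; exact le_top
  · intro P hP
    have hPt : C.Pt P := hDH.1 P (Multiset.mem_of_le (Multiset.sub_le_self _ _) hP)
    rw [hDG.2 P hPt]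
    have h1 := Multiset.count_pos.2 hP
    rw [Multiset.count_sub, Multiset.count_inter] at h1
    rw [Multiset.count_inter]
    have : min (DG.count P) (DH.count P) = DG.count P := by omega
    rw [this]

lemma Tot.ptD (t : Tot C B e G H E D) {P : PP} (hP : P ∈ D) : C.Pt P :=
  t.divH.1 P (Multiset.mem_add.2 (Or.inr hP))

lemma Tot.ptE (t : Tot C B e G H E D) {P : PP} (hP : P ∈ E) : C.Pt P :=
  t.divH.1 P (Multiset.mem_add.2 (Or.inl hP))

open Classical in
lemma Tot.ordH (t : Tot C B e G H E D) {P : PP} (hP : C.Pt P) : C.ord P H = E.count P + D.count P := by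
  rw [t.divH.2 P hP, Multiset.count_add]; push_cast; rfl

open Classical in
lemma Tot.ordH_notMem (t : Tot C B e G H E D) {P : PP} (hP : C.Pt P) (hPD : P ∉ D) :
    C.ord P H = E.count P := by
  rw [t.ordH hP, Multiset.count_eq_zero.2 hPD]; simp

include h in
lemma Tot.realD (t : Tot C B e G H E D) {P : PP} (hP : P ∈ D) : Rl P.rep := by
  classical
  by_contra hR
  have h1 := ord_nonreal h t.hG t.hH t.bG t.bH t.pos t.nc t.nH (t.ptD hP) hR
  rw [t.pol P hP, t.ordH (t.ptD hP)] at h1
  have h2 := Multiset.count_pos.2 hP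
  have h3 : E.count P = E.count P + D.count P := by exact_mod_cast h1
  omega

include h in
open Classical in
lemma Tot.count_one (t : Tot C B e G H E D) {P : PP} (hP : P ∈ D) : D.count P = 1 := by
  have h1 := (ord_real h t.hG t.hH t.bG t.bH t.pos t.nc t.nH (t.ptD hP) (t.realD h hP)).2
  rw [t.pol P hP, t.ordH (t.ptD hP)] at h1
  have h2 := Multiset.count_pos.2 hP
  have h3 : E.count P + D.count P ≤ E.count P + 1 := by exact_mod_cast h1
  omega

include h in
lemma Tot.nodup (t : Tot C B e G H E D) : D.Nodup := by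
  classical
  rw [Multiset.nodup_iff_count_le_one]
  intro P
  by_cases hP : P ∈ D
  · rw [t.count_one h hP]
  · rw [Multiset.count_eq_zero.2 hP]; exact Nat.zero_le _

lemma Tot.card_eq (t : Tot C B e G H E D) : Multiset.card E + Multiset.card D = C.deg * e := by
  rw [← Multiset.card_add, t.divH.card t.hH t.nH]

include h in
open Classical in
/-- perturbation of total pencils -/
lemma Tot.perturb (t : Tot C B e G H E D) {K : P3} (hK : K.IsHomogeneous e) (hbK : bar K = K)
    (hord : ∀ P, (E.count P : ℕ∞) ≤ C.ord P K) :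
    ∃ M : ℝ, 0 ≤ M ∧ Pos B (K + MvPolynomial.C (M : ℂ) * G) H := by
  refine glob h.opB t.hG t.hH t.pos hK fun x hx => ?_
  have hPt : C.Pt (Projectivization.mk ℂ x hx.1) := (pt_mk hx.1).2 hx.2
  by_cases hR : Rl x
  · have h1 : C.ord (Projectivization.mk ℂ x hx.1) H ≤ C.ord (Projectivization.mk ℂ x hx.1) K + 1 := by
      by_cases hD : Projectivization.mk ℂ x hx.1 ∈ D
      · rw [t.ordH hPt, t.count_one h hD]
        exact add_le_add (hord _) le_rfl
      · rw [t.ordH_notMem hPt hD]
        exact (hord _).trans le_self_add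
    rcases lc_real h t.hG t.hH t.bG t.bH t.pos t.nc t.nH hK hbK hx hR h1 with h2 | ⟨h2, h3, -⟩
    · exact h2
    · exfalso
      by_cases hD : Projectivization.mk ℂ x hx.1 ∈ D
      · rw [t.pol _ hD, t.ordH hPt, t.count_one h hD] at h2
        have : E.count (Projectivization.mk ℂ x hx.1) + 1 ≤ E.count (Projectivization.mk ℂ x hx.1) := by
          exact_mod_cast h2
        omega
      · rw [t.ordH_notMem hPt hD] at h3
        exact absurd (hord _) (not_le.2 h3)
  · refine lc_nonreal h t.hG t.hH t.pos t.nc t.nH hK hx hR ?_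
    have hD : Projectivization.mk ℂ x hx.1 ∉ D := fun hD => hR ((Rl_mk hx.1).1 (t.realD h hD))
    rw [t.ordH_notMem hPt hD]
    exact hord _

end tot

end Curve

end Pool.Agent.H877.TP
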