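import Pool.Agent.H877.TP.R5

set_option autoImplicit false

namespace Pool.Agent.H877.TP
open MvPolynomial Filter Topology

lemma cjP_of_real {P : PP} (hR : Rl P.rep) : cjP P = P := by
  obtain ⟨μ, hμ, hcj⟩ := hR.exists_unit P.rep_nonzero
  conv_rhs => rw [← P.mk_rep]
  unfold cjP
  rw [Projectivization.mk_eq_mk_iff']
  exact ⟨μ, hcj.symm⟩

lemma real_cjP {P : PP} : Rl (cjP P).rep ↔ Rl P.rep := by
  unfold cjP
  rw [Rl_mk, Rl_cj]

lemma reP_hom {K : P3} {e : ℕ} (hK : K.IsHomogeneous e) : (reP K).IsHomogeneous e := by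
  unfold reP
  have := (isHomogeneous_C (Fin 3) (1 / 2 : ℂ)).mul (hK.add (bar_hom hK))
  rwa [zero_add] at this

lemma imP_hom {K : P3} {e : ℕ} (hK : K.IsHomogeneous e) : (imP K).IsHomogeneous e := by
  unfold imP
  have := (isHomogeneous_C (Fin 3) (1 / (2 * Complex.I) : ℂ)).mul (hK.sub (bar_hom hK))
  rwa [zero_add] at this

namespace Curve
variable {C : Curve}

open Classical in
lemma bar_mem_W (hC : C.Real) {E : DD} (hE : ∀ P, E.count (cjP P) = E.count P) {e : ℕ} {K : P3}
    (hK : K ∈ C.W e E) : bar K ∈ C.W e E := by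
  refine ⟨bar_hom hK.1, fun P => ?_⟩
  have h1 := ord_cjP hC (cjP P) hK.1
  rw [cjP_cjP] at h1
  rw [h1, ← hE P]
  exact hK.2 _

open Classical in
lemma reP_mem_W (hC : C.Real) {E : DD} (hE : ∀ P, E.count (cjP P) = E.count P) {e : ℕ} {K : P3}
    (hK : K ∈ C.W e E) : reP K ∈ C.W e E := by
  unfold reP
  rw [← smul_eq_C_mul]
  exact Submodule.smul_mem _ _ (Submodule.add_mem _ hK (bar_mem_W hC hE hK))

open Classical in
lemma imP_mem_W (hC : C.Real) {E : DD} (hE : ∀ P, E.count (cjP P) = E.count P) {e : ℕ} {K : P3}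
    (hK : K ∈ C.W e E) : imP K ∈ C.W e E := by
  unfold imP
  rw [← smul_eq_C_mul]
  exact Submodule.smul_mem _ _ (Submodule.sub_mem _ hK (bar_mem_W hC hE hK))

section tot
variable {A B : Set V3} (h : Sep C A B) {e : ℕ} {G H : P3} {E D : DD}

include h in
open Classical in
lemma Tot.count_cj (t : Tot C B e G H E D) (P : PP) : E.count (cjP P) = E.count P := by
  have hC := h.real
  by_cases hR : Rl P.rep
  · rw [cjP_of_real hR]
  by_cases hP : C.Pt P
  · have h1 := ord_cjP' hC P t.hH t.bH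
    have n1 : P ∉ D := fun hD => hR (t.realD h hD)
    have n2 : cjP P ∉ D := fun hD => hR (real_cjP.1 (t.realD h hD))
    rw [t.ordH_notMem hP n1, t.ordH_notMem ((pt_cjP hC).2 hP) n2] at h1
    exact_mod_cast h1
  · have hP' : ¬ C.Pt (cjP P) := fun h' => hP ((pt_cjP hC).1 h')
    rw [count_zero (fun Q hQ => t.ptE hQ) hP, count_zero (fun Q hQ => t.ptE hQ) hP']

/-- independence of `G`, `H`, `K` over the real numbers modulo `F` -/
def Out (C : Curve) (G H K : P3) : Prop :=
  ∀ a b : ℝ, ¬ C.F ∣ K - (MvPolynomial.C (a : ℂ) * G + MvPolynomial.C (b : ℂ) * H)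

lemma dvd_of_C_mul {c : ℂ} (hc : c ≠ 0) {K : P3} (h : C.F ∣ MvPolynomial.C c * K) : C.F ∣ K := by
  have : K = MvPolynomial.C c⁻¹ * (MvPolynomial.C c * K) := by
    rw [← mul_assoc, ← map_mul, inv_mul_cancel₀ hc, map_one, one_mul]
  rw [this]
  exact Dvd.dvd.mul_left h _

lemma bar_C_real (r : ℝ) : bar (MvPolynomial.C (r : ℂ)) = MvPolynomial.C (r : ℂ) := by
  rw [bar_C]; congr 1; exact Complex.conj_ofReal r

lemma Out.nc (hC : C.Real) {G H K : P3} (hbG : bar G = G) (hbH : bar H = H) (hbK : bar K = K)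
    (hFH : ¬ C.F ∣ H) (ho : Out C G H K) (hnc : ¬ ∃ c : ℂ, C.F ∣ G - c • H) (r : ℝ) :
    ¬ ∃ c : ℂ, C.F ∣ (G + MvPolynomial.C (r : ℂ) * K) - c • H := by
  rintro ⟨c, hc⟩
  have hb : bar (G + MvPolynomial.C (r : ℂ) * K) = G + MvPolynomial.C (r : ℂ) * K := by
    rw [bar_add, bar_mul, bar_C_real, hbG, hbK]
  have hcr := real_of_dvd hC hb hbH hFH hc
  by_cases hr : r = 0
  · apply hnc
    refine ⟨c, ?_⟩
    rwa [hr, Complex.ofReal_zero, map_zero, zero_mul, add_zero] at hc
  · apply ho (-r⁻¹) (r⁻¹ * c.re)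
    apply dvd_of_C_mul (c := (r : ℂ)) (by exact_mod_cast hr)
    have hr' : (r : ℂ) ≠ 0 := by exact_mod_cast hr
    have e1 : MvPolynomial.C (r : ℂ) * (K - (MvPolynomial.C ((-r⁻¹ : ℝ) : ℂ) * G +
        MvPolynomial.C ((r⁻¹ * c.re : ℝ) : ℂ) * H)) = G + MvPolynomial.C (r : ℂ) * K - c • H := by
      rw [smul_eq_C_mul, ← hcr]
      have a1 : (MvPolynomial.C (r : ℂ) : P3) * MvPolynomial.C ((-r⁻¹ : ℝ) : ℂ) = -1 := by
        rw [← map_mul]; push_cast
        rw [mul_neg, mul_inv_cancel₀ hr', map_neg, map_one]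
      have a2 : (MvPolynomial.C (r : ℂ) : P3) * MvPolynomial.C ((r⁻¹ * c.re : ℝ) : ℂ) =
          MvPolynomial.C ((c.re : ℝ) : ℂ) := by
        rw [← map_mul]; push_cast
        rw [← mul_assoc, mul_inv_cancel₀ hr', one_mul]
      simp only [Complex.ofReal_re]
      linear_combination (-G) * a1 - H * a2
    rw [e1]; exact hc

lemma Out.neg {G H K : P3} (ho : Out C G H K) : Out C G H (-K) := by
  intro a b hd
  apply ho (-a) (-b)
  have := (dvd_neg).2 hd
  have e : K - (MvPolynomial.C ((-a : ℝ) : ℂ) * G + MvPolynomial.C ((-b : ℝ) : ℂ) * H) =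
      -(-K - (MvPolynomial.C (a : ℂ) * G + MvPolynomial.C (b : ℂ) * H)) := by
    push_cast
    rw [map_neg, map_neg]; ring
  rw [e]; exact this

/-- a maximal element of the perturbations -/
lemma exists_max {S : Set ℝ} (hS : IsClosed S) (h0 : (0 : ℝ) ∈ S) {r : ℝ} (hr : 0 < r) (hrS : r ∉ S)
    (hconv : ∀ a b c, a ∈ S → b ∈ S → a ≤ c → c ≤ b → c ∈ S) :
    ∃ s ∈ S, 0 ≤ s ∧ ∀ ε : ℝ, 0 < ε → s + ε ∉ S := by
  have hcomp : IsCompact (S ∩ Set.Icc 0 r) := isCompact_Icc.inter_left hS
  obtain ⟨s, ⟨hsS, hs0, hsr⟩, hmax⟩ := hcomp.exists_isMaxOn ⟨0, h0, le_rfl, hr.le⟩ continuousOn_id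
  refine ⟨s, hsS, hs0, fun ε hε hmem => ?_⟩
  rcases le_or_gt (s + ε) r with h1 | h1
  · have := hmax ⟨hmem, by linarith, h1⟩
    simp at this
    linarith
  · exact hrS (hconv s (s + ε) r hsS hmem hsr h1.le)

include h in
/-- the set of perturbations is bounded on one side -/
lemma exists_notPos {K : P3} {e : ℕ} {G H : P3} (hK : K.IsHomogeneous e) (hH : H.IsHomogeneous e) (hbK : bar K = K)
    (hbH : bar H = H) (hFH : ¬ C.F ∣ H) (ho : Out C G H K) :
    ∃ r : ℝ, ¬ Pos B (G + MvPolynomial.C (r : ℂ) * K) H := by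
  by_contra hcon
  push Not at hcon
  have hlim : ∀ x ∈ B, (eval x K * star (eval x H)).im = 0 := by
    intro x hx
    have h1 : ∀ r : ℝ, 0 ≤ (eval x G * star (eval x H)).im + r * (eval x K * star (eval x H)).im := by
      intro r
      have := hcon r x hx
      rwa [im_affine] at this
    set p := (eval x G * star (eval x H)).im
    set q := (eval x K * star (eval x H)).im
    by_contra hq
    have h2 := h1 (-(p + 1) / q)
    rw [div_mul_cancel₀ _ hq] at h2
    linarith
  have hpos : Pos B K H := fun x hx => (hlim x hx).ge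
  have hnc : ¬ ∃ c : ℂ, C.F ∣ K - c • H := by
    rintro ⟨c, hc⟩
    have hcr := real_of_dvd h.real hbK hbH hFH hc
    apply ho 0 c.re
    rw [Complex.ofReal_zero, map_zero, zero_mul, zero_add, hcr, ← smul_eq_C_mul]
    exact hc
  obtain ⟨x, hx, hxH⟩ := exists_ne_in h.opB h.neB hH hFH
  have := strict h hK hH hpos hnc hx hxH
  rw [hlim x hx] at this
  exact lt_irrefl _ this

include h in
/-- if there is a third function with the same poles, then the number of poles can be lowered -/
lemma Tot.reduce (t : Tot C B e G H E D) {K : P3} (hK : K ∈ C.W e E) (hbK : bar K = K) (ho : Out C G H K) :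
    ∃ G' E' D', Tot C B e G' H E' D' ∧ Multiset.card D' < Multiset.card D := by
  classical
  -- the one-sided version
  have main : ∀ K : P3, K ∈ C.W e E → bar K = K → Out C G H K →
      (∃ r : ℝ, 0 < r ∧ ¬ Pos B (G + MvPolynomial.C (r : ℂ) * K) H) →
      ∃ G' E' D', Tot C B e G' H E' D' ∧ Multiset.card D' < Multiset.card D := by
    rintro K hK hbK ho ⟨r, hr, hnp⟩
    obtain ⟨s, hs, hs0, hmax⟩ := exists_max (pos_closed (B := B) G K H)
      (show Pos B (G + MvPolynomial.C ((0 : ℝ) : ℂ) * K) H by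
        rw [Complex.ofReal_zero, map_zero, zero_mul, add_zero]; exact t.pos) hr hnp
      (fun a b c ha hb hac hcb => pos_convex hac hcb ha hb)
    set G' := G + MvPolynomial.C (s : ℂ) * K with hG'
    have hG'h : G'.IsHomogeneous e := by
      refine t.hG.add ?_
      rw [← smul_eq_C_mul]
      exact (homogeneousSubmodule (Fin 3) ℂ e).smul_mem _ hK.1
    have hbG' : bar G' = G' := by rw [hG', bar_add, bar_mul, bar_C_real, t.bG, hbK]
    have hnc' := ho.nc h.real t.bG t.bH hbK t.nH t.nc s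
    obtain ⟨E', D', t'⟩ := exists_tot t.he hG'h t.hH hbG' t.bH hs hnc' t.nH
    refine ⟨G', E', D', t', ?_⟩
    by_contra hge
    push Not at hge
    -- `E ≤ E'`
    have hG'W : G' ∈ C.W e E := by
      rw [hG', ← smul_eq_C_mul]
      exact Submodule.add_mem _ ⟨t.hG, t.bas⟩ (Submodule.smul_mem _ _ hK)
    have hEle : E ≤ E' := by
      rw [Multiset.le_iff_count]
      intro P
      by_cases hP : C.Pt P
      · by_cases hD : P ∈ D'
        · have h1 := hG'W.2 P
          rw [t'.pol P hD] at h1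
          exact_mod_cast h1
        · have h1 := t'.ordH_notMem hP hD
          rw [t.ordH hP] at h1
          have h2 : E.count P + D.count P = E'.count P := by exact_mod_cast h1
          omega
      · rw [count_zero (fun Q hQ => t.ptE hQ) hP]; exact Nat.zero_le _
    have c1 := t.card_eq
    have c2 := t'.card_eq
    have hEE : E = E' := Multiset.eq_of_le_of_card_le hEle (by omega)
    subst hEE
    obtain ⟨M, hM, hMpos⟩ := t'.perturb h hK.1 hbK (fun P => hK.2 P)
    have hM1 : 0 < M + 1 := by linarith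
    have h2 : Pos B (K + MvPolynomial.C ((M + 1 : ℝ) : ℂ) * G') H := by
      have := pos_add hMpos t'.pos
      have e1 : K + MvPolynomial.C ((M + 1 : ℝ) : ℂ) * G' = K + MvPolynomial.C (M : ℂ) * G' + G' := by
        push_cast
        rw [map_add, map_one]; ring
      rw [e1]; exact this
    apply hmax (M + 1)⁻¹ (inv_pos.2 hM1)
    have h3 := pos_smul (inv_nonneg.2 hM1.le) h2
    have hM1' : ((M : ℂ) + 1) ≠ 0 := by exact_mod_cast hM1.ne'
    have e2 : MvPolynomial.C (((M + 1)⁻¹ : ℝ) : ℂ) * (K + MvPolynomial.C ((M + 1 : ℝ) : ℂ) * G') =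
        G + MvPolynomial.C ((s + (M + 1)⁻¹ : ℝ) : ℂ) * K := by
      have a1 : (MvPolynomial.C (((M + 1)⁻¹ : ℝ) : ℂ) : P3) * MvPolynomial.C ((M + 1 : ℝ) : ℂ) = 1 := by
        rw [← map_mul]; push_cast
        rw [inv_mul_cancel₀ hM1', map_one]
      have a2 : (MvPolynomial.C ((s + (M + 1)⁻¹ : ℝ) : ℂ) : P3) =
          MvPolynomial.C (s : ℂ) + MvPolynomial.C (((M + 1)⁻¹ : ℝ) : ℂ) := by
        rw [← map_add]; push_cast; rfl
      rw [a2, hG']
      linear_combination (G + MvPolynomial.C (s : ℂ) * K) * a1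
    rw [e2] at h3
    exact h3
  obtain ⟨r, hr⟩ := exists_notPos h hK.1 t.hH hbK t.bH t.nH ho
  rcases lt_trichotomy r 0 with h1 | h1 | h1
  · refine main (-K) (Submodule.neg_mem _ hK) (by rw [bar_neg, hbK]) ho.neg ⟨-r, by linarith, ?_⟩
    have : G + MvPolynomial.C ((-r : ℝ) : ℂ) * -K = G + MvPolynomial.C (r : ℂ) * K := by
      push_cast; rw [map_neg]; ring
    rw [this]; exact hr
  · exfalso
    apply hr
    rw [h1, Complex.ofReal_zero, map_zero, zero_mul, add_zero]
    exact t.pos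
  · exact main K hK hbK ho ⟨r, h1, hr⟩

/-- if all real elements are combinations of `G`, `H` then the dimension is small -/
lemma finrank_le_two (hC : C.Real) {e : ℕ} (he : C.deg ≤ e) {E : DD} {G H : P3} (hG : G.IsHomogeneous e)
    (hH : H.IsHomogeneous e) (hE : by classical exact ∀ P, E.count (cjP P) = E.count P)
    (hall : ∀ K ∈ C.W e E, bar K = K → ¬ Out C G H K) :
    Module.finrank ℂ (C.W e E) ≤ bb (e - C.deg) + 2 := by
  classical
  have key : C.W e E ≤ mm C.F (e - C.deg) ⊔ Submodule.span ℂ (({G, H} : Finset P3) : Set P3) := by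
    intro K hK
    have hex : ∀ L ∈ C.W e E, bar L = L → ∃ a b : ℂ, C.F ∣ L - (a • G + b • H) := by
      intro L hL hbL
      have := hall L hL hbL
      unfold Out at this
      push Not at this
      obtain ⟨a, b, hab⟩ := this
      exact ⟨a, b, by rw [smul_eq_C_mul, smul_eq_C_mul]; exact hab⟩
    obtain ⟨a₁, b₁, h₁⟩ := hex _ (reP_mem_W hC hE hK) (bar_reP K)
    obtain ⟨a₂, b₂, h₂⟩ := hex _ (imP_mem_W hC hE hK) (bar_imP K)
    set a := a₁ + Complex.I * a₂
    set b := b₁ + Complex.I * b₂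
    have h3 : C.F ∣ K - (a • G + b • H) := by
      have := dvd_add h₁ (Dvd.dvd.mul_left h₂ (MvPolynomial.C Complex.I))
      have e1 : K - (a • G + b • H) = reP K - (a₁ • G + b₁ • H) +
          MvPolynomial.C Complex.I * (imP K - (a₂ • G + b₂ • H)) := by
        conv_lhs => rw [re_im K]
        simp only [a, b, smul_eq_C_mul, map_add, map_mul]
        ring
      rw [e1]; exact this
    have hhom : (a • G + b • H).IsHomogeneous e :=
      ((homogeneousSubmodule (Fin 3) ℂ e).smul_mem _ hG).add ((homogeneousSubmodule (Fin 3) ℂ e).smul_mem _ hH)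
    have h4 : K - (a • G + b • H) ∈ mm C.F (e - C.deg) := mem_mm_of_dvd he (hK.1.sub hhom) h3
    have h5 : K = (K - (a • G + b • H)) + (a • G + b • H) := by abel
    rw [h5]
    refine Submodule.add_mem_sup h4 (Submodule.add_mem _ (Submodule.smul_mem _ _ ?_) (Submodule.smul_mem _ _ ?_))
    · exact Submodule.subset_span (by simp)
    · exact Submodule.subset_span (by simp)
  have h1 := Submodule.finrank_mono key
  have h2 := Submodule.finrank_add_le_finrank_add_finrank (mm C.F (e - C.deg))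
    (Submodule.span ℂ (({G, H} : Finset P3) : Set P3))
  have h3 : Module.finrank ℂ (Submodule.span ℂ (({G, H} : Finset P3) : Set P3)) ≤ 2 :=
    (finrank_span_finset_le_card _).trans Finset.card_le_two
  rw [finrank_mm C.prime.ne_zero] at h2
  omega

include h in
lemma Tot.card_le_of_min (t : Tot C B e G H E D)
    (hmin : ∀ e' G' H' E' D', Tot C B e' G' H' E' D' → Multiset.card D ≤ Multiset.card D') :
    Multiset.card D ≤ C.g + 1 ∧ ∀ K ∈ C.W e E, bar K = K → ¬ Out C G H K := by
  classical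
  have hall : ∀ K ∈ C.W e E, bar K = K → ¬ Out C G H K := by
    intro K hK hbK ho
    obtain ⟨G', E', D', t', hlt⟩ := t.reduce h hK hbK ho
    have := hmin _ _ _ _ _ t'
    omega
  refine ⟨?_, hall⟩
  have h1 := finrank_le_two h.real t.he t.hG t.hH (fun P => t.count_cj h P) hall
  have h2 := bb_le_W (C := C) e E
  have h3 := bb_gen C.pos t.he
  have h4 := t.card_eq
  unfold g
  omega

include h in
/-- there are total pencils -/
lemma exists_tot_some : ∃ e G H E D, Tot C B e G H E D := by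
  classical
  have hC := h.real
  obtain ⟨e, K, he, hK, hFK, -, hz, hA, hB⟩ := h.exists_form
  have hval : ∀ x ∈ B, 0 < (eval x (reP K) * star (eval x (imP K))).im := by
    intro x hx
    have h1 := hB x hx
    have e1 : eval x K = eval x (reP K) + Complex.I * eval x (imP K) := by
      conv_lhs => rw [re_im K]
      rw [map_add, map_mul, eval_C]
    have e2 : eval x (bar K) = eval x (reP K) - Complex.I * eval x (imP K) := by
      have : bar K = reP K - MvPolynomial.C Complex.I * imP K := by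
        conv_lhs => rw [re_im K]
        rw [bar_add, bar_mul, bar_C, bar_reP, bar_imP, Complex.star_def, Complex.conj_I, map_neg]; ring
      rw [this, map_sub, map_mul, eval_C]
    rw [e1, e2] at h1
    set u := eval x (reP K)
    set v := eval x (imP K)
    have h2 : ‖u - Complex.I * v‖ ^ 2 < ‖u + Complex.I * v‖ ^ 2 :=
      pow_lt_pow_left₀ h1 (norm_nonneg _) two_ne_zero
    rw [← Complex.normSq_eq_norm_sq, ← Complex.normSq_eq_norm_sq, Complex.normSq_apply, Complex.normSq_apply] at h2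
    simp only [Complex.sub_re, Complex.add_re, Complex.mul_re, Complex.I_re, Complex.I_im, Complex.sub_im,
      Complex.add_im, Complex.mul_im, Complex.star_def, Complex.conj_re, Complex.conj_im] at h2 ⊢
    nlinarith
  obtain ⟨x₀, hx₀⟩ := h.neB
  have hFim : ¬ C.F ∣ imP K := by
    rintro ⟨Q, hQ⟩
    have h1 := hval x₀ hx₀
    rw [hQ, map_mul, (h.opB.on x₀ hx₀).2] at h1
    simp at h1
  have hnc : ¬ ∃ c : ℂ, C.F ∣ reP K - c • imP K := by
    rintro ⟨c, hc⟩
    have hcr := real_of_dvd hC (bar_reP K) (bar_imP K) hFim hc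
    obtain ⟨Q, hQ⟩ := hc
    have h1 := congrArg (eval x₀) hQ
    rw [map_sub, map_mul, (h.opB.on x₀ hx₀).2, zero_mul, smul_eq_C_mul, map_mul, eval_C, sub_eq_zero] at h1
    have h2 := hval x₀ hx₀
    rw [h1, im_mul_norm, ← hcr] at h2
    simp at h2
  -- raise the degree
  set L : P3 := imP K ^ C.deg with hLdef
  have hL : L.IsHomogeneous (e * C.deg) := (imP_hom hK).pow _
  have hbL : bar L = L := by rw [hLdef, bar_pow, bar_imP]
  have hFL : ¬ C.F ∣ L := fun h1 => hFim (C.prime.dvd_of_dvd_pow h1)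
  have hmul : ∀ {G : P3}, G.IsHomogeneous e → (G * L).IsHomogeneous (e + e * C.deg) := fun hG => hG.mul hL
  have hge : C.deg ≤ e + e * C.deg := by nlinarith
  refine ⟨e + e * C.deg, reP K * L, imP K * L, ?_⟩
  refine exists_tot hge (hmul (reP_hom hK)) (hmul (imP_hom hK)) (by rw [bar_mul, bar_reP, hbL])
    (by rw [bar_mul, bar_imP, hbL]) (pos_mul (fun x hx => (hval x hx).le) L) ?_ ?_
  · rintro ⟨c, hc⟩
    apply hnc
    refine ⟨c, ?_⟩
    have e1 : reP K * L - c • (imP K * L) = (reP K - c • imP K) * L := by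
      rw [smul_eq_C_mul, smul_eq_C_mul]; ring
    rw [e1] at hc
    exact (C.prime.dvd_or_dvd hc).resolve_right hFL
  · intro hc
    rcases C.prime.dvd_or_dvd hc with h1 | h1
    · exact hFim h1
    · exact hFL h1

end tot

end Curve

end Pool.Agent.H877.TP
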