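import Pool.Agent.H877.TP.R6

set_option autoImplicit false

namespace Pool.Agent.H877.TP
open MvPolynomial Filter Topology

namespace Curve
variable {C : Curve}

lemma W_card_le' {e : ℕ} (D : DD) (hD : ∀ Q ∈ D, C.Pt Q) (he : Multiset.card D ≤ e + 1) :
    Module.finrank ℂ (C.W e D) + Multiset.card D ≤ bb e := by
  classical
  induction D using Multiset.induction_on with
  | empty => rw [W_zero, finrank_RR]; simp
  | cons P D ih =>
    rw [Multiset.card_cons] at he ⊢
    have hP : C.Pt P := hD P (Multiset.mem_cons_self P D)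
    have ih' := ih (fun R hR => hD R (Multiset.mem_cons_of_mem hR)) (by omega)
    obtain ⟨G, hG, hGP⟩ := exists_exact' hP D (fun R hR => hD R (Multiset.mem_cons_of_mem hR)) (e := e) (by omega)
    have hlt : C.W e (P ::ₘ D) < C.W e D := by
      refine lt_of_le_of_ne (W_anti (Multiset.le_cons_self D P)) ?_
      intro heq
      rw [← heq] at hG
      have := hG.2 P
      rw [hGP, Multiset.count_cons_self] at this
      have h2 : D.count P + 1 ≤ D.count P := by exact_mod_cast this
      omega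
    have := Submodule.finrank_lt_finrank_of_lt hlt
    omega

lemma noether_hom {K T : P3} {k l : ℕ} (hK : K.IsHomogeneous k) (hT : T.IsHomogeneous (k + l)) (hFK : ¬ C.F ∣ K)
    (h : ∀ P, C.ord P K ≤ C.ord P T) : ∃ A, A.IsHomogeneous l ∧ C.F ∣ T - K * A := by
  obtain ⟨A, B, hAB⟩ := noether (C := C) hK hT hFK h
  have h1 := congrArg (homogeneousComponent (k + l)) hAB
  rw [homogeneousComponent_eq_self hT, map_add, comp_mul hK] at h1
  refine ⟨_, homogeneousComponent_isHomogeneous l A, ?_⟩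
  rw [h1, add_sub_cancel_left]; exact dvd_comp _ B

lemma bb_succ' {d : ℕ} (hd : 3 ≤ d) : bb (d - 2) = bb (d - 3) + (d - 1) := by
  obtain ⟨t, rfl⟩ := Nat.exists_eq_add_of_le hd
  have h1 := bb_two (3 + t - 2)
  have h2 := bb_two (3 + t - 3)
  rw [show 3 + t - 2 = t + 1 by omega] at h1 ⊢
  rw [show 3 + t - 3 = t by omega] at h2 ⊢
  rw [show 3 + t - 1 = t + 2 by omega]
  nlinarith

lemma bb_genus {d : ℕ} (hd : 3 ≤ d) : bb (d - 3) = gen d := by
  obtain ⟨t, rfl⟩ := Nat.exists_eq_add_of_le hd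
  have h1 := bb_two (3 + t - 3)
  have h2 := two_gen (d := 3 + t) (by omega)
  rw [show 3 + t - 3 = t by omega] at h1 ⊢
  have h3 : ((2 * bb t : ℕ) : ℤ) = (t + 2) * (t + 1) := by rw [h1]; push_cast; ring
  push_cast at h2 h3
  have : (2 * bb t : ℤ) = 2 * gen (3 + t) := by rw [h3, h2]; ring
  omega

/-- a form of the shape `G K / H` with at most one simple pole has no pole at all -/
lemma res_one {e : ℕ} {G H K : P3} (h3 : 3 ≤ C.deg) (hG : G.IsHomogeneous e) (hH : H.IsHomogeneous e)
    (hFH : ¬ C.F ∣ H) (hK : K.IsHomogeneous (C.deg - 3)) {q : PP} (hq : C.Pt q)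
    (h : by classical exact ∀ P, C.ord P H ≤ C.ord P (G * K) + (({q} : DD).count P : ℕ)) (P : PP) :
    C.ord P H ≤ C.ord P (G * K) := by
  classical
  obtain ⟨L, hL, hLq⟩ := exists_lin_self hq
  have hFL : ¬ C.F ∣ L := by
    intro hd
    rw [ord_of_dvd _ hd] at hLq
    exact absurd hLq (by simp)
  obtain ⟨DL, hDL, hcard⟩ := exists_isDiv (C := C) hL hFL
  have hqDL : q ∈ DL := by
    rw [← Multiset.count_pos]
    have := hDL.2 q hq
    rw [hLq] at this
    have : 1 = DL.count q := by exact_mod_cast this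
    omega
  obtain ⟨B', rfl⟩ := Multiset.exists_cons_of_mem hqDL
  have hcB : Multiset.card B' = C.deg - 1 := by
    rw [Multiset.card_cons] at hcard; omega
  have hT : (G * K * L).IsHomogeneous (e + (C.deg - 2)) := by
    have := (hG.mul hK).mul hL
    rwa [show e + (C.deg - 3) + 1 = e + (C.deg - 2) by omega] at this
  have hcount : ∀ P, C.Pt P → C.ord P L = (B'.count P : ℕ∞) + (({q} : DD).count P : ℕ) := by
    intro P hP
    rw [hDL.2 P hP, ← Multiset.singleton_add, Multiset.count_add, add_comm]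
    push_cast; rfl
  obtain ⟨A, hA, hd⟩ := noether_hom (C := C) hH hT hFH (by
    intro P
    by_cases hP : C.Pt P
    · rw [ord_mul _ _ L, hcount P hP]
      refine (h P).trans ?_
      gcongr
      exact le_add_self
    · rw [ord_of_not_pt hP, ord_of_not_pt hP])
  have hord : ∀ P, C.ord P (G * K) + C.ord P L = C.ord P H + C.ord P A := by
    intro P
    rw [← ord_mul, ← ord_mul]
    exact ord_congr P hd
  have hAW : A ∈ C.W (C.deg - 2) B' := by
    refine ⟨hA, fun P => ?_⟩
    by_cases hP : C.Pt P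
    · have hne : C.ord P H ≠ ⊤ := ord_ne_top hH hFH hP
      rw [← ENat.add_le_add_iff_left hne, ← hord P, hcount P hP]
      calc C.ord P H + (B'.count P : ℕ∞) ≤ (C.ord P (G * K) + (({q} : DD).count P : ℕ)) + (B'.count P : ℕ∞) := by
            gcongr; exact h P
        _ = _ := by ring
    · rw [ord_of_not_pt hP]; exact le_top
  have hWeq : C.W (C.deg - 2) (q ::ₘ B') = C.W (C.deg - 2) B' := by
    apply Submodule.eq_of_le_of_finrank_le (W_anti (Multiset.le_cons_self _ _))
    have h1 := W_card_le' (C := C) (e := C.deg - 2) B' (fun Q hQ => hDL.1 Q (Multiset.mem_cons_of_mem hQ))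
      (by omega)
    have h2 : mm L (C.deg - 3) ≤ C.W (C.deg - 2) (q ::ₘ B') := by
      intro U hU
      obtain ⟨V, hV, rfl⟩ := mem_mm.1 hU
      refine ⟨?_, fun P => ?_⟩
      · have := hL.mul hV
        rwa [show 1 + (C.deg - 3) = C.deg - 2 by omega] at this
      · rw [ord_mul]
        by_cases hP : C.Pt P
        · rw [hDL.2 P hP]; exact le_self_add
        · rw [ord_of_not_pt hP, top_add]; exact le_top
    have h4 := Submodule.finrank_mono h2
    have hL0 : L ≠ 0 := by
      rintro rfl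
      exact hFL (dvd_zero _)
    rw [finrank_mm hL0] at h4
    have h5 := bb_succ' h3
    omega
  rw [← hWeq] at hAW
  by_cases hP : C.Pt P
  · have hne : C.ord P L ≠ ⊤ := ord_ne_top hL hFL hP
    rw [← ENat.add_le_add_iff_right hne, hord P]
    have := hAW.2 P
    rw [← hDL.2 P hP] at this
    gcongr
  · rw [ord_of_not_pt hP, ord_of_not_pt hP]

section tot
variable {A B : Set V3} (h : Sep C A B) {e : ℕ} {G H : P3} {E D : DD}

lemma Tot.ne_zero (t : Tot C B e G H E D) : D ≠ 0 := by
  classical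
  intro h0
  subst h0
  obtain ⟨c, hc⟩ := const_of_ord (C := C) t.hH t.hG t.nH (by
    intro P
    by_cases hP : C.Pt P
    · rw [t.divH.2 P hP, add_zero]
      exact t.bas P
    · rw [ord_of_not_pt hP, ord_of_not_pt hP])
  exact t.nc ⟨c, hc⟩

include h in
open Classical in
lemma Tot.countD_cj (t : Tot C B e G H E D) (P : PP) : D.count (cjP P) = D.count P := by
  by_cases hR : Rl P.rep
  · rw [cjP_of_real hR]
  have n1 : P ∉ D := fun hD => hR (t.realD h hD)
  have n2 : cjP P ∉ D := fun hD => hR (real_cjP.1 (t.realD h hD))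
  rw [Multiset.count_eq_zero.2 n1, Multiset.count_eq_zero.2 n2]

open Classical in
/-- the adjoint forms of a total pencil with few poles -/
lemma Tot.exists_adj (t : Tot C B e G H E D) (h3 : 3 ≤ C.deg) (hk : Multiset.card D ≤ C.g) :
    ∃ K ∈ C.W (C.deg - 3) D, K ≠ 0 := by
  obtain ⟨q, hq⟩ := Multiset.exists_mem_of_ne_zero t.ne_zero
  obtain ⟨D', rfl⟩ := Multiset.exists_cons_of_mem hq
  have hle : C.W (C.deg - 3) D' ≤ C.W (C.deg - 3) (q ::ₘ D') := by
    intro K hK
    have key := res_one (C := C) h3 t.hG t.hH t.nH hK.1 (t.ptD hq) (by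
      intro P
      by_cases hP : C.Pt P
      · rw [t.ordH hP, ord_mul, ← Multiset.singleton_add, Multiset.count_add]
        push_cast
        calc (E.count P : ℕ∞) + ((({q} : DD).count P : ℕ∞) + (D'.count P : ℕ∞)) =
            (E.count P : ℕ∞) + (D'.count P : ℕ∞) + (({q} : DD).count P : ℕ∞) := by ring
          _ ≤ C.ord P G + C.ord P K + (({q} : DD).count P : ℕ∞) := by
            gcongr
            · exact t.bas P
            · exact hK.2 P
      · rw [ord_of_not_pt hP, ord_of_not_pt hP, top_add])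
    refine ⟨hK.1, fun P => ?_⟩
    by_cases hP : P ∈ q ::ₘ D'
    · have h1 := key P
      rw [t.ordH (t.ptD hP), ord_mul, t.pol P hP] at h1
      exact (ENat.add_le_add_iff_left (by simp)).1 h1
    · rw [Multiset.count_eq_zero.2 hP]; simp
  have h1 := Submodule.finrank_mono hle
  have h2 := bb_le_W (C := C) (C.deg - 3) D'
  rw [Multiset.card_cons] at hk
  have h4 := bb_genus h3
  unfold g at hk
  have h5 : 0 < Module.finrank ℂ (C.W (C.deg - 3) (q ::ₘ D')) := by omega
  have : C.W (C.deg - 3) (q ::ₘ D') ≠ ⊥ := by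
    intro h0
    rw [h0] at h5
    simp at h5
  exact Submodule.exists_mem_ne_zero_of_ne_bot this

lemma eq_zero_of_dvd {K : P3} {k : ℕ} (hK : K.IsHomogeneous k) (hk : k < C.deg) (h : C.F ∣ K) : K = 0 := by
  obtain ⟨Q, rfl⟩ := h
  by_contra h0
  have h1 := comp_mul_lt C.hom hk (Q := Q)
  rw [homogeneousComponent_eq_self hK] at h1
  exact h0 h1

/-- the canonical form of a total pencil with few poles -/
structure Can (C : Curve) (B : Set V3) (W₁ W₀ : P3) (D R : DD) : Prop where
  h1 : W₁.IsHomogeneous (C.deg - 3)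
  h0 : W₀.IsHomogeneous (C.deg - 3)
  b1 : bar W₁ = W₁
  b0 : bar W₀ = W₀
  pos : Pos B W₁ W₀
  nc : ¬ ∃ c : ℂ, C.F ∣ W₁ - c • W₀
  n0 : ¬ C.F ∣ W₀
  div : IsDiv C W₀ (D + R)
  bas : by classical exact ∀ P, (R.count P : ℕ∞) ≤ C.ord P W₁
  pol : by classical exact ∀ P ∈ D, C.ord P W₁ = R.count P

/-- positivity extends by continuity -/
lemma pos_of_dense {V : Set V3} (hV : Op C V) {M : P3} {d : ℕ} (hM : M.IsHomogeneous d) (hFM : ¬ C.F ∣ M)
    {G H : P3} (h : ∀ x ∈ V, eval x M ≠ 0 → 0 ≤ (eval x G * star (eval x H)).im) : Pos V G H := by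
  intro x hx
  by_contra hlt
  push Not at hlt
  have hcont : Continuous fun y : V3 => (eval y G * star (eval y H)).im :=
    Complex.continuous_im.comp ((continuous_eval G).mul (continuous_star.comp (continuous_eval H)))
  have hx' := hV.on x hx
  -- parametrisation
  have hγ : IsParam C.F (C.chart hx').γ 0 := (C.chart hx').isParam (Metric.mem_ball_self (C.chart hx').r_pos)
  have hbase : (C.chart hx').γ 0 = x := (C.chart hx').base
  have hMtop : analyticOrderAt (fun t => eval ((C.chart hx').γ t) M) 0 ≠ ⊤ := by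
    have h1 := ord_param hγ hM
    unfold po at h1
    rw [← h1]
    exact ord_ne_top hM hFM ((pt_mk _).2 hγ.zer.self_of_nhds)
  have hMne : ∀ᶠ t in 𝓝[≠] (0 : ℂ), eval ((C.chart hx').γ t) M ≠ 0 := by
    rcases (an_eval hγ.an M).eventually_eq_zero_or_eventually_ne_zero with h0 | h0
    · exact absurd (analyticOrderAt_eq_top.2 h0) hMtop
    · exact h0
  have hV' : ∀ᶠ t in 𝓝[≠] (0 : ℂ), (C.chart hx').γ t ∈ V := by
    have : ∀ᶠ t in 𝓝 (0 : ℂ), (C.chart hx').γ t ∈ V := by
      filter_upwards [(chart_tendsto hx').eventually (hV.op x hx), chart_zer hx'] with t h1 h2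
      exact h1 h2
    exact this.filter_mono nhdsWithin_le_nhds
  have hneg : ∀ᶠ t in 𝓝[≠] (0 : ℂ),
      (eval ((C.chart hx').γ t) G * star (eval ((C.chart hx').γ t) H)).im < 0 := by
    have h1 : Tendsto (fun t => (eval ((C.chart hx').γ t) G * star (eval ((C.chart hx').γ t) H)).im) (𝓝 0)
        (𝓝 (eval x G * star (eval x H)).im) := (hcont.tendsto x).comp (chart_tendsto hx')
    exact (h1.eventually_lt_const hlt).filter_mono nhdsWithin_le_nhds
  obtain ⟨t, h1, h2, h3⟩ := (hMne.and (hV'.and hneg)).exists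
  exact absurd (h _ h2 h1) (not_le.2 h3)

include h in
theorem Tot.exists_can (t : Tot C B e G H E D) (h3 : 3 ≤ C.deg) (hk : Multiset.card D ≤ C.g) :
    ∃ W₁ W₀ R, Can C B W₁ W₀ D R := by
  classical
  have hC := h.real
  obtain ⟨K, hK, hK0⟩ := t.exists_adj h3 hk
  have hlt : C.deg - 3 < C.deg := by omega
  obtain ⟨W₀, hW₀, hb₀, hne₀⟩ : ∃ W₀ ∈ C.W (C.deg - 3) D, bar W₀ = W₀ ∧ W₀ ≠ 0 := by
    by_cases hre : reP K = 0
    · refine ⟨imP K, imP_mem_W hC (fun P => t.countD_cj h P) hK, bar_imP K, fun him => hK0 ?_⟩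
      rw [re_im K, hre, him, mul_zero, add_zero]
    · exact ⟨reP K, reP_mem_W hC (fun P => t.countD_cj h P) hK, bar_reP K, hre⟩
  have hF₀ : ¬ C.F ∣ W₀ := fun hd => hne₀ (eq_zero_of_dvd hW₀.1 hlt hd)
  -- the second form
  obtain ⟨W₁, hW₁, hd₁⟩ := noether_hom (C := C) t.hH (t.hG.mul hW₀.1) t.nH (by
    intro P
    by_cases hP : C.Pt P
    · rw [t.ordH hP, ord_mul]
      exact add_le_add (t.bas P) (hW₀.2 P)
    · rw [ord_of_not_pt hP, ord_of_not_pt hP])
  have hb₁ : bar W₁ = W₁ := by
    have h1 : C.F ∣ G * W₀ - H * bar W₁ := by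
      have := (dvd_bar hC).2 hd₁
      rwa [bar_sub, bar_mul, bar_mul, t.bG, t.bH, hb₀] at this
    have h2 : C.F ∣ H * (W₁ - bar W₁) := by
      have := dvd_sub h1 hd₁
      have e1 : G * W₀ - H * bar W₁ - (G * W₀ - H * W₁) = H * (W₁ - bar W₁) := by ring
      rwa [e1] at this
    have h4 := (C.prime.dvd_or_dvd h2).resolve_left t.nH
    have h5 := eq_zero_of_dvd (hW₁.sub (bar_hom hW₁)) hlt h4
    exact (sub_eq_zero.1 h5).symm
  obtain ⟨R, hR, hRpt, hRc⟩ := isDiv_of_mem (fun Q hQ => t.ptD hQ) hW₀ hF₀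
  have hord : ∀ P, C.ord P G + C.ord P W₀ = C.ord P H + C.ord P W₁ := by
    intro P
    rw [← ord_mul, ← ord_mul]
    exact ord_congr P hd₁
  have hval : ∀ x, C.On x → eval x G * eval x W₀ = eval x H * eval x W₁ := by
    intro x hx
    obtain ⟨Q, hQ⟩ := hd₁
    have := congrArg (eval x) hQ
    rw [map_sub, map_mul, map_mul, map_mul, hx.2, zero_mul, sub_eq_zero] at this
    exact this
  refine ⟨W₁, W₀, R, hW₁, hW₀.1, hb₁, hb₀, ?_, ?_, hF₀, hR, ?_, ?_⟩
  · refine pos_of_dense h.opB t.hH t.nH fun x hx hne => ?_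
    have h1 := hval x (h.opB.on x hx)
    have h2 := t.pos x hx
    have e1 : (eval x H * eval x W₁) * star (eval x W₀) * star (eval x H) =
        (eval x G * star (eval x H)) * eval x W₀ * star (eval x W₀) := by
      rw [← h1]; ring
    have e2 : (eval x W₁ * star (eval x W₀)) * eval x H * star (eval x H) =
        (eval x G * star (eval x H)) * eval x W₀ * star (eval x W₀) := by
      rw [← e1]; ring
    have e3 := congrArg Complex.im e2
    rw [im_mul_norm, im_mul_norm] at e3
    have h3 : 0 < Complex.normSq (eval x H) := Complex.normSq_pos.2 hne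
    have h4 : 0 ≤ Complex.normSq (eval x H) * (eval x W₁ * star (eval x W₀)).im := by
      rw [e3]; exact mul_nonneg (Complex.normSq_nonneg _) h2
    exact (mul_nonneg_iff_of_pos_left h3).1 h4
  · rintro ⟨c, hc⟩
    apply t.nc
    refine ⟨c, ?_⟩
    have h2 : C.F ∣ (G - c • H) * W₀ := by
      have e1 : (G - c • H) * W₀ = (G * W₀ - H * W₁) + H * (W₁ - c • W₀) := by
        rw [smul_eq_C_mul, smul_eq_C_mul]; ring
      rw [e1]
      exact dvd_add hd₁ (Dvd.dvd.mul_left hc _)
    exact (C.prime.dvd_or_dvd h2).resolve_right hF₀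
  · intro P
    by_cases hP : C.Pt P
    · have h1 := hord P
      rw [t.ordH hP, hR.2 P hP, Multiset.count_add] at h1
      push_cast at h1
      have h2 : (E.count P : ℕ∞) + D.count P + R.count P ≤ (E.count P : ℕ∞) + D.count P + C.ord P W₁ := by
        rw [← h1]
        calc (E.count P : ℕ∞) + D.count P + R.count P = E.count P + (D.count P + R.count P) := by ring
          _ ≤ _ := by gcongr; exact t.bas P
      exact (ENat.add_le_add_iff_left (by simp)).1 h2
    · rw [ord_of_not_pt hP]; exact le_top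
  · intro P hPD
    have hP := t.ptD hPD
    have h1 := hord P
    rw [t.ordH hP, hR.2 P hP, Multiset.count_add, t.pol P hPD] at h1
    push_cast at h1
    have h2 : (E.count P : ℕ∞) + D.count P + R.count P = (E.count P : ℕ∞) + D.count P + C.ord P W₁ := by
      rw [← h1]; ring
    exact ((ENat.add_right_injective_of_ne_top (by simp)) h2).symm

end tot

end Curve

end Pool.Agent.H877.TP
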