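import Pool.Agent.H877.TP.R7

set_option autoImplicit false

namespace Pool.Agent.H877.TP
open MvPolynomial Filter Topology

lemma real_incr {ψ : ℂ → ℂ} (hψ : Sy ψ) (hpos : ∀ᶠ t in 𝓝 (0 : ℂ), 0 < t.im → 0 ≤ (ψ t).im)
    (hnc : ¬ ∀ᶠ t in 𝓝 (0 : ℂ), ψ t = ψ 0) :
    ∃ ψ₁ : ℂ → ℂ, Sy ψ₁ ∧ 0 < (ψ₁ 0).re ∧ ∀ᶠ t in 𝓝 (0 : ℂ), ψ t = ψ 0 + t * ψ₁ t := by
  obtain ⟨c, hc, hcb⟩ := half_lower hψ hpos hnc
  obtain ⟨ψ₁, h1, h2⟩ := hψ.split
  refine ⟨ψ₁, h1, lt_of_lt_of_le hc ?_, h2⟩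
  have hlim0 : Tendsto (fun ρ : ℝ => (ρ : ℂ) * Complex.I) (𝓝[>] 0) (𝓝 0) := by
    have h3 : Continuous (fun ρ : ℝ => (ρ : ℂ) * Complex.I) := by fun_prop
    have := (h3.tendsto 0).mono_left (nhdsWithin_le_nhds (s := Set.Ioi 0))
    simpa using this
  have hlim : Tendsto (fun ρ : ℝ => (ψ₁ ((ρ : ℂ) * Complex.I)).re) (𝓝[>] 0) (𝓝 (ψ₁ 0).re) :=
    ((Complex.continuous_re.tendsto _).comp h1.1.continuousAt.tendsto).comp hlim0
  refine ge_of_tendsto hlim ?_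
  filter_upwards [ray_nhds (hcb.and h2) Complex.I, ray_im (u := Complex.I) (by simp),
    self_mem_nhdsWithin] with ρ e1 e2 e3
  obtain ⟨e4, e5⟩ := e1
  have e6 := e4 e2
  have hρ : (0 : ℝ) < ρ := e3
  rw [e5, Complex.add_im, hψ.im_zero] at e6
  simp only [Complex.mul_im, Complex.mul_re, Complex.ofReal_re, Complex.ofReal_im, Complex.I_re, Complex.I_im,
    mul_zero, mul_one, zero_mul, sub_zero, add_zero, zero_add] at e6
  have e7 : ρ * c ≤ ρ * (ψ₁ ((ρ : ℂ) * Complex.I)).re := by linarith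
  exact le_of_mul_le_mul_left e7 hρ

namespace Curve
variable {C : Curve} {A B : Set V3} {e : ℕ} {G H : P3}

lemma RChart.ne_near {p : V3} (ch : RChart C A B p) (hH : H.IsHomogeneous e) (hFH : ¬ C.F ∣ H) :
    ∀ᶠ t in 𝓝[≠] (0 : ℂ), eval (ch.γ t) H ≠ 0 := by
  have hHtop : analyticOrderAt (fun t => eval (ch.γ t) H) 0 ≠ ⊤ := by
    rw [← ch.ord_eq hH]
    exact ord_ne_top hH hFH ((pt_mk _).2 ch.on.2)
  rcases (an_eval ch.par0.an H).eventually_eq_zero_or_eventually_ne_zero with h0 | h0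
  · exact absurd (analyticOrderAt_eq_top.2 h0) hHtop
  · exact h0

lemma RChart.exists_quot {p : V3} (ch : RChart C A B p) (hG : G.IsHomogeneous e) (hH : H.IsHomogeneous e)
    (hbG : bar G = G) (hbH : bar H = H) (hpos : Pos B G H) (hnc : ¬ ∃ c : ℂ, C.F ∣ G - c • H) (hFH : ¬ C.F ∣ H)
    (hord : C.ord (Projectivization.mk ℂ p ch.ne0) H ≤ C.ord (Projectivization.mk ℂ p ch.ne0) G) :
    ∃ ψ ψ₁ : ℂ → ℂ, Sy ψ ∧ Sy ψ₁ ∧ 0 < (ψ₁ 0).re ∧ (∀ᶠ t in 𝓝 (0 : ℂ), ψ t = ψ 0 + t * ψ₁ t) ∧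
      ∀ᶠ t in 𝓝 (0 : ℂ), eval (ch.γ t) G = ψ t * eval (ch.γ t) H := by
  have hPt : C.Pt (Projectivization.mk ℂ p ch.ne0) := (pt_mk _).2 ch.on.2
  have hne := RChart.ne_near ch hH hFH
  rw [ch.ord_eq hH, ch.ord_eq hG] at hord
  have hHtop : analyticOrderAt (fun t => eval (ch.γ t) H) 0 ≠ ⊤ := by
    rw [← ch.ord_eq hH]
    exact ord_ne_top hH hFH hPt
  obtain ⟨ψ, hψ, hψeq, -⟩ := (ch.sy hbH).div (ch.sy hbG) hHtop hord
  have hpos' : ∀ᶠ t in 𝓝 (0 : ℂ), 0 < t.im → 0 ≤ (ψ t).im := by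
    rw [eventually_nhdsWithin_iff] at hne
    filter_upwards [RChart_pos ch hpos, hψeq, hne] with t h1 h2 h3 hti
    have ht0 : t ≠ 0 := by rintro rfl; simp at hti
    have h4 := h1 hti
    rw [h2, im_mul_norm] at h4
    exact (mul_nonneg_iff_of_pos_left (Complex.normSq_pos.2 (h3 ht0))).1 h4
  obtain ⟨ψ₁, h1, h2, h3⟩ := real_incr hψ hpos' (by
    intro hc
    refine nonprop_ord hG hH hnc hPt (ψ 0) ?_
    rw [ch.ord_eq (hG.sub ((homogeneousSubmodule (Fin 3) ℂ e).smul_mem _ hH)), analyticOrderAt_eq_top]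
    filter_upwards [hc, hψeq] with t h1 h2
    rw [map_sub, smul_eq_C_mul, map_mul, eval_C, h2, h1, sub_self])
  exact ⟨ψ, ψ₁, hψ, h1, h2, h3, hψeq⟩

/-- tending to zero along the positive real axis -/
lemma real_pos_nhds {s : Set ℂ} (hs : s ∈ 𝓝[≠] (0 : ℂ)) : ∀ᶠ ρ : ℝ in 𝓝[>] (0 : ℝ), (ρ : ℂ) ∈ s := by
  have h1 : Tendsto (fun ρ : ℝ => (ρ : ℂ)) (𝓝[>] 0) (𝓝[≠] 0) := by
    rw [tendsto_nhdsWithin_iff]
    constructor
    · have := (Complex.continuous_ofReal.tendsto 0).mono_left (nhdsWithin_le_nhds (s := Set.Ioi 0))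
      simpa using this
    · filter_upwards [self_mem_nhdsWithin] with ρ hρ
      have : (0 : ℝ) < ρ := hρ
      simp [this.ne']
  exact h1 hs

lemma real_neg_nhds {s : Set ℂ} (hs : s ∈ 𝓝[≠] (0 : ℂ)) : ∀ᶠ ρ : ℝ in 𝓝[>] (0 : ℝ), ((-ρ : ℝ) : ℂ) ∈ s := by
  have h1 : Tendsto (fun ρ : ℝ => ((-ρ : ℝ) : ℂ)) (𝓝[>] 0) (𝓝[≠] 0) := by
    rw [tendsto_nhdsWithin_iff]
    constructor
    · have h2 : Continuous (fun ρ : ℝ => ((-ρ : ℝ) : ℂ)) := by fun_prop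
      have := (h2.tendsto 0).mono_left (nhdsWithin_le_nhds (s := Set.Ioi 0))
      simpa using this
    · filter_upwards [self_mem_nhdsWithin] with ρ hρ
      have : (0 : ℝ) < ρ := hρ
      simp [this.ne']
  exact h1 hs

lemma exists_unit_smul {w : V3} (hw : w ≠ 0) (hcj : TP.cj w = w) : ∃ r : ℝ, 0 < r ∧ ‖(r : ℂ) • w‖ = 1 ∧
    TP.cj ((r : ℂ) • w) = (r : ℂ) • w := by
  have hn : 0 < ‖w‖ := norm_pos_iff.2 hw
  refine ⟨‖w‖⁻¹, inv_pos.2 hn, ?_, ?_⟩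
  · rw [norm_smul, Complex.norm_real, norm_inv, norm_norm, inv_mul_cancel₀ hn.ne']
  · rw [cj_smul, hcj, Complex.star_def, Complex.conj_ofReal]

/-- a total function has no maximum on a set of real points closed under small motions -/
theorem no_max (h : Sep C A B) (hG : G.IsHomogeneous e) (hH : H.IsHomogeneous e)
    (hbG : bar G = G) (hbH : bar H = H) (hpos : Pos B G H) (hnc : ¬ ∃ c : ℂ, C.F ∣ G - c • H) (hFH : ¬ C.F ∣ H)
    {Z : Set V3} (hZ : ∀ w ∈ Z, C.On w ∧ TP.cj w = w) (hZs : ∀ w ∈ Z, ∀ r : ℝ, r ≠ 0 → (r : ℂ) • w ∈ Z)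
    (hcomp : IsCompact {w | w ∈ Z ∧ ‖w‖ = 1}) (hne : ∃ w ∈ Z, eval w H ≠ 0)
    (hloc : ∀ w (hw : w ∈ Z), ‖w‖ = 1 →
      (C.ord (Projectivization.mk ℂ w (hZ w hw).1.1) H ≤ C.ord (Projectivization.mk ℂ w (hZ w hw).1.1) G ∧
        ∀ ch : RChart C A B w, ∀ᶠ t : ℝ in 𝓝 0, ch.γ (t : ℂ) ∈ Z) ∨
      ∀ M : ℝ, ∀ᶠ y in 𝓝 w, y ∈ Z → eval y H ≠ 0 → (qt G H y).re < M) : False := by
  let P : Set V3 → Prop := fun s => ∃ z ∈ Z, eval z H ≠ 0 ∧
    ∀ w ∈ s, w ∈ Z → eval w H ≠ 0 → (qt G H w).re < (qt G H z).re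
  have key : P {w | w ∈ Z ∧ ‖w‖ = 1} := by
    refine hcomp.induction_on (p := P) ?_ ?_ ?_ ?_
    · obtain ⟨w, hw, hwH⟩ := hne
      exact ⟨w, hw, hwH, fun _ h' => absurd h' (Set.notMem_empty _)⟩
    · rintro s t hst ⟨z, hz, hzH, hzt⟩
      exact ⟨z, hz, hzH, fun w hw => hzt w (hst hw)⟩
    · rintro s t ⟨z, hz, hzH, hzs⟩ ⟨z', hz', hzH', hzt⟩
      rcases le_total (qt G H z).re (qt G H z').re with hle | hle
      · refine ⟨z', hz', hzH', ?_⟩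
        rintro w (hw | hw) h1 h2
        · exact (hzs w hw h1 h2).trans_le hle
        · exact hzt w hw h1 h2
      · refine ⟨z, hz, hzH, ?_⟩
        rintro w (hw | hw) h1 h2
        · exact hzs w hw h1 h2
        · exact (hzt w hw h1 h2).trans_le hle
    · rintro w ⟨hw, hw1⟩
      rcases hloc w hw hw1 with ⟨hord, hch⟩ | hb
      · obtain ⟨ch⟩ := h.exists_rchart (hZ w hw).1 (hZ w hw).2
        obtain ⟨ψ, ψ₁, hψ, hψ₁, hpos₁, hsp, hquot⟩ :=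
          RChart.exists_quot ch hG hH hbG hbH hpos hnc hFH hord
        have hψ₁pos : ∀ᶠ t in 𝓝 (0 : ℂ), 0 < (ψ₁ t).re := by
          have : Tendsto (fun t => (ψ₁ t).re) (𝓝 0) (𝓝 (ψ₁ 0).re) :=
            (Complex.continuous_re.tendsto _).comp hψ₁.1.continuousAt
          exact this.eventually_const_lt hpos₁
        have hZt : ∀ᶠ t : ℝ in 𝓝[>] 0, ch.γ (t : ℂ) ∈ Z := (hch ch).filter_mono nhdsWithin_le_nhds
        have hgt0 : ∀ᶠ t : ℝ in 𝓝[>] 0, (0 : ℝ) < t := self_mem_nhdsWithin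
        obtain ⟨t₀, ht₀Z, ht₀', hn₀, hp₀, hs₀, hq₀⟩ := (hZt.and (hgt0.and
          (real_pos_nhds ((RChart.ne_near ch hH hFH).and ((hψ₁pos.and (hsp.and hquot)).filter_mono
            nhdsWithin_le_nhds))))).exists
        have hqt₀ : qt G H (ch.γ (t₀ : ℂ)) = ψ (t₀ : ℂ) := by
          unfold qt
          rw [hq₀, mul_div_assoc, div_self hn₀, mul_one]
        have hgt : (ψ 0).re < (ψ (t₀ : ℂ)).re := by
          rw [hs₀, Complex.add_re, Complex.re_ofReal_mul]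
          have := mul_pos ht₀' hp₀
          linarith
        have hnb : ∀ᶠ t in 𝓝 (0 : ℂ), eval (ch.γ t) G = ψ t * eval (ch.γ t) H ∧
            (ψ t).re < (ψ (t₀ : ℂ)).re := by
          have h1 : Tendsto (fun t => (ψ t).re) (𝓝 0) (𝓝 (ψ 0).re) :=
            (Complex.continuous_re.tendsto _).comp hψ.1.continuousAt
          exact hquot.and (h1.eventually_lt_const hgt)
        have hcov := ch.cov _ hnb
        refine ⟨_, mem_nhdsWithin_of_mem_nhds hcov, ch.γ (t₀ : ℂ), ht₀Z, hn₀, ?_⟩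
        intro y hy hyZ hyH
        obtain ⟨c, hc, t, ⟨ht1, ht2⟩, rfl⟩ := hy (hZ y hyZ).1.2
        have hγH : eval (ch.γ t) H ≠ 0 := by
          intro h0
          apply hyH
          rw [eval_smul_vec _ _ hH, h0, mul_zero]
        rw [hqt₀, qt_smul hG hH hc]
        have : qt G H (ch.γ t) = ψ t := by
          unfold qt
          rw [ht1, mul_div_assoc, div_self hγH, mul_one]
        rw [this]; exact ht2
      · obtain ⟨z, hz, hzH⟩ := hne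
        exact ⟨_, mem_nhdsWithin_of_mem_nhds (hb (qt G H z).re), z, hz, hzH, fun y hy => hy⟩
  obtain ⟨z, hz, hzH, hmax⟩ := key
  obtain ⟨r, hr, hr1, hr2⟩ := exists_unit_smul (hZ z hz).1.1 (hZ z hz).2
  have hrc : (r : ℂ) ≠ 0 := by exact_mod_cast hr.ne'
  have h1 := hmax ((r : ℂ) • z) ⟨hZs z hz r hr.ne', hr1⟩ (hZs z hz r hr.ne') (by
    rw [eval_smul_vec _ _ hH]
    exact mul_ne_zero (pow_ne_zero _ hrc) hzH)
  rw [qt_smul hG hH hrc] at h1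
  exact lt_irrefl _ h1

/-- real unit vectors over the curve -/
def SR (C : Curve) : Set V3 := {w | ‖w‖ = 1 ∧ TP.cj w = w ∧ eval w C.F = 0}

lemma isCompact_SR (C : Curve) : IsCompact (SR C) := by
  have h1 := C.isCompact_S
  have h2 : IsClosed {w : V3 | TP.cj w = w} := isClosed_eq continuous_cj continuous_id
  have : SR C = {v : V3 | ‖v‖ = 1 ∧ eval v C.F = 0} ∩ {w : V3 | TP.cj w = w} := by
    ext w
    constructor
    · rintro ⟨a, b, c⟩; exact ⟨⟨a, c⟩, b⟩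
    · rintro ⟨⟨a, c⟩, b⟩; exact ⟨a, b, c⟩
  rw [this]
  exact h1.inter_right h2

lemma SR_on {w : V3} (hw : w ∈ SR C) : C.On w := by
  refine ⟨?_, hw.2.2⟩
  intro h
  have := hw.1
  rw [h, norm_zero] at this
  exact zero_ne_one this

end Curve

end Pool.Agent.H877.TP
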