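import Pool.Agent.H877.TP.R8

set_option autoImplicit false

namespace Pool.Agent.H877.TP
open MvPolynomial Filter Topology

/-- the Jacobian determinant of three forms -/
noncomputable def jac (F G H : P3) : P3 :=
  Matrix.det (Matrix.of ![fun i => pderiv i F, fun i => pderiv i G, fun i => pderiv i H])

lemma jac_hom {F G H : P3} {a b c : ℕ} (hF : F.IsHomogeneous a) (hG : G.IsHomogeneous b)
    (hH : H.IsHomogeneous c) : (jac F G H).IsHomogeneous ((a - 1) + (b - 1) + (c - 1)) := by
  unfold jac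
  rw [Matrix.det_fin_three]
  simp only [Matrix.of_apply, Matrix.cons_val_zero, Matrix.cons_val_one, Matrix.cons_val]
  have t : ∀ i j k : Fin 3, (pderiv i F * pderiv j G * pderiv k H).IsHomogeneous ((a - 1) + (b - 1) + (c - 1)) :=
    fun i j k => (hF.pderiv.mul hG.pderiv).mul hH.pderiv
  exact (((((t _ _ _).sub (t _ _ _)).sub (t _ _ _)).add (t _ _ _)).add (t _ _ _)).sub (t _ _ _)

lemma bar_pderiv (i : Fin 3) (G : P3) : bar (pderiv i G) = pderiv i (bar G) := by
  unfold bar; rw [pderiv_map]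

lemma bar_jac {F G H : P3} (hF : bar F = F) (hG : bar G = G) (hH : bar H = H) : bar (jac F G H) = jac F G H := by
  unfold jac
  rw [Matrix.det_fin_three]
  simp only [Matrix.of_apply, Matrix.cons_val_zero, Matrix.cons_val_one, Matrix.cons_val]
  simp only [bar_sub, bar_add, bar_mul, bar_pderiv, hF, hG, hH]

lemma eval_jac (F G H : P3) (w : V3) : eval w (jac F G H) = Matrix.det (Matrix.of
    ![fun i => eval w (pderiv i F), fun i => eval w (pderiv i G), fun i => eval w (pderiv i H)]) := by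
  unfold jac
  rw [Matrix.det_fin_three, Matrix.det_fin_three]
  simp only [Matrix.of_apply, Matrix.cons_val_zero, Matrix.cons_val_one, Matrix.cons_val, map_sub, map_add, map_mul]

lemma deriv_eval {γ : ℂ → V3} {t₀ : ℂ} (h : AnalyticAt ℂ γ t₀) (G : P3) :
    HasDerivAt (fun t => eval (γ t) G) (∑ i, eval (γ t₀) (pderiv i G) * deriv γ t₀ i) t₀ := by
  have h1 := (hasFDerivAt_eval G (γ t₀)).comp_hasDerivAt t₀ h.differentiableAt.hasDerivAt
  rw [dE_apply] at h1
  exact h1

lemma euler {G : P3} {e : ℕ} (hG : G.IsHomogeneous e) (w : V3) :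
    ∑ i, eval w (pderiv i G) * w i = e * eval w G := by
  have := congrArg (eval w) hG.sum_X_mul_pderiv
  rw [map_sum] at this
  simp only [map_mul, eval_X, nsmul_eq_mul, map_natCast] at this
  rw [← this]
  exact Finset.sum_congr rfl fun i _ => mul_comm _ _

/-- a function with value and derivative zero does not have order one -/
lemma not_order_one {f : ℂ → ℂ} (hf : AnalyticAt ℂ f 0) (h0 : f 0 = 0) (h1 : deriv f 0 = 0) :
    ¬ analyticOrderAt f 0 ≤ 1 := by
  intro hle
  have h2 : analyticOrderAt f 0 ≠ 0 := by rw [hf.analyticOrderAt_ne_zero]; exact h0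
  have h3 : analyticOrderAt f 0 = ((1 : ℕ) : ℕ∞) := le_antisymm (by exact_mod_cast hle)
    (by exact_mod_cast Order.one_le_iff_ne_zero.2 h2)
  obtain ⟨g, hg, hg0, hgeq⟩ := hf.analyticOrderAt_eq_natCast.1 h3
  have h4 : HasDerivAt (fun t : ℂ => t * g t) (g 0) 0 := by
    have h6 : HasDerivAt (fun t : ℂ => t * g t) (1 * g 0 + 0 * deriv g 0) 0 :=
      (hasDerivAt_id' (0 : ℂ)).fun_mul hg.differentiableAt.hasDerivAt
    rwa [one_mul, zero_mul, add_zero] at h6
  have h7 : f =ᶠ[𝓝 0] fun t => t * g t := by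
    filter_upwards [hgeq] with t ht
    rw [ht]; simp
  have h5 := (h4.congr_of_eventuallyEq h7).deriv
  rw [h1] at h5
  exact hg0 h5.symm

namespace Curve
variable {C : Curve} {A B : Set V3}

lemma neg_pos {B : Set V3} {G H : P3} (h : Pos B G H) : Pos B (-H) G := by
  intro x hx
  have h1 := h x hx
  have e1 : eval x (-H) * star (eval x G) = -star (eval x G * star (eval x H)) := by
    rw [map_neg, star_mul', star_star]; ring
  rw [e1, Complex.neg_im, Complex.star_def, Complex.conj_im, neg_neg]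
  exact h1

lemma pos_sub_const {B : Set V3} {G H : P3} (h : Pos B G H) {c : ℂ} (hc : c.im = 0) : Pos B (G - c • H) H := by
  have h1 := pos_add h (pos_const (B := B) (H := H) (-c.re))
  have e1 : G - c • H = G + MvPolynomial.C ((-c.re : ℝ) : ℂ) * H := by
    have : ((-c.re : ℝ) : ℂ) = -c := by
      push_cast
      rw [Complex.conj_eq_iff_re.1 (Complex.conj_eq_iff_im.2 hc)]
    rw [this, smul_eq_C_mul, map_neg]; ring
  rw [e1]; exact h1

/-- a total pencil without base points -/
lemma Sep.exists_free (h : Sep C A B) : ∃ (e : ℕ) (G H : P3), 1 ≤ e ∧ G.IsHomogeneous e ∧ H.IsHomogeneous e ∧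
    bar G = G ∧ bar H = H ∧ Pos B G H ∧ (¬ ∃ c : ℂ, C.F ∣ G - c • H) ∧ ¬ C.F ∣ H ∧
    ∀ x, C.On x → ¬ (eval x G = 0 ∧ eval x H = 0) := by
  have hC := h.real
  obtain ⟨e, K, he, hK, hFK, -, hz, hA, hB⟩ := h.exists_form
  have hval : ∀ x ∈ B, 0 < (eval x (reP K) * star (eval x (imP K))).im := by
    intro x hx
    have h1 := hB x hx
    have e1 : eval x K = eval x (reP K) + Complex.I * eval x (imP K) := by
      conv_lhs => rw [re_im K]
      rw [map_add, map_mul, eval_C]
    have e2 : eval x (bar K) = eval x (reP K) - Complex.I * eval x (imP K) := by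
      have : bar K = reP K - MvPolynomial.C Complex.I * imP K := by
        conv_lhs => rw [re_im K]
        rw [bar_add, bar_mul, bar_C, bar_reP, bar_imP, Complex.star_def, Complex.conj_I, map_neg]; ring
      rw [this, map_sub, map_mul, eval_C]
    rw [e1, e2] at h1
    set u := eval x (reP K)
    set v := eval x (imP K)
    have h2 : ‖u - Complex.I * v‖ ^ 2 < ‖u + Complex.I * v‖ ^ 2 :=
      pow_lt_pow_left₀ h1 (norm_nonneg _) two_ne_zero
    rw [← Complex.normSq_eq_norm_sq, ← Complex.normSq_eq_norm_sq, Complex.normSq_apply, Complex.normSq_apply] at h2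
    simp only [Complex.sub_re, Complex.add_re, Complex.mul_re, Complex.I_re, Complex.I_im, Complex.sub_im,
      Complex.add_im, Complex.mul_im, Complex.star_def, Complex.conj_re, Complex.conj_im] at h2 ⊢
    nlinarith
  obtain ⟨x₀, hx₀⟩ := h.neB
  have hFim : ¬ C.F ∣ imP K := by
    rintro ⟨Q, hQ⟩
    have h1 := hval x₀ hx₀
    rw [hQ, map_mul, (h.opB.on x₀ hx₀).2] at h1
    simp at h1
  have hnc : ¬ ∃ c : ℂ, C.F ∣ reP K - c • imP K := by
    rintro ⟨c, hc⟩
    have hcr := real_of_dvd hC (bar_reP K) (bar_imP K) hFim hc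
    obtain ⟨Q, hQ⟩ := hc
    have h1 := congrArg (eval x₀) hQ
    rw [map_sub, map_mul, (h.opB.on x₀ hx₀).2, zero_mul, smul_eq_C_mul, map_mul, eval_C, sub_eq_zero] at h1
    have h2 := hval x₀ hx₀
    rw [h1, im_mul_norm, ← hcr] at h2
    simp at h2
  refine ⟨e, reP K, imP K, he, reP_hom hK, imP_hom hK, bar_reP K, bar_imP K, fun x hx => (hval x hx).le, hnc, hFim, ?_⟩
  rintro x hx ⟨h1, h2⟩
  have e1 : eval x K = 0 := by
    conv_lhs => rw [re_im K]
    rw [map_add, map_mul, h1, h2, mul_zero, add_zero]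
  have e2 : eval x (bar K) = 0 := by
    have : bar K = reP K - MvPolynomial.C Complex.I * imP K := by
      conv_lhs => rw [re_im K]
      rw [bar_add, bar_mul, bar_C, bar_reP, bar_imP, Complex.star_def, Complex.conj_I, map_neg]; ring
    rw [this, map_sub, map_mul, h1, h2, mul_zero, sub_zero]
  have h3 := hA x (hz x hx e1)
  rw [e1, e2] at h3
  exact lt_irrefl _ h3

lemma jac_ne (h : Sep C A B) {e : ℕ} {G H : P3} (he : 1 ≤ e) (hG : G.IsHomogeneous e) (hH : H.IsHomogeneous e)
    (hbG : bar G = G) (hbH : bar H = H) (hpos : Pos B G H) (hnc : ¬ ∃ c : ℂ, C.F ∣ G - c • H) (hFH : ¬ C.F ∣ H)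
    (hfree : ∀ x, C.On x → ¬ (eval x G = 0 ∧ eval x H = 0)) {w : V3} (hw : C.On w) (hR : Rl w) :
    eval w (jac C.F G H) ≠ 0 := by
  intro h0
  rw [eval_jac] at h0
  obtain ⟨v, hv, hvM⟩ := Matrix.exists_vecMul_eq_zero_iff.2 h0
  have hrel : ∀ i, v 0 * eval w (pderiv i C.F) + v 1 * eval w (pderiv i G) + v 2 * eval w (pderiv i H) = 0 := by
    intro i
    have := congrFun hvM i
    simpa [Matrix.vecMul, dotProduct, Fin.sum_univ_three] using this
  set N : P3 := v 1 • G + v 2 • H with hN
  have hNh : N.IsHomogeneous e := ((homogeneousSubmodule (Fin 3) ℂ e).smul_mem _ hG).add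
    ((homogeneousSubmodule (Fin 3) ℂ e).smul_mem _ hH)
  have hNi : ∀ i, eval w (pderiv i N) = -v 0 * eval w (pderiv i C.F) := by
    intro i
    have := hrel i
    rw [hN, smul_eq_C_mul, smul_eq_C_mul, map_add, pderiv_C_mul, pderiv_C_mul, map_add, map_mul, map_mul,
      eval_C, eval_C]
    linear_combination this
  set ch := C.chart hw with hch
  have hγ : IsParam C.F ch.γ 0 := ch.isParam (Metric.mem_ball_self ch.r_pos)
  have hbase : ch.γ 0 = w := ch.base
  have hN0 : eval w N = 0 := by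
    have h1 := euler hNh w
    have h2 := euler C.hom w
    rw [hw.2, mul_zero] at h2
    simp only [hNi, mul_assoc] at h1
    rw [← Finset.mul_sum, h2, mul_zero] at h1
    have he' : (e : ℂ) ≠ 0 := by exact_mod_cast (show e ≠ 0 by omega)
    exact (mul_eq_zero.1 h1.symm).resolve_left he'
  have hNd : deriv (fun t => eval (ch.γ t) N) 0 = 0 := by
    rw [(deriv_eval hγ.an N).deriv, hbase]
    simp only [hNi, mul_assoc]
    rw [← Finset.mul_sum]
    have h2 : ∑ i, eval w (pderiv i C.F) * deriv ch.γ 0 i = 0 := by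
      have h3 := deriv_eval hγ.an C.F
      rw [hbase] at h3
      have h4 : HasDerivAt (fun t => eval (ch.γ t) C.F) 0 0 := by
        refine (hasDerivAt_const (0 : ℂ) (0 : ℂ)).congr_of_eventuallyEq ?_
        filter_upwards [hγ.zer] with t ht using ht
      exact h3.unique h4
    rw [h2, mul_zero]
  have hnot : ¬ C.ord (Projectivization.mk ℂ w hw.1) N ≤ 1 := by
    have h1 := ord_param hγ hNh
    simp only [hbase] at h1
    rw [h1]
    exact not_order_one (an_eval hγ.an N) (by simp only [hbase]; exact hN0) hNd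
  apply hnot
  set P := Projectivization.mk ℂ w hw.1 with hP
  have hPt : C.Pt P := (pt_mk hw.1).2 hw.2
  have hPR : Rl P.rep := (Rl_mk hw.1).2 hR
  -- vanishing of forms at `w` and at the representative
  have hvan : ∀ {K : P3}, K.IsHomogeneous e → eval w K ≠ 0 → C.ord P K = 0 := by
    intro K hK hne
    rw [ord_pos_iff hPt]
    obtain ⟨a, ha⟩ := Projectivization.exists_smul_eq_mk_rep ℂ w hw.1
    rw [hP, ← ha]
    change eval ((a : ℂ) • w) K ≠ 0
    rw [eval_smul_vec _ _ hK]
    exact mul_ne_zero (pow_ne_zero _ a.ne_zero) hne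
  by_cases hv1 : v 1 = 0
  · have hv2 : v 2 ≠ 0 := by
      intro hv2
      obtain ⟨i, hi⟩ := C.ns w hw.1 hw.2
      have h1 := hrel i
      rw [hv1, hv2, zero_mul, zero_mul, add_zero, add_zero] at h1
      have hv0 := (mul_eq_zero.1 h1).resolve_right hi
      apply hv
      ext j
      fin_cases j
      · exact hv0
      · exact hv1
      · exact hv2
    have hNH : N = v 2 • H := by rw [hN, hv1, zero_smul, zero_add]
    have hH0 : eval w H = 0 := by
      rw [hNH, smul_eq_C_mul, map_mul, eval_C] at hN0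
      exact (mul_eq_zero.1 hN0).resolve_left hv2
    have hG0 : eval w G ≠ 0 := fun h1 => hfree w hw ⟨h1, hH0⟩
    have h1 := (ord_real h hG hH hbG hbH hpos hnc hFH hPt hPR).2
    rw [hvan hG hG0, zero_add] at h1
    rw [hNH, smul_eq_C_mul, ord_mul]
    have h2 : C.ord P (MvPolynomial.C (v 2)) = 0 := by
      rw [ord_pos_iff hPt]; simpa using hv2
    rw [h2, zero_add]; exact h1
  · have hH0 : eval w H ≠ 0 := by
      intro h1
      rw [hN, map_add, smul_eq_C_mul, smul_eq_C_mul, map_mul, map_mul, eval_C, eval_C, h1, mul_zero, add_zero] at hN0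
      exact hfree w hw ⟨(mul_eq_zero.1 hN0).resolve_left hv1, h1⟩
    set c := qt G H w with hc
    have hcim : c.im = 0 := im_qt hR hw.1 hG hH hbG hbH
    have hcr : (starRingEnd ℂ) c = c := Complex.conj_eq_iff_im.2 hcim
    have hcH : c * eval w H = eval w G := by rw [hc]; unfold qt; rw [div_mul_cancel₀ _ hH0]
    have hNc : N = v 1 • (G - c • H) := by
      have h1 : v 2 = -(v 1 * c) := by
        rw [hN, map_add, smul_eq_C_mul, smul_eq_C_mul, map_mul, map_mul, eval_C, eval_C, ← hcH] at hN0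
        have h2 : (v 2 + v 1 * c) * eval w H = 0 := by linear_combination hN0
        linear_combination (mul_eq_zero.1 h2).resolve_right hH0
      rw [hN, h1, smul_sub, smul_smul, neg_smul, sub_eq_add_neg]
    have hGc : (G - c • H).IsHomogeneous e := hG.sub ((homogeneousSubmodule (Fin 3) ℂ e).smul_mem _ hH)
    have hbGc : bar (G - c • H) = G - c • H := by
      rw [bar_sub, bar_smul, hbG, hbH, Complex.star_def, hcr]
    have h1 := (ord_real h hGc hH hbGc hbH (pos_sub_const hpos hcim) (by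
      rintro ⟨c', hc'⟩
      apply hnc
      refine ⟨c + c', ?_⟩
      rw [add_smul, ← sub_sub]; exact hc') hFH hPt hPR).1
    rw [hvan hH hH0, zero_add] at h1
    rw [hNc, smul_eq_C_mul, ord_mul]
    have h2 : C.ord P (MvPolynomial.C (v 1)) = 0 := by
      rw [ord_pos_iff hPt]; simpa using hv1
    rw [h2, zero_add]; exact h1

/-- a real form of the parity of the adjoint forms, without real zeros on the curve -/
theorem Sep.exists_orient (h : Sep C A B) (h3 : 3 ≤ C.deg) : ∃ (J : P3) (j : ℕ), J.IsHomogeneous j ∧ bar J = J ∧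
    Even (C.deg - 3 + j) ∧ ∀ w, C.On w → Rl w → eval w J ≠ 0 := by
  obtain ⟨e, G, H, he, hG, hH, hbG, hbH, hpos, hnc, hFH, hfree⟩ := h.exists_free
  refine ⟨jac C.F G H, _, jac_hom C.hom hG hH, bar_jac h.real hbG hbH, ?_, fun w hw hR =>
    jac_ne h he hG hH hbG hbH hpos hnc hFH hfree hw hR⟩
  obtain ⟨t, ht⟩ := Nat.exists_eq_add_of_le h3
  obtain ⟨s, rfl⟩ := Nat.exists_eq_add_of_le he
  refine ⟨t + 1 + s, ?_⟩
  omega

end Curve

end Pool.Agent.H877.TP
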