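import Pool.Agent.H877.TP.Lim2

set_option autoImplicit false

namespace Pool.Agent.H877.TP
open MvPolynomial Filter Topology

/-- the genus -/
def gen (d : ℕ) : ℕ := (d - 1) * (d - 2) / 2

lemma two_gen {d : ℕ} (hd : 1 ≤ d) : (2 * gen d : ℤ) = ((d : ℤ) - 1) * ((d : ℤ) - 2) := by
  have h1 : 2 * gen d = (d - 1) * (d - 2) := by
    unfold gen
    apply Nat.mul_div_cancel'
    rcases Nat.lt_or_ge d 2 with h | h
    · have : d = 1 := by omega
      subst this; simp
    · obtain ⟨t, rfl⟩ := Nat.exists_eq_add_of_le h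
      have := Nat.even_mul_succ_self t
      have h2 : (2 + t - 1) * (2 + t - 2) = t * (t + 1) := by
        rw [show 2 + t - 1 = t + 1 by omega, show 2 + t - 2 = t by omega]; ring
      rw [h2]; exact this.two_dvd
  rcases Nat.lt_or_ge d 2 with h | h
  · have : d = 1 := by omega
    subst this; simp [gen]
  · have h2 : ((2 * gen d : ℕ) : ℤ) = (((d - 1) * (d - 2) : ℕ) : ℤ) := by rw [h1]
    push_cast [Nat.cast_sub (show 1 ≤ d by omega), Nat.cast_sub h] at h2
    exact h2

lemma bb_gen {d e : ℕ} (hd : 1 ≤ d) (he : d ≤ e) : bb e + gen d = bb (e - d) + d * e + 1 := by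
  obtain ⟨t, rfl⟩ := Nat.exists_eq_add_of_le he
  rw [show d + t - d = t by omega]
  have h1 := bb_two (d + t)
  have h2 := bb_two t
  have h3 := two_gen hd
  have h1' : (2 * bb (d + t) : ℤ) = (d + t + 2) * (d + t + 1) := by exact_mod_cast h1
  have h2' : (2 * bb t : ℤ) = (t + 2) * (t + 1) := by exact_mod_cast h2
  have : (bb (d + t) + gen d : ℤ) = bb t + d * (d + t) + 1 := by linarith
  exact_mod_cast this

namespace Curve
variable {C : Curve}

/-- the genus of the curve -/
def g (C : Curve) : ℕ := gen C.deg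

lemma dvd_comp (l : ℕ) (B : P3) : C.F ∣ homogeneousComponent l (C.F * B) := by
  rcases Nat.lt_or_ge l C.deg with h | h
  · rw [comp_mul_lt C.hom h]; exact dvd_zero _
  · obtain ⟨t, rfl⟩ := Nat.exists_eq_add_of_le h
    rw [comp_mul C.hom]; exact dvd_mul_right _ _

lemma mem_mm_of_dvd {e : ℕ} (he : C.deg ≤ e) {G : P3} (hG : G.IsHomogeneous e) (h : C.F ∣ G) :
    G ∈ mm C.F (e - C.deg) := by
  obtain ⟨Q, rfl⟩ := h
  refine mem_mm.2 ⟨homogeneousComponent (e - C.deg) Q, homogeneousComponent_isHomogeneous _ _, ?_⟩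
  rw [← comp_mul C.hom, show C.deg + (e - C.deg) = e by omega, homogeneousComponent_eq_self hG]

/-- existence of forms vanishing on a divisor -/
lemma exists_W {e : ℕ} (he : C.deg ≤ e) {D : DD} (hD : Multiset.card D + C.g ≤ C.deg * e) :
    ∃ G ∈ C.W e D, ¬ C.F ∣ G := by
  by_contra hc
  push Not at hc
  have h1 : C.W e D ≤ mm C.F (e - C.deg) := fun G hG => mem_mm_of_dvd he hG.1 (hc G hG)
  have h2 := Submodule.finrank_mono h1
  rw [finrank_mm C.prime.ne_zero] at h2
  have h3 := bb_le_W (C := C) e D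
  have h4 := bb_gen C.pos he
  unfold g at hD
  omega

lemma ord_ne_top {K : P3} {k : ℕ} (hK : K.IsHomogeneous k) (hFK : ¬ C.F ∣ K) {P : PP} (hP : C.Pt P) :
    C.ord P K ≠ ⊤ := by
  obtain ⟨D, hD, -⟩ := exists_isDiv_le (C := C) hK hFK
  rw [hD.2 P hP]; simp

lemma count_zero {D : DD} (hD : ∀ Q ∈ D, C.Pt Q) {P : PP} (hP : ¬ C.Pt P) [DecidableEq PP] :
    D.count P = 0 := Multiset.count_eq_zero.2 fun h => hP (hD P h)

lemma IsDiv.unique {K : P3} {D D' : DD} (h : IsDiv C K D) (h' : IsDiv C K D') : D = D' := by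
  classical
  ext P
  by_cases hP : C.Pt P
  · have := (h.2 P hP).symm.trans (h'.2 P hP)
    exact_mod_cast this
  · rw [count_zero h.1 hP, count_zero h'.1 hP]

lemma IsDiv.mul {K K' : P3} {D D' : DD} (h : IsDiv C K D) (h' : IsDiv C K' D') :
    IsDiv C (K * K') (D + D') := by
  classical
  refine ⟨fun Q hQ => ?_, fun P hP => ?_⟩
  · rcases Multiset.mem_add.1 hQ with h1 | h1
    · exact h.1 Q h1
    · exact h'.1 Q h1
  · rw [ord_mul, h.2 P hP, h'.2 P hP, Multiset.count_add]; push_cast; rfl

lemma IsDiv.congr {K K' : P3} {D : DD} (h : IsDiv C K D) (h' : C.F ∣ K - K') : IsDiv C K' D := by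
  refine ⟨h.1, fun P hP => ?_⟩
  rw [← ord_congr P h']; exact h.2 P hP

lemma isDiv_of_mem {e : ℕ} {D : DD} (hD : ∀ Q ∈ D, C.Pt Q) {G : P3} (hG : G ∈ C.W e D) (hFG : ¬ C.F ∣ G) :
    ∃ E, IsDiv C G (D + E) ∧ (∀ Q ∈ E, C.Pt Q) ∧ Multiset.card D + Multiset.card E = C.deg * e := by
  classical
  obtain ⟨D', hD', hcard⟩ := exists_isDiv (C := C) hG.1 hFG
  have hle : D ≤ D' := by
    rw [Multiset.le_iff_count]
    intro P
    by_cases hP : C.Pt P
    · have := hG.2 P
      rw [hD'.2 P hP] at this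
      exact_mod_cast this
    · rw [count_zero hD hP]; exact Nat.zero_le _
  obtain ⟨E, rfl⟩ := Multiset.le_iff_exists_add.1 hle
  refine ⟨E, hD', fun Q hQ => hD'.1 Q (Multiset.mem_add.2 (Or.inr hQ)), ?_⟩
  rw [← Multiset.card_add, hcard]

lemma isDiv_of_card {e : ℕ} {D : DD} (hD : ∀ Q ∈ D, C.Pt Q) {G : P3} (hG : G ∈ C.W e D) (hFG : ¬ C.F ∣ G)
    (hcard : Multiset.card D = C.deg * e) : IsDiv C G D := by
  obtain ⟨E, hE, -, hc⟩ := isDiv_of_mem hD hG hFG
  have : E = 0 := by
    rw [← Multiset.card_eq_zero]; omega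
  rwa [this, add_zero] at hE

/-- dividing forms -/
lemma IsDiv.divide {K T : P3} {k l : ℕ} {D E : DD} (hK : K.IsHomogeneous k) (hT : T.IsHomogeneous l)
    (hFK : ¬ C.F ∣ K) (hFT : ¬ C.F ∣ T) (hKD : IsDiv C K D) (hTD : IsDiv C T (D + E)) :
    k ≤ l ∧ ∃ A, A.IsHomogeneous (l - k) ∧ C.F ∣ T - K * A ∧ ¬ C.F ∣ A ∧ IsDiv C A E := by
  classical
  have hcK := hKD.card hK hFK
  have hcT := hTD.card hT hFT
  have hkl : k ≤ l := by
    rw [Multiset.card_add, hcK] at hcT
    have h1 : C.deg * k ≤ C.deg * l := by omega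
    exact Nat.le_of_mul_le_mul_left h1 C.pos
  obtain ⟨A, B, hAB⟩ := noether (C := C) hK hT hFK (by
    intro P
    by_cases hP : C.Pt P
    · rw [hKD.2 P hP, hTD.2 P hP, Multiset.count_add]; push_cast; exact le_self_add
    · rw [ord_of_not_pt hP, ord_of_not_pt hP])
  have h1 := congrArg (homogeneousComponent l) hAB
  rw [homogeneousComponent_eq_self hT, map_add] at h1
  have h2 : homogeneousComponent l (K * A) = K * homogeneousComponent (l - k) A := by
    rw [← comp_mul hK, show k + (l - k) = l by omega]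
  have h3 : C.F ∣ T - K * homogeneousComponent (l - k) A := by
    rw [h1, h2, add_sub_cancel_left]; exact dvd_comp l B
  have h4 : ¬ C.F ∣ homogeneousComponent (l - k) A := by
    intro h
    exact hFT ((dvd_sub_left (Dvd.dvd.mul_left h K)).1 h3)
  refine ⟨hkl, _, homogeneousComponent_isHomogeneous _ _, h3, h4, ?_⟩
  refine ⟨fun Q hQ => hTD.1 Q (Multiset.mem_add.2 (Or.inr hQ)), fun P hP => ?_⟩
  have h5 := ord_congr P h3
  rw [ord_mul, hKD.2 P hP, hTD.2 P hP, Multiset.count_add] at h5
  push_cast at h5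
  exact (ENat.add_right_injective_of_ne_top (by simp) h5).symm

open Classical in
/-- a nonspecial divisor: `L(S)` consists of constants -/
def NS (C : Curve) (S : DD) : Prop :=
  ∀ (a : ℕ) (A B : P3), A.IsHomogeneous a → B.IsHomogeneous a → ¬ C.F ∣ A →
    (∀ P, C.ord P A ≤ C.ord P B + S.count P) → ∃ c : ℂ, C.F ∣ B - c • A

lemma NS.mono {S S' : DD} (h : NS C S) (hle : S' ≤ S) : NS C S' := by
  classical
  intro a A B hA hB hFA hord
  refine h a A B hA hB hFA fun P => (hord P).trans ?_
  gcongr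

lemma const_of_ord {a : ℕ} {A B : P3} (hA : A.IsHomogeneous a) (hB : B.IsHomogeneous a) (hFA : ¬ C.F ∣ A)
    (hord : ∀ P, C.ord P A ≤ C.ord P B) : ∃ c : ℂ, C.F ∣ B - c • A := by
  obtain ⟨A', B', hAB⟩ := noether (C := C) hA hB hFA hord
  have h1 := congrArg (homogeneousComponent a) hAB
  rw [homogeneousComponent_eq_self hB, map_add] at h1
  have h2 : homogeneousComponent a (A * A') = A * homogeneousComponent 0 A' := by
    rw [← comp_mul hA, add_zero]
  rw [homogeneousComponent_zero] at h2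
  refine ⟨coeff 0 A', ?_⟩
  rw [h1, h2, smul_eq_C_mul, mul_comm A, add_sub_cancel_left]
  exact dvd_comp a B'

/-- dropping conditions -/
lemma exists_drop (e : ℕ) (R D : DD) (hnd : D.Nodup) : ∃ J ≤ D, C.W e (J + R) = C.W e (D + R) ∧
    Multiset.card J + Module.finrank ℂ (C.W e (D + R)) ≤ Module.finrank ℂ (C.W e R) := by
  classical
  induction D using Multiset.induction_on with
  | empty => exact ⟨0, le_refl _, rfl, by rw [zero_add]; simp⟩
  | cons P D ih =>
    obtain ⟨hP, hD⟩ := Multiset.nodup_cons.1 hnd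
    obtain ⟨J, hJ, hW, hcard⟩ := ih hD
    by_cases heq : C.W e (P ::ₘ D + R) = C.W e (D + R)
    · exact ⟨J, hJ.trans (Multiset.le_cons_self D P), by rw [heq, hW], by rw [heq]; exact hcard⟩
    · have hlt : C.W e (P ::ₘ D + R) < C.W e (D + R) := by
        refine lt_of_le_of_ne (W_anti ?_) heq
        rw [Multiset.cons_add]; exact Multiset.le_cons_self _ _
      have hfr := Submodule.finrank_lt_finrank_of_lt hlt
      refine ⟨P ::ₘ J, Multiset.cons_le_cons P hJ, ?_, by rw [Multiset.card_cons]; omega⟩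
      apply le_antisymm
      · intro G hG
        have hG1 : G ∈ C.W e (D + R) := by
          rw [← hW]
          refine W_anti ?_ hG
          rw [Multiset.cons_add]; exact Multiset.le_cons_self _ _
        refine ⟨hG.1, fun Q => ?_⟩
        by_cases hQ : Q = P
        · subst hQ
          have h1 := hG.2 Q
          rw [Multiset.cons_add, Multiset.count_cons_self, Multiset.count_add] at h1 ⊢
          rw [Multiset.count_eq_zero.2 hP]
          rw [Multiset.count_eq_zero.2 (fun h => hP (Multiset.mem_of_le hJ h))] at h1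
          exact h1
        · rw [Multiset.cons_add, Multiset.count_cons_of_ne hQ]
          exact hG1.2 Q
      · exact W_anti (Multiset.add_le_add_right (Multiset.cons_le_cons P hJ))

/-- existence of nonspecial divisors of degree `g` among `deg² + g` distinct points -/
lemma exists_NS (D : DD) (hnd : D.Nodup) (hD : ∀ Q ∈ D, C.Pt Q)
    (hcard : Multiset.card D = C.deg * C.deg + C.g) : ∃ S ≤ D, Multiset.card S = C.g ∧ NS C S := by
  classical
  set d := C.deg with hd
  set a := 2 * d + Multiset.card D + C.g with ha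
  have hdpos := C.pos
  have hda : d ≤ a := by omega
  obtain ⟨A, hA, hFA⟩ := exists_W (C := C) (e := a) hda (D := D) (by
    have : a ≤ C.deg * a := Nat.le_mul_of_pos_left _ C.pos
    omega)
  obtain ⟨R, hR, hRpt, hRcard⟩ := isDiv_of_mem hD hA hFA
  obtain ⟨t, ht⟩ : ∃ t, a = d + t := ⟨a - d, by omega⟩
  have htd : d ≤ t := by omega
  have hexp : C.deg * a = d * d + d * t := by rw [ht, ← hd]; ring
  obtain ⟨X, hX, hFX⟩ := exists_W (C := C) (e := t) htd (D := R) (by rw [← hd]; omega)
  obtain ⟨Z, hZ, hZpt, hZcard⟩ := isDiv_of_mem hRpt hX hFX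
  have hZg : Multiset.card Z = C.g := by rw [← hd] at hZcard; omega
  -- dimension of W a R
  have h1 : C.W a (Z + R) ≤ mm C.F (a - C.deg) ⊔ mm X (a - t) := by
    intro T hT
    obtain ⟨A', B', hA', hB', hAB⟩ := noether' (C := C) hX.1 hT.1 hFX (by omega) (by omega) (by
      intro P
      by_cases hP : C.Pt P
      · rw [hZ.2 P hP, add_comm R Z]; exact hT.2 P
      · rw [ord_of_not_pt hP, ord_of_not_pt hP])
    rw [hAB, add_comm]
    exact Submodule.add_mem_sup (mem_mm.2 ⟨B', hB', rfl⟩) (mem_mm.2 ⟨A', hA', rfl⟩)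
  have h2 := Submodule.finrank_mono h1
  have h3 := pair_eq C.hom hX.1 C.prime hFX (show C.deg + t ≤ a by omega)
  have h4 := finrank_W_add (C := C) a R Z
  have h5 := bb_gen (d := C.deg) (e := a) C.pos hda
  -- lower bound for W a (D + R)
  have h6 : bb (a - C.deg) + 1 ≤ Module.finrank ℂ (C.W a (D + R)) := by
    have hlt : mm C.F (a - C.deg) < C.W a (D + R) := by
      refine lt_of_le_of_ne (mm_le_W hda _) ?_
      intro heq
      have hAm : A ∈ C.W a (D + R) := by
        refine ⟨hA.1, fun P => ?_⟩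
        by_cases hP : C.Pt P
        · exact (hR.2 P hP).ge
        · rw [ord_of_not_pt hP]; exact le_top
      rw [← heq] at hAm
      obtain ⟨Q, -, hQ⟩ := mem_mm.1 hAm
      exact hFA ⟨Q, hQ.symm⟩
    have := Submodule.finrank_lt_finrank_of_lt hlt
    rw [finrank_mm C.prime.ne_zero] at this
    omega
  obtain ⟨J, hJ, hJW, hJcard⟩ := exists_drop (C := C) a R D hnd
  have hJd : Multiset.card J ≤ d * d := by
    have e1 : Multiset.card Z = gen C.deg := hZg
    have e2 : C.deg * a = d * d + d * t := hexp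
    have e3 : C.deg * t = d * t := rfl
    omega
  obtain ⟨S₀, hS₀⟩ := Multiset.le_iff_exists_add.1 hJ
  have hS₀card : C.g ≤ Multiset.card S₀ := by
    have := congrArg Multiset.card hS₀
    rw [Multiset.card_add] at this
    omega
  have hS₀D : S₀ ≤ D := by rw [hS₀]; exact Multiset.le_add_left _ _
  -- special case of NS
  have hspec : ∀ B : P3, B.IsHomogeneous a → (∀ P, C.ord P A ≤ C.ord P B + S₀.count P) →
      ∃ c : ℂ, C.F ∣ B - c • A := by
    intro B hB hord
    have hBW : B ∈ C.W a (D + R) := by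
      rw [← hJW]
      refine ⟨hB, fun P => ?_⟩
      by_cases hP : C.Pt P
      · have := hord P
        rw [hR.2 P hP, hS₀, Multiset.count_add, Multiset.count_add] at this
        rw [Multiset.count_add]
        push_cast at this ⊢
        have h7 : ((J.count P : ℕ∞) + R.count P) + S₀.count P ≤ C.ord P B + S₀.count P := by
          refine le_trans (le_of_eq ?_) this; ring
        exact (ENat.add_le_add_iff_right (by simp)).1 h7
      · rw [ord_of_not_pt hP]; exact le_top
    apply const_of_ord hA.1 hB hFA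
    intro P
    by_cases hP : C.Pt P
    · rw [hR.2 P hP]; exact hBW.2 P
    · rw [ord_of_not_pt hP, ord_of_not_pt hP]
  have hNS : NS C S₀ := by
    intro a' A' B' hA' hB' hFA' hord
    by_cases hFB' : C.F ∣ B'
    · exact ⟨0, by simpa using hFB'⟩
    obtain ⟨B'', Q, hB''⟩ := noether (C := C) hA' (hB'.mul hA.1) hFA' (by
      intro P
      by_cases hP : C.Pt P
      · rw [ord_mul]
        refine (hord P).trans ?_
        gcongr
        rw [hR.2 P hP, Multiset.count_add]
        have : S₀.count P ≤ D.count P := Multiset.count_le_of_le P hS₀D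
        exact_mod_cast this.trans (Nat.le_add_right _ _)
      · rw [ord_of_not_pt hP, ord_of_not_pt hP])
    have e1 := congrArg (homogeneousComponent (a' + a)) hB''
    rw [homogeneousComponent_eq_self (hB'.mul hA.1), map_add, comp_mul hA'] at e1
    set B₂ := homogeneousComponent a B'' with hB₂
    have hB₂h : B₂.IsHomogeneous a := homogeneousComponent_isHomogeneous _ _
    have e2 : C.F ∣ B' * A - A' * B₂ := by
      rw [e1, add_sub_cancel_left]; exact dvd_comp _ Q
    obtain ⟨c, hc⟩ := hspec B₂ hB₂h (by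
      intro P
      by_cases hP : C.Pt P
      · have e3 := ord_congr P e2
        rw [ord_mul, ord_mul] at e3
        have e4 := hord P
        have e5 : C.ord P B' ≠ ⊤ := ord_ne_top hB' hFB' hP
        have e6 : C.ord P B' + C.ord P A ≤ C.ord P B' + (C.ord P B₂ + S₀.count P) := by
          rw [e3]
          calc C.ord P A' + C.ord P B₂ ≤ (C.ord P B' + S₀.count P) + C.ord P B₂ := by gcongr
            _ = C.ord P B' + (C.ord P B₂ + S₀.count P) := by ring
        exact (ENat.add_le_add_iff_left e5).1 e6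
      · rw [ord_of_not_pt hP, ord_of_not_pt hP, top_add])
    refine ⟨c, ?_⟩
    have e7 : C.F ∣ A * (B' - c • A') := by
      have : A * (B' - c • A') = (B' * A - A' * B₂) + A' * (B₂ - c • A) := by
        rw [smul_eq_C_mul, smul_eq_C_mul]; ring
      rw [this]
      exact dvd_add e2 (Dvd.dvd.mul_left hc _)
    exact (C.prime.dvd_or_dvd e7).resolve_left hFA
  obtain ⟨S, hS, hScard⟩ : ∃ S ≤ S₀, Multiset.card S = C.g := by
    have h8 : 0 < Multiset.card (Multiset.powersetCard C.g S₀) := by
      rw [Multiset.card_powersetCard]; exact Nat.choose_pos hS₀card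
    obtain ⟨S, hS⟩ := Multiset.card_pos_iff_exists_mem.1 h8
    exact ⟨S, Multiset.mem_powersetCard.1 hS⟩
  exact ⟨S, hS.trans hS₀D, hScard, hNS.mono hS⟩

end Curve

end Pool.Agent.H877.TP
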