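import Pool.Agent.H877.TP.Rec1

set_option autoImplicit false

namespace Pool.Agent.H877.TP
open MvPolynomial Filter Topology

namespace Curve
variable {C : Curve}

/-- a basis of forms of degree `a` modulo `F` -/
lemma exists_basis (C : Curve) (a : ℕ) : ∃ (N : ℕ) (b : Fin N → P3), (∀ k, (b k).IsHomogeneous a) ∧
    (∀ A : P3, A.IsHomogeneous a → ∃ c : Fin N → ℂ, C.F ∣ A - lc b c) ∧
    (∀ c : Fin N → ℂ, C.F ∣ lc b c → c = 0) := by
  let M : Submodule ℂ P3 := (Ideal.span {C.F}).restrictScalars ℂ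
  have hM : ∀ G, G ∈ M ↔ C.F ∣ G := fun G => Ideal.mem_span_singleton
  let q : RR a →ₗ[ℂ] P3 ⧸ M := M.mkQ.comp (RR a).subtype
  let B := Module.finBasis ℂ q.range
  have hlift : ∀ k, ∃ G : RR a, q G = (B k : P3 ⧸ M) := fun k => (B k).2
  choose b hb using hlift
  have hq : ∀ c : Fin (Module.finrank ℂ q.range) → ℂ, M.mkQ (lc (fun k => (b k : P3)) c) =
      ((∑ k, c k • B k : q.range) : P3 ⧸ M) := by
    intro c
    unfold lc
    rw [map_sum, AddSubmonoidClass.coe_finset_sum]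
    refine Finset.sum_congr rfl fun k _ => ?_
    rw [map_smul, SetLike.val_smul, ← hb k]; rfl
  refine ⟨_, fun k => (b k : P3), fun k => (b k).2, ?_, ?_⟩
  · intro A hA
    let A' : RR a := ⟨A, hA⟩
    let y : q.range := ⟨q A', A', rfl⟩
    refine ⟨fun k => B.repr y k, ?_⟩
    rw [← hM, ← Submodule.Quotient.mk_eq_zero, ← Submodule.mkQ_apply, map_sub, hq, B.sum_repr]
    change M.mkQ A - q A' = 0
    exact sub_self _
  · intro c hc
    rw [← hM, ← Submodule.Quotient.mk_eq_zero, ← Submodule.mkQ_apply, hq] at hc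
    have h1 : (∑ k, c k • B k : q.range) = 0 := Subtype.ext hc
    have := Fintype.linearIndependent_iff.1 B.linearIndependent c h1
    exact funext this

/-- open subsets of the curve -/
structure Op (C : Curve) (V : Set V3) : Prop where
  on : ∀ p ∈ V, C.On p
  smul : ∀ p ∈ V, ∀ c : ℂ, c ≠ 0 → c • p ∈ V
  op : ∀ p ∈ V, ∀ᶠ q in 𝓝 p, eval q C.F = 0 → q ∈ V

lemma Op.rep_mem {V : Set V3} (hV : Op C V) {p : V3} (hp : p ≠ 0) :
    (Projectivization.mk ℂ p hp).rep ∈ V ↔ p ∈ V := by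
  obtain ⟨a, ha⟩ := Projectivization.exists_smul_eq_mk_rep ℂ p hp
  rw [← ha]
  constructor
  · intro h
    have := hV.smul _ h (a : ℂ)⁻¹ (inv_ne_zero a.ne_zero)
    have h2 : ((a : ℂ)⁻¹ • (a • p) : V3) = p := by
      change (a : ℂ)⁻¹ • ((a : ℂ) • p) = p
      rw [smul_smul, inv_mul_cancel₀ a.ne_zero, one_smul]
    rwa [h2] at this
  · intro h
    exact hV.smul _ h a a.ne_zero

lemma Op.pr_mem {V : Set V3} (hV : Op C V) (v : C.S) : (pr v).rep ∈ V ↔ (v : V3) ∈ V :=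
  hV.rep_mem (S_ne v)

lemma Op.many {V : Set V3} (hV : Op C V) (hne : V.Nonempty) (n : ℕ) :
    ∃ D : DD, D.Nodup ∧ Multiset.card D = n ∧ ∀ Q ∈ D, C.Pt Q ∧ Q.rep ∈ V := by
  classical
  obtain ⟨p, hp⟩ := hne
  let ch := C.chart (hV.on p hp)
  have hc : Tendsto ch.γ (𝓝 0) (𝓝 p) := by
    have := (ch.ana 0 (Metric.mem_ball_self ch.r_pos)).continuousAt.tendsto
    rwa [ch.base] at this
  have hev : ∀ᶠ t in 𝓝 (0 : ℂ), t ∈ Metric.ball (0 : ℂ) ch.r ∧ ch.γ t ∈ V := by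
    filter_upwards [Metric.ball_mem_nhds (0 : ℂ) ch.r_pos, hc.eventually (hV.op p hp)] with t h1 h2
    exact ⟨h1, h2 (ch.zer t h1)⟩
  obtain ⟨δ, hδ, hball⟩ := Metric.eventually_nhds_iff_ball.1 hev
  let τ : ℕ → ℂ := fun n => ((δ / (n + 2) : ℝ) : ℂ)
  have hτ : ∀ n, τ n ∈ Metric.ball (0 : ℂ) δ := by
    intro n
    simp only [τ, Metric.mem_ball, dist_zero_right, Complex.norm_real, Real.norm_eq_abs]
    rw [abs_of_pos (by positivity), div_lt_iff₀ (by positivity)]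
    nlinarith [(Nat.cast_nonneg n : (0 : ℝ) ≤ n)]
  have hγne : ∀ n, ch.γ (τ n) ≠ 0 := fun n => (hV.on _ (hball _ (hτ n)).2).1
  let f : ℕ → PP := fun n => Projectivization.mk ℂ (ch.γ (τ n)) (hγne n)
  have hinj : Function.Injective f := by
    intro n m hnm
    simp only [f] at hnm
    rw [Projectivization.mk_eq_mk_iff'] at hnm
    obtain ⟨a, ha⟩ := hnm
    have h1 := congrArg ch.lam ha
    rw [map_smul, ch.hlam _ (hball _ (hτ n)).1, ch.hlam _ (hball _ (hτ m)).1, smul_eq_mul, mul_one] at h1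
    rw [h1, one_smul] at ha
    have h2 := congrArg ch.ell ha
    rw [ch.hell _ (hball _ (hτ n)).1, ch.hell _ (hball _ (hτ m)).1] at h2
    simp only [τ] at h2
    have h3 : δ / (m + 2 : ℝ) = δ / (n + 2) := by exact_mod_cast h2
    have h4 : (m : ℝ) + 2 ≠ 0 := by positivity
    have h5 : (n : ℝ) + 2 ≠ 0 := by positivity
    rw [div_eq_div_iff h4 h5] at h3
    have h6 := mul_left_cancel₀ hδ.ne' h3
    have h7 : (n : ℝ) = m := by linarith
    exact_mod_cast h7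
  refine ⟨((Finset.range n).map ⟨f, hinj⟩).val, Finset.nodup _, ?_, ?_⟩
  · rw [Finset.card_val, Finset.card_map, Finset.card_range]
  · intro Q hQ
    rw [Finset.mem_val, Finset.mem_map] at hQ
    obtain ⟨k, -, rfl⟩ := hQ
    have h1 := (hball _ (hτ k)).2
    exact ⟨(pt_mk _).2 (hV.on _ h1).2, (hV.rep_mem (hγne k)).2 h1⟩

/-- the divisor of a concatenated tuple -/
lemma dv_append {n m : ℕ} (x : Fin n → C.S) (y : Fin m → C.S) : dv (Fin.append x y) = dv x + dv y := by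
  unfold dv
  rw [Fin.univ_val_map, Fin.univ_val_map, Fin.univ_val_map]
  have : (fun j => pr (Fin.append x y j)) = Fin.append (fun j => pr (x j)) (fun j => pr (y j)) := by
    ext j
    refine Fin.addCases (fun i => ?_) (fun i => ?_) j
    · simp [Fin.append_left]
    · simp [Fin.append_right]
  rw [this, List.ofFn_fin_append, Multiset.coe_add]

lemma tendsto_append {n m : ℕ} {x : ℕ → Fin n → C.S} {y : ℕ → Fin m → C.S} {x₀ : Fin n → C.S}
    {y₀ : Fin m → C.S} (hx : Tendsto x atTop (𝓝 x₀)) (hy : Tendsto y atTop (𝓝 y₀)) :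
    Tendsto (fun i => Fin.append (x i) (y i)) atTop (𝓝 (Fin.append x₀ y₀)) := by
  rw [tendsto_pi_nhds] at hx hy ⊢
  intro j
  refine Fin.addCases (fun i => ?_) (fun i => ?_) j
  · simpa [Fin.append_left] using hx i
  · simpa [Fin.append_right] using hy i

lemma lc_smul {N : ℕ} (b : Fin N → P3) (r : ℂ) (c : Fin N → ℂ) : lc b (r • c) = r • lc b c := by
  unfold lc
  rw [Finset.smul_sum]
  refine Finset.sum_congr rfl fun k _ => ?_
  rw [Pi.smul_apply, smul_eq_mul, mul_smul]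

lemma lc_hom {N a : ℕ} {b : Fin N → P3} (hb : ∀ k, (b k).IsHomogeneous a) (c : Fin N → ℂ) :
    (lc b c).IsHomogeneous a :=
  (homogeneousSubmodule (Fin 3) ℂ a).sum_mem fun k _ =>
      (homogeneousSubmodule (Fin 3) ℂ a).smul_mem _ (hb k)

lemma IsDiv.smul {K : P3} {D : DD} (h : IsDiv C K D) {c : ℂ} (hc : c ≠ 0) : IsDiv C (c • K) D := by
  refine ⟨h.1, fun P hP => ?_⟩
  rw [smul_eq_C_mul, ord_mul, h.2 P hP]
  have : C.ord P (MvPolynomial.C c) = 0 := by
    rw [ord_pos_iff hP]; simpa using hc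
  rw [this, zero_add]

/-- normalised representatives -/
lemma exists_normal {N a : ℕ} {b : Fin N → P3} (hb : ∀ k, (b k).IsHomogeneous a)
    (hb2 : ∀ A : P3, A.IsHomogeneous a → ∃ c : Fin N → ℂ, C.F ∣ A - lc b c) {A : P3} {D : DD}
    (hA : A.IsHomogeneous a) (hFA : ¬ C.F ∣ A) (hD : IsDiv C A D) :
    ∃ c : Fin N → ℂ, ‖c‖ = 1 ∧ IsDiv C (lc b c) D := by
  obtain ⟨c, hc⟩ := hb2 A hA
  have hc0 : c ≠ 0 := by
    rintro rfl
    apply hFA
    simpa [lc] using hc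
  have hn : ‖c‖ ≠ 0 := norm_ne_zero_iff.2 hc0
  have hn' : ((‖c‖ : ℂ))⁻¹ ≠ 0 := inv_ne_zero (by exact_mod_cast hn)
  refine ⟨((‖c‖ : ℂ))⁻¹ • c, ?_, ?_⟩
  · rw [norm_smul, norm_inv, Complex.norm_real, norm_norm, inv_mul_cancel₀ hn]
  · rw [lc_smul]
    exact (hD.congr hc).smul hn'

lemma mem_W_of_isDiv {e : ℕ} {G : P3} {D : DD} (hG : G.IsHomogeneous e) (h : IsDiv C G D) : G ∈ C.W e D := by
  classical
  refine ⟨hG, fun P => ?_⟩
  by_cases hP : C.Pt P
  · exact (h.2 P hP).ge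
  · rw [ord_of_not_pt hP]; exact le_top

/-- limits of linear equivalences: if `S + E_i ~ E'_i + E''_i` with `E_i` and `E'_i` tending to the same
divisor, then `E''_i` gets close to the nonspecial divisor `S` -/
lemma limit_NS {V : Set V3} (hV : Op C V) {S : DD} (hS : NS C S) (hSV : ∀ Q ∈ S, C.Pt Q ∧ Q.rep ∈ V) {n a nR : ℕ}
    (x : ℕ → Fin n → C.S) (y : ℕ → Fin n → C.S) (x₀ : Fin n → C.S)
    (hx : Tendsto x atTop (𝓝 x₀)) (hy : Tendsto y atTop (𝓝 x₀))
    (z : ℕ → Fin (Multiset.card S) → C.S) (w : ℕ → Fin nR → C.S) (A B : ℕ → P3)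
    (hA : ∀ i, (A i).IsHomogeneous a) (hB : ∀ i, (B i).IsHomogeneous a)
    (hFA : ∀ i, ¬ C.F ∣ A i) (hFB : ∀ i, ¬ C.F ∣ B i)
    (hAD : ∀ i, IsDiv C (A i) (S + dv (x i) + dv (w i)))
    (hBD : ∀ i, IsDiv C (B i) (dv (y i) + dv (z i) + dv (w i))) :
    ∃ i, ∀ Q ∈ dv (z i), Q.rep ∈ V := by
  classical
  by_contra hcon
  push Not at hcon
  obtain ⟨N, b, hb, hb2, hb3⟩ := exists_basis C a
  obtain ⟨s, hs⟩ := exists_dv S (fun Q hQ => (hSV Q hQ).1) rfl
  have hα : ∀ i, ∃ c : Fin N → ℂ, ‖c‖ = 1 ∧ IsDiv C (lc b c) (S + dv (x i) + dv (w i)) :=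
    fun i => exists_normal hb hb2 (hA i) (hFA i) (hAD i)
  have hβ : ∀ i, ∃ c : Fin N → ℂ, ‖c‖ = 1 ∧ IsDiv C (lc b c) (dv (y i) + dv (z i) + dv (w i)) :=
    fun i => exists_normal hb hb2 (hB i) (hFB i) (hBD i)
  choose α hα1 hα2 using hα
  choose β hβ1 hβ2 using hβ
  -- compactness
  let K : Set ((Fin N → ℂ) × (Fin N → ℂ) × (Fin (Multiset.card S) → C.S) × (Fin nR → C.S)) :=
    Metric.sphere 0 1 ×ˢ Metric.sphere 0 1 ×ˢ Set.univ ×ˢ Set.univ
  have hK : IsCompact K :=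
    (isCompact_sphere _ _).prod ((isCompact_sphere _ _).prod (isCompact_univ.prod isCompact_univ))
  obtain ⟨⟨α₀, β₀, z₀, w₀⟩, hmem, φ, hφ, hlim⟩ := hK.tendsto_subseq
    (x := fun i => (α i, β i, z i, w i)) (fun i => by simp [K, hα1, hβ1])
  have l1 : Tendsto (fun i => α (φ i)) atTop (𝓝 α₀) := (continuous_fst.tendsto _).comp hlim
  have l2 : Tendsto (fun i => β (φ i)) atTop (𝓝 β₀) :=
    ((continuous_fst.comp continuous_snd).tendsto _).comp hlim
  have l3 : Tendsto (fun i => z (φ i)) atTop (𝓝 z₀) :=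
    ((continuous_fst.comp (continuous_snd.comp continuous_snd)).tendsto _).comp hlim
  have l4 : Tendsto (fun i => w (φ i)) atTop (𝓝 w₀) :=
    ((continuous_snd.comp (continuous_snd.comp continuous_snd)).tendsto _).comp hlim
  have l5 : Tendsto (fun i => x (φ i)) atTop (𝓝 x₀) := hx.comp hφ.tendsto_atTop
  have l6 : Tendsto (fun i => y (φ i)) atTop (𝓝 x₀) := hy.comp hφ.tendsto_atTop
  have hα₀ : ‖α₀‖ = 1 := by simpa [K] using hmem.1
  have hβ₀ : ‖β₀‖ = 1 := by simpa [K] using hmem.2.1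
  -- limits of the divisors
  have hAlim : lc b α₀ ∈ C.W a (dv (Fin.append (Fin.append s x₀) w₀)) := by
    refine limit_W hb l1 (t := fun i => Fin.append (Fin.append s (x (φ i))) (w (φ i)))
      (tendsto_append (tendsto_append tendsto_const_nhds l5) l4) (fun i => ?_)
    rw [dv_append, dv_append, hs]
    exact mem_W_of_isDiv (lc_hom hb _) (hα2 (φ i))
  have hBlim : lc b β₀ ∈ C.W a (dv (Fin.append (Fin.append x₀ z₀) w₀)) := by
    refine limit_W hb l2 (t := fun i => Fin.append (Fin.append (y (φ i)) (z (φ i))) (w (φ i)))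
      (tendsto_append (tendsto_append l6 l3) l4) (fun i => ?_)
    rw [dv_append, dv_append]
    exact mem_W_of_isDiv (lc_hom hb _) (hβ2 (φ i))
  have hFA₀ : ¬ C.F ∣ lc b α₀ := by
    intro h
    rw [hb3 _ h, norm_zero] at hα₀
    exact zero_ne_one hα₀
  have hFB₀ : ¬ C.F ∣ lc b β₀ := by
    intro h
    rw [hb3 _ h, norm_zero] at hβ₀
    exact zero_ne_one hβ₀
  have hcard : Multiset.card S + n + nR = C.deg * a := by
    have := (hAD 0).card (hA 0) (hFA 0)
    rwa [Multiset.card_add, Multiset.card_add, card_dv, card_dv] at this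
  have hA₀ := isDiv_of_card (pt_dv _) hAlim hFA₀ (by rw [card_dv, hcard])
  have hB₀ := isDiv_of_card (pt_dv _) hBlim hFB₀ (by rw [card_dv]; omega)
  rw [dv_append, dv_append, hs] at hA₀
  rw [dv_append, dv_append] at hB₀
  -- nonspeciality
  obtain ⟨c, hc⟩ := hS a _ _ (lc_hom hb α₀) (lc_hom hb β₀) hFA₀ (by
    intro P
    by_cases hP : C.Pt P
    · rw [hA₀.2 P hP, hB₀.2 P hP]
      simp only [Multiset.count_add]
      push_cast
      have : ((S.count P : ℕ∞) + (dv x₀).count P + (dv w₀).count P) ≤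
          (S.count P : ℕ∞) + (dv x₀).count P + (dv w₀).count P + (dv z₀).count P := le_self_add
      refine this.trans (le_of_eq ?_)
      ring
    · rw [ord_of_not_pt hP, ord_of_not_pt hP, top_add])
  have hc0 : c ≠ 0 := by
    rintro rfl
    rw [zero_smul, sub_zero] at hc
    exact hFB₀ hc
  have hdv : dv x₀ + dv z₀ + dv w₀ = S + dv x₀ + dv w₀ :=
    (hB₀.congr hc).unique (hA₀.smul hc0)
  have hzS : dv z₀ = S := by
    have h1 : dv x₀ + dv w₀ + dv z₀ = dv x₀ + dv w₀ + S := by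
      calc dv x₀ + dv w₀ + dv z₀ = dv x₀ + dv z₀ + dv w₀ := by abel
        _ = S + dv x₀ + dv w₀ := hdv
        _ = _ := by abel
    exact add_left_cancel h1
  -- conclusion
  have hzV : ∀ j, (z₀ j : V3) ∈ V := by
    intro j
    rw [← hV.pr_mem]
    apply (hSV _ _).2
    rw [← hzS, mem_dv]
    exact ⟨j, rfl⟩
  have hev : ∀ᶠ i in atTop, ∀ j, (z (φ i) j : V3) ∈ V := by
    rw [eventually_all]
    intro j
    have h1 : Tendsto (fun i => (z (φ i) j : V3)) atTop (𝓝 (z₀ j : V3)) :=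
      (continuous_subtype_val.tendsto _).comp ((tendsto_pi_nhds.1 l3) j)
    filter_upwards [h1.eventually (hV.op _ (hzV j))] with i hi
    exact hi (z (φ i) j).2.2
  obtain ⟨i, hi⟩ := hev.exists
  obtain ⟨Q, hQ, hQV⟩ := hcon (φ i)
  obtain ⟨j, hj⟩ := (mem_dv _ _).1 hQ
  apply hQV
  rw [← hj, hV.pr_mem]
  exact hi j

end Curve

end Pool.Agent.H877.TP
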