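import Pool.Agent.H877.TP.Rec2

set_option autoImplicit false

namespace Pool.Agent.H877.TP
open MvPolynomial Filter Topology

namespace Curve
variable {C : Curve}

/-- zeros of a form belong to its divisor -/
lemma zeros_in {V : Set V3} (hV : Op C V) {K : P3} {k : ℕ} (hK : K.IsHomogeneous k) {D : DD}
    (hD : IsDiv C K D) (hDV : ∀ Q ∈ D, Q.rep ∈ V) {p : V3} (hp : C.On p) (h0 : eval p K = 0) : p ∈ V := by
  classical
  obtain ⟨a, ha⟩ := Projectivization.exists_smul_eq_mk_rep ℂ p hp.1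
  have hpt : C.Pt (Projectivization.mk ℂ p hp.1) := (pt_mk hp.1).2 hp.2
  have h1 : eval (Projectivization.mk ℂ p hp.1).rep K = 0 := by
    rw [← ha]
    change eval ((a : ℂ) • p) K = 0
    rw [eval_smul_vec _ _ hK, h0, mul_zero]
  have h2 : C.ord (Projectivization.mk ℂ p hp.1) K ≠ 0 := by
    intro h
    exact (ord_pos_iff hpt K).1 h h1
  rw [hD.2 _ hpt] at h2
  have h3 : Projectivization.mk ℂ p hp.1 ∈ D := by
    rw [← Multiset.count_pos]
    exact Nat.pos_of_ne_zero (by exact_mod_cast h2)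
  exact (hV.rep_mem hp.1).1 (hDV _ h3)

lemma nsmul_pt {S : DD} (hS : ∀ Q ∈ S, C.Pt Q) (n : ℕ) : ∀ Q ∈ n • S, C.Pt Q :=
  fun Q hQ => hS Q (Multiset.mem_of_mem_nsmul hQ)

lemma step_one {S : DD} (hS : ∀ Q ∈ S, C.Pt Q) (hcard : Multiset.card S = C.g) (hg : 1 ≤ C.g) {k : ℕ}
    (hk : C.deg ≤ k) : ∃ (K : P3) (t : Fin C.g → C.S), K.IsHomogeneous (k * C.g) ∧ ¬ C.F ∣ K ∧
      IsDiv C K ((k * C.deg - 1) • S + dv t) := by
  have hdp := C.pos
  have h1 : 1 ≤ k * C.deg := Nat.mul_pos (by omega) hdp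
  obtain ⟨K, hK, hFK⟩ := exists_W (C := C) (e := k * C.g) (hk.trans (Nat.le_mul_of_pos_right _ hg))
    (D := (k * C.deg - 1) • S) (by
      rw [Multiset.card_nsmul, hcard]
      obtain ⟨m, hm⟩ := Nat.exists_eq_add_of_le h1
      rw [show k * C.deg - 1 = m by omega]
      have : C.deg * (k * C.g) = (k * C.deg) * C.g := by ring
      rw [this, hm]
      apply le_of_eq; ring)
  obtain ⟨E, hE, hEpt, hEcard⟩ := isDiv_of_mem (nsmul_pt hS _) hK hFK
  have hEg : Multiset.card E = C.g := by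
    rw [Multiset.card_nsmul, hcard] at hEcard
    obtain ⟨m, hm⟩ := Nat.exists_eq_add_of_le h1
    rw [show k * C.deg - 1 = m by omega] at hEcard
    have : C.deg * (k * C.g) = (k * C.deg) * C.g := by ring
    rw [this, hm] at hEcard
    have h2 : (1 + m) * C.g = C.g + m * C.g := by ring
    omega
  obtain ⟨t, ht⟩ := exists_dv E hEpt hEg
  exact ⟨K, t, hK.1, hFK, by rw [ht]; exact hE⟩

lemma step_two {S : DD} (hS : ∀ Q ∈ S, C.Pt Q) (hcard : Multiset.card S = C.g) (hg : 1 ≤ C.g) {a : ℕ}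
    (ha : C.deg ≤ a) (ha3 : 3 * C.g ≤ C.deg * a) {k l : ℕ}
    (hk : C.deg ≤ k) (hkl : k < l) {K L : P3} {t u : Fin C.g → C.S}
    (hK : K.IsHomogeneous (k * C.g)) (hFK : ¬ C.F ∣ K) (hKD : IsDiv C K ((k * C.deg - 1) • S + dv t))
    (hL : L.IsHomogeneous (l * C.g)) (hFL : ¬ C.F ∣ L) (hLD : IsDiv C L ((l * C.deg - 1) • S + dv u)) :
    ∃ (M A B : P3) (z : Fin (Multiset.card S) → C.S) (w : Fin (C.deg * a - 2 * C.g) → C.S) (e n : ℕ),
      1 ≤ e ∧ M.IsHomogeneous e ∧ ¬ C.F ∣ M ∧ IsDiv C M (n • S + dv z) ∧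
      A.IsHomogeneous a ∧ B.IsHomogeneous a ∧ ¬ C.F ∣ A ∧ ¬ C.F ∣ B ∧
      IsDiv C A (S + dv u + dv w) ∧ IsDiv C B (dv t + dv z + dv w) := by
  have hdp := C.pos
  have hk1 : 1 ≤ k * C.deg := Nat.mul_pos (by omega) hdp
  obtain ⟨m, hm⟩ := Nat.exists_eq_add_of_le hk1
  obtain ⟨j, rfl⟩ := Nat.exists_eq_add_of_lt hkl
  have hj1 : 1 ≤ (j + 1) * C.deg := Nat.one_le_iff_ne_zero.2 (by positivity)
  obtain ⟨q, hq⟩ := Nat.exists_eq_add_of_le hj1
  have hl : (k + j + 1) * C.deg = 2 + (m + q) := by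
    have : (k + j + 1) * C.deg = k * C.deg + (j + 1) * C.deg := by ring
    rw [this, hm, hq]; ring
  have hldg : C.deg * ((k + j + 1) * C.g) = (2 + (m + q)) * C.g := by rw [← hl]; ring
  rw [show (k + j + 1) * C.deg - 1 = 1 + (m + q) by omega] at hLD
  rw [show k * C.deg - 1 = m by omega] at hKD
  have hDpt : ∀ Q ∈ (m + q) • S + dv t, C.Pt Q := by
    intro Q hQ
    rcases Multiset.mem_add.1 hQ with h | h
    · exact nsmul_pt hS _ Q h
    · exact pt_dv _ Q h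
  have hDcard : Multiset.card ((m + q) • S + dv t) = (m + q) * C.g + C.g := by
    rw [Multiset.card_add, Multiset.card_nsmul, hcard, card_dv]
  have hle : C.deg ≤ (k + j + 1) * C.g := by
    refine le_trans ?_ (Nat.le_mul_of_pos_right _ hg); omega
  obtain ⟨T, hT, hFT⟩ := exists_W (C := C) (e := (k + j + 1) * C.g) hle (D := (m + q) • S + dv t) (by
    rw [hDcard, hldg]
    apply le_of_eq; ring)
  obtain ⟨E, hE, hEpt, hEcard⟩ := isDiv_of_mem hDpt hT hFT
  have hEg : Multiset.card E = Multiset.card S := by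
    rw [hDcard, hldg] at hEcard
    rw [hcard]
    have h2 : (2 + (m + q)) * C.g = C.g + C.g + (m + q) * C.g := by ring
    omega
  obtain ⟨z, hz⟩ := exists_dv E hEpt hEg
  -- the quotient
  have e1 : (m + q) • S + dv t + E = (m • S + dv t) + (q • S + dv z) := by
    rw [hz, add_nsmul]; abel
  have hE' := hE
  rw [e1] at hE'
  obtain ⟨hkl', M, hM, -, hFM, hMD⟩ := IsDiv.divide hK hT.1 hFK hFT hKD hE'
  -- auxiliary form
  have hSupt : ∀ Q ∈ S + dv u, C.Pt Q := by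
    intro Q hQ
    rcases Multiset.mem_add.1 hQ with h | h
    · exact hS Q h
    · exact pt_dv _ Q h
  have hSucard : Multiset.card (S + dv u) = C.g + C.g := by
    rw [Multiset.card_add, hcard, card_dv]
  obtain ⟨A, hA, hFA⟩ := exists_W (C := C) (e := a) ha (D := S + dv u) (by rw [hSucard]; omega)
  obtain ⟨R, hR, hRpt, hRcard⟩ := isDiv_of_mem hSupt hA hFA
  obtain ⟨w, hw⟩ := exists_dv R hRpt (n := C.deg * a - 2 * C.g) (by rw [hSucard] at hRcard; omega)
  -- the second form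
  have hTA := hE.mul hR
  have e2 : (m + q) • S + dv t + E + (S + dv u + R) =
      ((1 + (m + q)) • S + dv u) + (dv t + dv z + dv w) := by
    rw [hz, hw, add_nsmul S 1, one_nsmul]; abel
  rw [e2] at hTA
  have hFTA : ¬ C.F ∣ T * A := by
    intro h
    rcases C.prime.dvd_or_dvd h with h | h
    · exact hFT h
    · exact hFA h
  obtain ⟨-, B, hB, -, hFB, hBD⟩ := IsDiv.divide hL (hT.1.mul hA.1) hFL hFTA hLD hTA
  rw [show (k + j + 1) * C.g + a - (k + j + 1) * C.g = a by omega] at hB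
  refine ⟨M, A, B, z, w, _, q, ?_, hM, hFM, hMD, hA.1, hB, hFA, hFB, ?_, hBD⟩
  · have : (k + j + 1) * C.g = k * C.g + (j + 1) * C.g := by ring
    rw [this, Nat.add_sub_cancel_left]
    exact Nat.one_le_iff_ne_zero.2 (by positivity)
  · rw [hw]; exact hR

/-- **Theorem A**: any nonempty open subset of the curve contains all the zeros on the curve of some form -/
theorem exists_form_in {V : Set V3} (hV : Op C V) (hne : V.Nonempty) :
    ∃ (e : ℕ) (K : P3), 1 ≤ e ∧ K.IsHomogeneous e ∧ ¬ C.F ∣ K ∧ ∀ p, C.On p → eval p K = 0 → p ∈ V := by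
  classical
  have hdp := C.pos
  rcases Nat.eq_zero_or_pos C.g with hg | hg
  · -- genus zero
    obtain ⟨D, hDn, hDcard, hD⟩ := hV.many hne (C.deg * C.deg)
    obtain ⟨K, hK, hFK⟩ := exists_W (C := C) (e := C.deg) le_rfl (D := D) (by omega)
    have hKD := isDiv_of_card (fun Q hQ => (hD Q hQ).1) hK hFK hDcard
    exact ⟨C.deg, K, C.pos, hK.1, hFK, fun p hp h0 => zeros_in hV hK.1 hKD (fun Q hQ => (hD Q hQ).2) hp h0⟩
  · obtain ⟨D, hDn, hDcard, hD⟩ := hV.many hne (C.deg * C.deg + C.g)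
    obtain ⟨S, hSD, hScard, hNS⟩ := exists_NS D hDn (fun Q hQ => (hD Q hQ).1) hDcard
    have hS : ∀ Q ∈ S, C.Pt Q ∧ Q.rep ∈ V := fun Q hQ => hD Q (Multiset.mem_of_le hSD hQ)
    have hSpt : ∀ Q ∈ S, C.Pt Q := fun Q hQ => (hS Q hQ).1
    have h1 : ∀ i : ℕ, ∃ (K : P3) (t : Fin C.g → C.S), K.IsHomogeneous ((C.deg + i) * C.g) ∧ ¬ C.F ∣ K ∧
        IsDiv C K (((C.deg + i) * C.deg - 1) • S + dv t) :=
      fun i => step_one hSpt hScard hg (by omega)
    choose K t hK hFK hKD using h1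
    obtain ⟨t₀, -, φ, hφ, hlim⟩ := isCompact_univ.tendsto_subseq (x := t) (fun i => Set.mem_univ _)
    obtain ⟨a, ha, ha3⟩ : ∃ a, C.deg ≤ a ∧ 3 * C.g ≤ C.deg * a :=
      ⟨C.deg + 3 * C.g, by omega, by nlinarith⟩
    have h2 : ∀ i : ℕ, ∃ (M A B : P3) (z : Fin (Multiset.card S) → C.S)
        (w : Fin (C.deg * a - 2 * C.g) → C.S) (e n : ℕ),
        1 ≤ e ∧ M.IsHomogeneous e ∧ ¬ C.F ∣ M ∧ IsDiv C M (n • S + dv z) ∧
        A.IsHomogeneous a ∧ B.IsHomogeneous a ∧ ¬ C.F ∣ A ∧ ¬ C.F ∣ B ∧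
        IsDiv C A (S + dv (t (φ (i + 1))) + dv w) ∧ IsDiv C B (dv (t (φ i)) + dv z + dv w) := by
      intro i
      have hlt : φ i < φ (i + 1) := hφ (Nat.lt_succ_self i)
      exact step_two hSpt hScard hg ha ha3 (k := C.deg + φ i) (l := C.deg + φ (i + 1)) (by omega) (by omega)
        (hK _) (hFK _) (hKD _) (hK _) (hFK _) (hKD _)
    choose M A B z w e n he hM hFM hMD hA hB hFA hFB hAD hBD using h2
    obtain ⟨i, hi⟩ := limit_NS hV hNS hS (fun i => t (φ (i + 1))) (fun i => t (φ i)) t₀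
      (hlim.comp (tendsto_add_atTop_nat 1)) hlim z w A B hA hB hFA hFB hAD hBD
    refine ⟨e i, M i, he i, hM i, hFM i, fun p hp h0 => zeros_in hV (hM i) (hMD i) ?_ hp h0⟩
    intro Q hQ
    rcases Multiset.mem_add.1 hQ with h | h
    · exact (hS Q (Multiset.mem_of_mem_nsmul h)).2
    · exact hi Q h

end Curve

end Pool.Agent.H877.TP
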