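import Pool.Agent.H877.TP.Rec3

set_option autoImplicit false

namespace Pool.Agent.H877.TP
open MvPolynomial Filter Topology

namespace Curve
variable {C : Curve}

/-- the quotient of two forms -/
noncomputable def qt (K K' : P3) (x : V3) : ℂ := eval x K / eval x K'

lemma qt_smul {e : ℕ} {K K' : P3} (hK : K.IsHomogeneous e) (hK' : K'.IsHomogeneous e) {c : ℂ} (hc : c ≠ 0)
    (x : V3) : qt K K' (c • x) = qt K K' x := by
  unfold qt
  rw [eval_smul_vec _ _ hK, eval_smul_vec _ _ hK', mul_div_mul_left _ _ (pow_ne_zero _ hc)]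

/-- open mapping lemma -/
lemma open_map {V : Set V3} (hV : Op C V) {e : ℕ} {K K' : P3} (hK : K.IsHomogeneous e)
    (hK' : K'.IsHomogeneous e) (hnc : ¬ ∃ c : ℂ, C.F ∣ K - c • K') {p : V3} (hp : p ∈ V)
    (hp' : eval p K' ≠ 0) (φ : ℂ → ℝ) (hφ : ∀ z, ∀ U ∈ 𝓝 z, ∃ z' ∈ U, φ z < φ z') :
    ∃ q ∈ V, eval q K' ≠ 0 ∧ φ (qt K K' p) < φ (qt K K' q) := by
  let ch := C.chart (hV.on p hp)
  have hpar : IsParam C.F ch.γ 0 := ch.isParam (Metric.mem_ball_self ch.r_pos)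
  have hc : Tendsto ch.γ (𝓝 0) (𝓝 p) := by
    have := hpar.an.continuousAt.tendsto
    rwa [ch.base] at this
  have hKa : AnalyticAt ℂ (fun t => eval (ch.γ t) K) 0 := an_eval hpar.an K
  have hKa' : AnalyticAt ℂ (fun t => eval (ch.γ t) K') 0 := an_eval hpar.an K'
  have hne0 : eval (ch.γ 0) K' ≠ 0 := by rw [ch.base]; exact hp'
  have hf : AnalyticAt ℂ (fun t => qt K K' (ch.γ t)) 0 := hKa.div hKa' hne0
  have hev' : ∀ᶠ t in 𝓝 (0 : ℂ), eval (ch.γ t) K' ≠ 0 := hKa'.continuousAt.eventually_ne hne0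
  rcases hf.eventually_constant_or_nhds_le_map_nhds with h | h
  · exfalso
    apply hnc
    refine ⟨qt K K' (ch.γ 0), ?_⟩
    by_contra hnd
    have hhom : (K - qt K K' (ch.γ 0) • K').IsHomogeneous e :=
      hK.sub ((homogeneousSubmodule (Fin 3) ℂ e).smul_mem _ hK')
    have hpt : C.Pt (Projectivization.mk ℂ (ch.γ 0) hpar.ne) := (pt_mk _).2 hpar.zer.self_of_nhds
    apply ord_ne_top hhom hnd hpt
    rw [ord_param hpar hhom]
    unfold po
    rw [analyticOrderAt_eq_top]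
    filter_upwards [h, hev'] with t ht ht'
    rw [map_sub, smul_eq_C_mul, map_mul, eval_C, ← ht]
    unfold qt
    rw [div_mul_cancel₀ _ ht', sub_self]
  · have hset : {t : ℂ | ch.γ t ∈ V ∧ eval (ch.γ t) K' ≠ 0} ∈ 𝓝 (0 : ℂ) := by
      filter_upwards [Metric.ball_mem_nhds (0 : ℂ) ch.r_pos, hc.eventually (hV.op p hp), hev'] with t h1 h2 h3
      exact ⟨h2 (ch.zer t h1), h3⟩
    have himg := h (Filter.image_mem_map hset)
    obtain ⟨z', ⟨t, ht, rfl⟩, hz'⟩ := hφ _ _ himg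
    refine ⟨ch.γ t, ht.1, ht.2, ?_⟩
    simp only at hz'
    rw [ch.base] at hz'
    exact hz'

/-- maximum principle -/
lemma max_principle {W W' : Set V3} (hW : Op C W) (hW' : Op C W') (hdis : ∀ p ∈ W, p ∉ W') {e : ℕ}
    {K K' : P3} (hK : K.IsHomogeneous e)
    (hK' : K'.IsHomogeneous e) (hnc : ¬ ∃ c : ℂ, C.F ∣ K - c • K')
    (hz : ∀ p, C.On p → p ∉ W' → eval p K' ≠ 0) (φ : ℂ → ℝ) (hφc : Continuous φ)
    (hφ : ∀ z, ∀ U ∈ 𝓝 z, ∃ z' ∈ U, φ z < φ z') {M : ℝ}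
    (hM : ∀ p, C.On p → p ∉ W → p ∉ W' → φ (qt K K' p) ≤ M) :
    ∀ p ∈ W, φ (qt K K' p) < M := by
  intro p hp
  let Z : Set C.S := {v | (v : V3) ∉ W'}
  have hZc : IsClosed Z := by
    rw [← isOpen_compl_iff]
    rw [isOpen_iff_mem_nhds]
    intro v hv
    have hv' : (v : V3) ∈ W' := by simpa [Z] using hv
    have h1 := (continuous_subtype_val.tendsto v).eventually (hW'.op _ hv')
    filter_upwards [h1] with u hu
    simpa [Z] using hu u.2.2
  have hZ : IsCompact Z := hZc.isCompact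
  have hf : ContinuousOn (fun v : C.S => φ (qt K K' (v : V3))) Z := by
    apply hφc.comp_continuousOn
    unfold qt
    apply ContinuousOn.div
    · exact ((continuous_eval K).comp continuous_subtype_val).continuousOn
    · exact ((continuous_eval K').comp continuous_subtype_val).continuousOn
    · intro v hv
      exact hz _ ⟨S_ne v, v.2.2⟩ hv
  -- normalisation
  have key : ∀ q, C.On q → q ∉ W' → ∃ v ∈ Z, ∃ c : ℂ, c ≠ 0 ∧ (v : V3) = c • q := by
    intro q hq hqW'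
    have hn : ‖q‖ ≠ 0 := norm_ne_zero_iff.2 hq.1
    have hc : ((‖q‖ : ℂ))⁻¹ ≠ 0 := inv_ne_zero (by exact_mod_cast hn)
    refine ⟨⟨((‖q‖ : ℂ))⁻¹ • q, ?_, ?_⟩, ?_, _, hc, rfl⟩
    · rw [norm_smul, norm_inv, Complex.norm_real, norm_norm, inv_mul_cancel₀ hn]
    · rw [eval_smul_vec _ _ C.hom, hq.2, mul_zero]
    · intro h
      apply hqW'
      have := hW'.smul _ h _ (inv_ne_zero hc)
      simp only [smul_smul, inv_mul_cancel₀ hc, one_smul] at this
      exact this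
  obtain ⟨v₀, hv₀, -⟩ := key p (hW.on p hp) (hdis p hp)
  obtain ⟨v, hv, hmax⟩ := hZ.exists_isMaxOn ⟨v₀, hv₀⟩ hf
  have hmax' : ∀ q, C.On q → q ∉ W' → φ (qt K K' q) ≤ φ (qt K K' (v : V3)) := by
    intro q hq hqW'
    obtain ⟨u, hu, c, hc, huc⟩ := key q hq hqW'
    have h1 := hmax hu
    have h1 : φ (qt K K' (u : V3)) ≤ φ (qt K K' (v : V3)) := h1
    rw [huc, qt_smul hK hK' hc] at h1
    exact h1
  have hnot : ∀ q ∈ W, φ (qt K K' q) < φ (qt K K' (v : V3)) := by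
    intro q hq
    obtain ⟨q', hq', -, hlt⟩ := open_map hW hK hK' hnc hq (hz q (hW.on q hq) (hdis q hq)) φ hφ
    exact hlt.trans_le (hmax' q' (hW.on q' hq') (hdis q' hq'))
  have hvW : (v : V3) ∉ W := fun h => lt_irrefl _ (hnot _ h)
  exact (hnot p hp).trans_le (hM _ ⟨S_ne v, v.2.2⟩ hvW hv)

/-- nonproportionality -/
lemma not_prop {K K' : P3} (hFK : ¬ C.F ∣ K) {x : V3} (hx : C.On x) (h0 : eval x K = 0)
    (h1 : eval x K' ≠ 0) : ¬ ∃ c : ℂ, C.F ∣ K - c • K' := by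
  rintro ⟨c, Q, hQ⟩
  have h2 := congrArg (eval x) hQ
  rw [map_sub, smul_eq_C_mul, map_mul, eval_C, h0, map_mul, hx.2, zero_mul, zero_sub, neg_eq_zero] at h2
  have hc : c = 0 := (mul_eq_zero.1 h2).resolve_right h1
  apply hFK
  rw [hc, zero_smul, sub_zero] at hQ
  exact ⟨Q, hQ⟩

/-- forms of positive degree have zeros on the curve -/
lemma exists_zero {e : ℕ} (he : 1 ≤ e) {K : P3} (hK : K.IsHomogeneous e) (hFK : ¬ C.F ∣ K) :
    ∃ x, C.On x ∧ eval x K = 0 := by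
  classical
  obtain ⟨D, hD, hcard⟩ := exists_isDiv (C := C) hK hFK
  have h1 : 0 < Multiset.card D := by rw [hcard]; exact Nat.mul_pos C.pos he
  obtain ⟨Q, hQ⟩ := Multiset.card_pos_iff_exists_mem.1 h1
  refine ⟨Q.rep, hD.1 Q hQ, ?_⟩
  by_contra hne
  have h2 := (ord_pos_iff (hD.1 Q hQ) K).2 hne
  rw [hD.2 Q (hD.1 Q hQ)] at h2
  have h3 := Multiset.count_pos.2 hQ
  have : Multiset.count Q D = 0 := by exact_mod_cast h2
  omega

end Curve

end Pool.Agent.H877.TP
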