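import Pool.Agent.H877.TP.Top1

set_option autoImplicit false

namespace Pool.Agent.H877.TP
open MvPolynomial Filter Topology

/-- complex conjugation on vectors -/
def cj (x : V3) : V3 := fun i => star (x i)

lemma cj_cj (x : V3) : cj (cj x) = x := by ext i; simp [cj]

lemma continuous_cj : Continuous cj := continuous_pi fun i => continuous_star.comp (continuous_apply i)

lemma cj_ne {x : V3} (h : x ≠ 0) : cj x ≠ 0 := by
  intro h0
  apply h
  rw [← cj_cj x, h0]
  ext i; simp [cj]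

lemma cj_smul (c : ℂ) (x : V3) : cj (c • x) = star c • cj x := by
  ext i; simp [cj]

/-- the conjugate form -/
noncomputable def bar (G : P3) : P3 := MvPolynomial.map (starRingEnd ℂ) G

lemma eval_bar (G : P3) (x : V3) : eval (cj x) (bar G) = star (eval x G) := by
  unfold bar cj
  induction G using MvPolynomial.induction_on with
  | C a => simp
  | add p q hp hq => simp only [map_add, hp, hq, star_add]
  | mul_X p i hp => simp only [map_mul, hp, star_mul', map_X, eval_X]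

lemma eval_bar' (G : P3) (x : V3) : eval x (bar G) = star (eval (cj x) G) := by
  rw [← eval_bar, cj_cj]

lemma bar_hom {G : P3} {e : ℕ} (h : G.IsHomogeneous e) : (bar G).IsHomogeneous e := h.map _

lemma bar_bar (G : P3) : bar (bar G) = G := by
  unfold bar
  rw [MvPolynomial.map_map]
  have : (starRingEnd ℂ).comp (starRingEnd ℂ) = RingHom.id ℂ := by
    ext z; simp
  rw [this, MvPolynomial.map_id]

lemma bar_mul (G H : P3) : bar (G * H) = bar G * bar H := by
  unfold bar; rw [map_mul]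

lemma bar_pow (G : P3) (n : ℕ) : bar (G ^ n) = bar G ^ n := by
  unfold bar; rw [map_pow]

/-- real points of the projective plane (on vectors) -/
def Rl (x : V3) : Prop := ∀ i j, x i * star (x j) = star (x i) * x j

lemma isClosed_Rl : IsClosed {x : V3 | Rl x} := by
  have : {x : V3 | Rl x} = ⋂ i, ⋂ j, {x : V3 | x i * star (x j) = star (x i) * x j} := by
    ext x; simp [Rl]
  rw [this]
  refine isClosed_iInter fun i => isClosed_iInter fun j => isClosed_eq ?_ ?_
  · fun_prop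
  · fun_prop

lemma Rl.smul {x : V3} (h : Rl x) (c : ℂ) : Rl (c • x) := by
  intro i j
  simp only [Pi.smul_apply, smul_eq_mul, star_mul']
  have := h i j
  linear_combination c * star c * this

lemma Rl_smul {x : V3} {c : ℂ} (hc : c ≠ 0) : Rl (c • x) ↔ Rl x := by
  refine ⟨fun h => ?_, fun h => h.smul c⟩
  have := h.smul c⁻¹
  rwa [smul_smul, inv_mul_cancel₀ hc, one_smul] at this

lemma Rl_cj {x : V3} : Rl (cj x) ↔ Rl x := by
  unfold Rl cj
  simp only [star_star]
  constructor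
  · intro h i j; exact (h i j).symm
  · intro h i j; exact (h i j).symm

lemma Rl.exists_unit {x : V3} (h : Rl x) (hx : x ≠ 0) : ∃ μ : ℂ, ‖μ‖ = 1 ∧ cj x = μ • x := by
  obtain ⟨j, hj⟩ := exists_ne_of_ne_zero hx
  refine ⟨star (x j) / x j, ?_, ?_⟩
  · rw [norm_div, norm_star, div_self (norm_ne_zero_iff.2 hj)]
  · ext i
    simp only [cj, Pi.smul_apply, smul_eq_mul]
    rw [div_mul_eq_mul_div, eq_div_iff hj]
    have := h i j
    linear_combination -this

lemma Rl_iff {x : V3} (hx : x ≠ 0) : Rl x ↔ ∃ c : ℂ, c ≠ 0 ∧ ∀ i, (c * x i).im = 0 := by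
  constructor
  · intro h
    obtain ⟨j, hj⟩ := exists_ne_of_ne_zero hx
    refine ⟨star (x j), star_ne_zero.2 hj, fun i => ?_⟩
    rw [← Complex.conj_eq_iff_im]
    have := h i j
    rw [map_mul]
    simp only [Complex.star_def, Complex.conj_conj] at this ⊢
    linear_combination -this
  · rintro ⟨c, hc, h⟩ i j
    have hi := Complex.conj_eq_iff_im.2 (h i)
    have hj := Complex.conj_eq_iff_im.2 (h j)
    rw [map_mul] at hi hj
    simp only [Complex.star_def]
    have hc' : (starRingEnd ℂ) c ≠ 0 := by simpa using hc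
    have h1 : c * (starRingEnd ℂ) c * (x i * (starRingEnd ℂ) (x j)) =
        c * (starRingEnd ℂ) c * ((starRingEnd ℂ) (x i) * x j) := by
      calc c * (starRingEnd ℂ) c * (x i * (starRingEnd ℂ) (x j)) =
          (c * x i) * ((starRingEnd ℂ) c * (starRingEnd ℂ) (x j)) := by ring
        _ = ((starRingEnd ℂ) c * (starRingEnd ℂ) (x i)) * (c * x j) := by rw [hi, hj]
        _ = _ := by ring
    exact mul_left_cancel₀ (mul_ne_zero hc hc') h1

namespace Curve
variable {C : Curve}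

/-- real curves -/
def Real (C : Curve) : Prop := bar C.F = C.F

lemma On.cj (hC : C.Real) {x : V3} (h : C.On x) : C.On (cj x) :=
  ⟨cj_ne h.1, by rw [← hC, eval_bar, h.2, star_zero]⟩

lemma On_cj (hC : C.Real) {x : V3} : C.On (TP.cj x) ↔ C.On x :=
  ⟨fun h => by simpa [cj_cj] using h.cj hC, fun h => h.cj hC⟩

lemma dvd_bar (hC : C.Real) {K : P3} : C.F ∣ bar K ↔ C.F ∣ K := by
  constructor
  · rintro ⟨Q, hQ⟩
    refine ⟨bar Q, ?_⟩
    rw [← bar_bar K, hQ, bar_mul, hC]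
  · rintro ⟨Q, hQ⟩
    refine ⟨bar Q, ?_⟩
    rw [hQ, bar_mul, hC]

lemma Op.cj (hC : C.Real) {V : Set V3} (hV : Op C V) : Op C {x | TP.cj x ∈ V} where
  on p hp := (On_cj hC).1 (hV.on _ hp)
  smul p hp c hc := by
    change TP.cj (c • p) ∈ V
    rw [cj_smul]
    exact hV.smul _ hp _ (star_ne_zero.2 hc)
  op p hp := by
    have h1 := (continuous_cj.tendsto p).eventually (hV.op _ hp)
    filter_upwards [h1] with q hq hq0
    refine hq ?_
    rw [← hC, eval_bar, hq0, star_zero]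

lemma Op.inter {V W : Set V3} (hV : Op C V) (hW : Op C W) : Op C (V ∩ W) where
  on p hp := hV.on p hp.1
  smul p hp c hc := ⟨hV.smul p hp.1 c hc, hW.smul p hp.2 c hc⟩
  op p hp := by
    filter_upwards [hV.op p hp.1, hW.op p hp.2] with q h1 h2 h0
    exact ⟨h1 h0, h2 h0⟩

lemma Op.union {V W : Set V3} (hV : Op C V) (hW : Op C W) : Op C (V ∪ W) where
  on p hp := hp.elim (hV.on p) (hW.on p)
  smul p hp c hc := hp.imp (fun h => hV.smul p h c hc) (fun h => hW.smul p h c hc)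
  op p hp := by
    rcases hp with hp | hp
    · filter_upwards [hV.op p hp] with q h1 h0
      exact Or.inl (h1 h0)
    · filter_upwards [hW.op p hp] with q h1 h0
      exact Or.inr (h1 h0)

/-- a separation of the set of nonreal points -/
structure Sep (C : Curve) (A B : Set V3) : Prop where
  real : C.Real
  opA : Op C A
  opB : Op C B
  neA : A.Nonempty
  neB : B.Nonempty
  dis : ∀ p ∈ A, p ∉ B
  nr : ∀ p, p ∈ A ∨ p ∈ B ↔ C.On p ∧ ¬ Rl p

lemma norm_cj_eq {x : V3} (h : Rl x) (hx : x ≠ 0) {K : P3} {e : ℕ} (hK : K.IsHomogeneous e) :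
    ‖eval x (bar K)‖ = ‖eval x K‖ := by
  obtain ⟨μ, hμ, hcj⟩ := h.exists_unit hx
  rw [eval_bar', hcj, eval_smul_vec _ _ hK, norm_star, norm_mul, norm_pow, hμ, one_pow, one_mul]

/-- real forms take real ratios at real points -/
lemma im_qt {x : V3} (h : Rl x) (hx : x ≠ 0) {K K' : P3} {e : ℕ} (hK : K.IsHomogeneous e)
    (hK' : K'.IsHomogeneous e) (hr : bar K = K) (hr' : bar K' = K') : (qt K K' x).im = 0 := by
  obtain ⟨μ, hμ, hcj⟩ := h.exists_unit hx
  have hμ0 : μ ≠ 0 := by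
    rintro rfl
    rw [norm_zero] at hμ
    exact zero_ne_one hμ
  rw [← Complex.conj_eq_iff_im]
  have e1 : ∀ G : P3, G.IsHomogeneous e → bar G = G → (starRingEnd ℂ) (eval x G) = μ ^ e * eval x G := by
    intro G hG hbG
    have := eval_bar G x
    rw [hbG, hcj, eval_smul_vec _ _ hG] at this
    exact this.symm
  unfold qt
  rw [map_div₀, e1 K hK hr, e1 K' hK' hr', mul_div_mul_left _ _ (pow_ne_zero _ hμ0)]

lemma im_open (z : ℂ) (U : Set ℂ) (hU : U ∈ 𝓝 z) : ∃ z' ∈ U, z.im < z'.im := by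
  obtain ⟨ε, hε, hb⟩ := Metric.mem_nhds_iff.1 hU
  refine ⟨z + ((ε / 2 : ℝ) : ℂ) * Complex.I, hb ?_, ?_⟩
  · rw [Metric.mem_ball, dist_eq_norm, add_sub_cancel_left, norm_mul, Complex.norm_I, mul_one,
      Complex.norm_real, Real.norm_eq_abs, abs_of_pos (half_pos hε)]
    exact half_lt_self hε
  · simp [hε]

lemma im_open' (z : ℂ) (U : Set ℂ) (hU : U ∈ 𝓝 z) : ∃ z' ∈ U, -z.im < -z'.im := by
  obtain ⟨ε, hε, hb⟩ := Metric.mem_nhds_iff.1 hU
  refine ⟨z - ((ε / 2 : ℝ) : ℂ) * Complex.I, hb ?_, ?_⟩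
  · rw [Metric.mem_ball, dist_eq_norm, sub_sub_cancel_left, norm_neg, norm_mul, Complex.norm_I, mul_one,
      Complex.norm_real, Real.norm_eq_abs, abs_of_pos (half_pos hε)]
    exact half_lt_self hε
  · simp [hε]

lemma norm_open (z : ℂ) (U : Set ℂ) (hU : U ∈ 𝓝 z) : ∃ z' ∈ U, ‖z‖ < ‖z'‖ := by
  obtain ⟨ε, hε, hb⟩ := Metric.mem_nhds_iff.1 hU
  by_cases hz : z = 0
  · subst hz
    refine ⟨((ε / 2 : ℝ) : ℂ), hb ?_, ?_⟩
    · rw [Metric.mem_ball, dist_zero_right, Complex.norm_real, Real.norm_eq_abs, abs_of_pos (half_pos hε)]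
      exact half_lt_self hε
    · rw [norm_zero, Complex.norm_real, Real.norm_eq_abs, abs_of_pos (half_pos hε)]
      exact half_pos hε
  · have hn : 0 < ‖z‖ := norm_pos_iff.2 hz
    refine ⟨z + ((ε / (2 * ‖z‖) : ℝ) : ℂ) * z, hb ?_, ?_⟩
    · rw [Metric.mem_ball, dist_eq_norm, add_sub_cancel_left, norm_mul, Complex.norm_real, Real.norm_eq_abs,
        abs_of_pos (by positivity)]
      have : ε / (2 * ‖z‖) * ‖z‖ = ε / 2 := by field_simp
      rw [this]
      exact half_lt_self hε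
    · have h1 : z + ((ε / (2 * ‖z‖) : ℝ) : ℂ) * z = ((1 + ε / (2 * ‖z‖) : ℝ) : ℂ) * z := by
        push_cast; ring
      rw [h1, norm_mul, Complex.norm_real, Real.norm_eq_abs, abs_of_pos (by positivity)]
      have h2 : 0 < ε / (2 * ‖z‖) := by positivity
      nlinarith

/-- the two halves are exchanged by conjugation -/
lemma Sep.cj_dis {A B : Set V3} (h : Sep C A B) : ∀ p ∈ A, cj p ∈ B := by
  have hC := h.real
  by_contra hcon
  push Not at hcon
  obtain ⟨p, hpA, hpB⟩ := hcon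
  have hcjA : ∀ q, C.On q → ¬ Rl q → TP.cj q ∉ B → TP.cj q ∈ A := by
    intro q hq hr hqB
    rcases (h.nr (TP.cj q)).2 ⟨hq.cj hC, fun h' => hr (Rl_cj.1 h')⟩ with h1 | h1
    · exact h1
    · exact absurd h1 hqB
  have hp := (h.nr p).1 (Or.inl hpA)
  have hcp : TP.cj p ∈ A := hcjA p hp.1 hp.2 hpB
  set Z : Set V3 := A ∩ {x | TP.cj x ∈ A} with hZ
  set Z' : Set V3 := B ∪ {x | TP.cj x ∈ B} with hZ'
  have hZop : Op C Z := h.opA.inter (h.opA.cj hC)
  have hZop' : Op C Z' := h.opB.union (h.opB.cj hC)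
  have hZne : Z.Nonempty := ⟨p, hpA, hcp⟩
  have hZne' : Z'.Nonempty := by
    obtain ⟨q, hq⟩ := h.neB
    exact ⟨q, Or.inl hq⟩
  have hdis : ∀ q ∈ Z, q ∉ Z' := by
    rintro q ⟨h1, h2⟩ (h3 | h3)
    · exact h.dis q h1 h3
    · exact h.dis _ h2 h3
  have hrest : ∀ q, C.On q → q ∉ Z → q ∉ Z' → Rl q := by
    intro q hq h1 h2
    by_contra hr
    rcases (h.nr q).2 ⟨hq, hr⟩ with h3 | h3
    · by_cases h4 : TP.cj q ∈ B
      · exact h2 (Or.inr h4)
      · exact h1 ⟨h3, hcjA q hq hr h4⟩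
    · exact h2 (Or.inl h3)
  have hZcj : ∀ q, q ∈ Z → TP.cj q ∈ Z := by
    rintro q ⟨h1, h2⟩
    refine ⟨h2, ?_⟩
    change TP.cj (TP.cj q) ∈ A
    rwa [cj_cj]
  have hZcj' : ∀ q, q ∈ Z' → TP.cj q ∈ Z' := by
    rintro q (h1 | h1)
    · right
      change TP.cj (TP.cj q) ∈ B
      rwa [cj_cj]
    · left; exact h1
  obtain ⟨a, K₀, ha, hK₀, hFK₀, hz₀⟩ := exists_form_in hZop hZne
  obtain ⟨b, L₀, hb, hL₀, hFL₀, hw₀⟩ := exists_form_in hZop' hZne'
  set K : P3 := (K₀ * bar K₀) ^ b with hK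
  set L : P3 := (L₀ * bar L₀) ^ a with hL
  have hKh : K.IsHomogeneous ((a + a) * b) := (hK₀.mul (bar_hom hK₀)).pow b
  have hLh : L.IsHomogeneous ((a + a) * b) := by
    have := (hL₀.mul (bar_hom hL₀)).pow a
    rwa [show (b + b) * a = (a + a) * b by ring] at this
  have hKbar : bar K = K := by
    rw [hK, bar_pow, bar_mul, bar_bar, mul_comm (bar K₀)]
  have hLbar : bar L = L := by
    rw [hL, bar_pow, bar_mul, bar_bar, mul_comm (bar L₀)]
  have hKz : ∀ q, C.On q → eval q K = 0 → q ∈ Z := by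
    intro q hq h0
    rw [hK, map_pow, map_mul] at h0
    rcases mul_eq_zero.1 (pow_eq_zero_iff (by omega) |>.1 h0) with h1 | h1
    · exact hz₀ q hq h1
    · rw [eval_bar', star_eq_zero] at h1
      have := hZcj _ (hz₀ _ (hq.cj hC) h1)
      rwa [cj_cj] at this
  have hLz : ∀ q, C.On q → eval q L = 0 → q ∈ Z' := by
    intro q hq h0
    rw [hL, map_pow, map_mul] at h0
    rcases mul_eq_zero.1 (pow_eq_zero_iff (by omega) |>.1 h0) with h1 | h1
    · exact hw₀ q hq h1
    · rw [eval_bar', star_eq_zero] at h1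
      have := hZcj' _ (hw₀ _ (hq.cj hC) h1)
      rwa [cj_cj] at this
  have hFK : ¬ C.F ∣ K := by
    intro hd
    rcases C.prime.dvd_or_dvd (C.prime.dvd_of_dvd_pow hd) with h1 | h1
    · exact hFK₀ h1
    · exact hFK₀ ((dvd_bar hC).1 h1)
  obtain ⟨x, hx, hx0⟩ := exists_zero (C := C) (K := K) (Nat.mul_pos (by omega) (by omega)) hKh hFK
  have hnc := not_prop hFK hx hx0 (fun h0 => hdis x (hKz x hx hx0) (hLz x hx h0))
  have hLne : ∀ q, C.On q → q ∉ Z' → eval q L ≠ 0 := fun q hq hqZ h0 => hqZ (hLz q hq h0)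
  have m1 := max_principle hZop hZop' hdis hKh hLh hnc hLne (fun z => z.im) Complex.continuous_im im_open
    (M := 0) (fun q hq h1 h2 => (im_qt (hrest q hq h1 h2) hq.1 hKh hLh hKbar hLbar).le) p ⟨hpA, hcp⟩
  have m2 := max_principle hZop hZop' hdis hKh hLh hnc hLne (fun z => -z.im) Complex.continuous_im.neg im_open'
    (M := 0) (fun q hq h1 h2 => by
      rw [im_qt (hrest q hq h1 h2) hq.1 hKh hLh hKbar hLbar, neg_zero]) p ⟨hpA, hcp⟩
  linarith

/-- the main inequality -/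
theorem Sep.exists_form {A B : Set V3} (h : Sep C A B) : ∃ (e : ℕ) (K : P3), 1 ≤ e ∧ K.IsHomogeneous e ∧
    ¬ C.F ∣ K ∧ (∃ x ∈ A, C.On x ∧ eval x K = 0) ∧ (∀ x, C.On x → eval x K = 0 → x ∈ A) ∧
    (∀ x ∈ A, ‖eval x K‖ < ‖eval x (bar K)‖) ∧ (∀ x ∈ B, ‖eval x (bar K)‖ < ‖eval x K‖) := by
  have hC := h.real
  obtain ⟨e, K, he, hK, hFK, hz⟩ := exists_form_in h.opA h.neA
  obtain ⟨x, hx, hx0⟩ := exists_zero he hK hFK
  have hxA := hz x hx hx0
  have hKne : ∀ q, C.On q → q ∉ A → eval q K ≠ 0 := fun q hq hqA h0 => hqA (hz q hq h0)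
  have hFK' : ¬ C.F ∣ bar K := fun h' => hFK ((dvd_bar hC).1 h')
  have hcx : TP.cj x ∈ B := h.cj_dis x hxA
  have hnc : ¬ ∃ c : ℂ, C.F ∣ bar K - c • K := by
    refine not_prop hFK' (hx.cj hC) (by rw [eval_bar, hx0, star_zero]) ?_
    exact hKne _ (hx.cj hC) (fun h' => h.dis _ h' hcx)
  have m := max_principle h.opB h.opA (fun p hp hp' => h.dis p hp' hp) (bar_hom hK) hK hnc hKne (fun z => ‖z‖)
    continuous_norm norm_open (M := 1) (fun q hq h1 h2 => by
      have hr : Rl q := by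
        by_contra hr
        rcases (h.nr q).2 ⟨hq, hr⟩ with h3 | h3
        · exact h2 h3
        · exact h1 h3
      unfold qt
      rw [norm_div, norm_cj_eq hr hq.1 hK, div_self]
      exact norm_ne_zero_iff.2 (hKne q hq h2))
  have mB : ∀ x ∈ B, ‖eval x (bar K)‖ < ‖eval x K‖ := by
    intro x hxB
    have h1 := m x hxB
    unfold qt at h1
    have h2 : eval x K ≠ 0 := hKne x (h.opB.on x hxB) (fun h' => h.dis x h' hxB)
    rwa [norm_div, div_lt_one (norm_pos_iff.2 h2)] at h1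
  refine ⟨e, K, he, hK, hFK, ⟨x, hxA, hx, hx0⟩, hz, ?_, mB⟩
  intro y hy
  have h1 := mB _ (h.cj_dis y hy)
  rw [eval_bar, norm_star] at h1
  rwa [eval_bar', norm_star]

end Curve

end Pool.Agent.H877.TP
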