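import Pool.Agent.H877.TP.Top2

set_option autoImplicit false

namespace Pool.Agent.H877.TP
open MvPolynomial Filter Topology

/-- the complexification of a real form -/
noncomputable abbrev cxf (G : MvPolynomial (Fin 3) ℝ) : P3 := MvPolynomial.map (algebraMap ℝ ℂ) G

/-- applying a function to the coefficients -/
noncomputable def cf (f : ℂ → ℝ) (K : P3) : MvPolynomial (Fin 3) ℝ :=
  ∑ s ∈ K.support, monomial s (f (coeff s K))

lemma coeff_cf (f : ℂ → ℝ) (hf : f 0 = 0) (K : P3) (s : Fin 3 →₀ ℕ) : coeff s (cf f K) = f (coeff s K) := by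
  unfold cf
  rw [coeff_sum]
  simp only [coeff_monomial]
  rw [Finset.sum_ite_eq']
  split_ifs with h
  · rfl
  · rw [notMem_support_iff.1 h, hf]

lemma cf_hom (f : ℂ → ℝ) (hf : f 0 = 0) {K : P3} {e : ℕ} (hK : K.IsHomogeneous e) :
    (cf f K).IsHomogeneous e := by
  intro s hs
  rw [coeff_cf f hf] at hs
  apply hK
  intro h0
  rw [h0] at hs
  exact hs hf

lemma cf_re_im (K : P3) : cxf (cf Complex.re K) + MvPolynomial.C Complex.I * cxf (cf Complex.im K) = K := by
  ext s
  rw [coeff_add, coeff_C_mul]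
  unfold cxf
  rw [coeff_map, coeff_map, coeff_cf _ Complex.zero_re, coeff_cf _ Complex.zero_im]
  have := Complex.re_add_im (coeff s K)
  rw [mul_comm] at this
  exact this

lemma bar_cxf (G : MvPolynomial (Fin 3) ℝ) : bar (cxf G) = cxf G := by
  unfold bar cxf
  rw [MvPolynomial.map_map]
  have : (starRingEnd ℂ).comp (algebraMap ℝ ℂ) = algebraMap ℝ ℂ := by
    ext x; simp
  rw [this]

lemma bar_C (c : ℂ) : bar (MvPolynomial.C c) = MvPolynomial.C (star c) := by
  unfold bar; rw [map_C]; rfl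

lemma bar_add (G H : P3) : bar (G + H) = bar G + bar H := by
  unfold bar; rw [map_add]

/-- points with real coordinates -/
lemma Rl_rep_iff (P : PP) : Rl P.rep ↔ ∃ (v : Fin 3 → ℝ) (h : (fun i => (v i : ℂ)) ≠ 0),
    P = Projectivization.mk ℂ (fun i => (v i : ℂ)) h := by
  rw [Rl_iff P.rep_nonzero]
  constructor
  · rintro ⟨c, hc, h⟩
    have h1 : (fun i => (((c * P.rep i).re : ℝ) : ℂ)) = c • P.rep := by
      ext i
      simp only [Pi.smul_apply, smul_eq_mul]
      apply Complex.ext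
      · simp
      · rw [h i]; simp
    have h2 : (fun i => (((c * P.rep i).re : ℝ) : ℂ)) ≠ 0 := by
      rw [h1]; exact smul_ne_zero hc P.rep_nonzero
    refine ⟨fun i => (c * P.rep i).re, h2, ?_⟩
    conv_lhs => rw [← P.mk_rep]
    rw [Projectivization.mk_eq_mk_iff']
    refine ⟨c⁻¹, ?_⟩
    rw [h1, smul_smul, inv_mul_cancel₀ hc, one_smul]
  · rintro ⟨v, h, hP⟩
    rw [← P.mk_rep, Projectivization.mk_eq_mk_iff'] at hP
    obtain ⟨a, ha⟩ := hP
    have ha0 : a ≠ 0 := by
      rintro rfl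
      rw [zero_smul] at ha
      exact P.rep_nonzero ha.symm
    refine ⟨a⁻¹, inv_ne_zero ha0, fun i => ?_⟩
    rw [← ha]
    simp only [Pi.smul_apply, smul_eq_mul]
    rw [← mul_assoc, inv_mul_cancel₀ ha0, one_mul, Complex.ofReal_im]

lemma Rl_mk {x : V3} (hx : x ≠ 0) : Rl (Projectivization.mk ℂ x hx).rep ↔ Rl x := by
  obtain ⟨a, ha⟩ := Projectivization.exists_smul_eq_mk_rep ℂ x hx
  rw [← ha]
  exact Rl_smul a.ne_zero

/-- the curve of a real nonsingular form -/
noncomputable def mkCurve (F : MvPolynomial (Fin 3) ℝ) (m : ℕ) (hm : 1 ≤ m) (hF : F.IsHomogeneous m)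
    (hns : ∀ v : V3, v ≠ 0 → eval v (cxf F) = 0 → ∃ i, eval v (pderiv i (cxf F)) ≠ 0) : Curve where
  F := cxf F
  deg := m
  hom := hF.map _
  pos := hm
  ns := hns

lemma mkCurve_real (F : MvPolynomial (Fin 3) ℝ) (m : ℕ) (hm : 1 ≤ m) (hF : F.IsHomogeneous m)
    (hns : ∀ v : V3, v ≠ 0 → eval v (cxf F) = 0 → ∃ i, eval v (pderiv i (cxf F)) ≠ 0) :
    (mkCurve F m hm hF hns).Real := bar_cxf F

/-- the quotient topology on the complex projective plane -/
@[instance_reducible] noncomputable def topPP : TopologicalSpace PP :=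
  TopologicalSpace.coinduced (fun v : {v : V3 // v ≠ 0} => Projectivization.mk ℂ v.1 v.2) inferInstance

lemma exists_sep {C : Curve} (hC : C.Real)
    (h : ¬ @IsPreconnected PP topPP {P | eval P.rep C.F = 0 ∧ ¬ Rl P.rep}) :
    ∃ A B, Curve.Sep C A B := by
  let : TopologicalSpace PP := topPP
  have h' : ¬ IsPreconnected ({P | eval P.rep C.F = 0 ∧ ¬ Rl P.rep} : Set PP) := h
  unfold IsPreconnected at h'
  push Not at h'
  obtain ⟨u, v, hu, hv, hsub, hneu, hnev, hdis⟩ := h'
  have hmem : ∀ (x : V3) (hx : x ≠ 0), Projectivization.mk ℂ x hx ∈ {P : PP | eval P.rep C.F = 0 ∧ ¬ Rl P.rep} ↔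
      C.On x ∧ ¬ Rl x := by
    intro x hx
    constructor
    · rintro ⟨h1, h2⟩
      refine ⟨⟨hx, (Curve.pt_mk hx).1 ⟨Projectivization.rep_nonzero _, h1⟩⟩, fun h3 => h2 ((Rl_mk hx).2 h3)⟩
    · rintro ⟨h1, h2⟩
      exact ⟨((Curve.pt_mk hx).2 h1.2).2, fun h3 => h2 ((Rl_mk hx).1 h3)⟩
  have hopen : ∀ w : Set PP, IsOpen w → Curve.Op C {x | (C.On x ∧ ¬ Rl x) ∧
      ∃ hx : x ≠ 0, Projectivization.mk ℂ x hx ∈ w} := by
    intro w hw
    refine ⟨fun p hp => hp.1.1, ?_, ?_⟩
    · rintro p ⟨⟨h1, h2⟩, hx, h3⟩ c hc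
      refine ⟨⟨h1.smul hc, fun h4 => h2 ((Rl_smul hc).1 h4)⟩, smul_ne_zero hc hx, ?_⟩
      have : Projectivization.mk ℂ (c • p) (smul_ne_zero hc hx) = Projectivization.mk ℂ p hx := by
        rw [Projectivization.mk_eq_mk_iff']
        exact ⟨c, rfl⟩
      rw [this]; exact h3
    · rintro p ⟨⟨h1, h2⟩, hx, h3⟩
      have o1 : IsOpen ((fun v : {v : V3 // v ≠ 0} => Projectivization.mk ℂ v.1 v.2) ⁻¹' w) :=
        isOpen_coinduced.1 hw
      obtain ⟨O, hO, hOw⟩ := isOpen_induced_iff.1 o1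
      have hpO : p ∈ O := by
        have : (⟨p, hx⟩ : {v : V3 // v ≠ 0}) ∈ Subtype.val ⁻¹' O := by
          rw [hOw]; exact h3
        exact this
      filter_upwards [hO.mem_nhds hpO, isClosed_Rl.isOpen_compl.mem_nhds h2, isOpen_ne.mem_nhds hx] with
        q hq1 hq2 hq3 hq0
      refine ⟨⟨⟨hq3, hq0⟩, hq2⟩, hq3, ?_⟩
      have : (⟨q, hq3⟩ : {v : V3 // v ≠ 0}) ∈ Subtype.val ⁻¹' O := hq1
      rw [hOw] at this
      exact this
  refine ⟨{x | (C.On x ∧ ¬ Rl x) ∧ ∃ hx : x ≠ 0, Projectivization.mk ℂ x hx ∈ u},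
    {x | (C.On x ∧ ¬ Rl x) ∧ ∃ hx : x ≠ 0, Projectivization.mk ℂ x hx ∈ v}, hC, hopen u hu, hopen v hv,
    ?_, ?_, ?_, ?_⟩
  · obtain ⟨P, hP, hPu⟩ := hneu
    refine ⟨P.rep, ?_, P.rep_nonzero, by rw [P.mk_rep]; exact hPu⟩
    rw [← hmem _ P.rep_nonzero, P.mk_rep]; exact hP
  · obtain ⟨P, hP, hPv⟩ := hnev
    refine ⟨P.rep, ?_, P.rep_nonzero, by rw [P.mk_rep]; exact hPv⟩
    rw [← hmem _ P.rep_nonzero, P.mk_rep]; exact hP
  · rintro p ⟨h1, hx, h2⟩ ⟨-, hx', h3⟩
    have : Projectivization.mk ℂ p hx ∈ ({P | eval P.rep C.F = 0 ∧ ¬ Rl P.rep} : Set PP) ∩ (u ∩ v) :=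
      ⟨(hmem p hx).2 h1, h2, h3⟩
    rw [hdis] at this
    exact this
  · intro p
    constructor
    · rintro (h1 | h1)
      · exact h1.1
      · exact h1.1
    · rintro h1
      rcases hsub ((hmem p h1.1.1).2 h1) with h2 | h2
      · exact Or.inl ⟨h1, h1.1.1, h2⟩
      · exact Or.inr ⟨h1, h1.1.1, h2⟩

/-- the total pencil, on vectors -/
theorem exists_pencil {C : Curve} {A B : Set V3} (h : Curve.Sep C A B) :
    ∃ (d : ℕ) (G H : MvPolynomial (Fin 3) ℝ), 1 ≤ d ∧ G.IsHomogeneous d ∧ H.IsHomogeneous d ∧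
      (∀ l m : ℂ, (l ≠ 0 ∨ m ≠ 0) → ¬ C.F ∣ MvPolynomial.C l * cxf G + MvPolynomial.C m * cxf H) ∧
      (∀ l m : ℝ, (l ≠ 0 ∨ m ≠ 0) → ∀ x, C.On x →
        eval x (cxf (MvPolynomial.C l * G + MvPolynomial.C m * H)) = 0 → Rl x) ∧
      (∀ x, C.On x → ¬ (eval x (cxf G) = 0 ∧ eval x (cxf H) = 0)) := by
  have hC := h.real
  obtain ⟨e, K, he, hK, hFK, ⟨x₀, hx₀A, hx₀, hx₀0⟩, hzA, hA, hB⟩ := h.exists_form
  set G := cf Complex.re K with hG
  set H := cf Complex.im K with hH
  have hKGH : K = cxf G + MvPolynomial.C Complex.I * cxf H := (cf_re_im K).symm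
  have hbar : bar K = cxf G - MvPolynomial.C Complex.I * cxf H := by
    conv_lhs => rw [hKGH]
    rw [bar_add, bar_mul, bar_C, bar_cxf, bar_cxf]
    simp only [Complex.star_def, Complex.conj_I, map_neg]
    ring
  have hI : (MvPolynomial.C Complex.I : P3) * MvPolynomial.C Complex.I = -1 := by
    rw [← map_mul, Complex.I_mul_I, map_neg, map_one]
  have h2 : (MvPolynomial.C (2 : ℂ) : P3) = 2 := by
    rw [show (2 : ℂ) = ((2 : ℕ) : ℂ) by norm_num, map_natCast]; norm_num
  -- members in terms of `K` and its conjugate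
  have hmem : ∀ l m : ℂ, MvPolynomial.C (2 : ℂ) * (MvPolynomial.C l * cxf G + MvPolynomial.C m * cxf H) =
      MvPolynomial.C (l - m * Complex.I) * K + MvPolynomial.C (l + m * Complex.I) * bar K := by
    intro l m
    rw [hbar, hKGH, h2]
    simp only [map_sub, map_add, map_mul]
    linear_combination 2 * MvPolynomial.C m * cxf H * hI
  refine ⟨e, G, H, he, cf_hom _ Complex.zero_re hK, cf_hom _ Complex.zero_im hK, ?_, ?_, ?_⟩
  · intro l m hlm hd
    have hd' : C.F ∣ MvPolynomial.C (l - m * Complex.I) * K + MvPolynomial.C (l + m * Complex.I) * bar K := by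
      rw [← hmem]; exact Dvd.dvd.mul_left hd _
    have hx1 : C.On (cj x₀) := hx₀.cj hC
    have e1 : ∀ x, C.On x → (l - m * Complex.I) * eval x K + (l + m * Complex.I) * eval x (bar K) = 0 := by
      intro x hx
      obtain ⟨Q, hQ⟩ := hd'
      have := congrArg (eval x) hQ
      rw [map_mul, hx.2, zero_mul, map_add, map_mul, map_mul, eval_C, eval_C] at this
      exact this
    have e2 := e1 x₀ hx₀
    have e3 := e1 _ hx1
    have hn1 : eval x₀ (bar K) ≠ 0 := by
      have := hA x₀ hx₀A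
      rw [hx₀0, norm_zero] at this
      exact norm_pos_iff.1 this
    have hn2 : eval (cj x₀) K ≠ 0 := by
      rw [eval_bar'] at hn1
      exact star_ne_zero.1 hn1
    rw [hx₀0, mul_zero, zero_add] at e2
    rw [eval_bar, hx₀0, star_zero, mul_zero, add_zero] at e3
    have f1 := (mul_eq_zero.1 e2).resolve_right hn1
    have f2 := (mul_eq_zero.1 e3).resolve_right hn2
    have hl : l = 0 := by linear_combination (f1 + f2) / 2
    have hm : m = 0 := by
      rw [hl, zero_add] at f1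
      exact (mul_eq_zero.1 f1).resolve_right Complex.I_ne_zero
    rcases hlm with h | h
    · exact h hl
    · exact h hm
  · intro l m hlm x hx h0
    by_contra hr
    have e1 : (((l : ℂ) - m * Complex.I) * eval x K + ((l : ℂ) + m * Complex.I) * eval x (bar K)) = 0 := by
      have := congrArg (eval x) (hmem l m)
      rw [map_mul, map_add, map_mul, map_mul, map_add, map_mul, map_mul] at this
      simp only [eval_C] at this
      rw [← this]
      have e2 : eval x (cxf (MvPolynomial.C l * G + MvPolynomial.C m * H)) =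
          (l : ℂ) * eval x (cxf G) + (m : ℂ) * eval x (cxf H) := by
        unfold cxf
        simp only [map_add, map_mul, map_C, eval_C]
        rfl
      rw [e2] at h0
      rw [h0, mul_zero]
    have hnorm : ‖(l : ℂ) - m * Complex.I‖ = ‖(l : ℂ) + m * Complex.I‖ := by
      have : (l : ℂ) - m * Complex.I = star ((l : ℂ) + m * Complex.I) := by
        simp [sub_eq_add_neg]
      rw [this, norm_star]
    have hne : (l : ℂ) + m * Complex.I ≠ 0 := by
      intro h0
      have h1 := congrArg Complex.re h0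
      have h2 := congrArg Complex.im h0
      simp at h1 h2
      rcases hlm with h | h
      · exact h h1
      · exact h h2
    have hpos : 0 < ‖(l : ℂ) + m * Complex.I‖ := norm_pos_iff.2 hne
    have e3 : ‖eval x K‖ = ‖eval x (bar K)‖ := by
      have := eq_neg_of_add_eq_zero_left e1
      have := congrArg norm this
      rw [norm_neg, norm_mul, norm_mul, hnorm] at this
      exact mul_left_cancel₀ hpos.ne' this
    rcases (h.nr x).2 ⟨hx, hr⟩ with h1 | h1
    · exact absurd e3 (hA x h1).ne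
    · exact absurd e3 (hB x h1).ne'
  · rintro x hx ⟨h1, h2⟩
    have e1 : eval x K = 0 := by
      rw [hKGH, map_add, map_mul, h1, h2, mul_zero, add_zero]
    have e2 : eval x (bar K) = 0 := by
      rw [hbar, map_sub, map_mul, h1, h2, mul_zero, sub_zero]
    have h3 := hA x (hzA x hx e1)
    rw [e1, e2] at h3
    exact lt_irrefl _ h3

end Pool.Agent.H877.TP
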